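import Mathlib

open Quaternion MulOpposite Module

noncomputable section

namespace Pool.Agent.Lib_c77211

set_option linter.unusedSectionVars false

/-- The quaternions, acting on the right. -/
abbrev K := (ℍ[ℝ])ᵐᵒᵖ

/-- Hermitian forms on a right quaternionic vector space. -/
structure HForm (V : Type*) [AddCommGroup V] [Module K V] where
  f : V → V → ℍ[ℝ]
  add_right : ∀ x y z, f x (y + z) = f x y + f x z
  smul_right : ∀ x (a : ℍ[ℝ]) y, f x (op a • y) = f x y * a
  herm : ∀ x y, star (f x y) = f y x

namespace HForm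

variable {V : Type*} [AddCommGroup V] [Module K V]

theorem add_left (F : HForm V) (x y z : V) : F.f (x + y) z = F.f x z + F.f y z := by
  rw [← F.herm, F.add_right, star_add, F.herm, F.herm]

theorem smul_left (F : HForm V) (a : ℍ[ℝ]) (x y : V) : F.f (op a • x) y = star a * F.f x y := by
  rw [← F.herm, F.smul_right, star_mul, F.herm]

@[simp] theorem zero_right (F : HForm V) (x : V) : F.f x 0 = 0 := by
  have := F.smul_right x 0 0
  simpa using this

@[simp] theorem zero_left (F : HForm V) (x : V) : F.f 0 x = 0 := by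
  rw [← F.herm, zero_right, star_zero]

theorem neg_right (F : HForm V) (x y : V) : F.f x (-y) = - F.f x y := by
  have := F.add_right x y (-y)
  rw [add_neg_cancel, zero_right] at this
  exact eq_neg_of_add_eq_zero_right this.symm

theorem neg_left (F : HForm V) (x y : V) : F.f (-x) y = - F.f x y := by
  rw [← F.herm, neg_right, star_neg, F.herm]

theorem sub_right (F : HForm V) (x y z : V) : F.f x (y - z) = F.f x y - F.f x z := by
  rw [sub_eq_add_neg, add_right, neg_right, sub_eq_add_neg]

theorem sub_left (F : HForm V) (x y z : V) : F.f (x - y) z = F.f x z - F.f y z := by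
  rw [sub_eq_add_neg, add_left, neg_left, sub_eq_add_neg]

theorem symm_zero (F : HForm V) {x y : V} (h : F.f x y = 0) : F.f y x = 0 := by
  rw [← F.herm, h, star_zero]

theorem re_symm (F : HForm V) (x y : V) : (F.f y x).re = (F.f x y).re := by
  rw [← F.herm]; simp

/-- `y ↦ F x y` as a linear map. -/
def right (F : HForm V) (x : V) : V →ₗ[K] ℍ[ℝ] where
  toFun := F.f x
  map_add' := F.add_right x
  map_smul' := by
    intro a y
    have := F.smul_right x a.unop y
    simpa using this

@[simp] theorem right_apply (F : HForm V) (x y : V) : F.right x y = F.f x y := rfl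

theorem sum_right {ι : Type*} (F : HForm V) (x : V) (s : Finset ι) (g : ι → V) :
    F.f x (∑ i ∈ s, g i) = ∑ i ∈ s, F.f x (g i) := by
  exact map_sum (F.right x) g s

theorem sum_left {ι : Type*} (F : HForm V) (x : V) (s : Finset ι) (g : ι → V) :
    F.f (∑ i ∈ s, g i) x = ∑ i ∈ s, F.f (g i) x := by
  rw [← F.herm, sum_right, star_sum]
  exact Finset.sum_congr rfl fun i _ => F.herm _ _

/-- The quadratic form. -/
def q (F : HForm V) (x : V) : ℝ := (F.f x x).re

theorem self_eq (F : HForm V) (x : V) : F.f x x = (F.q x : ℍ[ℝ]) := by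
  have h := F.herm x x
  unfold q
  have h1 := congrArg QuaternionAlgebra.imI h
  have h2 := congrArg QuaternionAlgebra.imJ h
  have h3 := congrArg QuaternionAlgebra.imK h
  simp at h1 h2 h3
  ext
  · simp
  · simp; linarith
  · simp; linarith
  · simp; linarith

theorem self_eq_zero_iff (F : HForm V) (x : V) : F.f x x = 0 ↔ F.q x = 0 := by
  constructor
  · intro h; unfold q; rw [h]; simp
  · intro h; rw [self_eq, h]; simp

@[simp] theorem q_zero (F : HForm V) : F.q 0 = 0 := by simp [q]

theorem q_smul (F : HForm V) (a : ℍ[ℝ]) (x : V) : F.q (op a • x) = normSq a * F.q x := by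
  have : F.f (op a • x) (op a • x) = ((normSq a * F.q x : ℝ) : ℍ[ℝ]) := by
    rw [F.smul_right, F.smul_left, F.self_eq, mul_assoc]
    rw [(Quaternion.coe_commutes (F.q x) a)]
    rw [← mul_assoc, Quaternion.star_mul_self, ← Quaternion.coe_mul]
  unfold q
  rw [this]
  simp [q]

theorem q_add (F : HForm V) (x y : V) : F.q (x + y) = F.q x + F.q y + 2 * (F.f x y).re := by
  unfold q
  rw [F.add_right, F.add_left, F.add_left]
  simp only [Quaternion.re_add, F.re_symm x y]
  ring

theorem q_neg (F : HForm V) (x : V) : F.q (-x) = F.q x := by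
  unfold q; rw [neg_left, neg_right, neg_neg]

instance : Zero (HForm V) := ⟨⟨fun _ _ => 0, by simp, by simp, by simp⟩⟩
instance : Add (HForm V) := ⟨fun F G => ⟨fun x y => F.f x y + G.f x y,
  by intro x y z; rw [F.add_right, G.add_right]; abel,
  by intro x a y; rw [F.smul_right, G.smul_right, add_mul],
  by intro x y; rw [star_add, F.herm, G.herm]⟩⟩
instance : Neg (HForm V) := ⟨fun F => ⟨fun x y => - F.f x y,
  by intro x y z; rw [F.add_right]; abel,
  by intro x a y; rw [F.smul_right, neg_mul],
  by intro x y; rw [star_neg, F.herm]⟩⟩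
instance : SMul ℝ (HForm V) := ⟨fun r F => ⟨fun x y => r • F.f x y,
  by intro x y z; rw [F.add_right, smul_add],
  by intro x a y; rw [F.smul_right, smul_mul_assoc],
  by intro x y; rw [Quaternion.star_smul, F.herm]⟩⟩

@[simp] theorem zero_f (x y : V) : (0 : HForm V).f x y = 0 := rfl
@[simp] theorem add_f (F G : HForm V) (x y : V) : (F + G).f x y = F.f x y + G.f x y := rfl
@[simp] theorem neg_f (F : HForm V) (x y : V) : (-F).f x y = - F.f x y := rfl
@[simp] theorem smul_f (r : ℝ) (F : HForm V) (x y : V) : (r • F).f x y = r • F.f x y := rfl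
@[simp] theorem zero_q (x : V) : (0 : HForm V).q x = 0 := rfl
@[simp] theorem add_q (F G : HForm V) (x : V) : (F + G).q x = F.q x + G.q x := rfl
@[simp] theorem neg_q (F : HForm V) (x : V) : (-F).q x = - F.q x := rfl
@[simp] theorem smul_q (r : ℝ) (F : HForm V) (x : V) : (r • F).q x = r * F.q x := rfl

@[ext] theorem ext' {F G : HForm V} (h : ∀ x y, F.f x y = G.f x y) : F = G := by
  cases F; cases G
  congr
  funext x y
  exact h x y

/-- Pull-back of a form along a linear map. -/
def pull {W : Type*} [AddCommGroup W] [Module K W] (F : HForm V) (T : W →ₗ[K] V) : HForm W where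
  f x y := F.f (T x) (T y)
  add_right x y z := by rw [map_add, F.add_right]
  smul_right x a y := by rw [map_smul, F.smul_right]
  herm x y := F.herm _ _

@[simp] theorem pull_f {W : Type*} [AddCommGroup W] [Module K W] (F : HForm V) (T : W →ₗ[K] V)
    (x y : W) : (F.pull T).f x y = F.f (T x) (T y) := rfl
@[simp] theorem pull_q {W : Type*} [AddCommGroup W] [Module K W] (F : HForm V) (T : W →ₗ[K] V)
    (x : W) : (F.pull T).q x = F.q (T x) := rfl

/-- `Y` is selfadjoint with respect to `F`. -/
def SA (F : HForm V) (Y : V →ₗ[K] V) : Prop := ∀ x y, F.f (Y x) y = F.f x (Y y)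

/-- The form `(x, y) ↦ F x (Y y)`. -/
def comp (F : HForm V) (Y : V →ₗ[K] V) (h : F.SA Y) : HForm V where
  f x y := F.f x (Y y)
  add_right x y z := by rw [map_add, F.add_right]
  smul_right x a y := by rw [map_smul, F.smul_right]
  herm x y := by rw [F.herm, h]

@[simp] theorem comp_f (F : HForm V) (Y : V →ₗ[K] V) (h : F.SA Y) (x y : V) :
    (F.comp Y h).f x y = F.f x (Y y) := rfl

theorem comp_q (F : HForm V) (Y : V →ₗ[K] V) (h : F.SA Y) (x : V) :
    (F.comp Y h).q x = (F.f x (Y x)).re := rfl

theorem eq_zero_of_re (c : ℍ[ℝ]) (h : ∀ a : ℍ[ℝ], (c * a).re = 0) : c = 0 := by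
  have := h (star c)
  rw [Quaternion.self_mul_star] at this
  simp only [Quaternion.re_coe] at this
  exact Quaternion.normSq_eq_zero.mp this

/-- Polarization on a subspace. -/
theorem polar (F : HForm V) (M : Submodule K V) (h : ∀ x ∈ M, F.q x = 0) :
    ∀ x ∈ M, ∀ y ∈ M, F.f x y = 0 := by
  intro x hx y hy
  apply eq_zero_of_re
  intro a
  have h1 := h (x + op a • y) (M.add_mem hx (M.smul_mem _ hy))
  rw [F.q_add, h x hx, h _ (M.smul_mem _ hy), F.smul_right] at h1
  linarith

theorem psd_zero (F : HForm V) (W : Submodule K V) (h : ∀ x ∈ W, 0 ≤ F.q x) {x : V} (hx : x ∈ W)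
    (hx0 : F.q x = 0) : ∀ y ∈ W, F.f x y = 0 := by
  intro y hy
  apply eq_zero_of_re
  intro a
  by_contra hne
  set c := (F.f x y * a).re with hc
  set Q := F.q (op a • y) with hQ
  -- q (op a • y + t x) = Q + 2 t c
  have key : ∀ t : ℝ, 0 ≤ Q + 2 * (t * c) := by
    intro t
    have h1 := h (op a • y + op (t : ℍ[ℝ]) • x) (W.add_mem (W.smul_mem _ hy) (W.smul_mem _ hx))
    rw [F.q_add, F.q_smul (t : ℍ[ℝ]), hx0, F.smul_right] at h1
    have h2 : (F.f (op a • y) x * (t : ℍ[ℝ])).re = t * c := by
      rw [← Quaternion.coe_commutes, Quaternion.coe_mul_eq_smul, Quaternion.re_smul, F.re_symm x,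
        F.smul_right]
      simp [hc]
    rw [h2] at h1
    linarith
  have h1 := key (-(Q + 1) / (2 * c))
  have : 2 * (-(Q + 1) / (2 * c) * c) = -(Q + 1) := by field_simp
  rw [this] at h1
  linarith

/-- Orthogonal complement. -/
def perp (F : HForm V) (S : Submodule K V) : Submodule K V where
  carrier := {y | ∀ x ∈ S, F.f x y = 0}
  add_mem' := by
    intro a b ha hb x hx
    rw [F.add_right, ha x hx, hb x hx, add_zero]
  zero_mem' := by intro x _; simp
  smul_mem' := by
    intro c y hy x hx
    have := F.smul_right x c.unop y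
    rw [op_unop] at this
    rw [this, hy x hx, zero_mul]

theorem mem_perp {F : HForm V} {S : Submodule K V} {y : V} :
    y ∈ F.perp S ↔ ∀ x ∈ S, F.f x y = 0 := Iff.rfl

theorem perp_anti (F : HForm V) {S T : Submodule K V} (h : S ≤ T) : F.perp T ≤ F.perp S :=
  fun _ hy x hx => hy x (h hx)

/-- Nonsingular (nondegenerate). -/
def NS (F : HForm V) : Prop := ∀ x, (∀ y, F.f x y = 0) → x = 0

/-- the span of one vector -/
theorem mem_span_one {x y : V} : y ∈ Submodule.span K {x} ↔ ∃ a : ℍ[ℝ], y = op a • x := by
  rw [Submodule.mem_span_singleton]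
  constructor
  · rintro ⟨a, rfl⟩; exact ⟨a.unop, by simp⟩
  · rintro ⟨a, rfl⟩; exact ⟨op a, rfl⟩

theorem perp_span (F : HForm V) (x y : V) : y ∈ F.perp (Submodule.span K {x}) ↔ F.f x y = 0 := by
  constructor
  · intro h; exact h x (Submodule.mem_span_singleton_self x)
  · intro h z hz
    obtain ⟨a, rfl⟩ := mem_span_one.mp hz
    rw [F.smul_left, h, mul_zero]

end HForm

section Dim

variable {V : Type*} [AddCommGroup V] [Module K V]

/-- `ℍ` as a right vector space is one dimensional. -/
def hEquiv : ℍ[ℝ] ≃ₗ[K] K where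
  toFun := op
  invFun := unop
  left_inv := fun _ => rfl
  right_inv := fun _ => rfl
  map_add' := fun _ _ => rfl
  map_smul' := by
    intro a x
    simp [MulOpposite.smul_eq_mul_unop]

instance : Module.Finite K ℍ[ℝ] := Module.Finite.equiv hEquiv.symm

theorem finrank_H : finrank K ℍ[ℝ] = 1 := by
  rw [LinearEquiv.finrank_eq hEquiv]
  exact Module.finrank_self K

theorem finrank_piH (s : ℕ) : finrank K (Fin s → ℍ[ℝ]) = s := by
  rw [Module.finrank_pi_fintype]
  simp [finrank_H]

variable [FiniteDimensional K V]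

theorem perp_dim (F : HForm V) (S W : Submodule K V) :
    finrank K W ≤ finrank K (W ⊓ F.perp S : Submodule K V) + finrank K S := by
  classical
  let b := Module.finBasis K S
  let T : W →ₗ[K] (Fin (finrank K S) → ℍ[ℝ]) :=
    LinearMap.pi (fun i => (F.right (b i : V)).comp W.subtype)
  have h1 := LinearMap.finrank_range_add_finrank_ker T
  have h2 : finrank K (LinearMap.range T) ≤ finrank K S := by
    calc finrank K (LinearMap.range T) ≤ finrank K (Fin (finrank K S) → ℍ[ℝ]) :=
          Submodule.finrank_le _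
      _ = finrank K S := finrank_piH _
  have h3 : (LinearMap.ker T).map W.subtype = W ⊓ F.perp S := by
    ext y
    constructor
    · rintro ⟨w, hw, rfl⟩
      refine ⟨w.2, ?_⟩
      intro x hx
      have hw' : ∀ i, F.f (b i : V) (w : V) = 0 := by
        intro i
        have := congrFun (LinearMap.mem_ker.mp hw) i
        simpa [T] using this
      have hx' : x = ∑ i, ((b.repr ⟨x, hx⟩ i) • (b i : V)) := by
        have := b.sum_repr ⟨x, hx⟩
        have h := congrArg (Submodule.subtype S) this
        rw [map_sum] at h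
        simpa using h.symm
      rw [hx', F.sum_left]
      apply Finset.sum_eq_zero
      intro i _
      have := F.smul_left (unop (b.repr ⟨x, hx⟩ i)) (b i : V) (w : V)
      rw [op_unop] at this
      simp only [Submodule.subtype_apply]
      rw [this, hw' i, mul_zero]
    · rintro ⟨hyW, hy⟩
      refine ⟨⟨y, hyW⟩, ?_, rfl⟩
      rw [SetLike.mem_coe, LinearMap.mem_ker]
      funext i
      simpa [T] using hy (b i : V) (b i).2
  have h4 : finrank K (LinearMap.ker T) = finrank K (W ⊓ F.perp S : Submodule K V) := by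
    rw [← h3]
    exact (Submodule.finrank_map_subtype_eq W _).symm
  omega

theorem perp_dim_top (F : HForm V) (S : Submodule K V) :
    finrank K V ≤ finrank K (F.perp S) + finrank K S := by
  have := perp_dim F S ⊤
  rw [top_inf_eq, finrank_top] at this
  exact this

theorem exists_ne_zero_of_finrank_pos {W : Submodule K V} (h : 0 < finrank K W) :
    ∃ x ∈ W, x ≠ 0 := by
  by_contra hcon
  push Not at hcon
  have : W = ⊥ := (Submodule.eq_bot_iff W).mpr hcon
  rw [this, finrank_bot] at h
  exact lt_irrefl _ h

theorem perp_dim_ns (F : HForm V) (hF : F.NS) (S : Submodule K V) :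
    finrank K (F.perp S) + finrank K S = finrank K V := by
  apply le_antisymm _ (perp_dim_top F S)
  by_contra hcon
  push Not at hcon
  obtain ⟨T', hT'⟩ := Submodule.exists_isCompl (F.perp S)
  have h1 := Submodule.finrank_add_eq_of_isCompl hT'
  have h2 := perp_dim F T' S
  have h3 : 0 < finrank K (S ⊓ F.perp T' : Submodule K V) := by omega
  obtain ⟨s, ⟨hsS, hsT⟩, hs0⟩ := exists_ne_zero_of_finrank_pos h3
  apply hs0
  apply hF
  intro y
  have hy : y ∈ F.perp S ⊔ T' := by rw [hT'.sup_eq_top]; trivial
  obtain ⟨a, ha, b, hb, rfl⟩ := Submodule.mem_sup.mp hy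
  rw [F.add_right, ha s hsS, zero_add]
  exact F.symm_zero (hsT b hb)

theorem perp_perp (F : HForm V) (hF : F.NS) (S : Submodule K V) : F.perp (F.perp S) = S := by
  symm
  apply Submodule.eq_of_le_of_finrank_eq
  · intro x hx y hy
    exact F.symm_zero (hy x hx)
  · have h1 := perp_dim_ns F hF S
    have h2 := perp_dim_ns F hF (F.perp S)
    omega

theorem finrank_inf_eq_zero_of_disj {A B : Submodule K V} (h : ∀ x ∈ A, x ∈ B → x = 0) :
    finrank K A + finrank K B ≤ finrank K V := by
  have h1 := Submodule.finrank_sup_add_finrank_inf_eq A B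
  have h2 : A ⊓ B = ⊥ := by
    rw [Submodule.eq_bot_iff]
    rintro x ⟨hxA, hxB⟩
    exact h x hxA hxB
  rw [h2, finrank_bot] at h1
  have h3 := Submodule.finrank_le (A ⊔ B)
  omega

theorem finrank_sup_disj {A B : Submodule K V} (h : ∀ x ∈ A, x ∈ B → x = 0) :
    finrank K (A ⊔ B : Submodule K V) = finrank K A + finrank K B := by
  have h1 := Submodule.finrank_sup_add_finrank_inf_eq A B
  have h2 : A ⊓ B = ⊥ := by
    rw [Submodule.eq_bot_iff]
    rintro x ⟨hxA, hxB⟩
    exact h x hxA hxB
  rw [h2, finrank_bot] at h1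
  omega

theorem finrank_span_one {x : V} (hx : x ≠ 0) : finrank K (Submodule.span K {x}) = 1 :=
  finrank_span_singleton hx

end Dim

/-! ### Negative index -/

section Neg

variable {V : Type*} [AddCommGroup V] [Module K V]

def NegOn (F : HForm V) (N : Submodule K V) : Prop := ∀ x ∈ N, x ≠ 0 → F.q x < 0
def PosOn (F : HForm V) (N : Submodule K V) : Prop := ∀ x ∈ N, x ≠ 0 → 0 < F.q x
def NonnegOn (F : HForm V) (N : Submodule K V) : Prop := ∀ x ∈ N, 0 ≤ F.q x
def NonposOn (F : HForm V) (N : Submodule K V) : Prop := ∀ x ∈ N, F.q x ≤ 0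

/-- the negative index: the largest dimension of a negative definite subspace -/
noncomputable def negIndex (F : HForm V) : ℕ :=
  sSup {k | ∃ N : Submodule K V, finrank K N = k ∧ NegOn F N}

variable [FiniteDimensional K V]

theorem negSet_bdd (F : HForm V) :
    BddAbove {k | ∃ N : Submodule K V, finrank K N = k ∧ NegOn F N} := by
  refine ⟨finrank K V, ?_⟩
  rintro k ⟨N, rfl, _⟩
  exact Submodule.finrank_le N

theorem le_negIndex (F : HForm V) (N : Submodule K V) (h : NegOn F N) :
    finrank K N ≤ negIndex F := le_csSup (negSet_bdd F) ⟨N, rfl, h⟩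

theorem exists_negIndex (F : HForm V) :
    ∃ N : Submodule K V, finrank K N = negIndex F ∧ NegOn F N := by
  have := Nat.sSup_mem (s := {k | ∃ N : Submodule K V, finrank K N = k ∧ NegOn F N})
    ⟨0, ⊥, by simp, by intro x hx h; exact absurd ((Submodule.mem_bot K).mp hx) h⟩ (negSet_bdd F)
  exact this

theorem negIndex_le_of_nonneg (F : HForm V) (P : Submodule K V) (h : NonnegOn F P) :
    negIndex F + finrank K P ≤ finrank K V := by
  obtain ⟨N, hN, hneg⟩ := exists_negIndex F
  rw [← hN]
  apply finrank_inf_eq_zero_of_disj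
  intro x hxN hxP
  by_contra hx
  have h1 := hneg x hxN hx
  have h2 := h x hxP
  linarith

theorem negIndex_eq (F : HForm V) (N P : Submodule K V) (hN : NegOn F N) (hP : NonnegOn F P)
    (hdim : finrank K V ≤ finrank K N + finrank K P) : negIndex F = finrank K N := by
  have h1 := le_negIndex F N hN
  have h2 := negIndex_le_of_nonneg F P hP
  omega

/-- A maximal negative definite subspace and its orthogonal complement. -/
theorem exists_decomp (F : HForm V) : ∃ N : Submodule K V, finrank K N = negIndex F ∧ NegOn F N ∧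
    NonnegOn F (F.perp N) ∧ IsCompl N (F.perp N) := by
  obtain ⟨N, hN, hneg⟩ := exists_negIndex F
  have hdisj : ∀ x ∈ N, x ∈ F.perp N → x = 0 := by
    intro x hxN hxP
    by_contra hx
    have h1 := hneg x hxN hx
    have h2 := hxP x hxN
    rw [F.self_eq_zero_iff] at h2
    linarith
  refine ⟨N, hN, hneg, ?_, ?_⟩
  · intro x hx
    by_contra hcon
    push Not at hcon
    have hx0 : x ≠ 0 := by rintro rfl; simp at hcon
    have hneg' : NegOn F (N ⊔ Submodule.span K {x}) := by
      intro y hy hy0
      obtain ⟨n, hn, z, hz, rfl⟩ := Submodule.mem_sup.mp hy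
      obtain ⟨a, rfl⟩ := HForm.mem_span_one.mp hz
      rw [F.q_add, F.smul_right, hx n hn, F.q_smul]
      by_cases hn0 : n = 0
      · subst hn0
        have ha : a ≠ 0 := by
          rintro rfl
          simp at hy0
        have : 0 < Quaternion.normSq a := by
          rcases (Quaternion.normSq_nonneg (a := a)).lt_or_eq with h | h
          · exact h
          · exact absurd (Quaternion.normSq_eq_zero.mp h.symm) ha
        simp
        exact mul_neg_of_pos_of_neg this hcon
      · have h1 := hneg n hn hn0
        have h2 : Quaternion.normSq a * F.q x ≤ 0 :=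
          mul_nonpos_of_nonneg_of_nonpos Quaternion.normSq_nonneg hcon.le
        simp
        linarith
    have h1 := le_negIndex F _ hneg'
    have h2 : finrank K (N ⊔ Submodule.span K {x} : Submodule K V) = finrank K N + 1 := by
      rw [finrank_sup_disj, finrank_span_one hx0]
      intro y hyN hyx
      obtain ⟨a, rfl⟩ := HForm.mem_span_one.mp hyx
      apply hdisj _ hyN
      exact Submodule.smul_mem _ _ hx
    omega
  · constructor
    · rw [Submodule.disjoint_def]; exact hdisj
    · rw [codisjoint_iff]
      apply Submodule.eq_top_of_finrank_eq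
      rw [finrank_sup_disj hdisj]
      have h1 := perp_dim_top F N
      have h2 : finrank K N + finrank K (F.perp N) ≤ finrank K V := finrank_inf_eq_zero_of_disj hdisj
      omega

/-- For a nonsingular form the complement is positive definite. -/
theorem exists_decomp_ns (F : HForm V) (hF : F.NS) : ∃ N : Submodule K V,
    finrank K N = negIndex F ∧ NegOn F N ∧ PosOn F (F.perp N) ∧ IsCompl N (F.perp N) := by
  obtain ⟨N, h1, h2, h3, h4⟩ := exists_decomp F
  refine ⟨N, h1, h2, ?_, h4⟩
  intro x hx hx0
  rcases (h3 x hx).lt_or_eq with h | h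
  · exact h
  · exfalso
    apply hx0
    apply hF
    intro y
    have hy : y ∈ N ⊔ F.perp N := by rw [h4.sup_eq_top]; trivial
    obtain ⟨a, ha, b, hb, rfl⟩ := Submodule.mem_sup.mp hy
    rw [F.add_right, F.symm_zero (hx a ha), zero_add]
    exact F.psd_zero (F.perp N) h3 hx h.symm b hb

theorem nonpos_dim_ns (F : HForm V) (hF : F.NS) (U : Submodule K V) (h : NonposOn F U) :
    finrank K U ≤ negIndex F := by
  obtain ⟨N, h1, h2, h3, h4⟩ := exists_decomp_ns F hF
  have h5 := Submodule.finrank_add_eq_of_isCompl h4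
  have h6 : finrank K U + finrank K (F.perp N) ≤ finrank K V := by
    apply finrank_inf_eq_zero_of_disj
    intro x hxU hxP
    by_contra hx
    have h7 := h3 x hxP hx
    have h8 := h x hxU
    linarith
  omega

end Neg

end Pool.Agent.Lib_c77211
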