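import Mathlib

open Quaternion Matrix

noncomputable section

namespace Pool.Agent.Lib_c77211

/-- The quaternion unit `i`. -/
def qi : ℍ[ℝ] := ⟨0, 1, 0, 0⟩

/-- The building blocks of pairs of hermitian quaternion matrices that occur in the theorem:
`null` (the pair of `1 × 1` zero matrices), `jordan k s x` (size `k`, sign `s`, eigenvalue `x`) and
`ell` (size `2`, with the nonreal eigenvalue `i`). -/
inductive Block
  | null : Block
  | jordan (k : ℕ) (s x : ℝ) : Block
  | ell : Block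

/-- The size of a block. -/
def Block.size : Block → ℕ
  | .null => 1
  | .jordan k _ _ => k
  | .ell => 2

/-- The first matrix of the pair belonging to a block:
`0`, resp. `s` times the matrix with ones on the antidiagonal, resp. `[0 1; 1 0]`. -/
def Block.C : (b : Block) → Matrix (Fin b.size) (Fin b.size) ℍ[ℝ]
  | .null => fun _ _ => 0
  | .jordan k s _ => fun i j => if (i : ℕ) + (j : ℕ) + 1 = k then (s : ℍ[ℝ]) else 0
  | .ell => fun i j => if (i : ℕ) + (j : ℕ) = 1 then 1 else 0

/-- The second matrix of the pair belonging to a block: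
`0`, resp. `s` times the matrix with `x` on the antidiagonal and `1` just below it,
resp. `[0 i; -i 0]`. -/
def Block.D : (b : Block) → Matrix (Fin b.size) (Fin b.size) ℍ[ℝ]
  | .null => fun _ _ => 0
  | .jordan k s x => fun i j => if (i : ℕ) + (j : ℕ) + 1 = k then ((s * x : ℝ) : ℍ[ℝ])
      else if (i : ℕ) + (j : ℕ) = k then (s : ℍ[ℝ]) else 0
  | .ell => fun i j => if (i : ℕ) + (j : ℕ) = 1 then (if (i : ℕ) = 0 then qi else -qi) else 0

/-- the number of blocks with a given property -/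
def cnt {ι : Type*} (blk : ι → Block) (p : Block → Prop) : ℕ := Nat.card {i : ι // p (blk i)}

/-- the block is `jordan k s x` with `x` satisfying `p` -/
def Block.isJ (k : ℕ) (s : ℝ) (p : ℝ → Prop) (b : Block) : Prop := ∃ x, p x ∧ b = Block.jordan k s x

/-- Elliptic type: null blocks, positive blocks of size one, and elliptic blocks. -/
def TypeE {ι : Type*} (blk : ι → Block) : Prop :=
  ∀ i, blk i = Block.null ∨ (blk i).isJ 1 1 (fun _ => True) ∨ blk i = Block.ell

/-- Parabolic type at `a`. -/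
def TypeP (a : ℝ) {ι : Type*} (blk : ι → Block) : Prop :=
  (∀ i, blk i = Block.null ∨ (blk i).isJ 1 1 (fun _ => True) ∨ blk i = Block.jordan 1 (-1) a ∨
    blk i = Block.jordan 2 1 a ∨ blk i = Block.jordan 2 (-1) a ∨ blk i = Block.jordan 3 1 a) ∧
  1 ≤ cnt blk (fun b => b = Block.jordan 1 (-1) a ∨ b = Block.jordan 2 1 a ∨
    b = Block.jordan 2 (-1) a ∨ b = Block.jordan 3 1 a) ∧
  cnt blk (fun b => b = Block.jordan 1 (-1) a) +
      min (cnt blk (fun b => b = Block.jordan 2 1 a)) (cnt blk (Block.isJ 1 1 (fun x => x < a))) ≤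
    cnt blk (Block.isJ 1 1 (fun x => x ≤ a)) ∧
  cnt blk (fun b => b = Block.jordan 1 (-1) a) +
      min (cnt blk (fun b => b = Block.jordan 2 (-1) a)) (cnt blk (Block.isJ 1 1 (fun x => a < x))) ≤
    cnt blk (Block.isJ 1 1 (fun x => a ≤ x))

/-- Hyperbolic type at `a < b`. -/
def TypeH (a b : ℝ) {ι : Type*} (blk : ι → Block) : Prop :=
  (∀ i, blk i = Block.null ∨ (blk i).isJ 1 1 (fun x => x ≤ a ∨ b ≤ x) ∨
    (blk i).isJ 1 (-1) (fun x => a ≤ x ∧ x ≤ b) ∨
    blk i = Block.jordan 2 (-1) a ∨ blk i = Block.jordan 2 1 b) ∧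
  1 ≤ cnt blk (fun t => t = Block.jordan 1 (-1) a ∨ t = Block.jordan 2 (-1) a) ∧
  1 ≤ cnt blk (fun t => t = Block.jordan 1 (-1) b ∨ t = Block.jordan 2 1 b) ∧
  cnt blk (Block.isJ 1 (-1) (fun x => x < b)) + cnt blk (fun t => t = Block.jordan 2 1 b) +
      min (cnt blk (fun t => t = Block.jordan 1 (-1) b)) (cnt blk (Block.isJ 1 1 (fun x => b < x))) ≤
    cnt blk (Block.isJ 1 1 (fun x => x ≤ a)) ∧
  cnt blk (Block.isJ 1 (-1) (fun x => a < x)) + cnt blk (fun t => t = Block.jordan 2 (-1) a) +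
      min (cnt blk (fun t => t = Block.jordan 1 (-1) a)) (cnt blk (Block.isJ 1 1 (fun x => x < a))) ≤
    cnt blk (Block.isJ 1 1 (fun x => b ≤ x))

end Pool.Agent.Lib_c77211
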