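import Pool.Agent.Lib_c77211.Local
import Pool.Agent.Lib_c77211.Defs

open Quaternion MulOpposite Module

noncomputable section

namespace Pool.Agent.Lib_c77211

set_option linter.unusedSectionVars false
set_option linter.deprecated false

universe u

section Ph

variable {V : Type u} [AddCommGroup V] [Module K V] [FiniteDimensional K V] [Module ℝ V]
  [IsScalarTower ℝ K V]

theorem aeval_mulX (X : V →ₗ[K] V) (p : Polynomial ℝ) (v : V) :
    Polynomial.aeval X (p * Polynomial.X) v = Polynomial.aeval X p (X v) := by
  rw [map_mul, Polynomial.aeval_X]; rfl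

theorem aeval_comm (X : V →ₗ[K] V) (p : Polynomial ℝ) (v : V) :
    Polynomial.aeval X p (X v) = X (Polynomial.aeval X p v) := by
  rw [← aeval_mulX, mul_comm, map_mul, Polynomial.aeval_X]; rfl

theorem aeval_C' (X : V →ₗ[K] V) (a : ℝ) (v : V) :
    Polynomial.aeval X (Polynomial.C a) v = a • v := by
  rw [Polynomial.aeval_C]; rfl

theorem aeval_mul' (X : V →ₗ[K] V) (p q : Polynomial ℝ) (v : V) :
    Polynomial.aeval X (p * q) v = Polynomial.aeval X p (Polynomial.aeval X q v) := by
  rw [map_mul]; rfl

theorem sa_aeval (C : HForm V) (X : V →ₗ[K] V) (h : C.SA X) (p : Polynomial ℝ) :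
    C.SA (Polynomial.aeval X p) := by
  induction p using Polynomial.induction_on with
  | C a =>
    intro x y
    rw [aeval_C', aeval_C', C.rsmul_left, C.rsmul_right]
  | add p q hp hq =>
    intro x y
    rw [map_add, LinearMap.add_apply, LinearMap.add_apply, C.add_left, C.add_right, hp, hq]
  | monomial n a ih =>
    intro x y
    have e1 : Polynomial.C a * Polynomial.X ^ (n + 1) =
      (Polynomial.C a * Polynomial.X ^ n) * Polynomial.X := by ring
    rw [e1, aeval_mulX, aeval_mulX, ih, h]
    rw [aeval_comm]

/-- the form `(x, y) ↦ C x (p(X) y)` -/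
def ph (C : HForm V) (X : V →ₗ[K] V) (h : C.SA X) (p : Polynomial ℝ) : HForm V :=
  C.comp (Polynomial.aeval X p) (sa_aeval C X h p)

theorem ph_f (C : HForm V) (X : V →ₗ[K] V) (h : C.SA X) (p : Polynomial ℝ) (x y : V) :
    (ph C X h p).f x y = C.f x (Polynomial.aeval X p y) := rfl

theorem chain0 (X : V →ₗ[K] V) (x : ℝ) (e0 : V) (h0 : X e0 = x • e0) (p : Polynomial ℝ) :
    Polynomial.aeval X p e0 = p.eval x • e0 := by
  induction p using Polynomial.induction_on with
  | C a => rw [aeval_C', Polynomial.eval_C]
  | add p q hp hq => rw [map_add, LinearMap.add_apply, hp, hq, Polynomial.eval_add, add_smul]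
  | monomial n a ih =>
    have e1 : Polynomial.C a * Polynomial.X ^ (n + 1) =
      (Polynomial.C a * Polynomial.X ^ n) * Polynomial.X := by ring
    rw [e1, aeval_mulX, h0, Polynomial.eval_mul, Polynomial.eval_X]
    have : (Polynomial.aeval X (Polynomial.C a * Polynomial.X ^ n)) (x • e0) =
      x • (Polynomial.aeval X (Polynomial.C a * Polynomial.X ^ n)) e0 := by
      rw [rsmul_eq, rsmul_eq, map_smul]
    rw [this, ih, smul_smul, mul_comm]

theorem lin_rsmul (T : V →ₗ[K] V) (r : ℝ) (v : V) : T (r • v) = r • T v := by
  rw [rsmul_eq, rsmul_eq, map_smul]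

theorem chain1 (X : V →ₗ[K] V) (x : ℝ) (e0 e1 : V) (h0 : X e0 = x • e0) (h1 : X e1 = x • e1 + e0)
    (p : Polynomial ℝ) :
    Polynomial.aeval X p e1 = p.eval x • e1 + p.derivative.eval x • e0 := by
  induction p using Polynomial.induction_on with
  | C a => rw [aeval_C', Polynomial.eval_C, Polynomial.derivative_C, Polynomial.eval_zero]; simp
  | add p q hp hq =>
    rw [map_add, LinearMap.add_apply, hp, hq, Polynomial.eval_add, Polynomial.derivative_add,
      Polynomial.eval_add, add_smul, add_smul]
    abel
  | monomial n a ih =>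
    have e1' : Polynomial.C a * Polynomial.X ^ (n + 1) =
      (Polynomial.C a * Polynomial.X ^ n) * Polynomial.X := by ring
    rw [e1']
    set p := Polynomial.C a * Polynomial.X ^ n with hp
    rw [aeval_mulX, h1, map_add, lin_rsmul, ih, chain0 X x e0 h0]
    simp only [Polynomial.derivative_mul, Polynomial.eval_mul, Polynomial.eval_add,
      Polynomial.eval_X, Polynomial.derivative_X, Polynomial.eval_one, mul_one]
    module

theorem chain2 (X : V →ₗ[K] V) (x : ℝ) (e0 e1 e2 : V) (h0 : X e0 = x • e0) (h1 : X e1 = x • e1 + e0)
    (h2 : X e2 = x • e2 + e1) (p : Polynomial ℝ) :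
    Polynomial.aeval X p e2 = p.eval x • e2 + p.derivative.eval x • e1 +
      (p.derivative.derivative.eval x / 2) • e0 := by
  induction p using Polynomial.induction_on with
  | C a => rw [aeval_C', Polynomial.eval_C, Polynomial.derivative_C]; simp
  | add p q hp hq =>
    rw [map_add, LinearMap.add_apply, hp, hq, Polynomial.eval_add, Polynomial.derivative_add,
      Polynomial.eval_add, Polynomial.derivative_add, Polynomial.eval_add]
    module
  | monomial n a ih =>
    have e1' : Polynomial.C a * Polynomial.X ^ (n + 1) =
      (Polynomial.C a * Polynomial.X ^ n) * Polynomial.X := by ring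
    rw [e1']
    set p := Polynomial.C a * Polynomial.X ^ n with hp
    rw [aeval_mulX, h2, map_add, lin_rsmul, ih, chain1 X x e0 e1 h0 h1]
    simp only [Polynomial.derivative_mul, Polynomial.eval_mul, Polynomial.eval_add,
      Polynomial.derivative_add, Polynomial.eval_X, Polynomial.derivative_X, Polynomial.eval_one,
      mul_one, Polynomial.derivative_one, mul_zero, add_zero, Polynomial.eval_zero]
    module

theorem qi_eq : qi = Quaternion.ofComplex Complex.I := by
  ext <;> simp [qi]

theorem chainE (X : V →ₗ[K] V) (z : ℂ) (e : V) (h : X e = op (Quaternion.ofComplex z) • e)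
    (p : Polynomial ℝ) :
    Polynomial.aeval X p e = op (Quaternion.ofComplex (Polynomial.aeval z p)) • e := by
  induction p using Polynomial.induction_on with
  | C a =>
    rw [aeval_C', Polynomial.aeval_C, rsmul_eq]
    congr 2
  | add p q hp hq =>
    rw [map_add, LinearMap.add_apply, hp, hq, map_add, map_add, op_add, add_smul]
  | monomial n a ih =>
    have e1' : Polynomial.C a * Polynomial.X ^ (n + 1) =
      (Polynomial.C a * Polynomial.X ^ n) * Polynomial.X := by ring
    rw [e1']
    set p := Polynomial.C a * Polynomial.X ^ n with hp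
    have e2 : Polynomial.aeval z (p * Polynomial.X) = Polynomial.aeval z p * z := by
      rw [map_mul, Polynomial.aeval_X]
    have e3 : Quaternion.ofComplex (Polynomial.aeval z p * z) =
      Quaternion.ofComplex (Polynomial.aeval z p) * Quaternion.ofComplex z := map_mul _ _ _
    rw [aeval_mulX, h, map_smul, ih, smul_smul, e2, e3, op_mul]

end Ph

section Blocks

variable {V : Type u} [AddCommGroup V] [Module K V] [FiniteDimensional K V] [Module ℝ V]
  [IsScalarTower ℝ K V]

/-- the action of `X` on a (non-null) block -/
def BAct (X : V →ₗ[K] V) : (b : Block) → (Fin b.size → V) → Prop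
  | .null, _ => False
  | .jordan k s x, e => (k = 1 ∨ k = 2 ∨ k = 3) ∧ s ≠ 0 ∧
      ∀ a : Fin k, X (e a) = x • e a +
        (if h : 0 < (a : ℕ) then e (⟨(a : ℕ) - 1, by omega⟩ : Fin k) else 0)
  | .ell, e => X (e (0 : Fin 2)) = op (-qi) • e (0 : Fin 2) ∧ X (e (1 : Fin 2)) = op qi • e (1 : Fin 2)

open Classical in
/-- number of negative squares of the block for the form `C h(X)` -/
def negB : Block → Polynomial ℝ → ℕ
  | .null, _ => 0
  | .jordan k s x, h =>
      if k = 1 then (if s * h.eval x < 0 then 1 else 0) else
      if k = 2 then (if h.eval x = 0 then (if s * h.derivative.eval x < 0 then 1 else 0) else 1) else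
      (if h.eval x = 0 then (if h.derivative.eval x = 0 then
        (if s * h.derivative.derivative.eval x < 0 then 1 else 0) else 1) else
        (if s * h.eval x < 0 then 2 else 1))
  | .ell, h => if Polynomial.aeval Complex.I h = 0 then 0 else 1

open Classical in
theorem negB_one (s x : ℝ) (h : Polynomial ℝ) :
    negB (.jordan 1 s x) h = if s * h.eval x < 0 then 1 else 0 := by
  simp [negB]

open Classical in
theorem negB_two (s x : ℝ) (h : Polynomial ℝ) :
    negB (.jordan 2 s x) h =
      if h.eval x = 0 then (if s * h.derivative.eval x < 0 then 1 else 0) else 1 := by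
  simp [negB]

open Classical in
theorem negB_three (s x : ℝ) (h : Polynomial ℝ) :
    negB (.jordan 3 s x) h =
      if h.eval x = 0 then (if h.derivative.eval x = 0 then
        (if s * h.derivative.derivative.eval x < 0 then 1 else 0) else 1) else
        (if s * h.eval x < 0 then 2 else 1) := by
  simp [negB]

theorem span_range_one (e : Fin 1 → V) :
    Submodule.span K (Set.range e) = Submodule.span K {e 0} := by
  congr 1
  ext x
  simp only [Set.mem_range, Set.mem_singleton_iff]
  constructor
  · rintro ⟨i, rfl⟩
    rw [Subsingleton.elim i 0]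
  · rintro rfl; exact ⟨0, rfl⟩

theorem span_range_two (e : Fin 2 → V) :
    Submodule.span K (Set.range e) = Submodule.span K {e 0} ⊔ Submodule.span K {e 1} := by
  rw [← Submodule.span_union]
  congr 1
  ext x
  simp only [Set.mem_range, Set.mem_union, Set.mem_singleton_iff]
  rw [Fin.exists_fin_two]
  constructor
  · rintro (h | h)
    · exact Or.inl h.symm
    · exact Or.inr h.symm
  · rintro (h | h)
    · exact Or.inl h.symm
    · exact Or.inr h.symm

theorem span_range_three (e : Fin 3 → V) :
    Submodule.span K (Set.range e) =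
      Submodule.span K {e 0} ⊔ (Submodule.span K {e 1} ⊔ Submodule.span K {e 2}) := by
  rw [← Submodule.span_union, ← Submodule.span_union]
  congr 1
  ext x
  simp only [Set.mem_range, Set.mem_union, Set.mem_singleton_iff]
  constructor
  · rintro ⟨i, rfl⟩
    fin_cases i
    · exact Or.inl rfl
    · exact Or.inr (Or.inl rfl)
    · exact Or.inr (Or.inr rfl)
  · rintro (h | h | h)
    · exact ⟨0, h.symm⟩
    · exact ⟨1, h.symm⟩
    · exact ⟨2, h.symm⟩

theorem LD_block (C : HForm V) (X : V →ₗ[K] V) (hSA : C.SA X) (h : Polynomial ℝ) (b : Block)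
    (e : Fin b.size → V) (hg : ∀ i j, C.f (e i) (e j) = b.C i j) (ha : BAct X b e) :
    LD (ph C X hSA h) (Submodule.span K (Set.range e)) (negB b h) := by
  classical
  match b, e, hg, ha with
  | .null, e, hg, ha => exact ha.elim
  | .ell, e, hg, ha =>
    replace ha : X (e (0 : Fin 2)) = op (-qi) • e (0 : Fin 2) ∧
      X (e (1 : Fin 2)) = op qi • e (1 : Fin 2) := ha
    obtain ⟨h0, h1⟩ := ha
    have e0 : -qi = Quaternion.ofComplex (-Complex.I) := by rw [qi_eq, map_neg]
    rw [e0] at h0
    rw [qi_eq] at h1
    have c0 := chainE X _ _ h0 h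
    have c1 := chainE X _ _ h1 h
    have g00 : C.f (e (0 : Fin 2)) (e (0 : Fin 2)) = 0 := by
      rw [hg]; simp [Block.C]
    have g01 : C.f (e (0 : Fin 2)) (e (1 : Fin 2)) = 1 := by
      rw [hg]; simp [Block.C]
    have g11 : C.f (e (1 : Fin 2)) (e (1 : Fin 2)) = 0 := by
      rw [hg]; simp [Block.C]
    rw [show Submodule.span K (Set.range e) = _ from span_range_two (e : Fin 2 → V)]
    have p00 : (ph C X hSA h).f (e (0 : Fin 2)) (e (0 : Fin 2)) = 0 := by
      rw [ph_f, c0, C.smul_right, g00, zero_mul]
    have p01 : (ph C X hSA h).f (e (0 : Fin 2)) (e (1 : Fin 2)) =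
        Quaternion.ofComplex (Polynomial.aeval Complex.I h) := by
      rw [ph_f, c1, C.smul_right, g01, one_mul]
    have p11 : (ph C X hSA h).f (e (1 : Fin 2)) (e (1 : Fin 2)) = 0 := by
      rw [ph_f, c1, C.smul_right, g11, zero_mul]
    simp only [negB]
    split_ifs with hz
    · rw [hz, map_zero] at p01
      have := (LD.zero_vec (ph C X hSA h) (e (0 : Fin 2)) ((HForm.self_eq_zero_iff _ _).mp p00)).sup
        (LD.zero_vec (ph C X hSA h) (e (1 : Fin 2)) ((HForm.self_eq_zero_iff _ _).mp p11))
        (orth_span_span _ p01)
      exact this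
    · have hne : Quaternion.ofComplex (Polynomial.aeval Complex.I h) ≠ 0 := by
        intro h0
        apply hz
        have h1 := congrArg QuaternionAlgebra.re h0
        have h2 := congrArg QuaternionAlgebra.imI h0
        apply Complex.ext
        · simpa using h1
        · simpa using h2
      exact LD.hyp _ _ _ _ hne p00 p01
  | .jordan k s x, e, hg, ha =>
    obtain ⟨hk, hs, hact⟩ := ha
    rcases hk with rfl | rfl | rfl
    · -- size 1
      have h0 : X (e (0 : Fin 1)) = x • e (0 : Fin 1) := by
        have := hact (0 : Fin 1)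
        simpa using this
      have g00 : C.f (e (0 : Fin 1)) (e (0 : Fin 1)) = (s : ℍ[ℝ]) := by
        rw [hg]; simp [Block.C]
      have p00 : (ph C X hSA h).q (e (0 : Fin 1)) = s * h.eval x := by
        unfold HForm.q
        rw [ph_f, chain0 X x _ h0, C.rsmul_right, g00]
        simp [mul_comm]
      rw [show Submodule.span K (Set.range e) = _ from span_range_one (e : Fin 1 → V)]
      have := LD.one (ph C X hSA h) (e (0 : Fin 1))
      rw [p00] at this
      rw [negB_one]
      exact this
    · -- size 2
      have h0 : X (e (0 : Fin 2)) = x • e (0 : Fin 2) := by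
        have := hact (0 : Fin 2)
        simpa using this
      have h1 : X (e (1 : Fin 2)) = x • e (1 : Fin 2) + e (0 : Fin 2) := by
        have := hact (1 : Fin 2)
        simpa using this
      have g00 : C.f (e (0 : Fin 2)) (e (0 : Fin 2)) = 0 := by
        rw [hg]; simp [Block.C]
      have g01 : C.f (e (0 : Fin 2)) (e (1 : Fin 2)) = (s : ℍ[ℝ]) := by
        rw [hg]; simp [Block.C]
      have g10 : C.f (e (1 : Fin 2)) (e (0 : Fin 2)) = (s : ℍ[ℝ]) := by
        rw [hg]; simp [Block.C]
      have g11 : C.f (e (1 : Fin 2)) (e (1 : Fin 2)) = 0 := by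
        rw [hg]; simp [Block.C]
      rw [show Submodule.span K (Set.range e) = _ from span_range_two (e : Fin 2 → V)]
      have p00 : (ph C X hSA h).f (e (0 : Fin 2)) (e (0 : Fin 2)) = 0 := by
        rw [ph_f, chain0 X x _ h0, C.rsmul_right, g00]; simp
      have p01 : (ph C X hSA h).f (e (0 : Fin 2)) (e (1 : Fin 2)) = ((s * h.eval x : ℝ) : ℍ[ℝ]) := by
        rw [ph_f, chain1 X x _ _ h0 h1, C.add_right, C.rsmul_right, C.rsmul_right, g00, g01]
        ext <;> simp [mul_comm]
      have p11 : (ph C X hSA h).q (e (1 : Fin 2)) = s * h.derivative.eval x := by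
        unfold HForm.q
        rw [ph_f, chain1 X x _ _ h0 h1, C.add_right, C.rsmul_right, C.rsmul_right, g10, g11]
        simp [mul_comm]
      rw [negB_two]
      by_cases hz : h.eval x = 0
      · rw [if_pos hz]
        rw [hz, mul_zero] at p01
        have hld := (LD.zero_vec (ph C X hSA h) (e (0 : Fin 2)) ((HForm.self_eq_zero_iff _ _).mp p00)).sup
          (LD.one (ph C X hSA h) (e (1 : Fin 2)))
          (orth_span_span _ (by rw [p01]; rfl))
        rw [p11, zero_add] at hld
        exact hld
      · rw [if_neg hz]
        refine LD.hyp _ _ _ _ ?_ p00 p01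
        intro h0
        have := congrArg QuaternionAlgebra.re h0
        simp only [Quaternion.re_coe, Quaternion.re_zero] at this
        exact (mul_ne_zero hs hz) this
    · -- size 3
      have h0 : X (e (0 : Fin 3)) = x • e (0 : Fin 3) := by
        have := hact (0 : Fin 3)
        simpa using this
      have h1 : X (e (1 : Fin 3)) = x • e (1 : Fin 3) + e (0 : Fin 3) := by
        have := hact (1 : Fin 3)
        simpa using this
      have h2 : X (e (2 : Fin 3)) = x • e (2 : Fin 3) + e (1 : Fin 3) := by
        have := hact (2 : Fin 3)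
        simpa using this
      have g00 : C.f (e (0 : Fin 3)) (e (0 : Fin 3)) = 0 := by
        rw [hg]; simp [Block.C]
      have g01 : C.f (e (0 : Fin 3)) (e (1 : Fin 3)) = 0 := by
        rw [hg]; simp [Block.C]
      have g10 : C.f (e (1 : Fin 3)) (e (0 : Fin 3)) = 0 := by
        rw [hg]; simp [Block.C]
      have g02 : C.f (e (0 : Fin 3)) (e (2 : Fin 3)) = (s : ℍ[ℝ]) := by
        rw [hg]; simp [Block.C]
      have g20 : C.f (e (2 : Fin 3)) (e (0 : Fin 3)) = (s : ℍ[ℝ]) := by
        rw [hg]; simp [Block.C]
      have g11 : C.f (e (1 : Fin 3)) (e (1 : Fin 3)) = (s : ℍ[ℝ]) := by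
        rw [hg]; simp [Block.C]
      have g12 : C.f (e (1 : Fin 3)) (e (2 : Fin 3)) = 0 := by
        rw [hg]; simp [Block.C]
      have g21 : C.f (e (2 : Fin 3)) (e (1 : Fin 3)) = 0 := by
        rw [hg]; simp [Block.C]
      have g22 : C.f (e (2 : Fin 3)) (e (2 : Fin 3)) = 0 := by
        rw [hg]; simp [Block.C]
      set G := ph C X hSA h with hG
      have p00 : G.f (e (0 : Fin 3)) (e (0 : Fin 3)) = 0 := by
        rw [hG, ph_f, chain0 X x _ h0, C.rsmul_right, g00]; simp
      have p01 : G.f (e (0 : Fin 3)) (e (1 : Fin 3)) = 0 := by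
        rw [hG, ph_f, chain1 X x _ _ h0 h1, C.add_right, C.rsmul_right, C.rsmul_right, g00, g01]; simp
      have p02 : G.f (e (0 : Fin 3)) (e (2 : Fin 3)) = ((s * h.eval x : ℝ) : ℍ[ℝ]) := by
        rw [hG, ph_f, chain2 X x _ _ _ h0 h1 h2, C.add_right, C.add_right, C.rsmul_right,
          C.rsmul_right, C.rsmul_right, g00, g01, g02]
        ext <;> simp [mul_comm]
      have p11 : G.f (e (1 : Fin 3)) (e (1 : Fin 3)) = ((s * h.eval x : ℝ) : ℍ[ℝ]) := by
        rw [hG, ph_f, chain1 X x _ _ h0 h1, C.add_right, C.rsmul_right, C.rsmul_right, g11, g10]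
        ext <;> simp [mul_comm]
      have p12 : G.f (e (1 : Fin 3)) (e (2 : Fin 3)) = ((s * h.derivative.eval x : ℝ) : ℍ[ℝ]) := by
        rw [hG, ph_f, chain2 X x _ _ _ h0 h1 h2, C.add_right, C.add_right, C.rsmul_right,
          C.rsmul_right, C.rsmul_right, g10, g11, g12]
        ext <;> simp [mul_comm]
      have p22 : G.f (e (2 : Fin 3)) (e (2 : Fin 3)) =
          ((s * h.derivative.derivative.eval x / 2 : ℝ) : ℍ[ℝ]) := by
        rw [hG, ph_f, chain2 X x _ _ _ h0 h1 h2, C.add_right, C.add_right, C.rsmul_right,
          C.rsmul_right, C.rsmul_right, g20, g21, g22, smul_zero, smul_zero, zero_add, zero_add,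
          ← Quaternion.coe_smul, smul_eq_mul]
        congr 1
        ring
      rw [show Submodule.span K (Set.range e) = _ from span_range_three (e : Fin 3 → V)]
      rw [negB_three]
      by_cases hz : h.eval x = 0
      · rw [if_pos hz]
        rw [hz, mul_zero] at p02 p11
        by_cases hz' : h.derivative.eval x = 0
        · rw [if_pos hz']
          rw [hz', mul_zero] at p12
          have e1 : LD G (Submodule.span K {e (1 : Fin 3)} ⊔ Submodule.span K {e (2 : Fin 3)})
              (0 + if G.q (e (2 : Fin 3)) < 0 then 1 else 0) :=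
            (LD.zero_vec G (e (1 : Fin 3)) ((HForm.self_eq_zero_iff _ _).mp (by rw [p11]; rfl))).sup
              (LD.one G (e (2 : Fin 3))) (orth_span_span _ (by rw [p12]; rfl))
          have e2 := (LD.zero_vec G (e (0 : Fin 3)) ((HForm.self_eq_zero_iff _ _).mp p00)).sup e1
            (orth_symm G (orth_sup G (orth_span_span _ (G.symm_zero p01))
              (orth_span_span _ (G.symm_zero (by rw [p02]; rfl)))))
          rw [zero_add, zero_add] at e2
          have e3 : G.q (e (2 : Fin 3)) = s * h.derivative.derivative.eval x / 2 := by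
            unfold HForm.q; rw [p22, Quaternion.re_coe]
          rw [e3] at e2
          have e4 : (s * h.derivative.derivative.eval x / 2 < 0) ↔
              (s * h.derivative.derivative.eval x < 0) := by
            constructor <;> intro h' <;> linarith
          simp only [e4] at e2
          exact e2
        · rw [if_neg hz']
          have e1 := LD.hyp G (e (1 : Fin 3)) (e (2 : Fin 3)) _ (by
            intro h0
            have := congrArg QuaternionAlgebra.re h0
            simp only [Quaternion.re_coe, Quaternion.re_zero] at this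
            exact (mul_ne_zero hs hz') this) (by rw [p11]; rfl) p12
          have e2 := (LD.zero_vec G (e (0 : Fin 3)) ((HForm.self_eq_zero_iff _ _).mp p00)).sup e1
            (orth_symm G (orth_sup G (orth_span_span _ (G.symm_zero p01))
              (orth_span_span _ (G.symm_zero (by rw [p02]; rfl)))))
          rw [zero_add] at e2
          exact e2
      · rw [if_neg hz]
        set r : ℝ := h.derivative.eval x / h.eval x with hr
        set f1 := e (1 : Fin 3) - r • e (0 : Fin 3) with hf1
        have f11 : G.f f1 f1 = ((s * h.eval x : ℝ) : ℍ[ℝ]) := by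
          rw [hf1, G.sub_left, G.sub_right, G.sub_right, G.rsmul_right, G.rsmul_left, G.rsmul_left,
            G.rsmul_right, p00, p01, G.symm_zero p01, p11]
          simp
        have f10 : G.f f1 (e (0 : Fin 3)) = 0 := by
          rw [hf1, G.sub_left, G.rsmul_left, p00, G.symm_zero p01]; simp
        have f12 : G.f f1 (e (2 : Fin 3)) = 0 := by
          rw [hf1, G.sub_left, G.rsmul_left, p02, p12, ← Quaternion.coe_smul, ← Quaternion.coe_sub]
          have : s * h.derivative.eval x - r • (s * h.eval x) = 0 := by
            rw [hr, smul_eq_mul]; field_simp; ring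
          rw [this]; rfl
        have e1 := LD.hyp G (e (0 : Fin 3)) (e (2 : Fin 3)) _ (by
            intro h0
            have := congrArg QuaternionAlgebra.re h0
            simp only [Quaternion.re_coe, Quaternion.re_zero] at this
            exact (mul_ne_zero hs hz) this) p00 p02
        have e2 := (LD.one G f1).sup e1 (orth_symm G (orth_sup G
          (orth_span_span _ (G.symm_zero f10)) (orth_span_span _ (G.symm_zero f12))))
        have e3 : G.q f1 = s * h.eval x := by unfold HForm.q; rw [f11]; simp
        rw [e3] at e2
        have e4 : (if s * h.eval x < 0 then 1 else 0) + 1 = if s * h.eval x < 0 then 2 else 1 := by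
          split_ifs <;> rfl
        rw [e4] at e2
        apply e2.congr_le
        have hrs : ∀ (r : ℝ) (x : V) (U : Submodule K V), x ∈ U → r • x ∈ U := by
          intro r x U hx
          rw [rsmul_eq]; exact U.smul_mem _ hx
        apply le_antisymm
        · apply sup_le
          · rw [Submodule.span_le, Set.singleton_subset_iff]
            apply Submodule.sub_mem
            · exact Submodule.mem_sup_right (Submodule.mem_sup_left (Submodule.mem_span_singleton_self _))
            · exact hrs _ _ _ (Submodule.mem_sup_left (Submodule.mem_span_singleton_self _))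
          · apply sup_le
            · exact le_sup_left
            · exact le_sup_right.trans le_sup_right
        · apply sup_le
          · exact le_sup_left.trans le_sup_right
          · apply sup_le
            · rw [Submodule.span_le, Set.singleton_subset_iff]
              have : e (1 : Fin 3) = f1 + r • e (0 : Fin 3) := by rw [hf1]; abel
              rw [this]
              apply Submodule.add_mem
              · exact Submodule.mem_sup_left (Submodule.mem_span_singleton_self _)
              · exact hrs _ _ _ (Submodule.mem_sup_right (Submodule.mem_sup_left (Submodule.mem_span_singleton_self _)))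
            · exact le_sup_right.trans le_sup_right

end Blocks

end Pool.Agent.Lib_c77211
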