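import Pool.Agent.Lib_c77211.Diag

open Quaternion MulOpposite Module Finset

noncomputable section

namespace Pool.Agent.Lib_c77211

set_option linter.unusedSectionVars false

section Lag

variable {ι : Type*} [DecidableEq ι]

def lw (G : Finset ι) (x : ι → ℝ) (i : ι) : ℝ := (∏ j ∈ G.erase i, (x i - x j))⁻¹

theorem lag_sum (G : Finset ι) (x : ι → ℝ) (hx : Set.InjOn x G) (p : ℕ) (hp : p + 1 < G.card) :
    ∑ i ∈ G, x i ^ p * lw G x i = 0 := by
  have h := Lagrange.coeff_eq_sum (F := ℝ) (s := G) (v := x) hx (P := Polynomial.X ^ p) (by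
    rw [Polynomial.degree_X_pow]
    exact_mod_cast (by omega : p < G.card))
  rw [Polynomial.coeff_X_pow, if_neg (by omega)] at h
  rw [h]
  apply Finset.sum_congr rfl
  intro i _
  simp [lw, div_eq_mul_inv]

theorem vander (m : ℕ) (G : Finset ι) (x : ι → ℝ) (hx : Set.InjOn x G) (hm : m ≤ G.card)
    (b : Fin m → ℍ[ℝ]) (h : ∀ i ∈ G, ∑ k : Fin m, (x i ^ (k : ℕ)) • b k = 0) : b = 0 := by
  have key : ∀ (φ : ℍ[ℝ] →ₗ[ℝ] ℝ) (k : Fin m), φ (b k) = 0 := by
    intro φ k
    set P : Polynomial ℝ := ∑ k : Fin m, Polynomial.C (φ (b k)) * Polynomial.X ^ (k : ℕ) with hP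
    have hdeg : P.degree < G.card := by
      have : P.degree < m := by
        rcases Nat.eq_zero_or_pos m with h0 | hpos
        · subst h0
          exact k.elim0
        · rw [hP]
          refine lt_of_le_of_lt (Polynomial.degree_sum_le _ _) ?_
          rw [Finset.sup_lt_iff (by exact_mod_cast WithBot.bot_lt_coe m)]
          intro j _
          refine lt_of_le_of_lt (Polynomial.degree_C_mul_X_pow_le _ _) ?_
          exact_mod_cast j.2
      exact lt_of_lt_of_le this (by exact_mod_cast hm)
    have hev : ∀ i ∈ G, P.eval (x i) = 0 := by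
      intro i hi
      have h1 := congrArg φ (h i hi)
      rw [map_sum, map_zero] at h1
      rw [hP, Polynomial.eval_finset_sum]
      simp only [Polynomial.eval_mul, Polynomial.eval_C, Polynomial.eval_pow, Polynomial.eval_X]
      rw [← h1]
      apply Finset.sum_congr rfl
      intro j _
      rw [map_smul, smul_eq_mul, mul_comm]
    have hP0 : P = 0 := Polynomial.eq_zero_of_degree_lt_of_eval_index_eq_zero (v := x) G hx hdeg hev
    have h2 : P.coeff (k : ℕ) = φ (b k) := by
      rw [hP, Polynomial.finsetSum_coeff]
      simp only [Polynomial.coeff_C_mul, Polynomial.coeff_X_pow]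
      rw [Finset.sum_eq_single k]
      · simp
      · intro j _ hj
        rw [if_neg]
        · simp
        · intro h; exact hj (Fin.ext h.symm)
      · simp
    rw [← h2, hP0]; simp
  funext k
  have h1 := key (QuaternionAlgebra.reₗ (R := ℝ) (-1 : ℝ) 0 (-1)) k
  have h2 := key (QuaternionAlgebra.imIₗ (R := ℝ) (-1 : ℝ) 0 (-1)) k
  have h3 := key (QuaternionAlgebra.imJₗ (R := ℝ) (-1 : ℝ) 0 (-1)) k
  have h4 := key (QuaternionAlgebra.imKₗ (R := ℝ) (-1 : ℝ) 0 (-1)) k
  ext
  · exact h1
  · exact h2
  · exact h3
  · exact h4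

theorem prod_sign {n : ℕ} (G : Finset (Fin n)) (x : Fin n → ℝ)
    (hx : ∀ i ∈ G, ∀ j ∈ G, i < j → x i < x j) (i : Fin n) (hi : i ∈ G) :
    0 < (-1 : ℝ) ^ (G.filter fun j => i < j).card * ∏ j ∈ G.erase i, (x i - x j) := by
  have h1 : G.erase i = (G.filter fun j => j < i) ∪ (G.filter fun j => i < j) := by
    ext j
    simp only [Finset.mem_erase, Finset.mem_union, Finset.mem_filter]
    constructor
    · rintro ⟨h1, h2⟩
      rcases lt_or_gt_of_ne h1 with h | h
      · exact Or.inl ⟨h2, h⟩
      · exact Or.inr ⟨h2, h⟩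
    · rintro (⟨h1, h2⟩ | ⟨h1, h2⟩)
      · exact ⟨h2.ne, h1⟩
      · exact ⟨h2.ne', h1⟩
  have h2 : Disjoint (G.filter fun j => j < i) (G.filter fun j => i < j) := by
    rw [Finset.disjoint_left]
    intro j h1 h2
    simp only [Finset.mem_filter] at h1 h2
    exact absurd (h1.2.trans h2.2) (lt_irrefl _)
  rw [h1, Finset.prod_union h2]
  have h3 : ∏ j ∈ G.filter (fun j => i < j), (x i - x j) =
      (-1 : ℝ) ^ (G.filter fun j => i < j).card * ∏ j ∈ G.filter (fun j => i < j), (x j - x i) := by
    rw [← Finset.prod_const, ← Finset.prod_mul_distrib]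
    apply Finset.prod_congr rfl
    intro j _; ring
  rw [h3]
  have h4 : 0 < ∏ j ∈ G.filter (fun j => j < i), (x i - x j) := by
    apply Finset.prod_pos
    intro j hj
    simp only [Finset.mem_filter] at hj
    linarith [hx j hj.1 i hi hj.2]
  have h5 : 0 < ∏ j ∈ G.filter (fun j => i < j), (x j - x i) := by
    apply Finset.prod_pos
    intro j hj
    simp only [Finset.mem_filter] at hj
    linarith [hx i hi j hj.1 hj.2]
  have h6 : (-1 : ℝ) ^ (G.filter fun j => i < j).card * (-1 : ℝ) ^ (G.filter fun j => i < j).card = 1 := by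
    rw [← mul_pow]; simp
  have h7 : (-1 : ℝ) ^ (G.filter fun j => i < j).card * ((∏ j ∈ G.filter (fun j => j < i), (x i - x j)) *
      ((-1 : ℝ) ^ (G.filter fun j => i < j).card * ∏ j ∈ G.filter (fun j => i < j), (x j - x i))) =
      ((-1 : ℝ) ^ (G.filter fun j => i < j).card * (-1 : ℝ) ^ (G.filter fun j => i < j).card) *
      ((∏ j ∈ G.filter (fun j => j < i), (x i - x j)) * ∏ j ∈ G.filter (fun j => i < j), (x j - x i)) := by
    ring
  rw [h7, h6, one_mul]
  exact mul_pos h4 h5

end Lag

section Walk

/-- Combinatorial decomposition data for a walk. -/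
theorem walk_levels (n r : ℕ) (ε : Fin n → ℤ) (hε : ∀ i, ε i = 1 ∨ ε i = -1) (x : Fin n → ℝ)
    (hmono : Monotone x) (htie : ∀ i j, x i = x j → ε i = ε j) (S : ℕ → ℤ) (hS0 : S 0 = 0)
    (hS : ∀ i : Fin n, S (i + 1) = S i + ε i) (hSn : S n = r)
    (hb : ∀ j ≤ n, 0 ≤ S j ∧ S j ≤ r) :
    ∃ G : Fin r → Finset (Fin n), (∀ l l', l ≠ l' → Disjoint (G l) (G l')) ∧
      (∀ i, ∃ l, i ∈ G l) ∧ (∀ l, ∃ m, (G l).card = 2 * m + 1) ∧
      (∀ l, ∀ i ∈ G l, ∀ j ∈ G l, i < j → x i < x j) ∧
      (∀ l, ∀ i ∈ G l, ε i = (-1) ^ ((G l).filter fun j => i < j).card) := by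
  classical
  let G : Fin r → Finset (Fin n) := fun l => Finset.univ.filter fun i => min (S i) (S (i + 1)) = (l : ℤ)
  have hG : ∀ l i, i ∈ G l ↔ min (S i) (S (i + 1)) = (l : ℤ) := by
    intro l i; simp [G]
  -- parity
  have par : ∀ l : Fin r, ∀ k j : ℕ, j + k = n →
      (Odd ((G l).filter fun i : Fin n => j ≤ (i : ℕ)).card ↔ S j ≤ l) := by
    intro l k
    induction k with
    | zero =>
      intro j hj
      have h1 : ((G l).filter fun i : Fin n => j ≤ (i : ℕ)) = ∅ := by
        apply Finset.filter_eq_empty_iff.mpr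
        intro i _ h
        have := i.2
        omega
      rw [h1]
      have h2 : j = n := by omega
      rw [h2, hSn]
      have := l.2
      simp
    | succ k ih =>
      intro j hj
      have hjn : j < n := by omega
      have ih' := ih (j + 1) (by omega)
      have hstep := hS ⟨j, hjn⟩
      simp only at hstep
      have hsplit : ((G l).filter fun i : Fin n => j ≤ (i : ℕ)) =
          ((G l).filter fun i : Fin n => j + 1 ≤ (i : ℕ)) ∪ ((G l).filter fun i : Fin n => i = ⟨j, hjn⟩) := by
        ext i
        simp only [Finset.mem_filter, Finset.mem_union]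
        constructor
        · rintro ⟨h1, h2⟩
          rcases Nat.lt_or_ge j i with h | h
          · exact Or.inl ⟨h1, h⟩
          · exact Or.inr ⟨h1, Fin.ext (by simp; omega)⟩
        · rintro (⟨h1, h2⟩ | ⟨h1, h2⟩)
          · exact ⟨h1, by omega⟩
          · exact ⟨h1, by rw [h2]⟩
      have hdisj : Disjoint ((G l).filter fun i : Fin n => j + 1 ≤ (i : ℕ)) ((G l).filter fun i : Fin n => i = ⟨j, hjn⟩) := by
        rw [Finset.disjoint_left]
        intro i h1 h2
        simp only [Finset.mem_filter] at h1 h2
        have := h1.2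
        rw [h2.2] at this
        simp at this
      rw [hsplit, Finset.card_union_of_disjoint hdisj]
      by_cases hmem : (⟨j, hjn⟩ : Fin n) ∈ G l
      · have h1 : ((G l).filter fun i : Fin n => i = ⟨j, hjn⟩) = {⟨j, hjn⟩} := by
          ext i
          simp only [Finset.mem_filter, Finset.mem_singleton]
          constructor
          · exact fun h => h.2
          · rintro rfl; exact ⟨hmem, rfl⟩
        rw [h1, Finset.card_singleton, Nat.odd_add_one, ih']
        rw [hG] at hmem
        simp only at hmem
        rcases hε ⟨j, hjn⟩ with h | h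
        · rw [h] at hstep
          rw [hstep] at hmem ⊢
          rw [min_eq_left (by omega)] at hmem
          constructor
          · intro _; omega
          · intro _; omega
        · rw [h] at hstep
          rw [hstep] at hmem ⊢
          rw [min_eq_right (by omega)] at hmem
          constructor
          · intro h'; exact absurd (by omega) h'
          · intro h'; omega
      · have h1 : ((G l).filter fun i : Fin n => i = ⟨j, hjn⟩) = ∅ := by
          apply Finset.filter_eq_empty_iff.mpr
          rintro i hi rfl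
          exact hmem hi
        rw [h1, Finset.card_empty, add_zero, ih']
        rw [hG] at hmem
        simp only at hmem
        rcases hε ⟨j, hjn⟩ with h | h
        · rw [h] at hstep
          rw [hstep] at hmem ⊢
          rw [min_eq_left (by omega)] at hmem
          omega
        · rw [h] at hstep
          rw [hstep] at hmem ⊢
          rw [min_eq_right (by omega)] at hmem
          omega
  refine ⟨G, ?_, ?_, ?_, ?_, ?_⟩
  · intro l l' hll
    rw [Finset.disjoint_left]
    intro i h1 h2
    rw [hG] at h1 h2
    apply hll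
    apply Fin.ext
    have := h1.symm.trans h2
    exact_mod_cast this
  · intro i
    have h1 := hb i (by have := i.2; omega)
    have h2 := hb (i + 1) (by have := i.2; omega)
    have h3 := hS i
    have h4 : 0 ≤ min (S i) (S (i + 1)) := le_min h1.1 h2.1
    have h5 : min (S i) (S (i + 1)) < r := by
      rcases hε i with h | h
      · rw [h] at h3
        rw [h3, min_eq_left (by omega)]; omega
      · rw [h] at h3
        rw [h3, min_eq_right (by omega)]; omega
    obtain ⟨k, hk⟩ := Int.eq_ofNat_of_zero_le h4
    refine ⟨⟨k, by omega⟩, ?_⟩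
    rw [hG]
    exact hk
  · intro l
    have h1 := par l n 0 (by omega)
    have h2 : ((G l).filter fun i : Fin n => 0 ≤ (i : ℕ)) = G l := by
      apply Finset.filter_true_of_mem; intro i _; omega
    rw [h2, hS0] at h1
    have h3 : Odd (G l).card := h1.mpr (by simp)
    obtain ⟨m, hm⟩ := h3
    exact ⟨m, hm⟩
  · intro l i hi j hj hij
    rcases (hmono hij.le).lt_or_eq with h | h
    · exact h
    · exfalso
      rw [hG] at hi hj
      have htie' : ∀ k : Fin n, i ≤ k → k ≤ j → ε k = ε i := by
        intro k h1 h2
        apply htie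
        apply le_antisymm
        · calc x k ≤ x j := hmono h2
            _ = x i := h.symm
        · exact hmono h1
      have hmv : ∀ k : ℕ, (i : ℕ) + 1 ≤ k → k ≤ j → S k = S (i + 1) + ε i * (k - (i + 1)) := by
        intro k h1
        induction k, h1 using Nat.le_induction with
        | base => intro _; push_cast; ring
        | succ k hk ih =>
          intro h2
          have h3 := ih (by omega)
          have hkn : k < n := by have := j.2; omega
          have h4 := hS ⟨k, hkn⟩
          simp only at h4
          rw [h4, h3, htie' ⟨k, hkn⟩ (by rw [Fin.le_def]; simp; omega) (by rw [Fin.le_def]; simp; omega)]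
          push_cast; ring
      have h5 := hmv j (by have : (i : ℕ) < j := hij; omega) le_rfl
      have h6 := hS i
      have h7 := hS j
      rw [htie' j hij.le le_rfl] at h7
      have h8 : (0 : ℤ) ≤ (j : ℤ) - (i + 1) := by
        have : (i : ℕ) < j := hij
        omega
      rcases hε i with h | h
      · rw [h] at h5 h6 h7
        rw [h6, min_eq_left (by omega)] at hi
        rw [h7, min_eq_left (by omega)] at hj
        rw [h6] at h5
        nlinarith
      · rw [h] at h5 h6 h7
        rw [h6, min_eq_right (by omega)] at hi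
        rw [h7, min_eq_right (by omega)] at hj
        rw [h6] at h5
        nlinarith
  · intro l i hi
    have h1 := par l (n - (i + 1)) (i + 1) (by have := i.2; omega)
    have h2 : ((G l).filter fun j => i < j) = ((G l).filter fun j : Fin n => (i : ℕ) + 1 ≤ (j : ℕ)) := by
      apply Finset.filter_congr
      intro j _
      exact Fin.lt_def
    rw [h2]
    rw [hG] at hi
    have h3 := hS i
    rcases hε i with h | h
    · rw [h] at h3 ⊢
      rw [h3, min_eq_left (by omega)] at hi
      have : ¬ Odd ((G l).filter fun j : Fin n => (i : ℕ) + 1 ≤ (j : ℕ)).card := by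
        rw [h1]; omega
      rw [Nat.not_odd_iff_even] at this
      rw [this.neg_one_pow]
    · rw [h] at h3 ⊢
      rw [h3, min_eq_right (by omega)] at hi
      have : Odd ((G l).filter fun j : Fin n => (i : ℕ) + 1 ≤ (j : ℕ)).card := by
        rw [h1]; omega
      rw [this.neg_one_pow]

end Walk

end Pool.Agent.Lib_c77211
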