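import Pool.Agent.Lib_c77211.SuffH

open Quaternion MulOpposite Module

noncomputable section

namespace Pool.Agent.Lib_c77211

set_option linter.unusedSectionVars false
set_option linter.deprecated false

universe u

open SignType

theorem tab9 {m : ℕ} (cl : Fin m → Fin 9) : ∃ N : Fin 9 → ℕ, ∀ G : Fin 9 → ℕ,
    ∑ i, G (cl i) = N 0 * G 0 + N 1 * G 1 + N 2 * G 2 + N 3 * G 3 + N 4 * G 4 + N 5 * G 5 +
      N 6 * G 6 + N 7 * G 7 + N 8 * G 8 := by
  refine ⟨fun c => (Finset.univ.filter fun i => cl i = c).card, fun G => ?_⟩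
  rw [tab_sum]
  simp only [Fin.sum_univ_succ, Fin.sum_univ_zero]
  simp only [Fin.isValue, Finset.univ_eq_empty, Finset.sum_empty, add_zero, add_assoc]
  rfl

def ptrue : SignType → Bool := fun _ => true
def pneg : SignType → Bool := fun γ => decide (γ = -1)
def ppos : SignType → Bool := fun γ => decide (γ = 1)

theorem sgn_pos {x : ℝ} (h : 0 < x) : sign x = 1 := sign_pos h
theorem sgn_neg {x : ℝ} (h : x < 0) : sign x = -1 := sign_neg h

theorem cneg_left {α β a x : ℝ} (hβ : 0 ≤ β) (h : α + β * a < 0) (hx : x ≤ a) : α + β * x < 0 := by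
  have := mul_nonneg hβ (sub_nonneg.mpr hx)
  linarith

theorem cpos_right {α β b x : ℝ} (hβ : 0 ≤ β) (h : 0 < α + β * b) (hx : b ≤ x) : 0 < α + β * x := by
  have := mul_nonneg hβ (sub_nonneg.mpr hx)
  linarith

theorem cneg_right {α β b x : ℝ} (hβ : β ≤ 0) (h : α + β * b < 0) (hx : b ≤ x) : α + β * x < 0 := by
  have := mul_nonneg (neg_nonneg.mpr hβ) (sub_nonneg.mpr hx)
  linarith

theorem cpos_left {α β a x : ℝ} (hβ : β ≤ 0) (h : 0 < α + β * a) (hx : x ≤ a) : 0 < α + β * x := by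
  have := mul_nonneg (neg_nonneg.mpr hβ) (sub_nonneg.mpr hx)
  linarith

theorem cpos_mid {α β a b x : ℝ} (ha : 0 < α + β * a) (hb : 0 < α + β * b) (hab : a < b)
    (hx1 : a < x) (hx2 : x < b) : 0 < α + β * x := by
  have h1 := mul_pos (sub_pos.mpr hx2) ha
  have h2 := mul_pos (sub_pos.mpr hx1) hb
  by_contra hcon
  push Not at hcon
  have h3 := mul_nonpos_of_nonneg_of_nonpos (sub_nonneg.mpr hab.le) hcon
  linarith

theorem bpos {α β a b : ℝ} (ha : α + β * a < 0) (hb : 0 < α + β * b) (hab : a < b) : 0 < β := by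
  by_contra hcon
  push Not at hcon
  have := mul_nonpos_of_nonpos_of_nonneg hcon (sub_nonneg.mpr hab.le)
  linarith

theorem bneg {α β a b : ℝ} (ha : 0 < α + β * a) (hb : α + β * b < 0) (hab : a < b) : β < 0 := by
  by_contra hcon
  push Not at hcon
  have := mul_nonneg hcon (sub_nonneg.mpr hab.le)
  linarith

theorem posf {k α β p q : ℝ} (h : 0 < k * ((α + β * p) * (α + β * q))) :
    0 < k * α ^ 2 - -(k * (p + q)) * α * β + k * p * q * β ^ 2 := by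
  have e : k * α ^ 2 - -(k * (p + q)) * α * β + k * p * q * β ^ 2 =
    k * ((α + β * p) * (α + β * q)) := by ring
  rw [e]; exact h

theorem posf1 {α β p q : ℝ} (h : 0 < (α + β * p) * (α + β * q)) :
    0 < (1 : ℝ) * α ^ 2 - -((1 : ℝ) * (p + q)) * α * β + (1 : ℝ) * p * q * β ^ 2 :=
  posf (by rw [one_mul]; exact h)

theorem posfm {α β p q : ℝ} (h : (α + β * p) * (α + β * q) < 0) :
    0 < (-1 : ℝ) * α ^ 2 - -((-1 : ℝ) * (p + q)) * α * β + (-1 : ℝ) * p * q * β ^ 2 :=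
  posf (by linarith)

/-- the sign of `k (x-p)(x-q)` -/
theorem sgq {k p q x : ℝ} {τ : SignType} (h : sign (k * ((x - p) * (x - q))) = τ) :
    sign (k * x ^ 2 + -(k * (p + q)) * x + k * p * q) = τ := by
  rw [← h]
  congr 1
  ring

theorem sg_pp {x p q : ℝ} (hp : p < x) (hq : q < x) : sign ((x - p) * (x - q)) = 1 :=
  sgn_pos (mul_pos (sub_pos.mpr hp) (sub_pos.mpr hq))
theorem sg_nn {x p q : ℝ} (hp : x < p) (hq : x < q) : sign ((x - p) * (x - q)) = 1 :=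
  sgn_pos (mul_pos_of_neg_of_neg (sub_neg.mpr hp) (sub_neg.mpr hq))
theorem sg_pn {x p q : ℝ} (hp : p < x) (hq : x < q) : sign ((x - p) * (x - q)) = -1 :=
  sgn_neg (mul_neg_of_pos_of_neg (sub_pos.mpr hp) (sub_neg.mpr hq))
theorem sg_np {x p q : ℝ} (hp : x < p) (hq : q < x) : sign ((x - p) * (x - q)) = -1 :=
  sgn_neg (mul_neg_of_neg_of_pos (sub_neg.mpr hp) (sub_pos.mpr hq))
theorem sg_1 {x p q : ℝ} {τ : SignType} (h : sign ((x - p) * (x - q)) = τ) :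
    sign ((1 : ℝ) * x ^ 2 + -((1 : ℝ) * (p + q)) * x + (1 : ℝ) * p * q) = τ :=
  sgq (by rw [one_mul]; exact h)
theorem sg_m {x p q : ℝ} {τ : SignType} (h : sign ((x - p) * (x - q)) = -τ) :
    sign ((-1 : ℝ) * x ^ 2 + -((-1 : ℝ) * (p + q)) * x + (-1 : ℝ) * p * q) = τ :=
  sgq (by
    rw [sign_mul, h, sign_neg (by norm_num : (-1 : ℝ) < 0)]
    have hh : ∀ τ : SignType, -1 * -τ = τ := by decide
    exact hh τ)
theorem sg_z1 {k p q : ℝ} : sign (k * p ^ 2 + -(k * (p + q)) * p + k * p * q) = 0 := by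
  have : k * p ^ 2 + -(k * (p + q)) * p + k * p * q = 0 := by ring
  rw [this, sign_zero]
theorem sg_z2 {k p q : ℝ} : sign (k * q ^ 2 + -(k * (p + q)) * q + k * p * q) = 0 := by
  have : k * q ^ 2 + -(k * (p + q)) * q + k * p * q = 0 := by ring
  rw [this, sign_zero]
theorem sd_1p {p q : ℝ} (h : q < p) : sign (2 * (1 : ℝ) * p + -((1 : ℝ) * (p + q))) = 1 :=
  sgn_pos (by linarith)
theorem sd_1n {p q : ℝ} (h : p < q) : sign (2 * (1 : ℝ) * p + -((1 : ℝ) * (p + q))) = -1 :=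
  sgn_neg (by linarith)
theorem sd_mp {p q : ℝ} (h : p < q) : sign (2 * (-1 : ℝ) * p + -((-1 : ℝ) * (p + q))) = 1 :=
  sgn_pos (by linarith)
theorem sd_mn {p q : ℝ} (h : q < p) : sign (2 * (-1 : ℝ) * p + -((-1 : ℝ) * (p + q))) = -1 :=
  sgn_neg (by linarith)
theorem sd_1p' {p q : ℝ} (h : p < q) : sign (2 * (1 : ℝ) * q + -((1 : ℝ) * (p + q))) = 1 :=
  sgn_pos (by linarith)
theorem sd_1n' {p q : ℝ} (h : q < p) : sign (2 * (1 : ℝ) * q + -((1 : ℝ) * (p + q))) = -1 :=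
  sgn_neg (by linarith)
theorem sd_mp' {p q : ℝ} (h : q < p) : sign (2 * (-1 : ℝ) * q + -((-1 : ℝ) * (p + q))) = 1 :=
  sgn_pos (by linarith)
theorem sd_mn' {p q : ℝ} (h : p < q) : sign (2 * (-1 : ℝ) * q + -((-1 : ℝ) * (p + q))) = -1 :=
  sgn_neg (by linarith)

variable {V : Type u} [AddCommGroup V] [Module K V] [FiniteDimensional K V] [Module ℝ V]
  [IsScalarTower ℝ K V]

/-- general window lemma -/
theorem win {m : ℕ} {blk : Fin m → Block} {cl : Fin m → Fin 9} {a b α β xm xp : ℝ}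
    (hcl : ∀ i, InC a b (blk i) (cl i)) (hbd : ∀ i, xm < eigv (blk i) ∧ eigv (blk i) < xp)
    {p2 p1 p0 : ℝ} {σR σa σQ σb σP δa δb γa γb : SignType} {PR PQ PP : SignType → Bool}
    (wp wm : Fin 9 → ℕ)
    (hγa0 : γa ≠ 0) (hγb0 : γb ≠ 0)
    (h1 : ∀ x, xm < x → x < a → sign (p2 * x ^ 2 + p1 * x + p0) = σR)
    (h2 : sign (p2 * a ^ 2 + p1 * a + p0) = σa)
    (h3 : ∀ x, a < x → x < b → sign (p2 * x ^ 2 + p1 * x + p0) = σQ)
    (h4 : sign (p2 * b ^ 2 + p1 * b + p0) = σb)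
    (h5 : ∀ x, b < x → x < xp → sign (p2 * x ^ 2 + p1 * x + p0) = σP)
    (h6 : sign (2 * p2 * a + p1) = δa ∨ σa ≠ 0) (h7 : sign (2 * p2 * b + p1) = δb ∨ σb ≠ 0)
    (h8 : sign (α + β * a) = γa) (h9 : sign (α + β * b) = γb)
    (h10 : ∀ x, x < a → PR (sign (α + β * x)) = true)
    (h11 : ∀ x, a < x → x < b → PQ (sign (α + β * x)) = true)
    (h12 : ∀ x, b < x → PP (sign (α + β * x)) = true)
    (h13 : Chk σR σa σQ σb σP δa δb γa γb PR PQ PP wp wm) :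
    ∑ i, negB (blk i) (qp p2 p1 p0 * lp α β) + ∑ i, wp (cl i) =
      ∑ i, negB (blk i) (lp α β) + ∑ i, wm (cl i) := by
  rw [← Finset.sum_add_distrib, ← Finset.sum_add_distrib]
  apply Finset.sum_congr rfl
  intro i _
  exact master (hcl i) (hbd i).1 (hbd i).2 h1 h2 h3 h4 h5 h6 h7 h8 h9 hγa0 hγb0 h10 h11 h12 h13

/-- evaluation of the tables -/
theorem tv0 (x0 x1 x2 x3 x4 x5 x6 x7 x8 : ℕ) : (![x0,x1,x2,x3,x4,x5,x6,x7,x8] : Fin 9 → ℕ) 0 = x0 := rfl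
theorem tv1 (x0 x1 x2 x3 x4 x5 x6 x7 x8 : ℕ) : (![x0,x1,x2,x3,x4,x5,x6,x7,x8] : Fin 9 → ℕ) 1 = x1 := rfl
theorem tv2 (x0 x1 x2 x3 x4 x5 x6 x7 x8 : ℕ) : (![x0,x1,x2,x3,x4,x5,x6,x7,x8] : Fin 9 → ℕ) 2 = x2 := rfl
theorem tv3 (x0 x1 x2 x3 x4 x5 x6 x7 x8 : ℕ) : (![x0,x1,x2,x3,x4,x5,x6,x7,x8] : Fin 9 → ℕ) 3 = x3 := rfl
theorem tv4 (x0 x1 x2 x3 x4 x5 x6 x7 x8 : ℕ) : (![x0,x1,x2,x3,x4,x5,x6,x7,x8] : Fin 9 → ℕ) 4 = x4 := rfl
theorem tv5 (x0 x1 x2 x3 x4 x5 x6 x7 x8 : ℕ) : (![x0,x1,x2,x3,x4,x5,x6,x7,x8] : Fin 9 → ℕ) 5 = x5 := rfl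
theorem tv6 (x0 x1 x2 x3 x4 x5 x6 x7 x8 : ℕ) : (![x0,x1,x2,x3,x4,x5,x6,x7,x8] : Fin 9 → ℕ) 6 = x6 := rfl
theorem tv7 (x0 x1 x2 x3 x4 x5 x6 x7 x8 : ℕ) : (![x0,x1,x2,x3,x4,x5,x6,x7,x8] : Fin 9 → ℕ) 7 = x7 := rfl
theorem tv8 (x0 x1 x2 x3 x4 x5 x6 x7 x8 : ℕ) : (![x0,x1,x2,x3,x4,x5,x6,x7,x8] : Fin 9 → ℕ) 8 = x8 := rfl

theorem w_F_f0 {m : ℕ} {blk : Fin m → Block} {cl : Fin m → Fin 9} {a b α β xm xp : ℝ}
    (hcl : ∀ i, InC a b (blk i) (cl i)) (hbd : ∀ i, xm < eigv (blk i) ∧ eigv (blk i) < xp)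
    (hab : a < b) (hxma : xm < a) (hxpb : b < xp)
    (hga : sign (α + β * a) = 1) (hgb : sign (α + β * b) = 1)
    (hgR : ∀ x, x < a → ptrue (sign (α + β * x)) = true)
    (hgQ : ∀ x, a < x → x < b → ppos (sign (α + β * x)) = true)
    (hgP : ∀ x, b < x → ptrue (sign (α + β * x)) = true) :
    ∑ i, negB (blk i) (qp (1) (-(1 * (a + b))) (1 * a * b) * lp α β) +
      ∑ i, (![0,0,1,1,1,0,1,1,0] : Fin 9 → ℕ) (cl i) =
      ∑ i, negB (blk i) (lp α β) + ∑ i, (![0,0,0,0,0,0,0,0,0] : Fin 9 → ℕ) (cl i) :=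
  win (σR := 1) (σa := 0) (σQ := (-1)) (σb := 0) (σP := 1) (δa := (-1)) (δb := 1)
    hcl hbd _ _ (γa := 1) (γb := 1) (by decide) (by decide)
    (fun x hx1 hx2 => (sg_1 (sg_nn hx2 (hx2.trans hab))))
    sg_z1
    (fun x hx1 hx2 => (sg_1 (sg_pn hx1 hx2)))
    sg_z2
    (fun x hx1 hx2 => (sg_1 (sg_pp (hab.trans hx1) hx1)))
    (Or.inl (sd_1n hab)) (Or.inl (sd_1p' hab))
    hga hgb hgR hgQ hgP (by unfold Chk; decide)

theorem w_W2_p1 {m : ℕ} {blk : Fin m → Block} {cl : Fin m → Fin 9} {a b α β xm xp : ℝ}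
    (hcl : ∀ i, InC a b (blk i) (cl i)) (hbd : ∀ i, xm < eigv (blk i) ∧ eigv (blk i) < xp)
    (hab : a < b) (hxma : xm < a) (hxpb : b < xp)
    (hga : sign (α + β * a) = (-1)) (hgb : sign (α + β * b) = 1)
    (hgR : ∀ x, x < a → pneg (sign (α + β * x)) = true)
    (hgQ : ∀ x, a < x → x < b → ptrue (sign (α + β * x)) = true)
    (hgP : ∀ x, b < x → ppos (sign (α + β * x)) = true) :
    ∑ i, negB (blk i) (qp (1) (-(1 * (xm + a))) (1 * xm * a) * lp α β) +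
      ∑ i, (![1,1,0,1,0,0,0,0,0] : Fin 9 → ℕ) (cl i) =
      ∑ i, negB (blk i) (lp α β) + ∑ i, (![0,0,0,0,0,0,0,0,0] : Fin 9 → ℕ) (cl i) :=
  win (σR := (-1)) (σa := 0) (σQ := 1) (σb := 1) (σP := 1) (δa := 1) (δb := 1)
    hcl hbd _ _ (γa := (-1)) (γb := 1) (by decide) (by decide)
    (fun x hx1 hx2 => (sg_1 (sg_pn hx1 hx2)))
    sg_z2
    (fun x hx1 hx2 => (sg_1 (sg_pp (hxma.trans hx1) hx1)))
    (sg_1 (sg_pp (hxma.trans hab) hab))
    (fun x hx1 hx2 => (sg_1 (sg_pp ((hxma.trans hab).trans hx1) (hab.trans hx1))))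
    (Or.inl (sd_1p' hxma)) (Or.inr (by decide))
    hga hgb hgR hgQ hgP (by unfold Chk; decide)

theorem w_W2_p5 {m : ℕ} {blk : Fin m → Block} {cl : Fin m → Fin 9} {a b α β xm xp : ℝ}
    (hcl : ∀ i, InC a b (blk i) (cl i)) (hbd : ∀ i, xm < eigv (blk i) ∧ eigv (blk i) < xp)
    (hab : a < b) (hxma : xm < a) (hxpb : b < xp)
    (hga : sign (α + β * a) = (-1)) (hgb : sign (α + β * b) = 1)
    (hgR : ∀ x, x < a → pneg (sign (α + β * x)) = true)
    (hgQ : ∀ x, a < x → x < b → ptrue (sign (α + β * x)) = true)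
    (hgP : ∀ x, b < x → ppos (sign (α + β * x)) = true) :
    ∑ i, negB (blk i) (qp ((-1)) (-((-1) * (a + b))) ((-1) * a * b) * lp α β) +
      ∑ i, (![1,1,0,1,0,0,1,0,0] : Fin 9 → ℕ) (cl i) =
      ∑ i, negB (blk i) (lp α β) + ∑ i, (![0,0,0,0,0,0,0,0,1] : Fin 9 → ℕ) (cl i) :=
  win (σR := (-1)) (σa := 0) (σQ := 1) (σb := 0) (σP := (-1)) (δa := 1) (δb := (-1))
    hcl hbd _ _ (γa := (-1)) (γb := 1) (by decide) (by decide)
    (fun x hx1 hx2 => (sg_m (sg_nn hx2 (hx2.trans hab))))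
    sg_z1
    (fun x hx1 hx2 => (sg_m (sg_pn hx1 hx2)))
    sg_z2
    (fun x hx1 hx2 => (sg_m (sg_pp (hab.trans hx1) hx1)))
    (Or.inl (sd_mp hab)) (Or.inl (sd_mn' hab))
    hga hgb hgR hgQ hgP (by unfold Chk; decide)

theorem w_W3_p1m {m : ℕ} {blk : Fin m → Block} {cl : Fin m → Fin 9} {a b α β xm xp : ℝ}
    (hcl : ∀ i, InC a b (blk i) (cl i)) (hbd : ∀ i, xm < eigv (blk i) ∧ eigv (blk i) < xp)
    (hab : a < b) (hxma : xm < a) (hxpb : b < xp)
    (hga : sign (α + β * a) = 1) (hgb : sign (α + β * b) = (-1))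
    (hgR : ∀ x, x < a → ppos (sign (α + β * x)) = true)
    (hgQ : ∀ x, a < x → x < b → ptrue (sign (α + β * x)) = true)
    (hgP : ∀ x, b < x → pneg (sign (α + β * x)) = true) :
    ∑ i, negB (blk i) (qp (1) (-(1 * (xp + b))) (1 * xp * b) * lp α β) +
      ∑ i, (![0,0,0,0,0,1,0,1,1] : Fin 9 → ℕ) (cl i) =
      ∑ i, negB (blk i) (lp α β) + ∑ i, (![0,0,0,0,0,0,0,0,0] : Fin 9 → ℕ) (cl i) :=
  win (σR := 1) (σa := 1) (σQ := 1) (σb := 0) (σP := (-1)) (δa := 1) (δb := (-1))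
    hcl hbd _ _ (γa := 1) (γb := (-1)) (by decide) (by decide)
    (fun x hx1 hx2 => (sg_1 (sg_nn (hx2.trans (hab.trans hxpb)) (hx2.trans hab))))
    (sg_1 (sg_nn (hab.trans hxpb) hab))
    (fun x hx1 hx2 => (sg_1 (sg_nn (hx2.trans hxpb) hx2)))
    sg_z2
    (fun x hx1 hx2 => (sg_1 (sg_np hx2 hx1)))
    (Or.inr (by decide)) (Or.inl (sd_1n' hxpb))
    hga hgb hgR hgQ hgP (by unfold Chk; decide)

theorem w_W3_p5 {m : ℕ} {blk : Fin m → Block} {cl : Fin m → Fin 9} {a b α β xm xp : ℝ}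
    (hcl : ∀ i, InC a b (blk i) (cl i)) (hbd : ∀ i, xm < eigv (blk i) ∧ eigv (blk i) < xp)
    (hab : a < b) (hxma : xm < a) (hxpb : b < xp)
    (hga : sign (α + β * a) = 1) (hgb : sign (α + β * b) = (-1))
    (hgR : ∀ x, x < a → ppos (sign (α + β * x)) = true)
    (hgQ : ∀ x, a < x → x < b → ptrue (sign (α + β * x)) = true)
    (hgP : ∀ x, b < x → pneg (sign (α + β * x)) = true) :
    ∑ i, negB (blk i) (qp ((-1)) (-((-1) * (a + b))) ((-1) * a * b) * lp α β) +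
      ∑ i, (![0,0,1,0,0,1,0,1,1] : Fin 9 → ℕ) (cl i) =
      ∑ i, negB (blk i) (lp α β) + ∑ i, (![1,0,0,0,0,0,0,0,0] : Fin 9 → ℕ) (cl i) :=
  win (σR := (-1)) (σa := 0) (σQ := 1) (σb := 0) (σP := (-1)) (δa := 1) (δb := (-1))
    hcl hbd _ _ (γa := 1) (γb := (-1)) (by decide) (by decide)
    (fun x hx1 hx2 => (sg_m (sg_nn hx2 (hx2.trans hab))))
    sg_z1
    (fun x hx1 hx2 => (sg_m (sg_pn hx1 hx2)))
    sg_z2
    (fun x hx1 hx2 => (sg_m (sg_pp (hab.trans hx1) hx1)))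
    (Or.inl (sd_mp hab)) (Or.inl (sd_mn' hab))
    hga hgb hgR hgQ hgP (by unfold Chk; decide)

theorem w_W1_p1 {m : ℕ} {blk : Fin m → Block} {cl : Fin m → Fin 9} {a b α β xm xp : ℝ}
    (hcl : ∀ i, InC a b (blk i) (cl i)) (hbd : ∀ i, xm < eigv (blk i) ∧ eigv (blk i) < xp)
    (hab : a < b) (hxma : xm < a) (hxpb : b < xp)
    (hga : sign (α + β * a) = (-1)) (hgb : sign (α + β * b) = (-1))
    (hgR : ∀ x, x < a → pneg (sign (α + β * x)) = true)
    (hgQ : ∀ x, a < x → x < b → pneg (sign (α + β * x)) = true)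
    (hgP : ∀ x, b < x → ptrue (sign (α + β * x)) = true) :
    ∑ i, negB (blk i) (qp (1) (-(1 * (xm + a))) (1 * xm * a) * lp α β) +
      ∑ i, (![1,1,0,1,0,0,0,0,0] : Fin 9 → ℕ) (cl i) =
      ∑ i, negB (blk i) (lp α β) + ∑ i, (![0,0,0,0,0,0,0,0,0] : Fin 9 → ℕ) (cl i) :=
  win (σR := (-1)) (σa := 0) (σQ := 1) (σb := 1) (σP := 1) (δa := 1) (δb := 1)
    hcl hbd _ _ (γa := (-1)) (γb := (-1)) (by decide) (by decide)
    (fun x hx1 hx2 => (sg_1 (sg_pn hx1 hx2)))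
    sg_z2
    (fun x hx1 hx2 => (sg_1 (sg_pp (hxma.trans hx1) hx1)))
    (sg_1 (sg_pp (hxma.trans hab) hab))
    (fun x hx1 hx2 => (sg_1 (sg_pp ((hxma.trans hab).trans hx1) (hab.trans hx1))))
    (Or.inl (sd_1p' hxma)) (Or.inr (by decide))
    hga hgb hgR hgQ hgP (by unfold Chk; decide)

theorem w_W1_p3 {m : ℕ} {blk : Fin m → Block} {cl : Fin m → Fin 9} {a b α β xm xp : ℝ}
    (hcl : ∀ i, InC a b (blk i) (cl i)) (hbd : ∀ i, xm < eigv (blk i) ∧ eigv (blk i) < xp)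
    (hab : a < b) (hxma : xm < a) (hxpb : b < xp)
    (hga : sign (α + β * a) = (-1)) (hgb : sign (α + β * b) = (-1))
    (hgR : ∀ x, x < a → pneg (sign (α + β * x)) = true)
    (hgQ : ∀ x, a < x → x < b → pneg (sign (α + β * x)) = true)
    (hgP : ∀ x, b < x → ptrue (sign (α + β * x)) = true) :
    ∑ i, negB (blk i) (qp (1) (-(1 * (xm + b))) (1 * xm * b) * lp α β) +
      ∑ i, (![1,1,0,0,0,1,0,0,0] : Fin 9 → ℕ) (cl i) =
      ∑ i, negB (blk i) (lp α β) + ∑ i, (![0,0,1,0,1,0,0,0,0] : Fin 9 → ℕ) (cl i) :=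
  win (σR := (-1)) (σa := (-1)) (σQ := (-1)) (σb := 0) (σP := 1) (δa := 1) (δb := 1)
    hcl hbd _ _ (γa := (-1)) (γb := (-1)) (by decide) (by decide)
    (fun x hx1 hx2 => (sg_1 (sg_pn hx1 (hx2.trans hab))))
    (sg_1 (sg_pn hxma hab))
    (fun x hx1 hx2 => (sg_1 (sg_pn (hxma.trans hx1) hx2)))
    sg_z2
    (fun x hx1 hx2 => (sg_1 (sg_pp ((hxma.trans hab).trans hx1) hx1)))
    (Or.inr (by decide)) (Or.inl (sd_1p' (hxma.trans hab)))
    hga hgb hgR hgQ hgP (by unfold Chk; decide)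

theorem w_W1_f0 {m : ℕ} {blk : Fin m → Block} {cl : Fin m → Fin 9} {a b α β xm xp : ℝ}
    (hcl : ∀ i, InC a b (blk i) (cl i)) (hbd : ∀ i, xm < eigv (blk i) ∧ eigv (blk i) < xp)
    (hab : a < b) (hxma : xm < a) (hxpb : b < xp)
    (hga : sign (α + β * a) = (-1)) (hgb : sign (α + β * b) = (-1))
    (hgR : ∀ x, x < a → pneg (sign (α + β * x)) = true)
    (hgQ : ∀ x, a < x → x < b → pneg (sign (α + β * x)) = true)
    (hgP : ∀ x, b < x → ptrue (sign (α + β * x)) = true) :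
    ∑ i, negB (blk i) (qp (1) (-(1 * (a + b))) (1 * a * b) * lp α β) +
      ∑ i, (![0,1,0,0,0,1,0,0,0] : Fin 9 → ℕ) (cl i) =
      ∑ i, negB (blk i) (lp α β) + ∑ i, (![0,0,0,0,1,0,0,0,0] : Fin 9 → ℕ) (cl i) :=
  win (σR := 1) (σa := 0) (σQ := (-1)) (σb := 0) (σP := 1) (δa := (-1)) (δb := 1)
    hcl hbd _ _ (γa := (-1)) (γb := (-1)) (by decide) (by decide)
    (fun x hx1 hx2 => (sg_1 (sg_nn hx2 (hx2.trans hab))))
    sg_z1
    (fun x hx1 hx2 => (sg_1 (sg_pn hx1 hx2)))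
    sg_z2
    (fun x hx1 hx2 => (sg_1 (sg_pp (hab.trans hx1) hx1)))
    (Or.inl (sd_1n hab)) (Or.inl (sd_1p' hab))
    hga hgb hgR hgQ hgP (by unfold Chk; decide)

theorem w_W4_p1m {m : ℕ} {blk : Fin m → Block} {cl : Fin m → Fin 9} {a b α β xm xp : ℝ}
    (hcl : ∀ i, InC a b (blk i) (cl i)) (hbd : ∀ i, xm < eigv (blk i) ∧ eigv (blk i) < xp)
    (hab : a < b) (hxma : xm < a) (hxpb : b < xp)
    (hga : sign (α + β * a) = (-1)) (hgb : sign (α + β * b) = (-1))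
    (hgR : ∀ x, x < a → ptrue (sign (α + β * x)) = true)
    (hgQ : ∀ x, a < x → x < b → pneg (sign (α + β * x)) = true)
    (hgP : ∀ x, b < x → pneg (sign (α + β * x)) = true) :
    ∑ i, negB (blk i) (qp (1) (-(1 * (xp + b))) (1 * xp * b) * lp α β) +
      ∑ i, (![0,0,0,0,0,1,0,1,1] : Fin 9 → ℕ) (cl i) =
      ∑ i, negB (blk i) (lp α β) + ∑ i, (![0,0,0,0,0,0,0,0,0] : Fin 9 → ℕ) (cl i) :=
  win (σR := 1) (σa := 1) (σQ := 1) (σb := 0) (σP := (-1)) (δa := 1) (δb := (-1))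
    hcl hbd _ _ (γa := (-1)) (γb := (-1)) (by decide) (by decide)
    (fun x hx1 hx2 => (sg_1 (sg_nn (hx2.trans (hab.trans hxpb)) (hx2.trans hab))))
    (sg_1 (sg_nn (hab.trans hxpb) hab))
    (fun x hx1 hx2 => (sg_1 (sg_nn (hx2.trans hxpb) hx2)))
    sg_z2
    (fun x hx1 hx2 => (sg_1 (sg_np hx2 hx1)))
    (Or.inr (by decide)) (Or.inl (sd_1n' hxpb))
    hga hgb hgR hgQ hgP (by unfold Chk; decide)

theorem w_W4_p3m {m : ℕ} {blk : Fin m → Block} {cl : Fin m → Fin 9} {a b α β xm xp : ℝ}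
    (hcl : ∀ i, InC a b (blk i) (cl i)) (hbd : ∀ i, xm < eigv (blk i) ∧ eigv (blk i) < xp)
    (hab : a < b) (hxma : xm < a) (hxpb : b < xp)
    (hga : sign (α + β * a) = (-1)) (hgb : sign (α + β * b) = (-1))
    (hgR : ∀ x, x < a → ptrue (sign (α + β * x)) = true)
    (hgQ : ∀ x, a < x → x < b → pneg (sign (α + β * x)) = true)
    (hgP : ∀ x, b < x → pneg (sign (α + β * x)) = true) :
    ∑ i, negB (blk i) (qp (1) (-(1 * (xp + a))) (1 * xp * a) * lp α β) +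
      ∑ i, (![0,1,0,0,0,1,0,0,1] : Fin 9 → ℕ) (cl i) =
      ∑ i, negB (blk i) (lp α β) + ∑ i, (![0,0,0,0,1,0,1,0,0] : Fin 9 → ℕ) (cl i) :=
  win (σR := 1) (σa := 0) (σQ := (-1)) (σb := (-1)) (σP := (-1)) (δa := (-1)) (δb := 1)
    hcl hbd _ _ (γa := (-1)) (γb := (-1)) (by decide) (by decide)
    (fun x hx1 hx2 => (sg_1 (sg_nn (hx2.trans (hab.trans hxpb)) hx2)))
    sg_z2
    (fun x hx1 hx2 => (sg_1 (sg_np (hx2.trans hxpb) hx1)))
    (sg_1 (sg_np hxpb hab))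
    (fun x hx1 hx2 => (sg_1 (sg_np hx2 (hab.trans hx1))))
    (Or.inl (sd_1n' (hab.trans hxpb))) (Or.inr (by decide))
    hga hgb hgR hgQ hgP (by unfold Chk; decide)

theorem w_W4_f0 {m : ℕ} {blk : Fin m → Block} {cl : Fin m → Fin 9} {a b α β xm xp : ℝ}
    (hcl : ∀ i, InC a b (blk i) (cl i)) (hbd : ∀ i, xm < eigv (blk i) ∧ eigv (blk i) < xp)
    (hab : a < b) (hxma : xm < a) (hxpb : b < xp)
    (hga : sign (α + β * a) = (-1)) (hgb : sign (α + β * b) = (-1))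
    (hgR : ∀ x, x < a → ptrue (sign (α + β * x)) = true)
    (hgQ : ∀ x, a < x → x < b → pneg (sign (α + β * x)) = true)
    (hgP : ∀ x, b < x → pneg (sign (α + β * x)) = true) :
    ∑ i, negB (blk i) (qp (1) (-(1 * (a + b))) (1 * a * b) * lp α β) +
      ∑ i, (![0,1,0,0,0,1,0,0,0] : Fin 9 → ℕ) (cl i) =
      ∑ i, negB (blk i) (lp α β) + ∑ i, (![0,0,0,0,1,0,0,0,0] : Fin 9 → ℕ) (cl i) :=
  win (σR := 1) (σa := 0) (σQ := (-1)) (σb := 0) (σP := 1) (δa := (-1)) (δb := 1)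
    hcl hbd _ _ (γa := (-1)) (γb := (-1)) (by decide) (by decide)
    (fun x hx1 hx2 => (sg_1 (sg_nn hx2 (hx2.trans hab))))
    sg_z1
    (fun x hx1 hx2 => (sg_1 (sg_pn hx1 hx2)))
    sg_z2
    (fun x hx1 hx2 => (sg_1 (sg_pp (hab.trans hx1) hx1)))
    (Or.inl (sd_1n hab)) (Or.inl (sd_1p' hab))
    hga hgb hgR hgQ hgP (by unfold Chk; decide)

theorem crit_H (C F : HForm V) (hC : C.NS) (X : V →ₗ[K] V) (h : C.SA X)
    (hX : ∀ x y, C.f x (X y) = F.f x y) {m : ℕ} {blk : Fin m → Block}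
    {e : (i : Fin m) → Fin (blk i).size → V} (hd : XDec C X blk e) {a b : ℝ} (hab : a < b)
    (hT : TypeH a b blk) : Crit C F := by
  apply crit_of_poly C F hC X h hX
  intro α β hns
  obtain ⟨hadm, hA, hB, hJ1, hJ2⟩ := hT
  have hex : ∀ i, ∃ c, InC a b (blk i) c := fun i =>
    exists_cls hab ((hadm i).resolve_left (hd.act i).ne_null)
  choose cl hcl using hex
  obtain ⟨N, hN⟩ := tab9 cl
  rw [cnt_eq blk cl _ _ (fun i => tab1 hab (hcl i)), cnt_eq blk cl _ _ (fun i => tab2 hab (hcl i)),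
    cnt_eq blk cl _ _ (fun i => tab3 hab (hcl i)), cnt_eq blk cl _ _ (fun i => tab4 hab (hcl i)),
    cnt_eq blk cl _ _ (fun i => tab5 hab (hcl i)), hN, hN, hN, hN, hN] at hJ1
  rw [cnt_eq blk cl _ _ (fun i => tab1' hab (hcl i)), cnt_eq blk cl _ _ (fun i => tab2' hab (hcl i)),
    cnt_eq blk cl _ _ (fun i => tab3' hab (hcl i)), cnt_eq blk cl _ _ (fun i => tab4' hab (hcl i)),
    cnt_eq blk cl _ _ (fun i => tab5' hab (hcl i)), hN, hN, hN, hN, hN] at hJ2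
  -- a, b are eigenvalues
  have hca : α + β * a ≠ 0 := by
    obtain ⟨i, hi | hi⟩ := exists_of_cnt blk _ hA
    · exact hd.c_ne hX hns i _ _ _ hi
    · exact hd.c_ne hX hns i _ _ _ hi
  have hcb : α + β * b ≠ 0 := by
    obtain ⟨i, hi | hi⟩ := exists_of_cnt blk _ hB
    · exact hd.c_ne hX hns i _ _ _ hi
    · exact hd.c_ne hX hns i _ _ _ hi
  obtain ⟨xm, xp, hxma, _, _, hxpb, hbd⟩ := exists_bounds blk a b
  have hD : ∑ i, negB (blk i) 1 = ∑ i, (![0,0,1,1,1,0,1,1,0] : Fin 9 → ℕ) (cl i) :=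
    Finset.sum_congr rfl (fun i _ => tabD (hcl i))
  rw [hN] at hD
  simp only [hd.negIndex_ph h]
  rw [hD]
  clear hD hA hB hns hd hC hX h hadm
  rcases lt_or_gt_of_ne hca with hc_a | hc_a
  · rcases lt_or_gt_of_ne hcb with hc_b | hc_b
    · -- both negative
      rcases le_total 0 β with hβ | hβ
      · -- W1
        have hc_xm : α + β * xm < 0 := cneg_left hβ hc_a hxma.le
        have hga : sign (α + β * a) = (-1) := sgn_neg hc_a
        have hgb : sign (α + β * b) = (-1) := sgn_neg hc_b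
        have hgR : ∀ x, x < a → pneg (sign (α + β * x)) = true := fun x hx => by rw [sgn_neg (cneg_left hβ hc_a hx.le)]; rfl
        have hgQ : ∀ x, a < x → x < b → pneg (sign (α + β * x)) = true := fun x hx1 hx2 => by rw [sgn_neg (cneg_left hβ hc_b hx2.le)]; rfl
        have hgP : ∀ x, b < x → ptrue (sign (α + β * x)) = true := fun _ hx => rfl
        rcases le_total (N 6) (N 8) with hm | hm
        · -- p1
          have hw := w_W1_p1 hcl hbd hab hxma hxpb hga hgb hgR hgQ hgP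
          rw [hN, hN] at hw
          refine ⟨_, _, _, posf1 (mul_pos_of_neg_of_neg hc_xm hc_a), ?_⟩
          simp only [Fin.isValue, tv0, tv1, tv2, tv3, tv4, tv5, tv6, tv7, tv8, mul_one, mul_zero, add_zero, zero_add] at hJ1 hJ2 hw ⊢
          omega
        · rcases le_total (N 2) (N 0) with hm2 | hm2
          · -- p3
            have hw := w_W1_p3 hcl hbd hab hxma hxpb hga hgb hgR hgQ hgP
            rw [hN, hN] at hw
            refine ⟨_, _, _, posf1 (mul_pos_of_neg_of_neg hc_xm hc_b), ?_⟩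
            simp only [Fin.isValue, tv0, tv1, tv2, tv3, tv4, tv5, tv6, tv7, tv8, mul_one, mul_zero, add_zero, zero_add] at hJ1 hJ2 hw ⊢
            omega
          · -- f0
            have hw := w_W1_f0 hcl hbd hab hxma hxpb hga hgb hgR hgQ hgP
            rw [hN, hN] at hw
            refine ⟨_, _, _, posf1 (mul_pos_of_neg_of_neg hc_a hc_b), ?_⟩
            simp only [Fin.isValue, tv0, tv1, tv2, tv3, tv4, tv5, tv6, tv7, tv8, mul_one, mul_zero, add_zero, zero_add] at hJ1 hJ2 hw ⊢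
            omega
      · -- W4
        have hc_xp : α + β * xp < 0 := cneg_right hβ hc_b hxpb.le
        have hga : sign (α + β * a) = (-1) := sgn_neg hc_a
        have hgb : sign (α + β * b) = (-1) := sgn_neg hc_b
        have hgR : ∀ x, x < a → ptrue (sign (α + β * x)) = true := fun _ hx => rfl
        have hgQ : ∀ x, a < x → x < b → pneg (sign (α + β * x)) = true := fun x hx1 hx2 => by rw [sgn_neg (cneg_right hβ hc_a hx1.le)]; rfl
        have hgP : ∀ x, b < x → pneg (sign (α + β * x)) = true := fun x hx => by rw [sgn_neg (cneg_right hβ hc_b hx.le)]; rfl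
        rcases le_total (N 2) (N 0) with hm | hm
        · -- p1m
          have hw := w_W4_p1m hcl hbd hab hxma hxpb hga hgb hgR hgQ hgP
          rw [hN, hN] at hw
          refine ⟨_, _, _, posf1 (mul_pos_of_neg_of_neg hc_xp hc_b), ?_⟩
          simp only [Fin.isValue, tv0, tv1, tv2, tv3, tv4, tv5, tv6, tv7, tv8, mul_one, mul_zero, add_zero, zero_add] at hJ1 hJ2 hw ⊢
          omega
        · rcases le_total (N 6) (N 8) with hm2 | hm2
          · -- p3m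
            have hw := w_W4_p3m hcl hbd hab hxma hxpb hga hgb hgR hgQ hgP
            rw [hN, hN] at hw
            refine ⟨_, _, _, posf1 (mul_pos_of_neg_of_neg hc_xp hc_a), ?_⟩
            simp only [Fin.isValue, tv0, tv1, tv2, tv3, tv4, tv5, tv6, tv7, tv8, mul_one, mul_zero, add_zero, zero_add] at hJ1 hJ2 hw ⊢
            omega
          · -- f0
            have hw := w_W4_f0 hcl hbd hab hxma hxpb hga hgb hgR hgQ hgP
            rw [hN, hN] at hw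
            refine ⟨_, _, _, posf1 (mul_pos_of_neg_of_neg hc_a hc_b), ?_⟩
            simp only [Fin.isValue, tv0, tv1, tv2, tv3, tv4, tv5, tv6, tv7, tv8, mul_one, mul_zero, add_zero, zero_add] at hJ1 hJ2 hw ⊢
            omega
    · -- W2: c(a) < 0 < c(b)
      have hβ : 0 < β := bpos hc_a hc_b hab
      have hc_xm : α + β * xm < 0 := cneg_left hβ.le hc_a hxma.le
      have hga : sign (α + β * a) = (-1) := sgn_neg hc_a
      have hgb : sign (α + β * b) = 1 := sgn_pos hc_b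
      have hgR : ∀ x, x < a → pneg (sign (α + β * x)) = true := fun x hx => by rw [sgn_neg (cneg_left hβ.le hc_a hx.le)]; rfl
      have hgQ : ∀ x, a < x → x < b → ptrue (sign (α + β * x)) = true := fun _ hx1 hx2 => rfl
      have hgP : ∀ x, b < x → ppos (sign (α + β * x)) = true := fun x hx => by rw [sgn_pos (cpos_right hβ.le hc_b hx.le)]; rfl
      rcases le_total (N 6) (N 8) with hm | hm
      · -- p1
        have hw := w_W2_p1 hcl hbd hab hxma hxpb hga hgb hgR hgQ hgP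
        rw [hN, hN] at hw
        refine ⟨_, _, _, posf1 (mul_pos_of_neg_of_neg hc_xm hc_a), ?_⟩
        simp only [Fin.isValue, tv0, tv1, tv2, tv3, tv4, tv5, tv6, tv7, tv8, mul_one, mul_zero, add_zero, zero_add] at hJ1 hJ2 hw ⊢
        omega
      · -- p5
        have hw := w_W2_p5 hcl hbd hab hxma hxpb hga hgb hgR hgQ hgP
        rw [hN, hN] at hw
        refine ⟨_, _, _, posfm (mul_neg_of_neg_of_pos hc_a hc_b), ?_⟩
        simp only [Fin.isValue, tv0, tv1, tv2, tv3, tv4, tv5, tv6, tv7, tv8, mul_one, mul_zero, add_zero, zero_add] at hJ1 hJ2 hw ⊢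
        omega
  · rcases lt_or_gt_of_ne hcb with hc_b | hc_b
    · -- W3: c(b) < 0 < c(a)
      have hβ : β < 0 := bneg hc_a hc_b hab
      have hc_xp : α + β * xp < 0 := cneg_right hβ.le hc_b hxpb.le
      have hga : sign (α + β * a) = 1 := sgn_pos hc_a
      have hgb : sign (α + β * b) = (-1) := sgn_neg hc_b
      have hgR : ∀ x, x < a → ppos (sign (α + β * x)) = true := fun x hx => by rw [sgn_pos (cpos_left hβ.le hc_a hx.le)]; rfl
      have hgQ : ∀ x, a < x → x < b → ptrue (sign (α + β * x)) = true := fun _ hx1 hx2 => rfl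
      have hgP : ∀ x, b < x → pneg (sign (α + β * x)) = true := fun x hx => by rw [sgn_neg (cneg_right hβ.le hc_b hx.le)]; rfl
      rcases le_total (N 2) (N 0) with hm | hm
      · -- p1m
        have hw := w_W3_p1m hcl hbd hab hxma hxpb hga hgb hgR hgQ hgP
        rw [hN, hN] at hw
        refine ⟨_, _, _, posf1 (mul_pos_of_neg_of_neg hc_xp hc_b), ?_⟩
        simp only [Fin.isValue, tv0, tv1, tv2, tv3, tv4, tv5, tv6, tv7, tv8, mul_one, mul_zero, add_zero, zero_add] at hJ1 hJ2 hw ⊢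
        omega
      · -- p5
        have hw := w_W3_p5 hcl hbd hab hxma hxpb hga hgb hgR hgQ hgP
        rw [hN, hN] at hw
        refine ⟨_, _, _, posfm (mul_neg_of_pos_of_neg hc_a hc_b), ?_⟩
        simp only [Fin.isValue, tv0, tv1, tv2, tv3, tv4, tv5, tv6, tv7, tv8, mul_one, mul_zero, add_zero, zero_add] at hJ1 hJ2 hw ⊢
        omega
    · -- F
      have hga : sign (α + β * a) = 1 := sgn_pos hc_a
      have hgb : sign (α + β * b) = 1 := sgn_pos hc_b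
      have hgR : ∀ x, x < a → ptrue (sign (α + β * x)) = true := fun _ hx => rfl
      have hgQ : ∀ x, a < x → x < b → ppos (sign (α + β * x)) = true := fun x hx1 hx2 => by rw [sgn_pos (cpos_mid hc_a hc_b hab hx1 hx2)]; rfl
      have hgP : ∀ x, b < x → ptrue (sign (α + β * x)) = true := fun _ hx => rfl
      have hw := w_F_f0 hcl hbd hab hxma hxpb hga hgb hgR hgQ hgP
      rw [hN, hN] at hw
      refine ⟨_, _, _, posf1 (mul_pos hc_a hc_b), ?_⟩
      simp only [Fin.isValue, tv0, tv1, tv2, tv3, tv4, tv5, tv6, tv7, tv8, mul_one, mul_zero, add_zero, zero_add] at hJ1 hJ2 hw ⊢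
      omega

end Pool.Agent.Lib_c77211
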