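import Pool.Agent.Lib_c77211.CritH

open Quaternion MulOpposite Module

noncomputable section

namespace Pool.Agent.Lib_c77211

set_option linter.unusedSectionVars false
set_option linter.deprecated false

universe u

open SignType

theorem tab7 {m : ℕ} (cl : Fin m → Fin 7) : ∃ N : Fin 7 → ℕ, ∀ G : Fin 7 → ℕ,
    ∑ i, G (cl i) = N 0 * G 0 + N 1 * G 1 + N 2 * G 2 + N 3 * G 3 + N 4 * G 4 + N 5 * G 5 +
      N 6 * G 6 := by
  refine ⟨fun c => (Finset.univ.filter fun i => cl i = c).card, fun G => ?_⟩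
  rw [tab_sum]
  simp only [Fin.sum_univ_succ, Fin.sum_univ_zero]
  simp only [Fin.isValue, Finset.univ_eq_empty, Finset.sum_empty, add_zero, add_assoc]
  rfl

/-- evaluation of the tables -/
theorem sv0 (x0 x1 x2 x3 x4 x5 x6 : ℕ) : (![x0,x1,x2,x3,x4,x5,x6] : Fin 7 → ℕ) 0 = x0 := rfl
theorem sv1 (x0 x1 x2 x3 x4 x5 x6 : ℕ) : (![x0,x1,x2,x3,x4,x5,x6] : Fin 7 → ℕ) 1 = x1 := rfl
theorem sv2 (x0 x1 x2 x3 x4 x5 x6 : ℕ) : (![x0,x1,x2,x3,x4,x5,x6] : Fin 7 → ℕ) 2 = x2 := rfl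
theorem sv3 (x0 x1 x2 x3 x4 x5 x6 : ℕ) : (![x0,x1,x2,x3,x4,x5,x6] : Fin 7 → ℕ) 3 = x3 := rfl
theorem sv4 (x0 x1 x2 x3 x4 x5 x6 : ℕ) : (![x0,x1,x2,x3,x4,x5,x6] : Fin 7 → ℕ) 4 = x4 := rfl
theorem sv5 (x0 x1 x2 x3 x4 x5 x6 : ℕ) : (![x0,x1,x2,x3,x4,x5,x6] : Fin 7 → ℕ) 5 = x5 := rfl
theorem sv6 (x0 x1 x2 x3 x4 x5 x6 : ℕ) : (![x0,x1,x2,x3,x4,x5,x6] : Fin 7 → ℕ) 6 = x6 := rfl

/-- classes of blocks in the parabolic type -/
inductive InP (a : ℝ) : Block → Fin 7 → Prop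
  | R (x : ℝ) (h : x < a) : InP a (.jordan 1 1 x) 0
  | Ap : InP a (.jordan 1 1 a) 1
  | Am : InP a (.jordan 1 (-1) a) 2
  | Bm : InP a (.jordan 2 (-1) a) 3
  | Bp : InP a (.jordan 2 1 a) 4
  | T : InP a (.jordan 3 1 a) 5
  | Pp (x : ℝ) (h : a < x) : InP a (.jordan 1 1 x) 6

def ChkP (σR δ σP γa : SignType) (PR PP : SignType → Bool) (wp wm : Fin 7 → ℕ) : Prop :=
  (∀ γ, PR γ = true → n1 1 σR γ + wp 0 = n1 1 1 γ + wm 0) ∧
  (n1 1 0 γa + wp 1 = n1 1 1 γa + wm 1) ∧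
  (n1 (-1) 0 γa + wp 2 = n1 (-1) 1 γa + wm 2) ∧
  (n2 (-1) 0 δ γa + wp 3 = 1 + wm 3) ∧
  (n2 1 0 δ γa + wp 4 = 1 + wm 4) ∧
  (n3 δ 1 γa + wp 5 = (if γa = -1 then 2 else 1) + wm 5) ∧
  (∀ γ, PP γ = true → n1 1 σP γ + wp 6 = n1 1 1 γ + wm 6)

theorem masterP {a α β p1 p0 xm xp : ℝ} {t : Block} {c : Fin 7} (hc : InP a t c)
    (hxm : xm < eigv t) (hxp : eigv t < xp)
    {σR δ σP γa : SignType} {PR PP : SignType → Bool} {wp wm : Fin 7 → ℕ}
    (hR : ∀ x, xm < x → x < a → sign (1 * x ^ 2 + p1 * x + p0) = σR)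
    (ha : 1 * a ^ 2 + p1 * a + p0 = 0)
    (hP : ∀ x, a < x → x < xp → sign (1 * x ^ 2 + p1 * x + p0) = σP)
    (hda : sign (2 * 1 * a + p1) = δ)
    (hγa : sign (α + β * a) = γa) (hγa0 : γa ≠ 0)
    (hγR : ∀ x, x < a → PR (sign (α + β * x)) = true)
    (hγP : ∀ x, a < x → PP (sign (α + β * x)) = true)
    (hchk : ChkP σR δ σP γa PR PP wp wm) :
    negB t (qp 1 p1 p0 * lp α β) + wp c = negB t (lp α β) + wm c := by
  obtain ⟨c0, c1, c2, c3, c4, c5, c6⟩ := hchk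
  have hca : α + β * a ≠ 0 := by
    intro h; apply hγa0; rw [← hγa, h, sign_zero]
  have ha' : sign (1 * a ^ 2 + p1 * a + p0) = 0 := by rw [ha, sign_zero]
  cases hc with
  | R x h =>
    rw [negB1_eq, negB1_lp, sign_one', hR x hxm h]
    exact c0 _ (hγR x h)
  | Ap => rw [negB1_eq, negB1_lp, sign_one', ha', hγa]; exact c1
  | Am => rw [negB1_eq, negB1_lp, sign_negone, ha', hγa]; exact c2
  | Bm =>
    rw [negB2_eq _ _ _ _ _ _ _ hca, negB2_lp _ _ _ _ hca, sign_negone, ha', hγa, hda]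
    exact c3
  | Bp =>
    rw [negB2_eq _ _ _ _ _ _ _ hca, negB2_lp _ _ _ _ hca, sign_one', ha', hγa, hda]
    exact c4
  | T =>
    rw [negB3_eq _ _ _ _ _ _ ha hca, negB3_lp _ _ _ hca, hda, sign_one', hγa]
    exact c5
  | Pp x h =>
    rw [negB1_eq, negB1_lp, sign_one', hP x h hxp]
    exact c6 _ (hγP x h)

theorem exists_clsP {a : ℝ} {t : Block}
    (h : t.isJ 1 1 (fun _ => True) ∨ t = Block.jordan 1 (-1) a ∨
    t = Block.jordan 2 1 a ∨ t = Block.jordan 2 (-1) a ∨ t = Block.jordan 3 1 a) :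
    ∃ c, InP a t c := by
  rcases h with ⟨x, _, rfl⟩ | rfl | rfl | rfl | rfl
  · rcases lt_trichotomy x a with h | rfl | h
    · exact ⟨_, InP.R x h⟩
    · exact ⟨_, InP.Ap⟩
    · exact ⟨_, InP.Pp x h⟩
  · exact ⟨_, InP.Am⟩
  · exact ⟨_, InP.Bp⟩
  · exact ⟨_, InP.Bm⟩
  · exact ⟨_, InP.T⟩

section Tabs

variable {a : ℝ} {t : Block} {c : Fin 7} (hc : InP a t c)

include hc

theorem ptab1 : (t = Block.jordan 1 (-1) a ∧ (![0,0,1,0,0,0,0] : Fin 7 → ℕ) c = 1) ∨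
    (¬ t = Block.jordan 1 (-1) a ∧ (![0,0,1,0,0,0,0] : Fin 7 → ℕ) c = 0) := by
  cases hc <;> simp [jordan_eq, one_ne_negone]

theorem ptab2 : (t = Block.jordan 2 1 a ∧ (![0,0,0,0,1,0,0] : Fin 7 → ℕ) c = 1) ∨
    (¬ t = Block.jordan 2 1 a ∧ (![0,0,0,0,1,0,0] : Fin 7 → ℕ) c = 0) := by
  cases hc <;> simp [jordan_eq, negone_ne_one]

theorem ptab2' : (t = Block.jordan 2 (-1) a ∧ (![0,0,0,1,0,0,0] : Fin 7 → ℕ) c = 1) ∨
    (¬ t = Block.jordan 2 (-1) a ∧ (![0,0,0,1,0,0,0] : Fin 7 → ℕ) c = 0) := by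
  cases hc <;> simp [jordan_eq, one_ne_negone]

theorem ptab3 : (t.isJ 1 1 (fun x => x < a) ∧ (![1,0,0,0,0,0,0] : Fin 7 → ℕ) c = 1) ∨
    (¬ t.isJ 1 1 (fun x => x < a) ∧ (![1,0,0,0,0,0,0] : Fin 7 → ℕ) c = 0) := by
  cases hc with
  | R x h => simp [isJ_jordan, h]
  | Pp x h => simp [isJ_jordan, h.le]
  | _ => simp [isJ_jordan, negone_ne_one]

theorem ptab3' : (t.isJ 1 1 (fun x => a < x) ∧ (![0,0,0,0,0,0,1] : Fin 7 → ℕ) c = 1) ∨
    (¬ t.isJ 1 1 (fun x => a < x) ∧ (![0,0,0,0,0,0,1] : Fin 7 → ℕ) c = 0) := by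
  cases hc with
  | R x h => simp [isJ_jordan, h.le]
  | Pp x h => simp [isJ_jordan, h]
  | _ => simp [isJ_jordan, negone_ne_one]

theorem ptab4 : (t.isJ 1 1 (fun x => x ≤ a) ∧ (![1,1,0,0,0,0,0] : Fin 7 → ℕ) c = 1) ∨
    (¬ t.isJ 1 1 (fun x => x ≤ a) ∧ (![1,1,0,0,0,0,0] : Fin 7 → ℕ) c = 0) := by
  cases hc with
  | R x h => simp [isJ_jordan, h.le]
  | Pp x h => simp [isJ_jordan, h]
  | _ => simp [isJ_jordan, negone_ne_one]

theorem ptab4' : (t.isJ 1 1 (fun x => a ≤ x) ∧ (![0,1,0,0,0,0,1] : Fin 7 → ℕ) c = 1) ∨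
    (¬ t.isJ 1 1 (fun x => a ≤ x) ∧ (![0,1,0,0,0,0,1] : Fin 7 → ℕ) c = 0) := by
  cases hc with
  | R x h => simp [isJ_jordan, h]
  | Pp x h => simp [isJ_jordan, h.le]
  | _ => simp [isJ_jordan, negone_ne_one]

theorem ptabD : negB t 1 = (![0,0,1,1,1,1,0] : Fin 7 → ℕ) c := by
  cases hc with
  | Bm => rw [negB_two]; simp
  | Bp => rw [negB_two]; simp
  | T => rw [negB_three]; simp
  | _ => rw [negB_one]; simp

end Tabs

theorem winP {m : ℕ} {blk : Fin m → Block} {cl : Fin m → Fin 7} {a α β xm xp : ℝ}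
    (hcl : ∀ i, InP a (blk i) (cl i)) (hbd : ∀ i, xm < eigv (blk i) ∧ eigv (blk i) < xp)
    {p1 p0 : ℝ} {σR δ σP γa : SignType} {PR PP : SignType → Bool}
    (wp wm : Fin 7 → ℕ) (hγa0 : γa ≠ 0)
    (h1 : ∀ x, xm < x → x < a → sign (1 * x ^ 2 + p1 * x + p0) = σR)
    (h2 : 1 * a ^ 2 + p1 * a + p0 = 0)
    (h5 : ∀ x, a < x → x < xp → sign (1 * x ^ 2 + p1 * x + p0) = σP)
    (h6 : sign (2 * 1 * a + p1) = δ)
    (h8 : sign (α + β * a) = γa)
    (h10 : ∀ x, x < a → PR (sign (α + β * x)) = true)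
    (h12 : ∀ x, a < x → PP (sign (α + β * x)) = true)
    (h13 : ChkP σR δ σP γa PR PP wp wm) :
    ∑ i, negB (blk i) (qp 1 p1 p0 * lp α β) + ∑ i, wp (cl i) =
      ∑ i, negB (blk i) (lp α β) + ∑ i, wm (cl i) := by
  rw [← Finset.sum_add_distrib, ← Finset.sum_add_distrib]
  apply Finset.sum_congr rfl
  intro i _
  exact masterP (hcl i) (hbd i).1 (hbd i).2 h1 h2 h5 h6 h8 hγa0 h10 h12 h13

variable {V : Type u} [AddCommGroup V] [Module K V] [FiniteDimensional K V] [Module ℝ V]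
  [IsScalarTower ℝ K V]

theorem crit_P (C F : HForm V) (hC : C.NS) (X : V →ₗ[K] V) (h : C.SA X)
    (hX : ∀ x y, C.f x (X y) = F.f x y) {m : ℕ} {blk : Fin m → Block}
    {e : (i : Fin m) → Fin (blk i).size → V} (hd : XDec C X blk e) {a : ℝ}
    (hT : TypeP a blk) : Crit C F := by
  apply crit_of_poly C F hC X h hX
  intro α β hns
  obtain ⟨hadm, hA, hJ1, hJ2⟩ := hT
  have hex : ∀ i, ∃ c, InP a (blk i) c := fun i =>
    exists_clsP ((hadm i).resolve_left (hd.act i).ne_null)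
  choose cl hcl using hex
  obtain ⟨N, hN⟩ := tab7 cl
  rw [cnt_eq blk cl _ _ (fun i => ptab1 (hcl i)), cnt_eq blk cl _ _ (fun i => ptab2 (hcl i)),
    cnt_eq blk cl _ _ (fun i => ptab3 (hcl i)), cnt_eq blk cl _ _ (fun i => ptab4 (hcl i)),
    hN, hN, hN, hN] at hJ1
  rw [cnt_eq blk cl _ _ (fun i => ptab1 (hcl i)), cnt_eq blk cl _ _ (fun i => ptab2' (hcl i)),
    cnt_eq blk cl _ _ (fun i => ptab3' (hcl i)), cnt_eq blk cl _ _ (fun i => ptab4' (hcl i)),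
    hN, hN, hN, hN] at hJ2
  have hca : α + β * a ≠ 0 := by
    obtain ⟨i, hi | hi | hi | hi⟩ := exists_of_cnt blk _ hA
    · exact hd.c_ne hX hns i _ _ _ hi
    · exact hd.c_ne hX hns i _ _ _ hi
    · exact hd.c_ne hX hns i _ _ _ hi
    · exact hd.c_ne hX hns i _ _ _ hi
  obtain ⟨xm, xp, hxma, _, hxpa, _, hbd⟩ := exists_bounds blk a a
  have hD : ∑ i, negB (blk i) 1 = ∑ i, (![0,0,1,1,1,1,0] : Fin 7 → ℕ) (cl i) :=
    Finset.sum_congr rfl (fun i _ => ptabD (hcl i))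
  rw [hN] at hD
  simp only [hd.negIndex_ph h]
  rw [hD]
  clear hD hA hns hd hC hX h hadm
  have hroot : ∀ p : ℝ, 1 * a ^ 2 + -(1 * (p + a)) * a + 1 * p * a = 0 := by intro p; ring
  have f0R : ∀ x, xm < x → x < a → sign (1 * x ^ 2 + -(1 * (a + a)) * x + 1 * a * a) = 1 :=
    fun x _ hx2 => sg_1 (sg_nn hx2 hx2)
  have f0P : ∀ x, a < x → x < xp → sign (1 * x ^ 2 + -(1 * (a + a)) * x + 1 * a * a) = 1 :=
    fun x hx1 _ => sg_1 (sg_pp hx1 hx1)
  have f0d : sign (2 * 1 * a + -(1 * (a + a))) = 0 := by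
    have : 2 * 1 * a + -(1 * (a + a)) = 0 := by ring
    rw [this, sign_zero]
  have tr1 : ∀ x, x < a → ptrue (sign (α + β * x)) = true := fun _ _ => rfl
  have tr2 : ∀ x, a < x → ptrue (sign (α + β * x)) = true := fun _ _ => rfl
  rcases lt_or_gt_of_ne hca with hc_a | hc_a
  · have hga : sign (α + β * a) = -1 := sgn_neg hc_a
    by_cases hap : N 2 ≤ N 1
    · -- the square works
      have hw := winP hcl hbd ![0,1,0,1,1,1,0] ![0,0,0,0,0,0,0] (by decide) f0R (hroot a) f0P f0d hga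
        tr1 tr2 (by unfold ChkP; decide)
      rw [hN, hN] at hw
      refine ⟨_, _, _, posf1 (mul_pos_of_neg_of_neg hc_a hc_a), ?_⟩
      simp only [Fin.isValue, sv0, sv1, sv2, sv3, sv4, sv5, sv6, mul_one, mul_zero, add_zero,
        zero_add] at hJ1 hJ2 hw ⊢
      omega
    · rcases le_total 0 β with hβ | hβ
      · have hc_xm : α + β * xm < 0 := cneg_left hβ hc_a hxma.le
        have gR : ∀ x, x < a → pneg (sign (α + β * x)) = true := fun x hx => by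
          rw [sgn_neg (cneg_left hβ hc_a hx.le)]; rfl
        have hw := winP hcl hbd (p1 := -(1 * (xm + a))) (p0 := 1 * xm * a) ![1,1,0,1,0,1,0]
          ![0,0,0,0,0,0,0] (by decide)
          (fun x hx1 hx2 => sg_1 (sg_pn hx1 hx2)) (hroot xm)
          (fun x hx1 _ => sg_1 (sg_pp (hxma.trans hx1) hx1)) (sd_1p' hxma) hga gR tr2
          (by unfold ChkP; decide)
        rw [hN, hN] at hw
        refine ⟨_, _, _, posf1 (mul_pos_of_neg_of_neg hc_xm hc_a), ?_⟩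
        simp only [Fin.isValue, sv0, sv1, sv2, sv3, sv4, sv5, sv6, mul_one, mul_zero, add_zero,
          zero_add] at hJ1 hJ2 hw ⊢
        omega
      · have hc_xp : α + β * xp < 0 := cneg_right hβ hc_a hxpa.le
        have gP : ∀ x, a < x → pneg (sign (α + β * x)) = true := fun x hx => by
          rw [sgn_neg (cneg_right hβ hc_a hx.le)]; rfl
        have hw := winP hcl hbd (p1 := -(1 * (xp + a))) (p0 := 1 * xp * a) ![0,1,0,0,1,1,1]
          ![0,0,0,0,0,0,0] (by decide)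
          (fun x _ hx2 => sg_1 (sg_nn (hx2.trans hxpa) hx2)) (hroot xp)
          (fun x hx1 hx2 => sg_1 (sg_np hx2 hx1)) (sd_1n' hxpa) hga tr1 gP
          (by unfold ChkP; decide)
        rw [hN, hN] at hw
        refine ⟨_, _, _, posf1 (mul_pos_of_neg_of_neg hc_xp hc_a), ?_⟩
        simp only [Fin.isValue, sv0, sv1, sv2, sv3, sv4, sv5, sv6, mul_one, mul_zero, add_zero,
          zero_add] at hJ1 hJ2 hw ⊢
        omega
  · have hga : sign (α + β * a) = 1 := sgn_pos hc_a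
    have hw := winP hcl hbd ![0,0,1,1,1,1,0] ![0,0,0,0,0,0,0] (by decide) f0R (hroot a) f0P f0d hga
      tr1 tr2 (by unfold ChkP; decide)
    rw [hN, hN] at hw
    refine ⟨_, _, _, posf1 (mul_pos hc_a hc_a), ?_⟩
    simp only [Fin.isValue, sv0, sv1, sv2, sv3, sv4, sv5, sv6, mul_one, mul_zero, add_zero,
      zero_add] at hJ1 hJ2 hw ⊢
    omega

theorem negB_ell_one : negB Block.ell 1 = 1 := by
  simp [negB]

theorem negB_ell_lp (α β : ℝ) (h : ¬ (α = 0 ∧ β = 0)) : negB Block.ell (lp α β) = 1 := by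
  have : Polynomial.aeval Complex.I (lp α β) ≠ 0 := by
    intro h0
    apply h
    simp only [lp, map_add, map_mul, Polynomial.aeval_C, Polynomial.aeval_X] at h0
    have h1 := congrArg Complex.re h0
    have h2 := congrArg Complex.im h0
    simp at h1 h2
    exact ⟨h1, h2⟩
  simp only [negB]
  rw [if_neg this]

theorem negB_ell_q (α β : ℝ) : negB Block.ell (qp 1 0 1 * lp α β) = 0 := by
  have : Polynomial.aeval Complex.I (qp 1 0 1 * lp α β) = 0 := by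
    rw [map_mul]
    have : Polynomial.aeval Complex.I (qp 1 0 1) = 0 := by
      simp [qp]
    rw [this, zero_mul]
  simp only [negB]
  rw [if_pos this]

theorem negIndex_trivial (hV : ∀ x : V, x = 0) (G : HForm V) : negIndex G = 0 := by
  obtain ⟨N, hN, _⟩ := exists_negIndex G
  rw [← hN]
  have : N = ⊥ := (Submodule.eq_bot_iff N).mpr (fun x _ => hV x)
  rw [this, finrank_bot]

theorem crit_E (C F : HForm V) (hC : C.NS) (X : V →ₗ[K] V) (h : C.SA X)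
    (hX : ∀ x y, C.f x (X y) = F.f x y) {m : ℕ} {blk : Fin m → Block}
    {e : (i : Fin m) → Fin (blk i).size → V} (hd : XDec C X blk e)
    (hT : TypeE blk) : Crit C F := by
  by_cases hV : ∀ x : V, x = 0
  · have hns : ∀ G : HForm V, G.NS := fun G x _ => hV x
    refine ⟨⟨1, 0, hns _⟩, fun α β _ => ⟨1, 0, hns _, 0, ?_, 0, 0, ?_⟩⟩
    · intro x y
      rw [hV x]; simp
    · rw [negIndex_trivial hV, negIndex_trivial hV, negIndex_trivial hV]
  · apply crit_of_poly C F hC X h hX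
    intro α β hns
    have h0 : ¬ (α = 0 ∧ β = 0) := by
      rintro ⟨rfl, rfl⟩
      apply hV
      intro x
      apply hns
      intro y
      simp
    refine ⟨1, 0, 1, ?_, ?_⟩
    · have h1 : 0 < α ^ 2 + β ^ 2 := by
        by_contra hcon
        push Not at hcon
        apply h0
        constructor <;> nlinarith [sq_nonneg α, sq_nonneg β]
      linarith
    · simp only [hd.negIndex_ph h]
      rw [← Finset.sum_add_distrib]
      apply Finset.sum_le_sum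
      intro i _
      rcases (hT i).resolve_left (hd.act i).ne_null with ⟨x, _, hx⟩ | hx
      · rw [hx, negB1_eq, negB1_lp, negB_one]
        have : sign (1 * x ^ 2 + 0 * x + 1) = 1 := sgn_pos (by nlinarith [sq_nonneg x])
        rw [this]
        simp
      · rw [hx, negB_ell_one, negB_ell_q, negB_ell_lp α β h0]

end Pool.Agent.Lib_c77211
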