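import Pool.Agent.Lib_c77211.Dec

open Quaternion MulOpposite Module

noncomputable section

namespace Pool.Agent.Lib_c77211

set_option linter.unusedSectionVars false
set_option linter.deprecated false

universe u

variable {V : Type u} [AddCommGroup V] [Module K V] [FiniteDimensional K V] [Module ℝ V]
  [IsScalarTower ℝ K V]

theorem negIndex_smul_pos (G : HForm V) (k : ℝ) (hk : 0 < k) : negIndex (k • G) = negIndex G := by
  apply le_antisymm
  · obtain ⟨N, h1, h2⟩ := exists_negIndex (k • G)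
    rw [← h1]
    apply le_negIndex
    intro x hx hx0
    have := h2 x hx hx0
    rw [HForm.smul_q] at this
    by_contra hcon
    push Not at hcon
    have := mul_nonneg hk.le hcon
    linarith
  · obtain ⟨N, h1, h2⟩ := exists_negIndex G
    rw [← h1]
    apply le_negIndex
    intro x hx hx0
    rw [HForm.smul_q]
    exact mul_neg_of_pos_of_neg hk (h2 x hx hx0)

theorem negIndex_pull_le {W : Type*} [AddCommGroup W] [Module K W] [FiniteDimensional K W]
    (G : HForm V) (T : W →ₗ[K] V) (hT : Function.Injective T) : negIndex (G.pull T) ≤ negIndex G := by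
  obtain ⟨N, h1, h2⟩ := exists_negIndex (G.pull T)
  rw [← h1]
  have h3 : finrank K (N.map T) = finrank K N :=
    (LinearEquiv.finrank_eq (Submodule.equivMapOfInjective T hT N)).symm
  rw [← h3]
  apply le_negIndex
  rintro _ ⟨x, hx, rfl⟩ hx0
  exact h2 x hx (by rintro rfl; simp at hx0)

/-- the linear polynomial `α + β x` -/
def lp (α β : ℝ) : Polynomial ℝ := Polynomial.C α + Polynomial.C β * Polynomial.X

/-- the quadratic polynomial `p2 x² + p1 x + p0` -/
def qp (p2 p1 p0 : ℝ) : Polynomial ℝ :=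
  Polynomial.C p2 * Polynomial.X ^ 2 + Polynomial.C p1 * Polynomial.X + Polynomial.C p0

theorem ph_lp (C F : HForm V) (X : V →ₗ[K] V) (h : C.SA X) (hX : ∀ x y, C.f x (X y) = F.f x y)
    (α β : ℝ) : ph C X h (lp α β) = α • C + β • F := by
  ext1 x y
  rw [ph_f, lp, map_add, LinearMap.add_apply, aeval_C', aeval_mul', aeval_C', Polynomial.aeval_X,
    C.add_right, C.rsmul_right, C.rsmul_right, hX]
  rfl

theorem ph_one (C : HForm V) (X : V →ₗ[K] V) (h : C.SA X) : ph C X h 1 = C := by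
  ext1 x y
  rw [ph_f, map_one]; rfl

theorem crit_of_poly (C F : HForm V) (hC : C.NS) (X : V →ₗ[K] V) (h : C.SA X)
    (hX : ∀ x y, C.f x (X y) = F.f x y)
    (hw : ∀ α β : ℝ, (α • C + β • F).NS → ∃ p2 p1 p0 : ℝ,
      0 < p2 * α ^ 2 - p1 * α * β + p0 * β ^ 2 ∧
      negIndex (ph C X h 1) + negIndex (ph C X h (qp p2 p1 p0 * lp α β)) ≤
        negIndex (ph C X h (lp α β))) : Crit C F := by
  have h10 : (1 : ℝ) • C + (0 : ℝ) • F = C := by ext x y <;> simp
  refine ⟨⟨1, 0, by rw [h10]; exact hC⟩, ?_⟩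
  intro α β hns
  obtain ⟨p2, p1, p0, hpos, hle⟩ := hw α β hns
  refine ⟨1, 0, by rw [h10]; exact hC, ?_⟩
  have hform := ph_lp C F X h hX α β
  -- T invertible
  obtain ⟨T, hT⟩ : ∃ T : V →ₗ[K] V, T = Polynomial.aeval X (lp α β) := ⟨_, rfl⟩
  have hTf : ∀ x y, C.f x (T y) = (α • C + β • F).f x y := by
    intro x y; rw [← hform, ph_f, hT]
  have hTsa : C.SA T := by rw [hT]; exact sa_aeval C X h _
  have hTinj : Function.Injective T := by
    rw [← LinearMap.ker_eq_bot, Submodule.eq_bot_iff]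
    intro x hx
    apply hns
    intro y
    rw [← hTf, ← hTsa, LinearMap.mem_ker.mp hx, C.zero_left]
  let e := LinearEquiv.ofInjectiveEndo T hTinj
  have heT : ∀ x, T (e.symm x) = x := fun x => e.apply_symm_apply x
  have heT' : ∀ x, e.symm (T x) = x := fun x => e.symm_apply_apply x
  obtain ⟨S, hS⟩ : ∃ S : V →ₗ[K] V, S = Polynomial.aeval X (lp (-β) α) := ⟨_, rfl⟩
  have hSf : ∀ x y, C.f x (S y) = (α • F + (-β) • C).f x y := by
    intro x y
    have := ph_lp C F X h hX (-β) α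
    have h2 : C.f x (S y) = (ph C X h (lp (-β) α)).f x y := by rw [hS]; rfl
    rw [h2, this]
    simp only [HForm.add_f, HForm.smul_f]
    abel
  have hSsa : C.SA S := by rw [hS]; exact sa_aeval C X h _
  have hST : ∀ x, S (T x) = T (S x) := by
    intro x
    rw [hS, hT, ← aeval_mul', ← aeval_mul', mul_comm]
  refine ⟨e.symm.toLinearMap ∘ₗ S, ?_, ?_⟩
  · intro x y
    rw [← hTf, LinearMap.comp_apply, LinearEquiv.coe_coe, heT, hSf]
  have hL0 : α ^ 2 + β ^ 2 ≠ 0 := by
    intro h0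
    have h1 : α = 0 := by nlinarith [sq_nonneg α, sq_nonneg β]
    have h2 : β = 0 := by nlinarith [sq_nonneg α, sq_nonneg β]
    rw [h1, h2] at hpos; simp at hpos
  have hL2 : (α ^ 2 + β ^ 2) ^ 2 ≠ 0 := pow_ne_zero 2 hL0
  obtain ⟨k, hk0, hkD⟩ : ∃ k : ℝ, 0 < k ∧
      k * (p2 * α ^ 2 - p1 * α * β + p0 * β ^ 2) = (α ^ 2 + β ^ 2) ^ 2 :=
    ⟨(α ^ 2 + β ^ 2) ^ 2 / (p2 * α ^ 2 - p1 * α * β + p0 * β ^ 2),
      div_pos (by positivity) hpos, div_mul_cancel₀ _ hpos.ne'⟩
  obtain ⟨s, hsL⟩ : ∃ s : ℝ, s * (α ^ 2 + β ^ 2) ^ 2 = k * (p2 * β ^ 2 + p1 * α * β + p0 * α ^ 2) :=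
    ⟨_, div_mul_cancel₀ _ hL2⟩
  obtain ⟨r, hrL⟩ : ∃ r : ℝ, r * (α ^ 2 + β ^ 2) ^ 2 =
      k * ((α ^ 2 - β ^ 2) * p1 + 2 * α * β * (p2 - p0)) :=
    ⟨_, div_mul_cancel₀ _ hL2⟩
  have e2 : α ^ 2 + r * α * β + s * β ^ 2 = k * p2 := by
    apply mul_right_cancel₀ hL2
    linear_combination (α * β) * hrL + β ^ 2 * hsL - α ^ 2 * hkD
  have e1 : -2 * α * β + r * (α ^ 2 - β ^ 2) + 2 * s * α * β = k * p1 := by
    apply mul_right_cancel₀ hL2
    linear_combination (α ^ 2 - β ^ 2) * hrL + (2 * α * β) * hsL + (2 * α * β) * hkD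
  have e0 : β ^ 2 - r * α * β + s * α ^ 2 = k * p0 := by
    apply mul_right_cancel₀ hL2
    linear_combination -(α * β) * hrL + α ^ 2 * hsL - β ^ 2 * hkD
  refine ⟨r, s, ?_⟩
  obtain ⟨X', hX'⟩ : ∃ X' : V →ₗ[K] V, X' = e.symm.toLinearMap ∘ₗ S := ⟨_, rfl⟩
  rw [← hX']
  obtain ⟨H, hH⟩ : ∃ H : HForm V, H = (α • C + β • F).pull X' + r • (α • F + (-β) • C) +
    s • (α • C + β • F) := ⟨_, rfl⟩
  rw [← hH]
  have hpoly : (lp (-β) α) ^ 2 + Polynomial.C r * (lp α β) * (lp (-β) α) +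
      Polynomial.C s * (lp α β) ^ 2 = Polynomial.C k * qp p2 p1 p0 := by
    have h1 : Polynomial.C k * qp p2 p1 p0 = Polynomial.C (k * p2) * Polynomial.X ^ 2 +
        Polynomial.C (k * p1) * Polynomial.X + Polynomial.C (k * p0) := by
      simp only [qp, map_mul]; ring
    rw [h1, ← e2, ← e1, ← e0]
    simp only [lp, map_add, map_mul, map_sub, map_neg, map_pow]
    have h2 : Polynomial.C (2 : ℝ) = 2 := rfl
    rw [h2]
    ring
  have hpull : H.pull T = k • ph C X h (qp p2 p1 p0 * lp α β) := by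
    ext1 x y
    have hX'T : ∀ x, X' (T x) = S x := by
      intro x
      rw [hX', LinearMap.comp_apply, LinearEquiv.coe_coe, hST, heT']
    have f1 : (H.pull T).f x y = (α • C + β • F).f (X' (T x)) (X' (T y)) +
      r • (α • F + (-β) • C).f (T x) (T y) + s • (α • C + β • F).f (T x) (T y) := by rw [hH]; rfl
    rw [f1, hX'T, hX'T, ← hTf, ← hSf, ← hTf, hSsa, hTsa, hTsa]
    have f2 : (k • ph C X h (qp p2 p1 p0 * lp α β)).f x y =
        C.f x (Polynomial.aeval X ((Polynomial.C k * qp p2 p1 p0) * lp α β) y) := by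
      change k • C.f x (Polynomial.aeval X (qp p2 p1 p0 * lp α β) y) = _
      rw [mul_assoc, aeval_mul' X (Polynomial.C k), aeval_C', C.rsmul_right]
    rw [f2, ← hpoly]
    rw [← C.rsmul_right, ← C.rsmul_right, ← C.add_right, ← C.add_right]
    congr 1
    have f3 : ((lp (-β) α) ^ 2 + Polynomial.C r * (lp α β) * (lp (-β) α) +
      Polynomial.C s * (lp α β) ^ 2) * lp α β = lp (-β) α * (lp α β * lp (-β) α) +
        Polynomial.C r * (lp α β * (lp (-β) α * lp α β)) +
        Polynomial.C s * (lp α β * (lp α β * lp α β)) := by ring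
    rw [f3, map_add, map_add, LinearMap.add_apply, LinearMap.add_apply]
    simp only [aeval_mul', aeval_C', ← hT, ← hS]
  have hle1 : negIndex H ≤ negIndex (H.pull T) := by
    have : (H.pull T).pull e.symm.toLinearMap = H := by
      ext1 x y
      change H.f (T (e.symm x)) (T (e.symm y)) = H.f x y
      rw [heT, heT]
    calc negIndex H = negIndex ((H.pull T).pull e.symm.toLinearMap) := by rw [this]
      _ ≤ _ := negIndex_pull_le _ _ e.symm.injective
  rw [hpull, negIndex_smul_pos _ _ hk0] at hle1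
  rw [h10, ← hform]
  rw [ph_one] at hle
  omega

end Pool.Agent.Lib_c77211
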