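import Pool.Agent.Lib_c77211.Struct

open Quaternion MulOpposite Module

noncomputable section

namespace Pool.Agent.Lib_c77211

set_option linter.unusedSectionVars false
set_option linter.deprecated false

universe u

section

variable {V : Type u} [AddCommGroup V] [Module K V] [FiniteDimensional K V] [Module ℝ V]
  [IsScalarTower ℝ K V]

theorem block_ne (C : HForm V) (X : V →ₗ[K] V) (b : Block) (e : Fin b.size → V)
    (hg : ∀ i j, C.f (e i) (e j) = b.C i j) (ha : BAct X b e) : ∃ a, e a ≠ 0 := by
  match b, e, hg, ha with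
  | .null, e, hg, ha => exact ha.elim
  | .ell, e, hg, ha =>
    refine ⟨(0 : Fin 2), fun h0 => ?_⟩
    have h1 : C.f (e (0 : Fin 2)) (e (1 : Fin 2)) = 1 :=
      (hg (0 : Fin 2) (1 : Fin 2)).trans (by simp [Block.C])
    rw [h0, C.zero_left] at h1
    exact zero_ne_one h1
  | .jordan k s x, e, hg, ha =>
    obtain ⟨hk, hs, hact⟩ := ha
    have hs' := coe_ne_zero hs
    rcases hk with rfl | rfl | rfl
    · refine ⟨(0 : Fin 1), fun h0 => ?_⟩
      have h1 : C.f (e (0 : Fin 1)) (e (0 : Fin 1)) = (s : ℍ[ℝ]) :=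
        (hg (0 : Fin 1) (0 : Fin 1)).trans (by simp [Block.C])
      rw [h0, C.zero_left] at h1
      exact hs' h1.symm
    · refine ⟨(0 : Fin 2), fun h0 => ?_⟩
      have h1 : C.f (e (0 : Fin 2)) (e (1 : Fin 2)) = (s : ℍ[ℝ]) :=
        (hg (0 : Fin 2) (1 : Fin 2)).trans (by simp [Block.C])
      rw [h0, C.zero_left] at h1
      exact hs' h1.symm
    · refine ⟨(0 : Fin 3), fun h0 => ?_⟩
      have h1 : C.f (e (0 : Fin 3)) (e (2 : Fin 3)) = (s : ℍ[ℝ]) :=
        (hg (0 : Fin 3) (2 : Fin 3)).trans (by simp [Block.C])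
      rw [h0, C.zero_left] at h1
      exact hs' h1.symm

theorem BAct.coe (X : V →ₗ[K] V) (W : Submodule K V) (hW : ∀ w ∈ W, X w ∈ W) (b : Block)
    (e : Fin b.size → W) (h : BAct (X.restrict hW) b e) : BAct X b (fun a => (e a : V)) := by
  match b, e, h with
  | .null, e, h => exact h.elim
  | .ell, e, h =>
    obtain ⟨h0, h1⟩ := h
    exact ⟨congrArg Subtype.val h0, congrArg Subtype.val h1⟩
  | .jordan k s x, e, h =>
    obtain ⟨hk, hs, hact⟩ := h
    refine ⟨hk, hs, ?_⟩
    intro a
    have := congrArg Subtype.val (hact a)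
    by_cases h0 : 0 < (a : ℕ)
    · rw [dif_pos h0] at this ⊢
      exact this
    · rw [dif_neg h0] at this ⊢
      exact this

end

/-- The structure theorem, given that one can always split off one block. -/
theorem xdec_exists (adm : Block → Prop) (β γ : ℝ)
    (hfind : ∀ (V : Type u) [AddCommGroup V] [Module K V] [FiniteDimensional K V] [Module ℝ V]
      [IsScalarTower ℝ K V] (C : HForm V), C.NS → ∀ (X : V →ₗ[K] V) (h : C.SA X) [Nontrivial V],
      (∀ y, 0 ≤ (Gq C X h β γ).q y) → ∃ b : Block, adm b ∧ ∃ e : Fin b.size → V,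
        (∀ i j, C.f (e i) (e j) = b.C i j) ∧ BAct X b e) (n : ℕ) :
    ∀ (V : Type u) [AddCommGroup V] [Module K V] [FiniteDimensional K V] [Module ℝ V]
      [IsScalarTower ℝ K V] (C : HForm V), finrank K V = n → C.NS → ∀ (X : V →ₗ[K] V)
      (h : C.SA X), (∀ y, 0 ≤ (Gq C X h β γ).q y) →
      ∃ (m : ℕ) (blk : Fin m → Block) (e : (i : Fin m) → Fin (blk i).size → V),
        XDec C X blk e ∧ ∀ i, adm (blk i) := by
  induction n using Nat.strong_induction_on with
  | _ n ih =>
  intro V _ _ _ _ _ C hn hC X h hG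
  rcases Nat.eq_zero_or_pos n with h0 | hpos
  · refine ⟨0, fun i => i.elim0, fun i => i.elim0, ⟨?_, fun i => i.elim0, fun i => i.elim0,
      fun i => i.elim0⟩, fun i => i.elim0⟩
    have : (⊤ : Submodule K V) = ⊥ := by
      rw [← Submodule.finrank_eq_zero, finrank_top]; omega
    rw [this]; exact bot_le
  · haveI : Nontrivial V := Module.nontrivial_of_finrank_pos (R := K) (by omega)
    obtain ⟨b, hb, e, he1, he2⟩ := hfind V C hC X h hG
    set U := Submodule.span K (Set.range e) with hU
    set W := C.perp U with hW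
    have hXW : ∀ w ∈ W, X w ∈ W := by
      intro w hw x hx
      rw [← h]
      exact hw _ (he2.inv x hx)
    have hdisj : ∀ y ∈ U, y ∈ W → y = 0 := by
      intro y hy hyW
      apply block_nondeg C X b e he1 he2 y hy
      intro a
      exact hyW _ (Submodule.subset_span ⟨a, rfl⟩)
    have hdim := finrank_sup_disj hdisj
    have hdim2 := perp_dim_top C U
    have htop : U ⊔ W = ⊤ := by
      apply Submodule.eq_top_of_finrank_eq
      have := Submodule.finrank_le (U ⊔ W)
      change finrank K V ≤ finrank K W + finrank K U at hdim2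
      omega
    have hUpos : 0 < finrank K U := by
      obtain ⟨a, ha⟩ := block_ne C X b e he1 he2
      by_contra hcon
      have h1 : finrank K U = 0 := by omega
      rw [Submodule.finrank_eq_zero] at h1
      apply ha
      have : e a ∈ U := Submodule.subset_span ⟨a, rfl⟩
      rw [h1] at this
      exact (Submodule.mem_bot K).mp this
    have hWlt : finrank K W < n := by
      rw [htop, finrank_top] at hdim
      omega
    have hCW : (C.pull W.subtype).NS := by
      intro x hx
      apply Subtype.ext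
      apply hC
      intro y
      have hy : y ∈ U ⊔ W := by rw [htop]; trivial
      obtain ⟨u, hu, w, hw, rfl⟩ := Submodule.mem_sup.mp hy
      rw [C.add_right, C.symm_zero (x.2 u hu), zero_add]
      exact hx ⟨w, hw⟩
    have hSAW : (C.pull W.subtype).SA (X.restrict hXW) := by
      intro x y
      exact h x y
    obtain ⟨m, blk, e', hdec, hadm⟩ := ih (finrank K W) hWlt W (C.pull W.subtype) rfl hCW
      (X.restrict hXW) hSAW (by intro y; exact hG y)
    refine ⟨m + 1, Fin.cons b blk, fun i => Fin.cases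
      (motive := fun i => Fin ((Fin.cons b blk : Fin (m + 1) → Block) i).size → V) e
      (fun i a => (e' i a : V)) i, ⟨?_, ?_, ?_, ?_⟩, ?_⟩
    · intro y _
      have hy : y ∈ U ⊔ W := by rw [htop]; trivial
      obtain ⟨u, hu, w, hw, rfl⟩ := Submodule.mem_sup.mp hy
      apply Submodule.add_mem
      · exact Submodule.mem_iSup_of_mem 0 hu
      · have h1 := hdec.span (show (⟨w, hw⟩ : W) ∈ (⊤ : Submodule K W) from trivial)
        have h2 : w ∈ (⨆ i, Submodule.span K (Set.range (e' i))).map W.subtype := ⟨_, h1, rfl⟩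
        rw [Submodule.map_iSup] at h2
        have h3 : (⨆ i, (Submodule.span K (Set.range (e' i))).map W.subtype) ≤
            ⨆ i : Fin (m + 1), Submodule.span K (Set.range (Fin.cases
              (motive := fun i => Fin ((Fin.cons b blk : Fin (m + 1) → Block) i).size → V) e
              (fun i a => (e' i a : V)) i)) := by
          apply iSup_le
          intro i
          rw [Submodule.map_span]
          refine le_trans ?_ (le_iSup _ i.succ)
          apply Submodule.span_mono
          rintro _ ⟨_, ⟨a, rfl⟩, rfl⟩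
          exact ⟨a, rfl⟩
        exact h3 h2
    · intro i
      refine Fin.cases ?_ ?_ i
      · exact he1
      · intro i; exact hdec.gram i
    · intro i j
      refine Fin.cases ?_ ?_ i
      · refine Fin.cases ?_ ?_ j
        · intro hij; exact absurd rfl hij
        · intro j _ a b'
          exact (e' j b').2 _ (Submodule.subset_span ⟨a, rfl⟩)
      · intro i
        refine Fin.cases ?_ ?_ j
        · intro _ a b'
          exact C.symm_zero ((e' i a).2 _ (Submodule.subset_span ⟨b', rfl⟩))
        · intro j hij a b'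
          exact hdec.orth i j (fun h => hij (by rw [h])) a b'
    · intro i
      refine Fin.cases ?_ ?_ i
      · exact he2
      · intro i; exact BAct.coe X W hXW _ _ (hdec.act i)
    · intro i
      refine Fin.cases ?_ ?_ i
      · exact hb
      · exact hadm

/-- admissible real blocks -/
def AdmR (a b : ℝ) (t : Block) : Prop :=
  t.isJ 1 1 (fun x => x ≤ a ∨ b ≤ x) ∨ t.isJ 1 (-1) (fun x => a ≤ x ∧ x ≤ b) ∨
    t = Block.jordan 2 (-1) a ∨ t = Block.jordan 2 1 b ∨ (a = b ∧ t = Block.jordan 3 1 a)

def AdmE (t : Block) : Prop := t.isJ 1 1 (fun _ => True) ∨ t = Block.ell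

variable {V : Type u} [AddCommGroup V] [Module K V] [FiniteDimensional K V] [Module ℝ V]
  [IsScalarTower ℝ K V]

theorem xdec_E (C : HForm V) (hC : C.NS) (X : V →ₗ[K] V) (h : C.SA X)
    (hG : ∀ y, 0 ≤ (Gq C X h 0 1).q y) :
    ∃ (m : ℕ) (blk : Fin m → Block) (e : (i : Fin m) → Fin (blk i).size → V),
      XDec C X blk e ∧ ∀ i, AdmE (blk i) :=
  xdec_exists AdmE 0 1 (fun V _ _ _ _ _ C hC X h _ hG => find_block_E C hC X h hG) _ V C rfl hC X h hG

theorem xdec_R (a b : ℝ) (hab : a ≤ b) (C : HForm V) (hC : C.NS) (X : V →ₗ[K] V) (h : C.SA X)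
    (hG : ∀ y, 0 ≤ (Gq C X h (-(a + b)) (a * b)).q y) :
    ∃ (m : ℕ) (blk : Fin m → Block) (e : (i : Fin m) → Fin (blk i).size → V),
      XDec C X blk e ∧ ∀ i, AdmR a b (blk i) :=
  xdec_exists (AdmR a b) (-(a + b)) (a * b)
    (fun V _ _ _ _ _ C hC X h _ hG => find_block_R C hC X h a b hab hG) _ V C rfl hC X h hG

end Pool.Agent.Lib_c77211
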