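import Pool.Agent.Lib_c77211.Suff

open Quaternion MulOpposite Module

noncomputable section

namespace Pool.Agent.Lib_c77211

set_option linter.unusedSectionVars false

section Fam

variable {V : Type*} [AddCommGroup V] [Module K V] [FiniteDimensional K V]

theorem f_sum_orth {ι : Type*} (F : HForm V) (g : ι → V)
    (horth : ∀ i j, i ≠ j → F.f (g i) (g j) = 0) (s : Finset ι) (a : ι → ℍ[ℝ]) :
    F.q (∑ i ∈ s, op (a i) • g i) = ∑ i ∈ s, normSq (a i) * F.q (g i) := by
  classical
  induction s using Finset.induction_on with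
  | empty => simp
  | insert i s hi ih =>
    rw [Finset.sum_insert hi, Finset.sum_insert hi, F.q_add, F.q_smul, ih, F.sum_right]
    have : ∑ j ∈ s, F.f (op (a i) • g i) (op (a j) • g j) = 0 := by
      apply Finset.sum_eq_zero
      intro j hj
      have hij : i ≠ j := by rintro rfl; exact hi hj
      rw [F.smul_right, F.smul_left, horth i j hij]
      simp
    rw [this]
    simp

theorem mem_span_range {ι : Type*} [Fintype ι] (g : ι → V) (s : Finset ι) (x : V)
    (hx : x ∈ Submodule.span K (g '' s)) : ∃ a : ι → ℍ[ℝ], x = ∑ i ∈ s, op (a i) • g i := by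
  classical
  rw [Submodule.mem_span_image_finset_iff_exists_fun] at hx
  obtain ⟨c, hc⟩ := hx
  refine ⟨fun i => if h : i ∈ s then unop (c ⟨i, h⟩) else 0, ?_⟩
  rw [← Finset.sum_coe_sort, ← hc]
  apply Finset.sum_congr rfl
  intro j _
  simp

theorem fam_neg {ι : Type*} [Fintype ι] (F : HForm V) (g : ι → V)
    (hspan : ⊤ ≤ Submodule.span K (Set.range g))
    (horth : ∀ i j, i ≠ j → F.f (g i) (g j) = 0) [DecidablePred fun i => F.q (g i) < 0] :
    negIndex F = (Finset.univ.filter fun i => F.q (g i) < 0).card := by
  classical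
  set sN := Finset.univ.filter fun i => F.q (g i) < 0 with hsN
  set sP := Finset.univ.filter fun i => ¬ F.q (g i) < 0 with hsP
  set N := Submodule.span K (g '' sN) with hN
  set P := Submodule.span K (g '' sP) with hP
  have hNcoef : ∀ a : ι → ℍ[ℝ], F.q (∑ i ∈ sN, op (a i) • g i) < 0 ∨ ∀ i ∈ sN, a i = 0 := by
    intro a
    by_cases h : ∀ i ∈ sN, a i = 0
    · exact Or.inr h
    · left
      push Not at h
      obtain ⟨i, hi, hai⟩ := h
      rw [f_sum_orth F g horth]
      apply Finset.sum_neg'
      · intro j hj
        have : F.q (g j) < 0 := by simpa [hsN] using hj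
        exact mul_nonpos_of_nonneg_of_nonpos Quaternion.normSq_nonneg this.le
      · refine ⟨i, hi, ?_⟩
        have h1 : F.q (g i) < 0 := by simpa [hsN] using hi
        have h2 : 0 < normSq (a i) := by
          rcases (Quaternion.normSq_nonneg (a := a i)).lt_or_eq with h | h
          · exact h
          · exact absurd (Quaternion.normSq_eq_zero.mp h.symm) hai
        exact mul_neg_of_pos_of_neg h2 h1
  have hNneg : NegOn F N := by
    intro x hx hx0
    obtain ⟨a, rfl⟩ := mem_span_range g sN x hx
    rcases hNcoef a with h | h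
    · exact h
    · exfalso
      apply hx0
      apply Finset.sum_eq_zero
      intro i hi
      rw [h i hi]; simp
  have hPpos : NonnegOn F P := by
    intro x hx
    obtain ⟨a, rfl⟩ := mem_span_range g sP x hx
    rw [f_sum_orth F g horth]
    apply Finset.sum_nonneg
    intro i hi
    have : 0 ≤ F.q (g i) := by
      have : ¬ F.q (g i) < 0 := by simpa [hsP] using hi
      exact not_lt.mp this
    exact mul_nonneg Quaternion.normSq_nonneg this
  have hsup : N ⊔ P = ⊤ := by
    rw [eq_top_iff]
    refine hspan.trans ?_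
    rw [Submodule.span_le]
    rintro _ ⟨i, rfl⟩
    by_cases hi : F.q (g i) < 0
    · exact Submodule.mem_sup_left (Submodule.subset_span ⟨i, by simpa [hsN] using hi, rfl⟩)
    · exact Submodule.mem_sup_right (Submodule.subset_span ⟨i, by simpa [hsP] using hi, rfl⟩)
  have hdim : finrank K V ≤ finrank K N + finrank K P := by
    have := Submodule.finrank_sup_add_finrank_inf_eq N P
    rw [hsup, finrank_top] at this
    omega
  rw [negIndex_eq F N P hNneg hPpos hdim]
  have hli : LinearIndependent K (fun i : sN => g i) := by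
    rw [Fintype.linearIndependent_iff]
    intro c hc i
    have h1 : ∑ j ∈ sN, op (if h : j ∈ sN then unop (c ⟨j, h⟩) else 0) • g j = 0 := by
      rw [← Finset.sum_coe_sort]
      rw [← hc]
      apply Finset.sum_congr rfl
      intro j _
      simp
    rcases hNcoef (fun j => if h : j ∈ sN then unop (c ⟨j, h⟩) else 0) with h | h
    · rw [h1] at h; simp at h
    · have := h i i.2
      simpa using this
  have : N = Submodule.span K (Set.range (fun i : sN => g i)) := by
    rw [hN]
    congr 1
    ext y
    constructor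
    · rintro ⟨i, hi, rfl⟩
      exact ⟨⟨i, hi⟩, rfl⟩
    · rintro ⟨i, rfl⟩
      exact ⟨i, i.2, rfl⟩
  rw [this, finrank_span_eq_card hli]
  simp

end Fam

section Eig

variable {V : Type*} [AddCommGroup V] [Module K V] [FiniteDimensional K V]
  [Module ℝ V] [IsScalarTower ℝ K V]

/-- `ℂ → K` -/
def cHom : ℂ →+* K where
  toFun z := op (Quaternion.ofComplex z)
  map_one' := by simp
  map_zero' := by simp
  map_add' := by intro x y; simp
  map_mul' := by
    intro x y
    rw [mul_comm, map_mul, op_mul]

theorem exists_eig [Nontrivial V] (T : V →ₗ[K] V) :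
    ∃ v : V, v ≠ 0 ∧ ∃ z : ℂ, T v = op (Quaternion.ofComplex z) • v := by
  letI : Module ℂ V := Module.compHom V cHom
  have hsm : ∀ (z : ℂ) (v : V), z • v = op (Quaternion.ofComplex z) • v := fun z v => rfl
  haveI : Module.Finite ℝ V := Module.Finite.trans K V
  haveI : IsScalarTower ℝ ℂ V := ⟨by
    intro r z v
    rw [hsm, hsm, rsmul_eq r (op (Quaternion.ofComplex z) • v), smul_smul]
    congr 1
    rw [← op_mul]
    congr 1
    rw [map_smul, ← Quaternion.coe_mul_eq_smul, Quaternion.coe_commutes]⟩
  haveI : Module.Finite ℂ V := Module.Finite.of_restrictScalars_finite ℝ ℂ V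
  let T' : Module.End ℂ V :=
    { toFun := T
      map_add' := T.map_add
      map_smul' := by
        intro z v
        simp only [hsm, map_smul, RingHom.id_apply] }
  obtain ⟨z, hz⟩ := Module.End.exists_eigenvalue T'
  obtain ⟨v, hv⟩ := hz.exists_hasEigenvector
  refine ⟨v, hv.2, z, ?_⟩
  have := hv.apply_eq_smul
  exact this

end Eig

section Bad

variable {V : Type*} [AddCommGroup V] [Module K V]

/-- A common null vector whose two functionals are proportional. -/
def Bad (A B : HForm V) (v : V) : Prop :=
  v ≠ 0 ∧ A.q v = 0 ∧ B.q v = 0 ∧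
    ∃ E : Set ℝ, E.Finite ∧ ∀ t ∉ E, ∀ y, (A + t • B).f v y = 0 → A.f v y = 0 ∧ B.f v y = 0

theorem bad_of_comb (A B : HForm V) (v : V) (hv : v ≠ 0) (hA : A.q v = 0) (hB : B.q v = 0)
    (α β : ℝ) (hαβ : α ≠ 0 ∨ β ≠ 0) (h : ∀ y, α • A.f v y + β • B.f v y = 0) : Bad A B v := by
  refine ⟨hv, hA, hB, {t | α * t = β}, ?_, ?_⟩
  · by_cases hα : α = 0
    · have : {t : ℝ | α * t = β} = ∅ := by
        ext t
        simp only [Set.mem_setOf_eq, Set.mem_empty_iff_false, iff_false, hα, zero_mul]
        intro h0
        rcases hαβ with h | h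
        · exact h hα
        · exact h h0.symm
      rw [this]; exact Set.finite_empty
    · apply (Set.finite_singleton (β / α)).subset
      intro t ht
      simp only [Set.mem_setOf_eq] at ht
      simp only [Set.mem_singleton_iff]
      field_simp
      linarith
  · intro t ht y hy
    simp only [Set.mem_setOf_eq] at ht
    simp only [HForm.add_f, HForm.smul_f] at hy
    have h1 := h y
    have hne : α * t - β ≠ 0 := sub_ne_zero.mpr ht
    have e2 : (α * t - β) • B.f v y = 0 := by
      have : (α * t - β) • B.f v y = α • (A.f v y + t • B.f v y) - (α • A.f v y + β • B.f v y) := by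
        simp only [smul_add, smul_smul, sub_smul]
        abel
      rw [this, hy, h1]; simp
    have e3 := (smul_eq_zero.mp e2).resolve_left hne
    refine ⟨?_, e3⟩
    rw [e3] at hy
    simpa using hy

variable [FiniteDimensional K V] [Module ℝ V] [IsScalarTower ℝ K V]

theorem exists_real_dir [Nontrivial V] (A B : HForm V) (hbad : ∀ v, ¬ Bad A B v) :
    ∃ v : V, v ≠ 0 ∧ ∃ α β : ℝ, (α ≠ 0 ∨ β ≠ 0) ∧ ∀ y, α • A.f v y + β • B.f v y = 0 := by
  by_cases hA : A.NS
  · obtain ⟨T, hT⟩ := exists_op A hA B
    obtain ⟨v, hv, z, hz⟩ := exists_eig T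
    have hB : ∀ y, B.f y v = A.f y v * Quaternion.ofComplex z := by
      intro y
      rw [← hT, hz, A.smul_right]
    have hB' : ∀ y, B.f v y = star (Quaternion.ofComplex z) * A.f v y := by
      intro y
      rw [← B.herm, hB, star_mul, A.herm]
    by_cases hAv : A.q v = 0
    · exfalso
      apply hbad v
      have hAvv : A.f v v = 0 := (A.self_eq_zero_iff v).mpr hAv
      refine ⟨hv, hAv, ?_, {t | 1 + t • star (Quaternion.ofComplex z) = 0}, ?_, ?_⟩
      · rw [← B.self_eq_zero_iff, hB, hAvv, zero_mul]
      · apply Set.Subsingleton.finite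
        intro t1 h1 t2 h2
        simp only [Set.mem_setOf_eq] at h1 h2
        have h3 : (t1 - t2) • star (Quaternion.ofComplex z) = 0 := by
          rw [sub_smul]
          have := h1.trans h2.symm
          have := add_left_cancel this
          rw [this, sub_self]
        rcases smul_eq_zero.mp h3 with h | h
        · linarith
        · rw [h] at h1; simp at h1
      · intro t ht y hy
        simp only [Set.mem_setOf_eq] at ht
        simp only [HForm.add_f, HForm.smul_f] at hy
        rw [hB'] at hy
        have h4 : (1 + t • star (Quaternion.ofComplex z)) * A.f v y = 0 := by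
          rw [add_mul, one_mul, smul_mul_assoc]; exact hy
        have h5 := (mul_eq_zero.mp h4).resolve_left ht
        exact ⟨h5, by rw [hB', h5, mul_zero]⟩
    · refine ⟨v, hv, -(B.q v / A.q v), 1, Or.inr one_ne_zero, ?_⟩
      have h1 := hB v
      rw [A.self_eq, B.self_eq] at h1
      have h2 : Quaternion.ofComplex z = ((B.q v / A.q v : ℝ) : ℍ[ℝ]) := by
        have : ((A.q v)⁻¹ : ℝ) • ((A.q v : ℍ[ℝ]) * Quaternion.ofComplex z) = Quaternion.ofComplex z := by
          rw [Quaternion.coe_mul_eq_smul, smul_smul, inv_mul_cancel₀ hAv, one_smul]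
        rw [← this, ← h1, ← Quaternion.coe_mul_eq_smul, ← Quaternion.coe_mul]
        congr 1
        field_simp
      intro y
      rw [hB', h2, Quaternion.star_coe, Quaternion.coe_mul_eq_smul, one_smul, neg_smul,
        neg_add_cancel]
  · unfold HForm.NS at hA
    push Not at hA
    obtain ⟨v, hv, hv0⟩ := hA
    exact ⟨v, hv0, 1, 0, Or.inl one_ne_zero, fun y => by simp [hv y]⟩

theorem bad_of_sub (A B : HForm V) (W : Submodule K V) (w : W)
    (hbad : Bad (A.pull W.subtype) (B.pull W.subtype) w) (z : V) (hzW : ∀ y : V, ∃ a : ℍ[ℝ], ∃ y' ∈ W, y = op a • z + y')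
    (hz : ∀ y ∈ W, A.f y z = 0 ∧ B.f y z = 0) : Bad A B (w : V) := by
  obtain ⟨h1, h2, h3, E, hE, h4⟩ := hbad
  refine ⟨fun h => h1 (Subtype.ext h), h2, h3, E, hE, ?_⟩
  intro t ht y hy
  obtain ⟨a, y', hy', rfl⟩ := hzW y
  have e1 : A.f (w : V) (op a • z) = 0 := by rw [A.smul_right, (hz w w.2).1, zero_mul]
  have e2 : B.f (w : V) (op a • z) = 0 := by rw [B.smul_right, (hz w w.2).2, zero_mul]
  have h5 := h4 t ht ⟨y', hy'⟩ (by
    have : (A + t • B).f (w : V) (op a • z + y') = (A + t • B).f (w : V) y' := by
      simp only [HForm.add_f, HForm.smul_f, A.add_right, B.add_right, e1, e2, zero_add]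
    rw [this] at hy
    exact hy)
  rw [A.add_right, B.add_right, e1, e2, zero_add, zero_add]
  exact h5

end Bad

universe u

/-- Simultaneous diagonalization when there are no bad vectors. -/
theorem diag_aux (n : ℕ) : ∀ (V : Type u) [AddCommGroup V] [Module K V] [FiniteDimensional K V]
    [Module ℝ V] [IsScalarTower ℝ K V] (A B : HForm V), finrank K V = n → (∀ v, ¬ Bad A B v) →
    ∃ e : Fin n → V, ⊤ ≤ Submodule.span K (Set.range e) ∧
      (∀ i j, i ≠ j → A.f (e i) (e j) = 0) ∧ (∀ i j, i ≠ j → B.f (e i) (e j) = 0) ∧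
      (∀ i, A.q (e i) ≠ 0 ∨ B.q (e i) ≠ 0) := by
  induction n with
  | zero =>
    intro V _ _ _ _ _ A B hn _
    refine ⟨fun i => i.elim0, ?_, fun i => i.elim0, fun i => i.elim0, fun i => i.elim0⟩
    have : (⊤ : Submodule K V) = ⊥ := by
      rw [← Submodule.finrank_eq_zero, finrank_top]; exact hn
    rw [this]; exact bot_le
  | succ n ih =>
    intro V _ _ _ _ _ A B hn hbad
    haveI : Nontrivial V := by
      apply Module.nontrivial_of_finrank_pos (R := K)
      omega
    obtain ⟨v, hv, α, β, hαβ, hcomb⟩ := exists_real_dir A B hbad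
    have hpos : α ^ 2 + β ^ 2 ≠ 0 := by
      rcases hαβ with h | h <;> positivity
    set F : HForm V := α • B + (-β) • A with hF
    have hcq : α * A.q v + β * B.q v = 0 := by
      have := congrArg QuaternionAlgebra.re (hcomb v)
      simpa [HForm.q] using this
    have hAB : A.q v ≠ 0 ∨ B.q v ≠ 0 := by
      by_contra hc
      push Not at hc
      exact hbad v (bad_of_comb A B v hv hc.1 hc.2 α β hαβ hcomb)
    have hFv : F.q v ≠ 0 := by
      intro h0
      simp only [hF, HForm.add_q, HForm.smul_q] at h0
      have h1 : (α ^ 2 + β ^ 2) * A.q v = 0 := by linear_combination α * hcq - β * h0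
      have h2 : (α ^ 2 + β ^ 2) * B.q v = 0 := by linear_combination β * hcq + α * h0
      have h3 := (mul_eq_zero.mp h1).resolve_left hpos
      have h4 := (mul_eq_zero.mp h2).resolve_left hpos
      rcases hAB with h | h
      · exact h h3
      · exact h h4
    set W := F.perp (Submodule.span K {v}) with hW
    have hAW : ∀ y, F.f v y = 0 → A.f v y = 0 ∧ B.f v y = 0 := by
      intro y hy
      have e1 := hcomb y
      simp only [hF, HForm.add_f, HForm.smul_f] at hy
      constructor
      · have : (α ^ 2 + β ^ 2) • A.f v y = 0 := by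
          have : (α ^ 2 + β ^ 2) • A.f v y = α • (α • A.f v y + β • B.f v y) -
            β • (α • B.f v y + -β • A.f v y) := by
            simp only [smul_add, smul_smul, neg_smul, smul_neg, pow_two, add_smul]
            rw [mul_comm β α]
            abel
          rw [this, e1, hy]; simp
        exact (smul_eq_zero.mp this).resolve_left hpos
      · have : (α ^ 2 + β ^ 2) • B.f v y = 0 := by
          have : (α ^ 2 + β ^ 2) • B.f v y = β • (α • A.f v y + β • B.f v y) +
            α • (α • B.f v y + -β • A.f v y) := by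
            simp only [smul_add, smul_smul, neg_smul, smul_neg, pow_two, add_smul]
            rw [mul_comm β α]
            abel
          rw [this, e1, hy]; simp
        exact (smul_eq_zero.mp this).resolve_left hpos
    have hdec : ∀ y : V, ∃ a : ℍ[ℝ], ∃ y' ∈ W, y = op a • v + y' := by
      intro y
      refine ⟨((F.q v)⁻¹ : ℝ) • F.f v y, y - op (((F.q v)⁻¹ : ℝ) • F.f v y) • v, ?_, by abel⟩
      rw [hW, HForm.perp_span, F.sub_right, F.smul_right, F.self_eq, Quaternion.coe_mul_eq_smul,
        smul_smul, mul_inv_cancel₀ hFv, one_smul, sub_self]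
    have hdimW : finrank K W = n := by
      have h1 := perp_dim_top F (Submodule.span K {v})
      rw [finrank_span_one hv, hn] at h1
      have h2 : finrank K W + finrank K (Submodule.span K {v}) ≤ finrank K V := by
        apply finrank_inf_eq_zero_of_disj
        intro x hxW hxv
        obtain ⟨a, rfl⟩ := HForm.mem_span_one.mp hxv
        rw [hW, HForm.perp_span, F.smul_right, F.self_eq, Quaternion.coe_mul_eq_smul] at hxW
        have := (smul_eq_zero.mp hxW).resolve_left hFv
        rw [this]; simp
      rw [finrank_span_one hv, hn] at h2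
      change n + 1 ≤ finrank K W + 1 at h1
      omega
    have hzW : ∀ y ∈ W, A.f y v = 0 ∧ B.f y v = 0 := by
      intro y hy
      rw [hW, HForm.perp_span] at hy
      obtain ⟨e1, e2⟩ := hAW y hy
      exact ⟨A.symm_zero e1, B.symm_zero e2⟩
    obtain ⟨e, he1, he2, he3, he4⟩ := ih W (A.pull W.subtype) (B.pull W.subtype) hdimW (by
      intro w hw
      exact hbad _ (bad_of_sub A B W w hw v hdec hzW))
    obtain ⟨e', he'0, he's⟩ : ∃ e' : Fin (n + 1) → V, e' 0 = v ∧ ∀ i : Fin n, e' i.succ = (e i : V) :=
      ⟨Fin.cons v (fun i => (e i : V)), by simp, by simp⟩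
    refine ⟨e', ?_, ?_, ?_, ?_⟩
    · intro y _
      obtain ⟨a, y', hy', rfl⟩ := hdec y
      apply Submodule.add_mem
      · apply Submodule.smul_mem
        apply Submodule.subset_span
        exact ⟨0, he'0⟩
      · have h1 : (⟨y', hy'⟩ : W) ∈ Submodule.span K (Set.range e) := he1 trivial
        have h2 : y' ∈ (Submodule.span K (Set.range e)).map W.subtype := ⟨_, h1, rfl⟩
        rw [Submodule.map_span] at h2
        apply Submodule.span_mono _ h2
        rintro _ ⟨_, ⟨i, rfl⟩, rfl⟩
        exact ⟨i.succ, he's i⟩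
    · intro i j hij
      rcases Fin.eq_zero_or_eq_succ i with rfl | ⟨i', rfl⟩
      · rcases Fin.eq_zero_or_eq_succ j with rfl | ⟨j', rfl⟩
        · exact absurd rfl hij
        · rw [he'0, he's]
          exact A.symm_zero (hzW _ (e j').2).1
      · rcases Fin.eq_zero_or_eq_succ j with rfl | ⟨j', rfl⟩
        · rw [he'0, he's]
          exact (hzW _ (e i').2).1
        · rw [he's, he's]
          exact he2 i' j' (fun h' => hij (by rw [h']))
    · intro i j hij
      rcases Fin.eq_zero_or_eq_succ i with rfl | ⟨i', rfl⟩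
      · rcases Fin.eq_zero_or_eq_succ j with rfl | ⟨j', rfl⟩
        · exact absurd rfl hij
        · rw [he'0, he's]
          exact B.symm_zero (hzW _ (e j').2).2
      · rcases Fin.eq_zero_or_eq_succ j with rfl | ⟨j', rfl⟩
        · rw [he'0, he's]
          exact (hzW _ (e i').2).2
        · rw [he's, he's]
          exact he3 i' j' (fun h' => hij (by rw [h']))
    · intro i
      rcases Fin.eq_zero_or_eq_succ i with rfl | ⟨i', rfl⟩
      · rw [he'0]; exact hAB
      · rw [he's]; exact he4 i'

end Pool.Agent.Lib_c77211
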