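import Pool.Agent.Lib_c77211.Radical

open Quaternion MulOpposite Module

noncomputable section

namespace Pool.Agent.Lib_c77211

set_option linter.unusedSectionVars false
set_option linter.deprecated false

universe u

/-! ### transport of the type predicates -/

section Emb

variable {ι κ : Type*} {blk : ι → Block} {blk' : κ → Block} (σ : ι → κ)
  (hσ : Function.Injective σ) (h : ∀ i, blk' (σ i) = blk i)
  (h' : ∀ j, (∀ i, σ i ≠ j) → blk' j = Block.null)

include hσ h h'

theorem cnt_emb {p : Block → Prop} (hp : ¬ p Block.null) : cnt blk' p = cnt blk p := by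
  unfold cnt
  symm
  apply Nat.card_congr
  refine Equiv.ofBijective (fun i => ⟨σ i.1, by rw [h]; exact i.2⟩) ⟨?_, ?_⟩
  · intro i j hij
    apply Subtype.ext
    apply hσ
    exact congrArg Subtype.val hij
  · rintro ⟨j, hj⟩
    by_contra hcon
    have h1 : ∀ i, σ i ≠ j := by
      intro i hi
      apply hcon
      refine ⟨⟨i, ?_⟩, ?_⟩
      · rw [← h, hi]; exact hj
      · exact Subtype.ext hi
    rw [h' j h1] at hj
    exact hp hj

theorem all_emb {p : Block → Prop} (hp : p Block.null) : (∀ j, p (blk' j)) ↔ ∀ i, p (blk i) := by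
  constructor
  · intro H i
    rw [← h]; exact H _
  · intro H j
    by_cases hj : ∀ i, σ i ≠ j
    · rw [h' j hj]; exact hp
    · push Not at hj
      obtain ⟨i, rfl⟩ := hj
      rw [h]; exact H i

theorem isJ_null (k : ℕ) (s : ℝ) (p : ℝ → Prop) : ¬ Block.null.isJ k s p := by
  rintro ⟨x, _, hx⟩
  exact Block.noConfusion hx

theorem typeE_emb : TypeE blk' ↔ TypeE blk := by
  unfold TypeE
  exact all_emb σ hσ h h' (p := fun b => b = Block.null ∨ b.isJ 1 1 (fun _ => True) ∨ b = Block.ell)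
    (Or.inl rfl)

theorem typeP_emb (a : ℝ) : TypeP a blk' ↔ TypeP a blk := by
  unfold TypeP
  rw [all_emb σ hσ h h' (p := fun b => b = Block.null ∨ b.isJ 1 1 (fun _ => True) ∨
    b = Block.jordan 1 (-1) a ∨ b = Block.jordan 2 1 a ∨ b = Block.jordan 2 (-1) a ∨
    b = Block.jordan 3 1 a) (Or.inl rfl)]
  rw [cnt_emb σ hσ h h' (by rintro (h | h | h | h) <;> exact Block.noConfusion h),
    cnt_emb σ hσ h h' (by intro h; exact Block.noConfusion h),
    cnt_emb σ hσ h h' (by intro h; exact Block.noConfusion h),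
    cnt_emb σ hσ h h' (isJ_null σ hσ h h' _ _ _),
    cnt_emb σ hσ h h' (isJ_null σ hσ h h' _ _ _),
    cnt_emb σ hσ h h' (by intro h; exact Block.noConfusion h),
    cnt_emb σ hσ h h' (isJ_null σ hσ h h' _ _ _),
    cnt_emb σ hσ h h' (isJ_null σ hσ h h' _ _ _)]

theorem typeH_emb (a b : ℝ) : TypeH a b blk' ↔ TypeH a b blk := by
  unfold TypeH
  rw [all_emb σ hσ h h' (p := fun t => t = Block.null ∨ t.isJ 1 1 (fun x => x ≤ a ∨ b ≤ x) ∨
    t.isJ 1 (-1) (fun x => a ≤ x ∧ x ≤ b) ∨ t = Block.jordan 2 (-1) a ∨ t = Block.jordan 2 1 b)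
    (Or.inl rfl)]
  rw [cnt_emb σ hσ h h' (p := fun t => t = Block.jordan 1 (-1) a ∨ t = Block.jordan 2 (-1) a)
      (by rintro (h | h) <;> exact Block.noConfusion h),
    cnt_emb σ hσ h h' (p := fun t => t = Block.jordan 1 (-1) b ∨ t = Block.jordan 2 1 b)
      (by rintro (h | h) <;> exact Block.noConfusion h),
    cnt_emb σ hσ h h' (p := fun t => t = Block.jordan 2 1 b) (by intro h; exact Block.noConfusion h),
    cnt_emb σ hσ h h' (p := fun t => t = Block.jordan 2 (-1) a) (by intro h; exact Block.noConfusion h),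
    cnt_emb σ hσ h h' (p := fun t => t = Block.jordan 1 (-1) b) (by intro h; exact Block.noConfusion h),
    cnt_emb σ hσ h h' (p := fun t => t = Block.jordan 1 (-1) a) (by intro h; exact Block.noConfusion h),
    cnt_emb σ hσ h h' (isJ_null σ hσ h h' _ _ _),
    cnt_emb σ hσ h h' (isJ_null σ hσ h h' _ _ _),
    cnt_emb σ hσ h h' (isJ_null σ hσ h h' _ _ _),
    cnt_emb σ hσ h h' (isJ_null σ hσ h h' _ _ _),
    cnt_emb σ hσ h h' (isJ_null σ hσ h h' _ _ _),
    cnt_emb σ hσ h h' (isJ_null σ hσ h h' _ _ _)]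

/-- one of the three types -/
def IsT (ι : Type*) (blk : ι → Block) : Prop :=
  TypeE blk ∨ (∃ a, TypeP a blk) ∨ ∃ a b, a < b ∧ TypeH a b blk

theorem isT_emb : IsT κ blk' ↔ IsT ι blk := by
  unfold IsT
  simp only [typeE_emb σ hσ h h', typeP_emb σ hσ h h', typeH_emb σ hσ h h']

end Emb

/-! ### a row of a nonzero block -/

/-- nonzero blocks -/
def Good (t : Block) : Prop := t = Block.ell ∨ ∃ k s x, (k = 1 ∨ k = 2 ∨ k = 3) ∧ s ≠ 0 ∧
  t = Block.jordan k s x

theorem C_row {t : Block} (ht : Good t) (b : Fin t.size) :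
    ∃ a, ∃ s : ℍ[ℝ], s ≠ 0 ∧ ∀ b', t.C a b' = if b' = b then s else 0 := by
  rcases ht with rfl | ⟨k, s, x, _, hs, rfl⟩
  · have hb : (b : ℕ) < 2 := b.2
    refine ⟨(⟨1 - (b : ℕ), by omega⟩ : Fin 2), 1, one_ne_zero, ?_⟩
    intro b'
    have hb' : (b' : ℕ) < 2 := b'.2
    change (if (1 - (b : ℕ)) + (b' : ℕ) = 1 then (1 : ℍ[ℝ]) else 0) = _
    congr 1
    rw [eq_iff_iff]
    constructor
    · intro h; apply Fin.ext; omega
    · intro h; rw [h]; omega
  · have hb : (b : ℕ) < k := b.2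
    refine ⟨(⟨k - 1 - (b : ℕ), by omega⟩ : Fin k), (s : ℍ[ℝ]), coe_ne_zero hs, ?_⟩
    intro b'
    have hb' : (b' : ℕ) < k := b'.2
    change (if (k - 1 - (b : ℕ)) + (b' : ℕ) + 1 = k then (s : ℍ[ℝ]) else 0) = _
    congr 1
    rw [eq_iff_iff]
    constructor
    · intro h; apply Fin.ext; omega
    · intro h; rw [h]; omega

theorem BAct.good {V : Type u} [AddCommGroup V] [Module K V] [Module ℝ V]
    [IsScalarTower ℝ K V] {X : V →ₗ[K] V} {b : Block} {e : Fin b.size → V} (h : BAct X b e) :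
    Good b := by
  match b, e, h with
  | .null, e, h => exact h.elim
  | .ell, e, h => exact Or.inl rfl
  | .jordan k s x, e, h => exact Or.inr ⟨k, s, x, h.1, h.2.1, rfl⟩

variable {V : Type u} [AddCommGroup V] [Module K V] [FiniteDimensional K V] [Module ℝ V]
  [IsScalarTower ℝ K V]

/-- total family -/
abbrev tot {ι : Type*} {blk : ι → Block} (e : (i : ι) → Fin (blk i).size → V) :
    (Σ i, Fin (blk i).size) → V := fun p => e p.1 p.2

/-- block decomposition of the pair of forms `(C, D)` -/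
structure FDec (C D : HForm V) {ι : Type*} (blk : ι → Block)
    (e : (i : ι) → Fin (blk i).size → V) : Prop where
  span : ⊤ ≤ Submodule.span K (Set.range (tot e))
  li : LinearIndependent K (tot e)
  gramC : ∀ i a b, C.f (e i a) (e i b) = (blk i).C a b
  gramD : ∀ i a b, D.f (e i a) (e i b) = (blk i).D a b
  orthC : ∀ i j, i ≠ j → ∀ a b, C.f (e i a) (e j b) = 0
  orthD : ∀ i j, i ≠ j → ∀ a b, D.f (e i a) (e j b) = 0

theorem tot_span_eq {ι : Type*} {blk : ι → Block} (e : (i : ι) → Fin (blk i).size → V) :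
    Submodule.span K (Set.range (tot e)) = ⨆ i, Submodule.span K (Set.range (e i)) := by
  rw [← Submodule.span_iUnion]
  congr 1
  ext x
  simp only [Set.mem_range, Set.mem_iUnion]
  constructor
  · rintro ⟨⟨i, a⟩, rfl⟩; exact ⟨i, a, rfl⟩
  · rintro ⟨i, a, rfl⟩; exact ⟨⟨i, a⟩, rfl⟩

/-- independence from the Gram matrix -/
theorem li_of_gram (C : HForm V) {ι : Type*} [Fintype ι] [DecidableEq ι] {blk : ι → Block}
    (e : (i : ι) → Fin (blk i).size → V) (hg : ∀ i a b, C.f (e i a) (e i b) = (blk i).C a b)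
    (ho : ∀ i j, i ≠ j → ∀ a b, C.f (e i a) (e j b) = 0) (hgood : ∀ i, Good (blk i)) :
    LinearIndependent K (tot e) := by
  rw [Fintype.linearIndependent_iff]
  rintro g hg0 ⟨i, b⟩
  obtain ⟨a, s, hs, hrow⟩ := C_row (hgood i) b
  have h1 : C.f (e i a) (∑ p, g p • tot e p) = 0 := by rw [hg0]; exact C.zero_right _
  rw [C.sum_right, Finset.sum_eq_single ⟨i, b⟩] at h1
  · have h2 := C.smul_right (e i a) (unop (g ⟨i, b⟩)) (e i b)
    rw [op_unop] at h2
    have h3 : C.f (e i a) (g ⟨i, b⟩ • tot e ⟨i, b⟩) = C.f (e i a) (g ⟨i, b⟩ • e i b) := rfl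
    rw [h3, h2, hg, hrow, if_pos rfl] at h1
    have h4 := (mul_eq_zero.mp h1).resolve_left hs
    rw [← op_unop (g ⟨i, b⟩), h4, op_zero]
  · rintro ⟨j, b'⟩ _ hne
    have h2 := C.smul_right (e i a) (unop (g ⟨j, b'⟩)) (e j b')
    rw [op_unop] at h2
    have h3 : C.f (e i a) (g ⟨j, b'⟩ • tot e ⟨j, b'⟩) = C.f (e i a) (g ⟨j, b'⟩ • e j b') := rfl
    rw [h3, h2]
    by_cases hij : i = j
    · subst hij
      have hb : b' ≠ b := by
        rintro rfl; exact hne rfl
      rw [hg, hrow, if_neg hb, zero_mul]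
    · rw [ho i j hij, zero_mul]
  · intro h; exact absurd (Finset.mem_univ _) h

/-- Gram matrix of the second form -/
theorem gramD_of_act {C F : HForm V} {X : V →ₗ[K] V} (hX : ∀ x y, C.f x (X y) = F.f x y) {b : Block}
    {e : Fin b.size → V} (hg : ∀ i j, C.f (e i) (e j) = b.C i j) (ha : BAct X b e) :
    ∀ i j, F.f (e i) (e j) = b.D i j := by
  match b, e, hg, ha with
  | .null, e, hg, ha => exact ha.elim
  | .ell, e, hg, ha =>
    obtain ⟨h0, h1⟩ := ha
    intro i j
    rw [← hX]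
    have h00 : C.f (e (0 : Fin 2)) (e (0 : Fin 2)) = 0 := (hg (0 : Fin 2) (0 : Fin 2)).trans (by simp [Block.C])
    have h01 : C.f (e (0 : Fin 2)) (e (1 : Fin 2)) = 1 := (hg (0 : Fin 2) (1 : Fin 2)).trans (by simp [Block.C])
    have h10 : C.f (e (1 : Fin 2)) (e (0 : Fin 2)) = 1 := (hg (1 : Fin 2) (0 : Fin 2)).trans (by simp [Block.C])
    have h11 : C.f (e (1 : Fin 2)) (e (1 : Fin 2)) = 0 := (hg (1 : Fin 2) (1 : Fin 2)).trans (by simp [Block.C])
    have key : ∀ i j : Fin 2, C.f (e i) (X (e j)) =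
        if (i : ℕ) + (j : ℕ) = 1 then (if (i : ℕ) = 0 then qi else -qi) else 0 := by
      intro i j
      fin_cases i <;> fin_cases j
      · change C.f (e (0 : Fin 2)) (X (e (0 : Fin 2))) = _
        rw [h0, C.smul_right, h00]; simp
      · change C.f (e (0 : Fin 2)) (X (e (1 : Fin 2))) = _
        rw [h1, C.smul_right, h01]; simp
      · change C.f (e (1 : Fin 2)) (X (e (0 : Fin 2))) = _
        rw [h0, C.smul_right, h10]; simp
      · change C.f (e (1 : Fin 2)) (X (e (1 : Fin 2))) = _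
        rw [h1, C.smul_right, h11]; simp
    exact key i j
  | .jordan k s x, e, hg, ha =>
    obtain ⟨hk, hs, hact⟩ := ha
    intro i j
    have hg' : ∀ i j : Fin k, C.f (e i) (e j) = if (i : ℕ) + (j : ℕ) + 1 = k then (s : ℍ[ℝ]) else 0 := hg
    have hi : (i : ℕ) < k := i.2
    have hj : (j : ℕ) < k := j.2
    have h1 := hact j
    change F.f (e i) (e j) = if (i : ℕ) + (j : ℕ) + 1 = k then ((s * x : ℝ) : ℍ[ℝ])
      else if (i : ℕ) + (j : ℕ) = k then (s : ℍ[ℝ]) else 0
    rw [← hX, h1, C.add_right, C.rsmul_right, hg' i j]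
    by_cases h0 : 0 < (j : ℕ)
    · rw [dif_pos h0, hg' i _]
      by_cases h2 : (i : ℕ) + (j : ℕ) + 1 = k
      · rw [if_pos h2, if_pos h2, if_neg (by simp only []; omega), add_zero, ← Quaternion.coe_smul,
          smul_eq_mul, mul_comm]
      · rw [if_neg h2, if_neg h2, smul_zero, zero_add]
        by_cases h3 : (i : ℕ) + (j : ℕ) = k
        · rw [if_pos h3, if_pos (by simp only []; omega)]
        · rw [if_neg h3, if_neg (by simp only []; omega)]
    · rw [dif_neg h0, C.zero_right, add_zero]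
      by_cases h2 : (i : ℕ) + (j : ℕ) + 1 = k
      · rw [if_pos h2, if_pos h2, ← Quaternion.coe_smul, smul_eq_mul, mul_comm]
      · rw [if_neg h2, if_neg h2, if_neg (by omega), smul_zero]

theorem fdec_of_xdec {C F : HForm V} {X : V →ₗ[K] V} (hX : ∀ x y, C.f x (X y) = F.f x y) {m : ℕ}
    {blk : Fin m → Block} {e : (i : Fin m) → Fin (blk i).size → V} (hd : XDec C X blk e) :
    FDec C F blk e := by
  refine ⟨?_, ?_, hd.gram, fun i => gramD_of_act hX (hd.gram i) (hd.act i), hd.orth, ?_⟩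
  · rw [tot_span_eq]; exact hd.span
  · exact li_of_gram C e hd.gram hd.orth (fun i => (hd.act i).good)
  · intro i j hij a b
    rw [← hX]
    exact hd.orth_span hij _ (Submodule.subset_span ⟨a, rfl⟩) _ ((hd.act j).maps b)

/-- transport along an equivalence of the index types -/
theorem FDec.reindex {C D : HForm V} {ι κ : Type*} {blk : ι → Block}
    {e : (i : ι) → Fin (blk i).size → V} (h : FDec C D blk e) (σ : κ ≃ ι) :
    FDec C D (fun j => blk (σ j)) (fun j => e (σ j)) := by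
  have hfun : Function.Surjective (fun p : Σ j, Fin (blk (σ j)).size =>
      (⟨σ p.1, p.2⟩ : Σ i, Fin (blk i).size)) := by
    rintro ⟨i, a⟩
    obtain ⟨j, rfl⟩ := σ.surjective i
    exact ⟨⟨j, a⟩, rfl⟩
  have hinj : Function.Injective (fun p : Σ j, Fin (blk (σ j)).size =>
      (⟨σ p.1, p.2⟩ : Σ i, Fin (blk i).size)) := by
    rintro ⟨j, a⟩ ⟨j', a'⟩ heq
    simp only [Sigma.mk.injEq] at heq
    obtain ⟨h1, h2⟩ := heq
    have h3 : j = j' := σ.injective h1
    subst h3
    simp only [heq_eq_eq] at h2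
    rw [h2]
  refine ⟨?_, ?_, fun j => h.gramC _, fun j => h.gramD _, ?_, ?_⟩
  · have : Set.range (tot (blk := fun j => blk (σ j)) (fun j => e (σ j))) = Set.range (tot e) :=
      hfun.range_comp (tot e)
    rw [this]
    exact h.span
  · exact h.li.comp _ hinj
  · intro i j hij
    exact h.orthC _ _ (fun h => hij (σ.injective h))
  · intro i j hij
    exact h.orthD _ _ (fun h => hij (σ.injective h))

end Pool.Agent.Lib_c77211
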