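import Pool.Agent.Lib_c77211.FDec

open Quaternion MulOpposite Module

noncomputable section

namespace Pool.Agent.Lib_c77211

set_option linter.unusedSectionVars false
set_option linter.deprecated false

universe u

variable {V : Type u} [AddCommGroup V] [Module K V] [FiniteDimensional K V] [Module ℝ V]
  [IsScalarTower ℝ K V]

/-- the canonical form as a decomposition of the whole space -/
def FCanon (A B : HForm V) : Prop :=
  ∃ α β γ δ : ℝ, α * δ - β * γ ≠ 0 ∧ ∃ (m : ℕ) (blk : Fin m → Block)
    (e : (i : Fin m) → Fin (blk i).size → V),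
      FDec (α • A + β • B) (γ • A + δ • B) blk e ∧ IsT (Fin m) blk

theorem radical_comb {A B : HForm V} (α β γ δ : ℝ) {x : V} (hx : x ∈ radical A B) (y : V) :
    (α • A + β • B).f x y = 0 ∧ (γ • A + δ • B).f x y = 0 := by
  simp only [HForm.add_f, HForm.smul_f, (hx y).1, (hx y).2]
  simp

/-- adding null blocks -/
theorem add_null {C D : HForm V} {N W : Submodule K V} (hN : N ≤ radical C D) (hc : IsCompl N W)
    {m : ℕ} {blk : Fin m → Block} {e : (i : Fin m) → Fin (blk i).size → W}
    (h : FDec (C.pull W.subtype) (D.pull W.subtype) blk e) :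
    ∃ (m' : ℕ) (blk' : Fin m' → Block) (e' : (i : Fin m') → Fin (blk' i).size → V),
      FDec C D blk' e' ∧ (IsT (Fin m) blk → IsT (Fin m') blk') := by
  classical
  obtain ⟨r, hr⟩ : ∃ r, r = finrank K N := ⟨_, rfl⟩
  obtain ⟨nb⟩ : Nonempty (Basis (Fin r) K N) := by rw [hr]; exact ⟨Module.finBasis K N⟩
  obtain ⟨blk1, hblk1⟩ : ∃ b : Fin m ⊕ Fin r → Block, b = Sum.elim blk (fun _ => Block.null) := ⟨_, rfl⟩
  subst hblk1
  let e1 : (j : Fin m ⊕ Fin r) → Fin ((Sum.elim blk (fun _ => Block.null) : Fin m ⊕ Fin r → Block) j).size → V :=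
    fun j => match j with
      | Sum.inl i => fun a => (e i a : V)
      | Sum.inr t => fun _ => (nb t : V)
  have hrad : ∀ t, ∀ y, C.f (nb t : V) y = 0 ∧ D.f (nb t : V) y = 0 := fun t y => hN (nb t).2 y
  have hspan : ⊤ ≤ Submodule.span K (Set.range (tot e1)) := by
    intro x _
    have hx : x ∈ N ⊔ W := by rw [hc.sup_eq_top]; trivial
    obtain ⟨n, hn, w, hw, rfl⟩ := Submodule.mem_sup.mp hx
    apply Submodule.add_mem
    · have h1 : (⟨n, hn⟩ : N) ∈ Submodule.span K (Set.range nb) := by rw [nb.span_eq]; trivial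
      have h2 : n ∈ (Submodule.span K (Set.range nb)).map N.subtype := ⟨_, h1, rfl⟩
      rw [Submodule.map_span] at h2
      refine (Submodule.span_mono ?_) h2
      rintro _ ⟨_, ⟨t, rfl⟩, rfl⟩
      exact ⟨⟨Sum.inr t, (0 : Fin 1)⟩, rfl⟩
    · have h1 : (⟨w, hw⟩ : W) ∈ Submodule.span K (Set.range (tot e)) := h.span trivial
      have h2 : w ∈ (Submodule.span K (Set.range (tot e))).map W.subtype := ⟨_, h1, rfl⟩
      rw [Submodule.map_span] at h2
      refine (Submodule.span_mono ?_) h2
      rintro _ ⟨_, ⟨⟨i, a⟩, rfl⟩, rfl⟩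
      exact ⟨⟨Sum.inl i, a⟩, rfl⟩
  have hdimW : finrank K W = ∑ i, (blk i).size := by
    have b := Basis.mk h.li h.span
    rw [Module.finrank_eq_card_basis b, Fintype.card_sigma]
    simp
  have hdimV : finrank K V = finrank K N + finrank K W :=
    (Submodule.finrank_add_eq_of_isCompl hc).symm
  have hli : LinearIndependent K (tot e1) := by
    apply linearIndependent_of_top_le_span_of_card_eq_finrank hspan
    rw [Fintype.card_sigma, hdimV, hdimW, ← hr, Fintype.sum_sum_type]
    have h3 : ∑ x : Fin m, Fintype.card (Fin ((Sum.elim blk (fun _ => Block.null) :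
        Fin m ⊕ Fin r → Block) (Sum.inl x)).size) = ∑ i, (blk i).size :=
      Finset.sum_congr rfl (fun i _ => Fintype.card_fin _)
    have h4 : ∑ x : Fin r, Fintype.card (Fin ((Sum.elim blk (fun _ => Block.null) :
        Fin m ⊕ Fin r → Block) (Sum.inr x)).size) = r := by
      have h5 : ∀ x : Fin r, Fintype.card (Fin ((Sum.elim blk (fun _ => Block.null) :
          Fin m ⊕ Fin r → Block) (Sum.inr x)).size) = 1 := fun x => Fintype.card_fin _
      simp only [h5]
      simp
    rw [h3, h4, add_comm]
  have hF : FDec C D (Sum.elim blk (fun _ => Block.null)) e1 := by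
    refine ⟨hspan, hli, ?_, ?_, ?_, ?_⟩
    · rintro (i | t) a b
      · exact h.gramC i a b
      · exact (hrad t _).1
    · rintro (i | t) a b
      · exact h.gramD i a b
      · exact (hrad t _).2
    · rintro (i | t) (j | t') hij a b
      · exact h.orthC i j (fun h => hij (by rw [h])) a b
      · exact C.symm_zero (hrad t' _).1
      · exact (hrad t _).1
      · exact (hrad t _).1
    · rintro (i | t) (j | t') hij a b
      · exact h.orthD i j (fun h => hij (by rw [h])) a b
      · exact D.symm_zero (hrad t' _).2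
      · exact (hrad t _).2
      · exact (hrad t _).2
  obtain ⟨σ⟩ : Nonempty (Fin (m + r) ≃ Fin m ⊕ Fin r) := ⟨finSumFinEquiv.symm⟩
  refine ⟨m + r, _, _, hF.reindex σ, ?_⟩
  intro hT
  rw [isT_emb (blk := blk) (fun i => σ.symm (Sum.inl i))]
  · exact hT
  · exact σ.symm.injective.comp Sum.inl_injective
  · intro i; simp
  · intro j hj
    rcases hs : σ j with i | t
    · exfalso
      apply hj i
      rw [← hs]; simp
    · rfl

theorem nec_form (A B : HForm V) (hP : PP A B) : SemiDef A B ∨ FCanon A B := by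
  obtain ⟨W, hc⟩ := Submodule.exists_isCompl (radical A B)
  rcases nec_general A B hP hc with h | ⟨α, β, γ, δ, hdet, X, hX, m, blk, e, hd, hT⟩
  · exact Or.inl h
  · right
    have h1 := fdec_of_xdec hX hd
    have hN : radical A B ≤ radical (α • A + β • B) (γ • A + δ • B) :=
      fun x hx y => radical_comb α β γ δ hx y
    obtain ⟨m', blk', e', h2, h3⟩ := add_null (C := α • A + β • B) (D := γ • A + δ • B) hN hc h1
    exact ⟨α, β, γ, δ, hdet, m', blk', e', h2, h3 hT⟩

/-! ### sufficiency -/

theorem ns_of_fdec {C D : HForm V} {ι : Type*} [Fintype ι] [DecidableEq ι] {blk : ι → Block}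
    {e : (i : ι) → Fin (blk i).size → V} (h : FDec C D blk e) (hgood : ∀ i, Good (blk i)) : C.NS := by
  intro x hx
  have hx' : x ∈ Submodule.span K (Set.range (tot e)) := h.span trivial
  obtain ⟨g, hg⟩ := mem_span_range (tot e) Finset.univ x (by
    rw [Finset.coe_univ, Set.image_univ]; exact hx')
  have hg0 : ∀ p, g p = 0 := by
    rintro ⟨i, b⟩
    obtain ⟨a, s, hs, hrow⟩ := C_row (hgood i) b
    have h1 : C.f (e i a) x = 0 := C.symm_zero (hx _)
    rw [hg, C.sum_right, Finset.sum_eq_single ⟨i, b⟩] at h1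
    · rw [C.smul_right] at h1
      have h3 : C.f (e i a) (tot e ⟨i, b⟩) = C.f (e i a) (e i b) := rfl
      rw [h3, h.gramC, hrow, if_pos rfl] at h1
      exact (mul_eq_zero.mp h1).resolve_left hs
    · rintro ⟨j, b'⟩ _ hne
      rw [C.smul_right]
      have h3 : C.f (e i a) (tot e ⟨j, b'⟩) = C.f (e i a) (e j b') := rfl
      rw [h3]
      by_cases hij : i = j
      · subst hij
        have hb : b' ≠ b := by
          rintro rfl; exact hne rfl
        rw [h.gramC, hrow, if_neg hb, zero_mul]
      · rw [h.orthC i j hij, zero_mul]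
    · intro h; exact absurd (Finset.mem_univ _) h
  rw [hg]
  apply Finset.sum_eq_zero
  intro p _
  rw [hg0 p]; simp

theorem eq_of_gram {C D : HForm V} {ι : Type*} [Fintype ι] [DecidableEq ι] {blk : ι → Block}
    {e : (i : ι) → Fin (blk i).size → V} (h : FDec C D blk e) (hgood : ∀ i, Good (blk i)) {x y : V}
    (hxy : ∀ i a, C.f (e i a) x = C.f (e i a) y) : x = y := by
  have h0 : x - y = 0 := by
    apply ns_of_fdec h hgood
    intro z
    apply C.symm_zero
    have hz : z ∈ Submodule.span K (Set.range (tot e)) := h.span trivial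
    have hle : Submodule.span K (Set.range (tot e)) ≤ C.perp (Submodule.span K {x - y}) := by
      rw [Submodule.span_le]
      rintro _ ⟨⟨i, a⟩, rfl⟩
      rw [SetLike.mem_coe, HForm.perp_span]
      apply C.symm_zero
      rw [C.sub_right]
      exact sub_eq_zero.mpr (hxy i a)
    exact C.symm_zero ((HForm.perp_span C _ _).mp (hle hz))
  exact sub_eq_zero.mp h0

theorem xdec_of_fdec {C D : HForm V} {m : ℕ} {blk : Fin m → Block}
    {e : (i : Fin m) → Fin (blk i).size → V} (h : FDec C D blk e) (hgood : ∀ i, Good (blk i)) :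
    ∃ X : V →ₗ[K] V, (∀ x y, C.f x (X y) = D.f x y) ∧ XDec C X blk e := by
  have hns := ns_of_fdec h hgood
  obtain ⟨X, hX⟩ := exists_op C hns D
  refine ⟨X, hX, ⟨?_, h.gramC, h.orthC, ?_⟩⟩
  · rw [← tot_span_eq]; exact h.span
  · intro i
    -- values of X on the block
    have key : ∀ (b : Fin (blk i).size) (z : V), z ∈ Submodule.span K (Set.range (e i)) →
        (∀ a, C.f (e i a) z = (blk i).D a b) → X (e i b) = z := by
      intro b z hz hgr
      apply eq_of_gram h hgood
      intro j a
      rw [hX]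
      by_cases hij : j = i
      · subst hij
        rw [h.gramD, hgr]
      · rw [h.orthD j i hij]
        symm
        exact orth_span_range C (e j) (e i) (h.orthC j i hij) _ (Submodule.subset_span ⟨a, rfl⟩) _ hz
    have hg := h.gramC i
    have hgd := hgood i
    generalize e i = f at key hg ⊢
    generalize blk i = t at f key hg hgd ⊢
    rcases hgd with rfl | ⟨k, s, x, hk, hs, rfl⟩
    · constructor
      · apply key (0 : Fin 2)
        · exact Submodule.smul_mem _ _ (Submodule.subset_span ⟨_, rfl⟩)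
        · intro a
          rw [C.smul_right]
          have h1 : C.f (f a) (f (0 : Fin 2)) = if (a : ℕ) + 0 = 1 then (1 : ℍ[ℝ]) else 0 := hg a (0 : Fin 2)
          change C.f (f a) (f (0 : Fin 2)) * -qi =
            if (a : ℕ) + 0 = 1 then (if (a : ℕ) = 0 then qi else -qi) else 0
          rw [h1]
          by_cases h2 : (a : ℕ) + 0 = 1
          · rw [if_pos h2, if_pos h2, if_neg (by omega), one_mul]
          · rw [if_neg h2, if_neg h2, zero_mul]
      · apply key (1 : Fin 2)
        · exact Submodule.smul_mem _ _ (Submodule.subset_span ⟨_, rfl⟩)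
        · intro a
          rw [C.smul_right]
          have h1 : C.f (f a) (f (1 : Fin 2)) = if (a : ℕ) + 1 = 1 then (1 : ℍ[ℝ]) else 0 := hg a (1 : Fin 2)
          change C.f (f a) (f (1 : Fin 2)) * qi =
            if (a : ℕ) + 1 = 1 then (if (a : ℕ) = 0 then qi else -qi) else 0
          rw [h1]
          by_cases h2 : (a : ℕ) + 1 = 1
          · rw [if_pos h2, if_pos h2, if_pos (by omega), one_mul]
          · rw [if_neg h2, if_neg h2, zero_mul]
    · refine ⟨hk, hs, ?_⟩
      intro b
      have hg' : ∀ i j : Fin k, C.f (f i) (f j) = if (i : ℕ) + (j : ℕ) + 1 = k then (s : ℍ[ℝ]) else 0 := hg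
      apply key b
      · apply Submodule.add_mem
        · exact mem_rsmul _ _ (Submodule.subset_span ⟨_, rfl⟩)
        · split_ifs with h0
          · exact Submodule.subset_span ⟨_, rfl⟩
          · exact Submodule.zero_mem _
      · intro a
        have ha : (a : ℕ) < k := a.2
        have hb : (b : ℕ) < k := b.2
        change C.f (f a) _ = if (a : ℕ) + (b : ℕ) + 1 = k then ((s * x : ℝ) : ℍ[ℝ])
          else if (a : ℕ) + (b : ℕ) = k then (s : ℍ[ℝ]) else 0
        rw [C.add_right, C.rsmul_right, hg' a b]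
        by_cases h0 : 0 < (b : ℕ)
        · rw [dif_pos h0, hg' a _]
          by_cases h2 : (a : ℕ) + (b : ℕ) + 1 = k
          · rw [if_pos h2, if_pos h2, if_neg (by simp only []; omega), add_zero, ← Quaternion.coe_smul,
              smul_eq_mul, mul_comm]
          · rw [if_neg h2, if_neg h2, smul_zero, zero_add]
            by_cases h3 : (a : ℕ) + (b : ℕ) = k
            · rw [if_pos h3, if_pos (by simp only []; omega)]
            · rw [if_neg h3, if_neg (by simp only []; omega)]
        · rw [dif_neg h0, C.zero_right, add_zero]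
          by_cases h2 : (a : ℕ) + (b : ℕ) + 1 = k
          · rw [if_pos h2, if_pos h2, ← Quaternion.coe_smul, smul_eq_mul, mul_comm]
          · rw [if_neg h2, if_neg h2, if_neg (by omega), smul_zero]

theorem good_of_isT {ι : Type*} {blk : ι → Block} (h : IsT ι blk) (i : ι) :
    blk i = Block.null ∨ Good (blk i) := by
  have j1 : ∀ (s : ℝ) (p : ℝ → Prop), s ≠ 0 → (blk i).isJ 1 s p → Good (blk i) := by
    rintro s p hs ⟨x, _, hx⟩
    exact Or.inr ⟨1, s, x, Or.inl rfl, hs, hx⟩
  have j2 : ∀ (k : ℕ) (s x : ℝ), (k = 1 ∨ k = 2 ∨ k = 3) → s ≠ 0 → blk i = Block.jordan k s x →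
      Good (blk i) := fun k s x hk hs hx => Or.inr ⟨k, s, x, hk, hs, hx⟩
  have hn : (-1 : ℝ) ≠ 0 := by norm_num
  rcases h with h | ⟨a, h⟩ | ⟨a, b, _, h⟩
  · rcases h i with h | h | h
    · exact Or.inl h
    · exact Or.inr (j1 1 _ one_ne_zero h)
    · exact Or.inr (Or.inl h)
  · rcases h.1 i with h | h | h | h | h | h
    · exact Or.inl h
    · exact Or.inr (j1 1 _ one_ne_zero h)
    · exact Or.inr (j2 _ _ _ (Or.inl rfl) hn h)
    · exact Or.inr (j2 _ _ _ (Or.inr (Or.inl rfl)) one_ne_zero h)
    · exact Or.inr (j2 _ _ _ (Or.inr (Or.inl rfl)) hn h)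
    · exact Or.inr (j2 _ _ _ (Or.inr (Or.inr rfl)) one_ne_zero h)
  · rcases h.1 i with h | h | h | h | h
    · exact Or.inl h
    · exact Or.inr (j1 1 _ one_ne_zero h)
    · exact Or.inr (j1 (-1) _ hn h)
    · exact Or.inr (j2 _ _ _ (Or.inr (Or.inl rfl)) hn h)
    · exact Or.inr (j2 _ _ _ (Or.inr (Or.inl rfl)) one_ne_zero h)

theorem suff_form (A B : HForm V) (h : FCanon A B) : PP A B := by
  classical
  obtain ⟨α, β, γ, δ, hdet, m, blk, e, hF, hT⟩ := h
  set C := α • A + β • B with hC
  set D := γ • A + δ • B with hD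
  -- the two parts
  obtain ⟨N, hN⟩ : ∃ N, N = Submodule.span K (tot e '' {p | blk p.1 = Block.null}) := ⟨_, rfl⟩
  obtain ⟨W, hW⟩ : ∃ W, W = Submodule.span K (tot e '' {p | blk p.1 = Block.null}ᶜ) := ⟨_, rfl⟩
  have hcompl : IsCompl N W := by
    constructor
    · rw [hN, hW]
      exact hF.li.disjoint_span_image disjoint_compl_right
    · rw [codisjoint_iff, hN, hW, ← Submodule.span_union, ← Set.image_union, Set.union_compl_self,
        Set.image_univ, eq_top_iff]
      exact hF.span
  have hNrad : N ≤ radical C D := by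
    rw [hN, Submodule.span_le]
    rintro _ ⟨⟨i, a⟩, hi, rfl⟩ y
    have hi' : blk i = Block.null := hi
    have hy : y ∈ Submodule.span K (Set.range (tot e)) := hF.span trivial
    have g0 : ∀ (t : Block) (ht : t = Block.null) (a b : Fin t.size), t.C a b = 0 ∧ t.D a b = 0 := by
      rintro t rfl a b; exact ⟨rfl, rfl⟩
    constructor
    · have hle : Submodule.span K (Set.range (tot e)) ≤ C.perp (Submodule.span K {e i a}) := by
        rw [Submodule.span_le]
        rintro _ ⟨⟨j, b⟩, rfl⟩
        rw [SetLike.mem_coe, HForm.perp_span]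
        change C.f (e i a) (e j b) = 0
        by_cases hij : i = j
        · subst hij; rw [hF.gramC]; exact (g0 _ hi' _ _).1
        · exact hF.orthC i j hij a b
      exact (HForm.perp_span C _ _).mp (hle hy)
    · have hle : Submodule.span K (Set.range (tot e)) ≤ D.perp (Submodule.span K {e i a}) := by
        rw [Submodule.span_le]
        rintro _ ⟨⟨j, b⟩, rfl⟩
        rw [SetLike.mem_coe, HForm.perp_span]
        change D.f (e i a) (e j b) = 0
        by_cases hij : i = j
        · subst hij; rw [hF.gramD]; exact (g0 _ hi' _ _).2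
        · exact hF.orthD i j hij a b
      exact (HForm.perp_span D _ _).mp (hle hy)
  have hdet' : α * δ - β * γ ≠ 0 := hdet
  -- N is in the radical of (A, B)
  have hNrad' : N ≤ radical A B := by
    intro x hx y
    obtain ⟨e1, e2⟩ := hNrad hx y
    simp only [hC, hD, HForm.add_f, HForm.smul_f] at e1 e2
    constructor
    · have : (α * δ - β * γ) • A.f x y = 0 := by
        have h1 : (α * δ - β * γ) • A.f x y = δ • (α • A.f x y + β • B.f x y) -
            β • (γ • A.f x y + δ • B.f x y) := by module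
        rw [h1, e1, e2]; simp
      exact (smul_eq_zero.mp this).resolve_left hdet'
    · have : (α * δ - β * γ) • B.f x y = 0 := by
        have h1 : (α * δ - β * γ) • B.f x y = (-γ) • (α • A.f x y + β • B.f x y) +
            α • (γ • A.f x y + δ • B.f x y) := by module
        rw [h1, e1, e2]; simp
      exact (smul_eq_zero.mp this).resolve_left hdet'
  apply suff_general A B hNrad' hcompl
  -- the good blocks
  obtain ⟨m', ⟨σ⟩⟩ : ∃ m' : ℕ, Nonempty (Fin m' ≃ {i : Fin m // blk i ≠ Block.null}) :=
    ⟨_, ⟨(Fintype.equivFin {i : Fin m // blk i ≠ Block.null}).symm⟩⟩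
  have hmem : ∀ (i : {i : Fin m // blk i ≠ Block.null}) a, e i.1 a ∈ W := by
    intro i a
    rw [hW]
    exact Submodule.subset_span ⟨⟨i.1, a⟩, i.2, rfl⟩
  let e0 : (i : {i : Fin m // blk i ≠ Block.null}) → Fin (blk i.1).size → W :=
    fun i a => ⟨e i.1 a, hmem i a⟩
  have hF0 : FDec (C.pull W.subtype) (D.pull W.subtype) (fun i : {i : Fin m // blk i ≠ Block.null} =>
      blk i.1) e0 := by
    refine ⟨?_, ?_, fun i => hF.gramC _, fun i => hF.gramD _, ?_, ?_⟩
    · rintro ⟨x, hx⟩ _
      have h1 : ∀ x ∈ W, ∃ z ∈ Submodule.span K (Set.range (tot e0)), (z : V) = x := by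
        intro x hx
        rw [hW] at hx
        have h2 : Submodule.span K (tot e '' {p | blk p.1 = Block.null}ᶜ) ≤
            (Submodule.span K (Set.range (tot e0))).map W.subtype := by
          rw [Submodule.span_le]
          rintro _ ⟨⟨i, a⟩, hi, rfl⟩
          exact ⟨e0 ⟨i, hi⟩ a, Submodule.subset_span ⟨⟨⟨i, hi⟩, a⟩, rfl⟩, rfl⟩
        obtain ⟨z, hz, hz2⟩ := h2 hx
        exact ⟨z, hz, hz2⟩
      obtain ⟨z, hz, hz2⟩ := h1 x hx
      have : z = ⟨x, hx⟩ := Subtype.ext hz2
      rw [← this]; exact hz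
    · have hinj : Function.Injective (fun p : Σ i : {i : Fin m // blk i ≠ Block.null},
          Fin (blk i.1).size => (⟨p.1.1, p.2⟩ : Σ i, Fin (blk i).size)) := by
        rintro ⟨⟨j, hj⟩, a⟩ ⟨⟨j', hj'⟩, a'⟩ heq
        simp only [Sigma.mk.injEq] at heq
        obtain ⟨h1, h2⟩ := heq
        subst h1
        simp only [heq_eq_eq] at h2
        rw [h2]
      have h1 := hF.li.comp _ hinj
      have h2 : (tot e) ∘ (fun p : Σ i : {i : Fin m // blk i ≠ Block.null},
          Fin (blk i.1).size => (⟨p.1.1, p.2⟩ : Σ i, Fin (blk i).size)) = W.subtype ∘ tot e0 := rfl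
      rw [h2] at h1
      exact LinearIndependent.of_comp _ h1
    · intro i j hij
      exact hF.orthC _ _ (fun h => hij (Subtype.ext h))
    · intro i j hij
      exact hF.orthD _ _ (fun h => hij (Subtype.ext h))
  have hF1 := hF0.reindex σ
  obtain ⟨X, hX, hd⟩ := xdec_of_fdec hF1 (by
    intro i
    exact (good_of_isT hT (σ i).1).resolve_left (σ i).2)
  refine ⟨α, β, γ, δ, hdet, X, ?_, m', _, _, hd, ?_⟩
  · exact hX
  · have := (isT_emb (blk := fun i => blk (σ i).1) (blk' := blk) (fun i => (σ i).1)
      (Subtype.val_injective.comp σ.injective) (fun i => rfl) (by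
        intro j hj
        by_contra hne
        apply hj (σ.symm ⟨j, hne⟩)
        simp)).mp hT
    exact this

theorem main_form (A B : HForm V) : PP A B ↔ SemiDef A B ∨ FCanon A B := by
  constructor
  · exact nec_form A B
  · rintro (h | h)
    · exact pp_of_semidef h
    · exact suff_form A B h

end Pool.Agent.Lib_c77211
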