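import Pool.Agent.Lib_c77211.Pack

open Quaternion MulOpposite Module

noncomputable section

namespace Pool.Agent.Lib_c77211

set_option linter.unusedSectionVars false
set_option linter.deprecated false

universe u

variable {V : Type u} [AddCommGroup V] [Module K V] [FiniteDimensional K V] [Module ℝ V]
  [IsScalarTower ℝ K V]

/-- a good parameter just below `b` -/
theorem exists_u (C F : HForm V) (hC : C.NS) {m : ℕ} (g : Fin m → ℝ) {a b : ℝ} (hab : a < b) :
    ∃ u, a < u ∧ u < b ∧ (∀ i, g i < b → g i < u) ∧ (F + (-u) • C).NS := by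
  classical
  have hfin := finite_singular C hC F
  obtain ⟨L, hL1, hL2, hL3⟩ : ∃ L, a ≤ L ∧ L < b ∧ ∀ i, g i < b → g i ≤ L := by
    have hne : (insert a ((Finset.univ.filter fun i => g i < b).image g)).Nonempty := ⟨a, by simp⟩
    refine ⟨(insert a ((Finset.univ.filter fun i => g i < b).image g)).max' hne,
      Finset.le_max' _ _ (by simp), ?_, ?_⟩
    · rw [Finset.max'_lt_iff]
      intro y hy
      rw [Finset.mem_insert, Finset.mem_image] at hy
      rcases hy with rfl | ⟨i, hi, rfl⟩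
      · exact hab
      · exact (Finset.mem_filter.mp hi).2
    · intro i hi
      apply Finset.le_max'
      rw [Finset.mem_insert, Finset.mem_image]
      exact Or.inr ⟨i, by simp [hi], rfl⟩
  obtain ⟨u, hu1, hu2⟩ : ∃ u ∈ Set.Ioo L b, u ∉ (fun x => -x) '' {ε : ℝ | ¬ (F + ε • C).NS} := by
    by_contra hc
    push Not at hc
    exact (Set.Ioo_infinite hL2) ((hfin.image _).subset hc)
  refine ⟨u, lt_of_le_of_lt hL1 hu1.1, hu1.2, fun i hi => lt_of_le_of_lt (hL3 i hi) hu1.1, ?_⟩
  by_contra hcon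
  exact hu2 ⟨-u, hcon, by simp⟩

/-- a good parameter just above `a` -/
theorem exists_u' (C F : HForm V) (hC : C.NS) {m : ℕ} (g : Fin m → ℝ) (a : ℝ) :
    ∃ u, a < u ∧ (∀ i, a < g i → u < g i) ∧ (F + (-u) • C).NS := by
  classical
  have hfin := finite_singular C hC F
  obtain ⟨L, hL1, hL3⟩ : ∃ L, a < L ∧ ∀ i, a < g i → L ≤ g i := by
    have hne : (insert (a + 1) ((Finset.univ.filter fun i => a < g i).image g)).Nonempty :=
      ⟨a + 1, by simp⟩
    refine ⟨(insert (a + 1) ((Finset.univ.filter fun i => a < g i).image g)).min' hne, ?_, ?_⟩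
    · rw [Finset.lt_min'_iff]
      intro y hy
      rw [Finset.mem_insert, Finset.mem_image] at hy
      rcases hy with rfl | ⟨i, hi, rfl⟩
      · linarith
      · exact (Finset.mem_filter.mp hi).2
    · intro i hi
      apply Finset.min'_le
      rw [Finset.mem_insert, Finset.mem_image]
      exact Or.inr ⟨i, by simp [hi], rfl⟩
  obtain ⟨u, hu1, hu2⟩ : ∃ u ∈ Set.Ioo a L, u ∉ (fun x => -x) '' {ε : ℝ | ¬ (F + ε • C).NS} := by
    by_contra hc
    push Not at hc
    exact (Set.Ioo_infinite hL1) ((hfin.image _).subset hc)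
  refine ⟨u, hu1.1, fun i hi => lt_of_lt_of_le hu1.2 (hL3 i hi), ?_⟩
  by_contra hcon
  exact hu2 ⟨-u, hcon, by simp⟩

theorem eq_of_lp (C F : HForm V) (X : V →ₗ[K] V) (h : C.SA X) (hX : ∀ x y, C.f x (X y) = F.f x y)
    (u : ℝ) : ph C X h (lp (-u) 1) = F + (-u) • C := by
  rw [ph_lp C F X h hX]
  ext1 x y
  simp only [HForm.add_f, HForm.smul_f, one_smul]
  rw [add_comm]

theorem negIndex_G {C F : HForm V} {X : V →ₗ[K] V} (h : C.SA X)
    (hX : ∀ x y, C.f x (X y) = F.f x y) {m : ℕ} {blk : Fin m → Block}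
    {e : (i : Fin m) → Fin (blk i).size → V} (hd : XDec C X blk e) (u : ℝ) :
    negIndex (F + (-u) • C) = ∑ i, negB (blk i) (lp (-u) 1) := by
  rw [← eq_of_lp C F X h hX, hd.negIndex_ph]

theorem negIndex_C {C : HForm V} {X : V →ₗ[K] V} (h : C.SA X) {m : ℕ} {blk : Fin m → Block}
    {e : (i : Fin m) → Fin (blk i).size → V} (hd : XDec C X blk e) :
    negIndex C = ∑ i, negB (blk i) 1 := by
  rw [← hd.negIndex_ph h, ph_one]

theorem eval_lpu (u x : ℝ) : (lp (-u) 1).eval x = x - u := by rw [eval_lp]; ring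

theorem tabG {a b u : ℝ} (h1 : a < u) (h2 : u < b) {t : Block} {c : Fin 9} (hc : InC a b t c)
    (ht : eigv t < b → eigv t < u) :
    negB t (lp (-u) 1) = (![1,1,0,1,0,0,1,1,0] : Fin 9 → ℕ) c := by
  cases hc with
  | R x h =>
    rw [negB_one, eval_lpu, if_pos (by linarith)]; rfl
  | Ap => rw [negB_one, eval_lpu, if_pos (by linarith)]; rfl
  | Am => rw [negB_one, eval_lpu, if_neg (by linarith)]; rfl
  | Bb => rw [negB_two, eval_lpu, if_neg (by linarith)]; rfl
  | Q x h3 h4 =>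
    have : x < u := ht h4
    rw [negB_one, eval_lpu, if_neg (by linarith)]; rfl
  | Cp => rw [negB_one, eval_lpu, if_neg (by linarith)]; rfl
  | Cm => rw [negB_one, eval_lpu, if_pos (by linarith)]; rfl
  | Bc => rw [negB_two, eval_lpu, if_neg (by linarith)]; rfl
  | Pp x h => rw [negB_one, eval_lpu, if_neg (by linarith)]; rfl

theorem tabGP {a u : ℝ} (h1 : a < u) {t : Block} {c : Fin 7} (hc : InP a t c)
    (ht : a < eigv t → u < eigv t) :
    negB t (lp (-u) 1) = (![1,1,0,1,1,2,0] : Fin 7 → ℕ) c := by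
  cases hc with
  | R x h => rw [negB_one, eval_lpu, if_pos (by linarith)]; rfl
  | Ap => rw [negB_one, eval_lpu, if_pos (by linarith)]; rfl
  | Am => rw [negB_one, eval_lpu, if_neg (by linarith)]; rfl
  | Bm => rw [negB_two, eval_lpu, if_neg (by linarith)]; rfl
  | Bp => rw [negB_two, eval_lpu, if_neg (by linarith)]; rfl
  | T => rw [negB_three, eval_lpu, if_neg (by linarith), if_pos (by linarith)]; rfl
  | Pp x h =>
    have : u < x := ht h
    rw [negB_one, eval_lpu, if_neg (by linarith)]; rfl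

/-- the counting function of the classes -/
def IsCount9 {m : ℕ} (cl : Fin m → Fin 9) (N : Fin 9 → ℕ) : Prop := ∀ G : Fin 9 → ℕ,
    ∑ i, G (cl i) = N 0 * G 0 + N 1 * G 1 + N 2 * G 2 + N 3 * G 3 + N 4 * G 4 + N 5 * G 5 +
      N 6 * G 6 + N 7 * G 7 + N 8 * G 8

def IsCount7 {m : ℕ} (cl : Fin m → Fin 7) (N : Fin 7 → ℕ) : Prop := ∀ G : Fin 7 → ℕ,
    ∑ i, G (cl i) = N 0 * G 0 + N 1 * G 1 + N 2 * G 2 + N 3 * G 3 + N 4 * G 4 + N 5 * G 5 +
      N 6 * G 6

theorem J1_core {C F : HForm V} {X : V →ₗ[K] V} (hP : PData C F X) (h : C.SA X) {m : ℕ}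
    {blk : Fin m → Block} {e : (i : Fin m) → Fin (blk i).size → V} (hd : XDec C X blk e)
    {a b : ℝ} (hab : a < b) {cl : Fin m → Fin 9} (hcl : ∀ i, InC a b (blk i) (cl i))
    {N : Fin 9 → ℕ} (hN : IsCount9 cl N) (hne : 1 ≤ N 2 + N 3) :
    N 2 + N 4 + N 7 + min (N 6) (N 8) ≤ N 0 + N 1 := by
  classical
  obtain ⟨u, hu1, hu2, hu3, hu4⟩ := exists_u C F hP.ns (fun i => eigv (blk i)) hab
  have hX := hP.hX
  have hGu : negIndex (F + (-u) • C) = N 0 + N 1 + N 3 + N 6 + N 7 := by
    rw [negIndex_G h hX hd u, Finset.sum_congr rfl (fun i _ => tabG hu1 hu2 (hcl i) (hu3 i)), hN]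
    simp
  have hCn : negIndex C = N 2 + N 3 + N 4 + N 6 + N 7 := by
    rw [negIndex_C h hd, Finset.sum_congr rfl (fun i _ => tabD (hcl i)), hN]
    simp
  have hcard : ∀ (p : Fin 9 → Prop) [DecidablePred p], (Finset.univ.filter fun i => p (cl i)).card =
      N 0 * (if p 0 then 1 else 0) + N 1 * (if p 1 then 1 else 0) + N 2 * (if p 2 then 1 else 0) +
      N 3 * (if p 3 then 1 else 0) + N 4 * (if p 4 then 1 else 0) + N 5 * (if p 5 then 1 else 0) +
      N 6 * (if p 6 then 1 else 0) + N 7 * (if p 7 then 1 else 0) + N 8 * (if p 8 then 1 else 0) := by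
    intro p _
    rw [Finset.card_filter]
    exact hN (fun c => if p c then 1 else 0)
  obtain ⟨S1, hS1⟩ : ∃ S1, S1 = Finset.univ.filter fun i => cl i = 0 ∨ cl i = 1 ∨ cl i = 3 := ⟨_, rfl⟩
  obtain ⟨T6, hT6⟩ : ∃ T, T = Finset.univ.filter fun i => cl i = 6 := ⟨_, rfl⟩
  obtain ⟨T7, hT7⟩ : ∃ T, T = Finset.univ.filter fun i => cl i = 7 := ⟨_, rfl⟩
  obtain ⟨T8, hT8⟩ : ∃ T, T = Finset.univ.filter fun i => cl i = 8 := ⟨_, rfl⟩
  have cS1 : S1.card = N 0 + N 1 + N 3 := by
    rw [hS1, hcard (fun c => c = 0 ∨ c = 1 ∨ c = 3)]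
    simp [Fin.ext_iff]
  have cT6 : T6.card = N 6 := by
    rw [hT6, hcard (fun c => c = 6)]
    simp [Fin.ext_iff]
  have cT7 : T7.card = N 7 := by
    rw [hT7, hcard (fun c => c = 7)]
    simp [Fin.ext_iff]
  have cT8 : T8.card = N 8 := by
    rw [hT8, hcard (fun c => c = 8)]
    simp [Fin.ext_iff]
  obtain ⟨i0, hi0⟩ : ∃ i0, i0 = min (N 7) S1.card := ⟨_, rfl⟩
  obtain ⟨S', hS', cS'⟩ := Finset.exists_subset_card_eq (s := S1) (n := i0) (by omega)
  obtain ⟨j0, hj0⟩ : ∃ j0, j0 = min (S1.card - i0) (min (N 6) (N 8)) := ⟨_, rfl⟩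
  have cS'' : (S1 \ S').card = S1.card - i0 := by rw [Finset.card_sdiff_of_subset hS', cS']
  have dis : ∀ (p q : Fin 9 → Prop) [DecidablePred p] [DecidablePred q], (∀ c, p c → ¬ q c) →
      Disjoint (Finset.univ.filter fun i => p (cl i)) (Finset.univ.filter fun i => q (cl i)) := by
    intro p q _ _ hpq
    rw [Finset.disjoint_left]
    intro i hi hi'
    exact hpq _ (Finset.mem_filter.mp hi).2 (Finset.mem_filter.mp hi').2
  have d17 : Disjoint S1 T7 := by
    rw [hS1, hT7]; exact dis (fun c => c = 0 ∨ c = 1 ∨ c = 3) (fun c => c = 7) (by decide)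
  have d16 : Disjoint S1 T6 := by
    rw [hS1, hT6]; exact dis (fun c => c = 0 ∨ c = 1 ∨ c = 3) (fun c => c = 6) (by decide)
  have d18 : Disjoint S1 T8 := by
    rw [hS1, hT8]; exact dis (fun c => c = 0 ∨ c = 1 ∨ c = 3) (fun c => c = 8) (by decide)
  have d68 : Disjoint T6 T8 := by
    rw [hT6, hT8]; exact dis (fun c => c = 6) (fun c => c = 8) (by decide)
  have d67 : Disjoint T6 T7 := by
    rw [hT6, hT7]; exact dis (fun c => c = 6) (fun c => c = 7) (by decide)
  have d78 : Disjoint T7 T8 := by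
    rw [hT7, hT8]; exact dis (fun c => c = 7) (fun c => c = 8) (by decide)
  -- description of the members
  have m1 : ∀ i ∈ S1, (∃ x, x ≤ a ∧ blk i = Block.jordan 1 1 x) ∨ blk i = Block.jordan 2 (-1) a := by
    intro i hi
    rw [hS1, Finset.mem_filter] at hi
    have h1 := hcl i
    generalize blk i = t at h1 ⊢
    rcases hi.2 with h2 | h2 | h2
    · rw [h2] at h1
      cases h1 with
      | R x h => exact Or.inl ⟨x, h.le, rfl⟩
    · rw [h2] at h1
      cases h1 with
      | Ap => exact Or.inl ⟨a, le_rfl, rfl⟩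
    · rw [h2] at h1
      cases h1 with
      | Bb => exact Or.inr rfl
  have m7 : ∀ i ∈ T7, blk i = Block.jordan 2 1 b := by
    intro i hi
    rw [hT7, Finset.mem_filter] at hi
    have h1 := hcl i
    generalize blk i = t at h1 ⊢
    rw [hi.2] at h1
    cases h1 with
    | Bc => rfl
  have m6 : ∀ i ∈ T6, blk i = Block.jordan 1 (-1) b := by
    intro i hi
    rw [hT6, Finset.mem_filter] at hi
    have h1 := hcl i
    generalize blk i = t at h1 ⊢
    rw [hi.2] at h1
    cases h1 with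
    | Cm => rfl
  have m8 : ∀ i ∈ T8, ∃ x, b < x ∧ blk i = Block.jordan 1 1 x := by
    intro i hi
    rw [hT8, Finset.mem_filter] at hi
    have h1 := hcl i
    generalize blk i = t at h1 ⊢
    rw [hi.2] at h1
    cases h1 with
    | Pp x h => exact ⟨x, h, rfl⟩
  have p1 : PackOn C F X e u (S' ∪ T7) i0 := by
    apply pack_pairs hX hd i0 S' T7 (Finset.disjoint_of_subset_left hS' d17)
    · intro i hi j hj
      have hij : i ≠ j := by
        rintro rfl; exact (Finset.disjoint_left.mp d17) (hS' hi) hj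
      rcases m1 i (hS' hi) with ⟨x, hx, hb⟩ | hb
      · exact pack_e1 hX hd hij hb (m7 j hj) (by linarith) (by linarith) hu2.ne'
      · exact pack_e1' hX hd hij hb (m7 j hj) hu1 hu2
    · rw [cS']
    · rw [cT7]; omega
  have p2 : PackOn C F X e u ((S1 \ S') ∪ (T6 ∪ T8)) j0 := by
    apply pack_triples hX hd j0 (S1 \ S') T6 T8
      (Finset.disjoint_of_subset_left Finset.sdiff_subset d16)
      (Finset.disjoint_of_subset_left Finset.sdiff_subset d18) d68
    · intro i hi j hj k hk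
      have hi1 : i ∈ S1 := Finset.sdiff_subset hi
      have hij : i ≠ j := by
        rintro rfl; exact (Finset.disjoint_left.mp d16) hi1 hj
      have hik : i ≠ k := by
        rintro rfl; exact (Finset.disjoint_left.mp d18) hi1 hk
      have hjk : j ≠ k := by
        rintro rfl; exact (Finset.disjoint_left.mp d68) hj hk
      obtain ⟨x3, hx3, hb3⟩ := m8 k hk
      rcases m1 i hi1 with ⟨x, hx, hb⟩ | hb
      · exact pack_e2 hX hd hij hik hjk hb (m6 j hj) hb3 (by linarith) hu2 hx3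
      · exact pack_e2' hX hd hij hik hjk hb (m6 j hj) hb3 hu1 hu2 hx3
    · rw [cS'']; omega
    · rw [cT6]; omega
    · rw [cT8]; omega
  obtain ⟨M, _, hM1, hM2, hM3⟩ := p1.union hX hd p2 (by
    rw [Finset.disjoint_union_left, Finset.disjoint_union_right, Finset.disjoint_union_right,
      Finset.disjoint_union_right, Finset.disjoint_union_right]
    refine ⟨⟨Finset.disjoint_sdiff, Finset.disjoint_of_subset_left hS' d16,
      Finset.disjoint_of_subset_left hS' d18⟩, ?_, d67.symm, d78⟩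
    exact (Finset.disjoint_of_subset_left Finset.sdiff_subset d17).symm)
  have hfin := hP.pack u hu4 M hM2 hM3
  rw [hM1, hGu, hCn] at hfin
  omega

theorem JP_core {C F : HForm V} {X : V →ₗ[K] V} (hP : PData C F X) (h : C.SA X) {m : ℕ}
    {blk : Fin m → Block} {e : (i : Fin m) → Fin (blk i).size → V} (hd : XDec C X blk e)
    {a : ℝ} {cl : Fin m → Fin 7} (hcl : ∀ i, InP a (blk i) (cl i))
    {N : Fin 7 → ℕ} (hN : IsCount7 cl N) :
    N 2 + min (N 4) (N 0) ≤ N 0 + N 1 := by
  classical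
  obtain ⟨u, hu1, hu3, hu4⟩ := exists_u' C F hP.ns (fun i => eigv (blk i)) a
  have hX := hP.hX
  have hGu : negIndex (F + (-u) • C) = N 0 + N 1 + N 3 + N 4 + 2 * N 5 := by
    rw [negIndex_G h hX hd u, Finset.sum_congr rfl (fun i _ => tabGP hu1 (hcl i) (hu3 i)), hN]
    simp [sv0, sv1, sv2, sv3, sv4, sv5, sv6]
    omega
  have hCn : negIndex C = N 2 + N 3 + N 4 + N 5 := by
    rw [negIndex_C h hd, Finset.sum_congr rfl (fun i _ => ptabD (hcl i)), hN]
    simp [sv0, sv1, sv2, sv3, sv4, sv5, sv6]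
  have hcard : ∀ (p : Fin 7 → Prop) [DecidablePred p], (Finset.univ.filter fun i => p (cl i)).card =
      N 0 * (if p 0 then 1 else 0) + N 1 * (if p 1 then 1 else 0) + N 2 * (if p 2 then 1 else 0) +
      N 3 * (if p 3 then 1 else 0) + N 4 * (if p 4 then 1 else 0) + N 5 * (if p 5 then 1 else 0) +
      N 6 * (if p 6 then 1 else 0) := by
    intro p _
    rw [Finset.card_filter]
    exact hN (fun c => if p c then 1 else 0)
  obtain ⟨T0, hT0⟩ : ∃ T, T = Finset.univ.filter fun i => cl i = 0 := ⟨_, rfl⟩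
  obtain ⟨T4, hT4⟩ : ∃ T, T = Finset.univ.filter fun i => cl i = 4 := ⟨_, rfl⟩
  obtain ⟨T5, hT5⟩ : ∃ T, T = Finset.univ.filter fun i => cl i = 5 := ⟨_, rfl⟩
  have cT0 : T0.card = N 0 := by
    rw [hT0, hcard (fun c => c = 0)]
    simp [Fin.ext_iff]
  have cT4 : T4.card = N 4 := by
    rw [hT4, hcard (fun c => c = 4)]
    simp [Fin.ext_iff]
  have cT5 : T5.card = N 5 := by
    rw [hT5, hcard (fun c => c = 5)]
    simp [Fin.ext_iff]
  have dis : ∀ (p q : Fin 7 → Prop) [DecidablePred p] [DecidablePred q], (∀ c, p c → ¬ q c) →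
      Disjoint (Finset.univ.filter fun i => p (cl i)) (Finset.univ.filter fun i => q (cl i)) := by
    intro p q _ _ hpq
    rw [Finset.disjoint_left]
    intro i hi hi'
    exact hpq _ (Finset.mem_filter.mp hi).2 (Finset.mem_filter.mp hi').2
  have d04 : Disjoint T0 T4 := by
    rw [hT0, hT4]; exact dis (fun c => c = 0) (fun c => c = 4) (by decide)
  have d05 : Disjoint T0 T5 := by
    rw [hT0, hT5]; exact dis (fun c => c = 0) (fun c => c = 5) (by decide)
  have d45 : Disjoint T4 T5 := by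
    rw [hT4, hT5]; exact dis (fun c => c = 4) (fun c => c = 5) (by decide)
  have m0 : ∀ i ∈ T0, ∃ x, x < a ∧ blk i = Block.jordan 1 1 x := by
    intro i hi
    rw [hT0, Finset.mem_filter] at hi
    have h1 := hcl i
    generalize blk i = t at h1 ⊢
    rw [hi.2] at h1
    cases h1 with
    | R x h => exact ⟨x, h, rfl⟩
  have m4 : ∀ i ∈ T4, blk i = Block.jordan 2 1 a := by
    intro i hi
    rw [hT4, Finset.mem_filter] at hi
    have h1 := hcl i
    generalize blk i = t at h1 ⊢
    rw [hi.2] at h1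
    cases h1 with
    | Bp => rfl
  have m5 : ∀ i ∈ T5, blk i = Block.jordan 3 1 a := by
    intro i hi
    rw [hT5, Finset.mem_filter] at hi
    have h1 := hcl i
    generalize blk i = t at h1 ⊢
    rw [hi.2] at h1
    cases h1 with
    | T => rfl
  have p1 : PackOn C F X e u (T0 ∪ T4) (min (N 4) (N 0)) := by
    apply pack_pairs hX hd _ T0 T4 d04
    · intro i hi j hj
      have hij : i ≠ j := by
        rintro rfl; exact (Finset.disjoint_left.mp d04) hi hj
      obtain ⟨x, hx, hb⟩ := m0 i hi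
      exact pack_e1 hX hd hij hb (m4 j hj) hx (by linarith) hu1.ne
    · rw [cT0]; omega
    · rw [cT4]; omega
  have p2 : PackOn C F X e u T5 T5.card := by
    apply pack_singles hX hd
    intro i hi
    exact pack_e4 hX hd (m5 i hi) hu1
  obtain ⟨M, _, hM1, hM2, hM3⟩ := p1.union hX hd p2 (by
    rw [Finset.disjoint_union_left]
    exact ⟨d05, d45⟩)
  have hfin := hP.pack u hu4 M hM2 hM3
  rw [hM1, hGu, hCn, cT5] at hfin
  omega

end Pool.Agent.Lib_c77211
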