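import Pool.Agent.Lib_c77211.Comb

open Quaternion MulOpposite Module Finset

noncomputable section

namespace Pool.Agent.Lib_c77211

set_option linter.unusedSectionVars false
set_option linter.deprecated false

section Levels

theorem eventually_notMem_finite_lt (F : Set ℝ) (hF : F.Finite) (s : ℝ) :
    ∀ᶠ t in nhdsWithin s (Set.Iio s), t ∉ F := by
  have h1 : ∀ᶠ t in nhdsWithin s (Set.Iio s), t ≠ s := by
    filter_upwards [self_mem_nhdsWithin] with t ht
    exact ne_of_lt ht
  have h2 : ∀ᶠ t in nhdsWithin s (Set.Iio s), t ∉ F \ {s} := by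
    apply Filter.Eventually.filter_mono nhdsWithin_le_nhds
    have : IsOpen (F \ {s})ᶜ := (hF.subset Set.diff_subset).isClosed.isOpen_compl
    exact this.mem_nhds (by simp)
  filter_upwards [h1, h2] with t h1 h2 h3
  exact h2 ⟨h3, h1⟩

theorem eventually_notMem_finite_gt (F : Set ℝ) (hF : F.Finite) (s : ℝ) :
    ∀ᶠ t in nhdsWithin s (Set.Ioi s), t ∉ F := by
  have h1 : ∀ᶠ t in nhdsWithin s (Set.Ioi s), t ≠ s := by
    filter_upwards [self_mem_nhdsWithin] with t ht
    exact ne_of_gt ht
  have h2 : ∀ᶠ t in nhdsWithin s (Set.Ioi s), t ∉ F \ {s} := by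
    apply Filter.Eventually.filter_mono nhdsWithin_le_nhds
    have : IsOpen (F \ {s})ᶜ := (hF.subset Set.diff_subset).isClosed.isOpen_compl
    exact this.mem_nhds (by simp)
  filter_upwards [h1, h2] with t h1 h2 h3
  exact h2 ⟨h3, h1⟩

def sg (c : ℝ) : ℤ := if 0 < c then 1 else -1

theorem comb_levels (n k : ℕ) (a b : Fin n → ℝ) (hne : ∀ i, a i ≠ 0 ∨ b i ≠ 0)
    (hanti : ∀ i j, ¬ (a i * b j = a j * b i ∧ a i * a j + b i * b j < 0))
    (E : Set ℝ) (hE : E.Finite)
    (h : ∀ t ∉ E, k ≤ (univ.filter fun i => a i + t * b i < 0).card ∧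
      k ≤ (univ.filter fun i => 0 < a i + t * b i).card) :
    ∃ (σ t₀ : ℝ) (τ : Equiv.Perm (Fin n)) (r : ℕ) (G : Fin r → Finset (Fin n)) (m : Fin r → ℕ),
      σ ≠ 0 ∧ (∀ i, σ * (a i + t₀ * b i) ≠ 0) ∧ (∀ l l', l ≠ l' → Disjoint (G l) (G l')) ∧
      (∀ l, (G l).card = 2 * m l + 1) ∧
      (∀ l, ∀ i ∈ G l, ∀ j ∈ G l, i < j → b (τ i) / (σ * (a (τ i) + t₀ * b (τ i))) <
        b (τ j) / (σ * (a (τ j) + t₀ * b (τ j)))) ∧
      (∀ l, ∀ i ∈ G l, 0 < (-1 : ℝ) ^ ((G l).filter fun j => i < j).card *
        (σ * (a (τ i) + t₀ * b (τ i)))) ∧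
      k ≤ ∑ l, m l := by
  classical
  set E' : Set ℝ := E ∪ ⋃ i, {t | a i + t * b i = 0} with hE'
  have hE'fin : E'.Finite := by
    apply hE.union
    apply Set.finite_iUnion
    intro i
    by_cases hb : b i = 0
    · have : {t : ℝ | a i + t * b i = 0} = ∅ := by
        ext t
        simp only [Set.mem_setOf_eq, Set.mem_empty_iff_false, iff_false, hb, mul_zero, add_zero]
        exact (hne i).resolve_right (fun h => h hb)
      rw [this]; exact Set.finite_empty
    · apply (Set.finite_singleton (-(a i) / b i)).subset
      intro t ht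
      simp only [Set.mem_setOf_eq] at ht
      simp only [Set.mem_singleton_iff]
      field_simp
      linarith
  have hE'1 : ∀ t ∉ E', ∀ i, a i + t * b i ≠ 0 := by
    intro t ht i h0
    apply ht
    right
    exact Set.mem_iUnion.mpr ⟨i, h0⟩
  have hE'2 : ∀ t ∉ E', t ∉ E := fun t ht h0 => ht (Or.inl h0)
  -- minimal
  let P : ℕ → Prop := fun m => ∃ σ t : ℝ, (σ = 1 ∨ σ = -1) ∧ t ∉ E' ∧
    (univ.filter fun i => σ * (a i + t * b i) < 0).card = m
  have hPex : ∃ m, P m := by
    obtain ⟨t, ht⟩ := (hE'fin.infinite_compl).nonempty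
    exact ⟨_, 1, t, Or.inl rfl, ht, rfl⟩
  set m₀ := Nat.find hPex with hm₀
  obtain ⟨σ, t₀, hσ, ht₀, hcard⟩ : P m₀ := Nat.find_spec hPex
  have hmin : ∀ σ' t : ℝ, (σ' = 1 ∨ σ' = -1) → t ∉ E' →
      m₀ ≤ (univ.filter fun i => σ' * (a i + t * b i) < 0).card := by
    intro σ' t h1 h2
    exact Nat.find_min' hPex ⟨σ', t, h1, h2, rfl⟩
  have hk : k ≤ m₀ := by
    rw [← hcard]
    obtain ⟨h1, h2⟩ := h t₀ (hE'2 t₀ ht₀)
    rcases hσ with h0 | h0
    · rw [h0]
      simpa using h1
    · rw [h0]
      have : (univ.filter fun i => -1 * (a i + t₀ * b i) < 0) = (univ.filter fun i => 0 < a i + t₀ * b i) := by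
        apply Finset.filter_congr
        intro i _
        constructor <;> intro h' <;> linarith
      rw [this]; exact h2
  have hσ0 : σ ≠ 0 := by rcases hσ with h | h <;> rw [h] <;> norm_num
  have hσ2 : σ * σ = 1 := by rcases hσ with h | h <;> rw [h] <;> norm_num
  set c : Fin n → ℝ := fun i => σ * (a i + t₀ * b i) with hc
  have hc0 : ∀ i, c i ≠ 0 := fun i => mul_ne_zero hσ0 (hE'1 t₀ ht₀ i)
  set x' : Fin n → ℝ := fun i => b i / c i with hx'
  have hbx : ∀ i, b i = x' i * c i := by
    intro i; simp only [hx']; field_simp [hc0 i]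
  -- general combinations
  have hgen : ∀ s : ℝ, s ≠ 0 → (∀ i, s ≠ x' i) → t₀ - σ / s ∉ E' →
      m₀ ≤ (univ.filter fun i => c i * (x' i - s) < 0).card ∧
      m₀ ≤ (univ.filter fun i => 0 < c i * (x' i - s)).card := by
    intro s hs hsx hsE
    have key : ∀ i, c i * (x' i - s) = -(s * σ) * (a i + (t₀ - σ / s) * b i) := by
      intro i
      have : c i * (x' i - s) = b i - s * c i := by rw [hbx i]; ring
      rw [this]
      simp only [hc]
      have e1 : s * σ * (σ / s) = 1 := by
        field_simp
        linarith [hσ2, pow_two σ]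
      linear_combination (-(b i)) * e1
    have hsσ : s * σ ≠ 0 := mul_ne_zero hs hσ0
    rcases lt_or_gt_of_ne hsσ with hlt | hgt
    · have e1 : (univ.filter fun i => c i * (x' i - s) < 0) =
          (univ.filter fun i => (1 : ℝ) * (a i + (t₀ - σ / s) * b i) < 0) := by
        apply Finset.filter_congr
        intro i _
        rw [key, one_mul]
        constructor
        · intro h1
          by_contra h2
          push Not at h2
          have := mul_nonneg (by linarith : 0 ≤ -(s * σ)) h2
          linarith
        · intro h1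
          exact mul_neg_of_pos_of_neg (by linarith) h1
      have e2 : (univ.filter fun i => 0 < c i * (x' i - s)) =
          (univ.filter fun i => (-1 : ℝ) * (a i + (t₀ - σ / s) * b i) < 0) := by
        apply Finset.filter_congr
        intro i _
        rw [key]
        constructor
        · intro h1
          by_contra h2
          push Not at h2
          have := mul_nonneg (by linarith : 0 ≤ -(s * σ)) h2
          linarith
        · intro h1
          exact mul_pos (by linarith) (by linarith)
      rw [e1, e2]
      exact ⟨hmin 1 _ (Or.inl rfl) hsE, hmin (-1) _ (Or.inr rfl) hsE⟩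
    · have e1 : (univ.filter fun i => c i * (x' i - s) < 0) =
          (univ.filter fun i => (-1 : ℝ) * (a i + (t₀ - σ / s) * b i) < 0) := by
        apply Finset.filter_congr
        intro i _
        rw [key]
        constructor
        · intro h1
          by_contra h2
          push Not at h2
          have := mul_nonneg (by linarith : 0 ≤ (s * σ)) h2
          linarith
        · intro h1
          have := mul_neg_of_pos_of_neg hgt h1
          linarith
      have e2 : (univ.filter fun i => 0 < c i * (x' i - s)) =
          (univ.filter fun i => (1 : ℝ) * (a i + (t₀ - σ / s) * b i) < 0) := by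
        apply Finset.filter_congr
        intro i _
        rw [key, one_mul]
        constructor
        · intro h1
          by_contra h2
          push Not at h2
          have := mul_nonneg (by linarith : 0 ≤ (s * σ)) h2
          linarith
        · intro h1
          have := mul_neg_of_pos_of_neg hgt h1
          linarith
      rw [e1, e2]
      exact ⟨hmin (-1) _ (Or.inr rfl) hsE, hmin 1 _ (Or.inl rfl) hsE⟩
  -- exceptional set
  set F : Set ℝ := {0} ∪ (Set.range x') ∪ {s | s ≠ 0 ∧ t₀ - σ / s ∈ E'} with hF
  have hFfin : F.Finite := by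
    apply ((Set.finite_singleton (0 : ℝ)).union (Set.finite_range x')).union
    have : {s : ℝ | s ≠ 0 ∧ t₀ - σ / s ∈ E'} ⊆ (fun t => σ / (t₀ - t)) '' E' := by
      rintro s ⟨hs, hsE⟩
      refine ⟨_, hsE, ?_⟩
      simp only
      field_simp
      ring_nf
      rw [mul_inv_cancel₀ hσ0]
    exact (hE'fin.image _).subset this
  set r₀ : ℤ := (n : ℤ) - 2 * m₀ with hr₀
  set Tlt : ℝ → ℤ := fun s => ∑ i, if x' i < s then sg (c i) else 0 with hTlt
  have hTgen : ∀ s ∉ F, 0 ≤ Tlt s ∧ Tlt s ≤ r₀ := by
    intro s hs
    have hs0 : s ≠ 0 := fun h0 => hs (Or.inl (Or.inl h0))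
    have hsx : ∀ i, s ≠ x' i := fun i h0 => hs (Or.inl (Or.inr ⟨i, h0.symm⟩))
    have hsE : t₀ - σ / s ∉ E' := fun h0 => hs (Or.inr ⟨hs0, h0⟩)
    obtain ⟨h1, h2⟩ := hgen s hs0 hsx hsE
    have e1 : ((univ.filter fun i => c i * (x' i - s) < 0).card : ℤ) = m₀ + Tlt s := by
      rw [← hcard, Finset.card_filter, Finset.card_filter]
      push_cast
      rw [hTlt]
      simp only
      rw [← Finset.sum_add_distrib]
      apply Finset.sum_congr rfl
      intro i _
      rcases lt_or_gt_of_ne (hsx i) with hlt | hgt
      · -- s < x' i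
        rw [if_neg (not_lt.mpr hlt.le), add_zero]
        have : (c i * (x' i - s) < 0) ↔ σ * (a i + t₀ * b i) < 0 := by
          change _ ↔ c i < 0
          constructor
          · intro h3
            by_contra h4
            push Not at h4
            have := mul_nonneg h4 (by linarith : 0 ≤ x' i - s)
            linarith
          · intro h3
            exact mul_neg_of_neg_of_pos h3 (by linarith)
        by_cases h5 : c i * (x' i - s) < 0
        · rw [if_pos h5, if_pos (this.mp h5)]
        · rw [if_neg h5, if_neg (fun h6 => h5 (this.mpr h6))]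
      · rw [if_pos hgt]
        have e3 : (σ * (a i + t₀ * b i)) = c i := rfl
        rw [e3]
        rcases lt_or_gt_of_ne (hc0 i) with h3 | h3
        · have h4 : ¬ c i * (x' i - s) < 0 := by
            have := mul_pos_of_neg_of_neg h3 (by linarith : x' i - s < 0)
            linarith
          rw [if_neg h4, if_pos h3, sg, if_neg (by linarith)]; ring
        · have h4 : c i * (x' i - s) < 0 := mul_neg_of_pos_of_neg h3 (by linarith)
          rw [if_pos h4, if_neg (by linarith), sg, if_pos h3]; ring
    have e2 : ((univ.filter fun i => c i * (x' i - s) < 0).card : ℤ) +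
        ((univ.filter fun i => 0 < c i * (x' i - s)).card : ℤ) = n := by
      have : (univ.filter fun i => 0 < c i * (x' i - s)) = (univ.filter fun i => ¬ c i * (x' i - s) < 0) := by
        apply Finset.filter_congr
        intro i _
        have hne0 : c i * (x' i - s) ≠ 0 := mul_ne_zero (hc0 i) (sub_ne_zero.mpr (hsx i).symm)
        constructor
        · intro h3; linarith
        · intro h3
          push Not at h3
          exact lt_of_le_of_ne h3 hne0.symm
      rw [this]
      have := Finset.card_filter_add_card_filter_not (s := (univ : Finset (Fin n)))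
        (fun i => c i * (x' i - s) < 0)
      rw [Finset.card_univ, Fintype.card_fin] at this
      exact_mod_cast this
    omega
  have hTlt' : ∀ s, 0 ≤ Tlt s ∧ Tlt s ≤ r₀ := by
    intro s
    have h1 : ∀ᶠ t in nhdsWithin s (Set.Iio s), ∀ i, (x' i < t ↔ x' i < s) := by
      rw [Filter.eventually_all]
      intro i
      by_cases hi : x' i < s
      · have : ∀ᶠ t in nhdsWithin s (Set.Iio s), x' i < t :=
          Filter.Eventually.filter_mono nhdsWithin_le_nhds (lt_mem_nhds hi)
        filter_upwards [this] with t ht
        exact ⟨fun _ => hi, fun _ => ht⟩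
      · filter_upwards [self_mem_nhdsWithin] with t ht
        exact ⟨fun h => absurd (h.trans ht) hi, fun h => absurd h hi⟩
    obtain ⟨t, ht1, ht2⟩ := (h1.and (eventually_notMem_finite_lt F hFfin s)).exists
    have : Tlt t = Tlt s := by
      simp only [hTlt]
      apply Finset.sum_congr rfl
      intro i _
      simp only [ht1 i]
    rw [← this]
    exact hTgen t ht2
  set Tle : ℝ → ℤ := fun s => ∑ i, if x' i ≤ s then sg (c i) else 0 with hTle
  have hTle' : ∀ s, 0 ≤ Tle s ∧ Tle s ≤ r₀ := by
    intro s
    have h1 : ∀ᶠ t in nhdsWithin s (Set.Ioi s), ∀ i, (x' i < t ↔ x' i ≤ s) := by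
      rw [Filter.eventually_all]
      intro i
      by_cases hi : x' i ≤ s
      · filter_upwards [self_mem_nhdsWithin] with t ht
        exact ⟨fun _ => hi, fun _ => lt_of_le_of_lt hi ht⟩
      · push Not at hi
        have : ∀ᶠ t in nhdsWithin s (Set.Ioi s), t < x' i :=
          Filter.Eventually.filter_mono nhdsWithin_le_nhds (gt_mem_nhds hi)
        filter_upwards [this] with t ht
        exact ⟨fun h => absurd h (not_lt.mpr ht.le), fun h => absurd h (not_le.mpr hi)⟩
    obtain ⟨t, ht1, ht2⟩ := (h1.and (eventually_notMem_finite_gt F hFfin s)).exists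
    have : Tlt t = Tle s := by
      simp only [hTlt, hTle]
      apply Finset.sum_congr rfl
      intro i _
      simp only [ht1 i]
    rw [← this]
    exact hTgen t ht2
  -- sorted
  set τ := Tuple.sort x' with hτ
  have hmono : Monotone (x' ∘ τ) := Tuple.monotone_sort x'
  set x : Fin n → ℝ := fun i => x' (τ i) with hx
  set ε : Fin n → ℤ := fun i => sg (c (τ i)) with hε
  have hε1 : ∀ i, ε i = 1 ∨ ε i = -1 := by
    intro i
    simp only [hε, sg]
    split_ifs
    · exact Or.inl rfl
    · exact Or.inr rfl
  have htie0 : ∀ i j, x' i = x' j → 0 < c i * c j := by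
    intro i j hij
    by_contra hcon
    push Not at hcon
    have hlt : c i * c j < 0 := lt_of_le_of_ne hcon (mul_ne_zero (hc0 i) (hc0 j))
    have ea : ∀ i, a i = c i * (σ - t₀ * x' i) := by
      intro i
      have h1 : c i * σ = a i + t₀ * b i := by
        simp only [hc]
        linear_combination (a i + t₀ * b i) * hσ2
      have h2 := hbx i
      linear_combination -h1 - t₀ * h2
    apply hanti i j
    constructor
    · rw [ea i, ea j, hbx i, hbx j, hij]; ring
    · have e1 : a i * a j + b i * b j = (c i * c j) * ((σ - t₀ * x' j) ^ 2 + (x' j) ^ 2) := by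
        rw [ea i, ea j, hbx i, hbx j, hij]; ring
      rw [e1]
      apply mul_neg_of_neg_of_pos hlt
      by_cases hxj : x' j = 0
      · rw [hxj]
        simp only [mul_zero, sub_zero]
        positivity
      · positivity
  have htie : ∀ i j, x i = x j → ε i = ε j := by
    intro i j hij
    have h1 := htie0 (τ i) (τ j) hij
    simp only [hε, sg]
    by_cases h2 : 0 < c (τ i)
    · rw [if_pos h2, if_pos ((pos_iff_pos_of_mul_pos h1).mp h2)]
    · have h3 : ¬ 0 < c (τ j) := by
        intro h4
        apply h2
        exact (pos_iff_pos_of_mul_pos h1).mpr h4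
      rw [if_neg h2, if_neg h3]
  set S : ℕ → ℤ := fun j => ∑ i : Fin n, if (i : ℕ) < j then ε i else 0 with hS
  have hS0 : S 0 = 0 := by simp [hS]
  have hSs : ∀ i : Fin n, S (i + 1) = S i + ε i := by
    intro i
    simp only [hS]
    rw [← sub_eq_iff_eq_add', ← Finset.sum_sub_distrib]
    rw [Finset.sum_eq_single i]
    · simp
    · intro j _ hj
      have hj' : (j : ℕ) ≠ (i : ℕ) := fun h => hj (Fin.ext h)
      by_cases h1 : (j : ℕ) < i
      · rw [if_pos (by omega), if_pos h1]; simp
      · rw [if_neg (by omega), if_neg h1]; simp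
    · simp
  have hsum_eq : ∑ i, sg (c i) = r₀ := by
    have e1 : ∀ i, sg (c i) = 1 - 2 * (if σ * (a i + t₀ * b i) < 0 then 1 else 0) := by
      intro i
      change sg (c i) = 1 - 2 * (if c i < 0 then 1 else 0)
      rcases lt_or_gt_of_ne (hc0 i) with h | h
      · rw [if_pos h, sg, if_neg (by linarith)]; norm_num
      · rw [if_neg (by linarith), sg, if_pos h]; norm_num
    rw [Finset.sum_congr rfl (fun i _ => e1 i), Finset.sum_sub_distrib, ← Finset.mul_sum,
      hr₀, ← hcard, Finset.card_filter]
    simp
  have hSn : S n = r₀ := by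
    simp only [hS]
    rw [← hsum_eq]
    rw [← Equiv.sum_comp τ (fun i => sg (c i))]
    apply Finset.sum_congr rfl
    intro i _
    rw [if_pos i.2]
  have hr₀nn : 0 ≤ r₀ := (hTlt' 0).1.trans (hTlt' 0).2
  have hTlts : ∀ s, Tlt s = ∑ i, if x i < s then ε i else 0 := by
    intro s
    simp only [hTlt]
    rw [← Equiv.sum_comp τ (fun i => if x' i < s then sg (c i) else 0)]
  have hTles : ∀ s, Tle s = ∑ i, if x i ≤ s then ε i else 0 := by
    intro s
    simp only [hTle]
    rw [← Equiv.sum_comp τ (fun i => if x' i ≤ s then sg (c i) else 0)]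
  have hb : ∀ j ≤ n, 0 ≤ S j ∧ S j ≤ r₀ := by
    intro j hj
    rcases Nat.lt_or_ge j n with hjn | hjn
    · set J : Fin n := ⟨j, hjn⟩ with hJ
      set s := x J with hs
      have h1 := hTlt' s
      have h2 := hTle' s
      rw [hTlts] at h1
      rw [hTles] at h2
      obtain ⟨N1, hN1⟩ : ∃ N1 : ℕ, S j - (∑ i, if x i < s then ε i else 0) = N1 * ε J := by
        refine ⟨(univ.filter fun i : Fin n => (i : ℕ) < j ∧ x i = s).card, ?_⟩
        simp only [hS]
        rw [← Finset.sum_sub_distrib, Finset.card_filter]
        push_cast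
        rw [Finset.sum_mul]
        apply Finset.sum_congr rfl
        intro i _
        have hmi : (i : ℕ) < j → x i ≤ s := by
          intro h3
          exact hmono (show i ≤ J by rw [Fin.le_def]; simp [hJ]; omega)
        have hmi' : ¬ (i : ℕ) < j → s ≤ x i := by
          intro h3
          exact hmono (show J ≤ i by rw [Fin.le_def]; simp [hJ]; omega)
        by_cases h3 : (i : ℕ) < j
        · rcases (hmi h3).lt_or_eq with h4 | h4
          · rw [if_pos h3, if_pos h4, if_neg (by rintro ⟨_, h5⟩; linarith)]; simp
          · rw [if_pos h3, if_neg (by rw [h4]; exact lt_irrefl _), if_pos ⟨h3, h4⟩, htie i J h4]; simp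
        · rw [if_neg h3, if_neg (not_lt.mpr (hmi' h3)), if_neg (by rintro ⟨h5, _⟩; exact h3 h5)]; simp
      obtain ⟨N2, hN2⟩ : ∃ N2 : ℕ, (∑ i, if x i ≤ s then ε i else 0) - S j = N2 * ε J := by
        refine ⟨(univ.filter fun i : Fin n => ¬ (i : ℕ) < j ∧ x i = s).card, ?_⟩
        simp only [hS]
        rw [← Finset.sum_sub_distrib, Finset.card_filter]
        push_cast
        rw [Finset.sum_mul]
        apply Finset.sum_congr rfl
        intro i _
        have hmi : (i : ℕ) < j → x i ≤ s := by
          intro h3
          exact hmono (show i ≤ J by rw [Fin.le_def]; simp [hJ]; omega)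
        have hmi' : ¬ (i : ℕ) < j → s ≤ x i := by
          intro h3
          exact hmono (show J ≤ i by rw [Fin.le_def]; simp [hJ]; omega)
        by_cases h3 : (i : ℕ) < j
        · rw [if_pos h3, if_pos (hmi h3), if_neg (by rintro ⟨h5, _⟩; exact h5 h3)]; simp
        · rcases (hmi' h3).lt_or_eq with h4 | h4
          · rw [if_neg h3, if_neg (not_le.mpr h4), if_neg (by rintro ⟨_, h5⟩; linarith)]; simp
          · rw [if_neg h3, if_pos (by rw [← h4]), if_pos ⟨h3, h4.symm⟩, htie i J h4.symm]; simp
      rcases hε1 J with h | h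
      · rw [h] at hN1 hN2
        constructor <;> omega
      · rw [h] at hN1 hN2
        constructor <;> omega
    · have : j = n := le_antisymm hj hjn
      rw [this, hSn]
      exact ⟨hr₀nn, le_rfl⟩
  obtain ⟨r, hr⟩ := Int.eq_ofNat_of_zero_le hr₀nn
  obtain ⟨G, hG1, hG2, hG3, hG4, hG5⟩ := walk_levels n r ε hε1 x hmono htie S hS0 hSs
    (by rw [hSn, hr]) (by intro j hj; have := hb j hj; rw [hr] at this; exact this)
  choose m hm using hG3
  refine ⟨σ, t₀, τ, r, G, m, hσ0, hc0, hG1, hm, hG4, ?_, ?_⟩
  · intro l i hi
    have h1 := hG5 l i hi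
    have h2 : ((-1 : ℝ) ^ ((G l).filter fun j => i < j).card) = (ε i : ℝ) := by
      rw [h1]; push_cast; rfl
    rw [h2]
    change 0 < (ε i : ℝ) * c (τ i)
    simp only [hε, sg]
    by_cases h3 : 0 < c (τ i)
    · rw [if_pos h3]; simpa using h3
    · rw [if_neg h3]
      have := lt_of_le_of_ne (not_lt.mp h3) (hc0 (τ i))
      push_cast
      linarith
  · have h1 : ∑ l, (G l).card = n := by
      rw [← Finset.card_biUnion (fun l _ l' _ hll => hG1 l l' hll)]
      have : (Finset.univ.biUnion G) = Finset.univ := by
        ext i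
        simp only [Finset.mem_biUnion, Finset.mem_univ, true_and, iff_true]
        exact hG2 i
      rw [this, Finset.card_univ, Fintype.card_fin]
    rw [Finset.sum_congr rfl (fun l _ => hm l), Finset.sum_add_distrib, ← Finset.mul_sum] at h1
    simp only [Finset.sum_const, Finset.card_univ, Fintype.card_fin, smul_eq_mul, mul_one] at h1
    have h2 : (n : ℤ) - 2 * m₀ = r := by rw [← hr₀, hr]
    omega

end Levels

section Neutral

variable {V : Type*} [AddCommGroup V] [Module K V] [FiniteDimensional K V]

theorem neutral_span {ι : Type*} (F : HForm V) (v : ι → V) (h : ∀ p p', F.f (v p) (v p') = 0) :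
    ∀ y ∈ Submodule.span K (Set.range v), F.q y = 0 := by
  have h1 : ∀ p', ∀ z ∈ Submodule.span K (Set.range v), F.f (v p') z = 0 := by
    intro p' z hz
    have : Submodule.span K (Set.range v) ≤ F.perp (Submodule.span K {v p'}) := by
      rw [Submodule.span_le]
      rintro _ ⟨p, rfl⟩
      rw [SetLike.mem_coe, HForm.perp_span]
      exact h p' p
    have := this hz
    rwa [HForm.perp_span] at this
  intro y hy
  have h2 : Submodule.span K (Set.range v) ≤ F.perp (Submodule.span K {y}) := by
    rw [Submodule.span_le]
    rintro _ ⟨p, rfl⟩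
    rw [SetLike.mem_coe, HForm.perp_span]
    exact F.symm_zero (h1 p y hy)
  have h3 := h2 hy
  rw [HForm.perp_span] at h3
  exact (F.self_eq_zero_iff y).mp h3

theorem f_real_comb {n : ℕ} (F : HForm V) (e : Fin n → V) (hF : ∀ i j, i ≠ j → F.f (e i) (e j) = 0)
    (a b : Fin n → ℝ) :
    F.f (∑ i, op (a i : ℍ[ℝ]) • e i) (∑ j, op (b j : ℍ[ℝ]) • e j) =
      ((∑ i, a i * b i * F.q (e i) : ℝ) : ℍ[ℝ]) := by
  rw [F.sum_left]
  have h1 : ∀ i, F.f (op (a i : ℍ[ℝ]) • e i) (∑ j, op (b j : ℍ[ℝ]) • e j) =
      ((a i * b i * F.q (e i) : ℝ) : ℍ[ℝ]) := by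
    intro i
    rw [F.sum_right, Finset.sum_eq_single i]
    · rw [F.smul_right, F.smul_left, F.self_eq, Quaternion.star_coe, ← Quaternion.coe_mul,
        ← Quaternion.coe_mul]
      congr 1
      ring
    · intro j _ hj
      rw [F.smul_right, F.smul_left, hF i j hj.symm]; simp
    · simp
  rw [Finset.sum_congr rfl (fun i _ => h1 i)]
  exact (map_sum (algebraMap ℝ ℍ[ℝ]) (fun i => a i * b i * F.q (e i)) Finset.univ).symm

theorem neutral_of_levels {n r : ℕ} (C B : HForm V) (e : Fin n → V)
    (hC : ∀ i j, i ≠ j → C.f (e i) (e j) = 0) (hB : ∀ i j, i ≠ j → B.f (e i) (e j) = 0)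
    (x : Fin n → ℝ) (hc : ∀ i, C.q (e i) ≠ 0) (hx : ∀ i, B.q (e i) = x i * C.q (e i))
    (G : Fin r → Finset (Fin n)) (hdisj : ∀ l l', l ≠ l' → Disjoint (G l) (G l')) (m : Fin r → ℕ)
    (hm : ∀ l, (G l).card = 2 * m l + 1)
    (hinc : ∀ l, ∀ i ∈ G l, ∀ j ∈ G l, i < j → x i < x j)
    (hsign : ∀ l, ∀ i ∈ G l, 0 < (-1 : ℝ) ^ ((G l).filter fun j => i < j).card * C.q (e i)) :
    ∃ M : Submodule K V, (∀ y ∈ M, C.q y = 0 ∧ B.q y = 0) ∧ finrank K M = ∑ l, m l := by
  classical
  have hinj : ∀ l, Set.InjOn x (G l) := by
    intro l i hi j hj hij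
    rcases lt_trichotomy i j with h | h | h
    · have := hinc l i hi j hj h
      linarith
    · exact h
    · have := hinc l j hj i hi h
      linarith
  set ω : Fin r → Fin n → ℝ := fun l i => lw (G l) x i / C.q (e i) with hω
  have hωpos : ∀ l, ∀ i ∈ G l, 0 < ω l i := by
    intro l i hi
    have h1 := prod_sign (G l) x (hinc l) i hi
    have h2 := hsign l i hi
    have h3 := mul_pos h1 h2
    have h4 : (-1 : ℝ) ^ ((G l).filter fun j => i < j).card *
        (-1 : ℝ) ^ ((G l).filter fun j => i < j).card = 1 := by
      rw [← mul_pow]; simp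
    have h5 : 0 < (∏ j ∈ (G l).erase i, (x i - x j)) * C.q (e i) := by
      have : (∏ j ∈ (G l).erase i, (x i - x j)) * C.q (e i) =
          ((-1 : ℝ) ^ ((G l).filter fun j => i < j).card * (-1 : ℝ) ^ ((G l).filter fun j => i < j).card) *
            ((∏ j ∈ (G l).erase i, (x i - x j)) * C.q (e i)) := by rw [h4, one_mul]
      rw [this]
      calc (0 : ℝ) < _ := h3
        _ = _ := by ring
    have h6 : ω l i = ((∏ j ∈ (G l).erase i, (x i - x j)) * C.q (e i))⁻¹ := by
      simp only [hω, lw]
      rw [mul_inv, div_eq_mul_inv]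
    rw [h6]
    exact inv_pos.mpr h5
  set coef : (Σ l : Fin r, Fin (m l)) → Fin n → ℝ := fun p i =>
    if i ∈ G p.1 then Real.sqrt (ω p.1 i) * x i ^ (p.2 : ℕ) else 0 with hcoef
  set v : (Σ l : Fin r, Fin (m l)) → V := fun p => ∑ i, op ((coef p i : ℝ) : ℍ[ℝ]) • e i with hv
  have hprod : ∀ p p' : (Σ l : Fin r, Fin (m l)), ∀ q : ℕ, q ≤ 1 →
      ∑ i, coef p i * coef p' i * (x i ^ q * C.q (e i)) = 0 := by
    intro p p' q hq
    by_cases hpp : p.1 = p'.1
    · obtain ⟨l, k⟩ := p
      obtain ⟨l', k'⟩ := p'
      simp only at hpp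
      subst hpp
      have h1 : ∀ i, coef ⟨l, k⟩ i * coef ⟨l, k'⟩ i * (x i ^ q * C.q (e i)) =
          if i ∈ G l then x i ^ ((k : ℕ) + k' + q) * lw (G l) x i else 0 := by
        intro i
        simp only [hcoef]
        by_cases hi : i ∈ G l
        · rw [if_pos hi, if_pos hi, if_pos hi]
          have h2 := Real.mul_self_sqrt (hωpos l i hi).le
          have h3 : ω l i * C.q (e i) = lw (G l) x i := by
            simp only [hω]
            field_simp [hc i]
          rw [pow_add, pow_add]
          rw [← h3]
          calc _ = (Real.sqrt (ω l i) * Real.sqrt (ω l i)) * (x i ^ (k : ℕ) * x i ^ (k' : ℕ) * x i ^ q) * C.q (e i) := by ring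
            _ = _ := by rw [h2]; ring
        · simp [hi]
      rw [Finset.sum_congr rfl (fun i _ => h1 i), Finset.sum_ite_mem, Finset.univ_inter]
      apply lag_sum (G l) x (hinj l)
      rw [hm l]
      have := k.2
      have := k'.2
      omega
    · apply Finset.sum_eq_zero
      intro i _
      simp only [hcoef]
      by_cases hi : i ∈ G p.1
      · have hi' : i ∉ G p'.1 := fun h => (Finset.disjoint_left.mp (hdisj _ _ hpp)) hi h
        rw [if_neg hi']; ring
      · rw [if_neg hi]; ring
  have hCv : ∀ p p', C.f (v p) (v p') = 0 := by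
    intro p p'
    simp only [hv]
    rw [f_real_comb C e hC]
    have := hprod p p' 0 (by omega)
    simp only [pow_zero, one_mul] at this
    rw [this]; rfl
  have hBv : ∀ p p', B.f (v p) (v p') = 0 := by
    intro p p'
    simp only [hv]
    rw [f_real_comb B e hB]
    have := hprod p p' 1 le_rfl
    simp only [pow_one] at this
    have h2 : ∑ i, coef p i * coef p' i * B.q (e i) = ∑ i, coef p i * coef p' i * (x i * C.q (e i)) := by
      apply Finset.sum_congr rfl
      intro i _
      rw [hx]
    rw [h2, this]; rfl
  have hCe : ∀ i p, C.f (e i) (v p) = ((coef p i * C.q (e i) : ℝ) : ℍ[ℝ]) := by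
    intro i p
    simp only [hv]
    rw [C.sum_right, Finset.sum_eq_single i]
    · rw [C.smul_right, C.self_eq, ← Quaternion.coe_mul, mul_comm]
    · intro j _ hj
      rw [C.smul_right, hC i j hj.symm, zero_mul]
    · simp
  have hli : LinearIndependent K v := by
    rw [Fintype.linearIndependent_iff]
    intro g hg p
    obtain ⟨l, k⟩ := p
    have h1 : ∀ i ∈ G l, ∑ k' : Fin (m l), (x i ^ (k' : ℕ)) • unop (g ⟨l, k'⟩) = 0 := by
      intro i hi
      have h2 := congrArg (C.f (e i)) hg
      rw [C.sum_right, C.zero_right, Fintype.sum_sigma] at h2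
      have h3 : ∀ p, C.f (e i) (g p • v p) = ((coef p i * C.q (e i) : ℝ) : ℍ[ℝ]) * unop (g p) := by
        intro p
        have := C.smul_right (e i) (unop (g p)) (v p)
        rw [op_unop] at this
        rw [this, hCe]
      rw [Finset.sum_eq_single l] at h2
      · have h4 : ∀ k' : Fin (m l), C.f (e i) (g ⟨l, k'⟩ • v ⟨l, k'⟩) =
            (Real.sqrt (ω l i) * C.q (e i)) • ((x i ^ (k' : ℕ)) • unop (g ⟨l, k'⟩)) := by
          intro k'
          rw [h3, smul_smul, Quaternion.coe_mul_eq_smul]
          congr 1
          simp only [hcoef]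
          rw [if_pos hi]; ring
        rw [Finset.sum_congr rfl (fun k' _ => h4 k'), ← Finset.smul_sum] at h2
        have h5 : Real.sqrt (ω l i) * C.q (e i) ≠ 0 :=
          mul_ne_zero (Real.sqrt_pos.mpr (hωpos l i hi)).ne' (hc i)
        exact (smul_eq_zero.mp h2).resolve_left h5
      · intro l' _ hl
        apply Finset.sum_eq_zero
        intro k' _
        rw [h3]
        have hi' : i ∉ G l' := fun h => (Finset.disjoint_left.mp (hdisj _ _ hl)) h hi
        simp only [hcoef]
        rw [if_neg hi']; simp
      · simp
    have h6 := vander (m l) (G l) x (hinj l) (by rw [hm l]; omega) (fun k' => unop (g ⟨l, k'⟩)) h1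
    have h7 := congrFun h6 k
    simp only [Pi.zero_apply] at h7
    exact MulOpposite.unop_injective (by rw [h7]; rfl)
  refine ⟨Submodule.span K (Set.range v), ?_, ?_⟩
  · intro y hy
    exact ⟨neutral_span C v hCv y hy, neutral_span B v hBv y hy⟩
  · rw [finrank_span_eq_card hli]
    simp

end Neutral

section Main

universe u

theorem negIndex_neg_of_fam {V : Type*} [AddCommGroup V] [Module K V] [FiniteDimensional K V]
    {n : ℕ} (F : HForm V) (e : Fin n → V) (hspan : ⊤ ≤ Submodule.span K (Set.range e))
    (horth : ∀ i j, i ≠ j → F.f (e i) (e j) = 0) (hne : ∀ i, F.q (e i) ≠ 0) (U : Submodule K V)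
    (hU : ∀ x ∈ U, F.q x = 0) :
    finrank K U ≤ (Finset.univ.filter fun i => F.q (e i) < 0).card := by
  classical
  have hns : F.NS := by
    intro x hx
    obtain ⟨a, ha⟩ := mem_span_range e Finset.univ x (by
      have : e '' (Finset.univ : Finset (Fin n)) = Set.range e := by simp
      rw [this]; exact hspan trivial)
    rw [ha]
    apply Finset.sum_eq_zero
    intro i hi
    have h1 := F.symm_zero (hx (e i))
    rw [ha, F.sum_right, Finset.sum_eq_single i] at h1
    · rw [F.smul_right, F.self_eq, Quaternion.coe_mul_eq_smul] at h1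
      rw [(smul_eq_zero.mp h1).resolve_left (hne i)]; simp
    · intro j _ hj
      rw [F.smul_right, horth i j hj.symm, zero_mul]
    · simp
  have h1 := fam_neg F e hspan horth
  rw [← h1]
  exact nonpos_dim_ns F hns U (fun x hx => (hU x hx).le)

theorem kmax (n : ℕ) : ∀ (V : Type u) [AddCommGroup V] [Module K V] [FiniteDimensional K V]
    [Module ℝ V] [IsScalarTower ℝ K V] (A B : HForm V), finrank K V = n →
    ∀ (k : ℕ) (E : Set ℝ), E.Finite →
    (∀ t ∉ E, ∃ U : Submodule K V, k ≤ finrank K U ∧ ∀ x ∈ U, (A + t • B).q x = 0) →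
    ∃ M : Submodule K V, Neutral A B M ∧ k ≤ finrank K M := by
  induction n using Nat.strong_induction_on with
  | _ n ih =>
  intro V _ _ _ _ _ A B hn k E hE h
  by_cases hbad : ∃ v, Bad A B v
  · obtain ⟨v, hv0, hAv, hBv, E', hE', hprop⟩ := hbad
    rcases Nat.eq_zero_or_pos k with hk0 | hkpos
    · refine ⟨⊥, ?_, by omega⟩
      intro x hx
      rw [(Submodule.mem_bot K).mp hx]; simp
    obtain ⟨U, hU⟩ := Submodule.exists_isCompl (Submodule.span K {v})
    set jp := A.perp (Submodule.span K {v}) ⊓ B.perp (Submodule.span K {v}) with hjp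
    have hvjp : Submodule.span K {v} ≤ jp := by
      rw [Submodule.span_le, Set.singleton_subset_iff, SetLike.mem_coe]
      constructor
      · exact (HForm.perp_span A v v).mpr ((A.self_eq_zero_iff v).mpr hAv)
      · exact (HForm.perp_span B v v).mpr ((B.self_eq_zero_iff v).mpr hBv)
    set W := jp ⊓ U with hW
    have hUdim := Submodule.finrank_add_eq_of_isCompl hU
    rw [finrank_span_one hv0, hn] at hUdim
    have hWdim : finrank K W < n := by
      have : finrank K W ≤ finrank K U := Submodule.finrank_mono inf_le_right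
      omega
    obtain ⟨MW, hMW, hMWk⟩ := ih (finrank K W) hWdim W (A.pull W.subtype) (B.pull W.subtype) rfl
      (k - 1) (E ∪ E') (hE.union hE') (by
        intro t ht
        obtain ⟨Ut, hUtk, hUt⟩ := h t (fun h' => ht (Or.inl h'))
        have hprop' := hprop t (fun h' => ht (Or.inr h'))
        set At := A + t • B with hAt
        set U1 := Ut ⊓ At.perp (Submodule.span K {v}) with hU1
        have hU1dim := perp_dim At (Submodule.span K {v}) Ut
        rw [finrank_span_one hv0] at hU1dim
        have hU1jp : U1 ≤ jp := by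
          intro y hy
          have h1 := (HForm.perp_span At v y).mp hy.2
          obtain ⟨h2, h3⟩ := hprop' y h1
          exact ⟨(HForm.perp_span A v y).mpr h2, (HForm.perp_span B v y).mpr h3⟩
        -- U2 = U1 ⊔ span v, neutral for At
        set U2 := U1 ⊔ Submodule.span K {v} with hU2
        have hU2n : ∀ x ∈ U2, At.q x = 0 := by
          apply q_sup_zero At
          · intro m hm; exact hUt m hm.1
          · simp [hAt, hAv, hBv]
          · intro m hm
            exact At.symm_zero ((HForm.perp_span At v m).mp hm.2)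
        have hU2k : k ≤ finrank K U2 := by
          by_cases hvU : v ∈ Ut
          · have : Ut ≤ U1 := by
              refine le_inf le_rfl ?_
              intro y hy
              rw [HForm.perp_span]
              exact At.polar Ut hUt v hvU y hy
            have : finrank K Ut ≤ finrank K U2 := Submodule.finrank_mono (this.trans le_sup_left)
            omega
          · have : finrank K U2 = finrank K U1 + 1 := by
              rw [hU2, finrank_sup_disj, finrank_span_one hv0]
              intro x hx1 hx2
              obtain ⟨a, rfl⟩ := HForm.mem_span_one.mp hx2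
              by_contra hne
              apply hvU
              have ha : a ≠ 0 := by rintro rfl; simp at hne
              have := Ut.smul_mem (op a⁻¹) hx1.1
              rw [smul_smul, ← op_mul, mul_inv_cancel₀ ha] at this
              simpa using this
            change finrank K Ut ≤ finrank K U1 + 1 at hU1dim
            omega
        have hU2jp : U2 ≤ jp := sup_le hU1jp hvjp
        set W2 := U2 ⊓ U with hW2
        have hW2W : W2 ≤ W := inf_le_inf_right U hU2jp
        have hsup : Submodule.span K {v} ⊔ W2 = U2 := by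
          rw [hW2, inf_comm U2 U, ← sup_inf_assoc_of_le U (le_sup_right : Submodule.span K {v} ≤ U2),
            hU.sup_eq_top, top_inf_eq]
        have hdim2 : k - 1 ≤ finrank K W2 := by
          have h1 := Submodule.finrank_add_le_finrank_add_finrank (Submodule.span K {v}) W2
          rw [hsup, finrank_span_one hv0] at h1
          omega
        refine ⟨W2.comap W.subtype, ?_, ?_⟩
        · have : (W2.comap W.subtype).map W.subtype = W2 := by
            rw [Submodule.map_comap_subtype, inf_eq_right]; exact hW2W
          have h2 := Submodule.finrank_map_subtype_eq W (W2.comap W.subtype)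
          rw [this] at h2
          omega
        · intro x hx
          exact hU2n x hx.1)
    refine ⟨Submodule.span K {v} ⊔ MW.map W.subtype, ?_, ?_⟩
    · rw [sup_comm]
      have hMWn : Neutral A B (MW.map W.subtype) := by
        rintro _ ⟨x, hx, rfl⟩
        exact hMW x hx
      apply hMWn.sup hAv hBv
      · rintro _ ⟨x, hx, rfl⟩
        exact A.symm_zero ((HForm.perp_span A v _).mp x.2.1.1)
      · rintro _ ⟨x, hx, rfl⟩
        exact B.symm_zero ((HForm.perp_span B v _).mp x.2.1.2)
    · rw [finrank_sup_disj, finrank_span_one hv0, Submodule.finrank_map_subtype_eq]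
      · omega
      · rintro x hx1 ⟨y, hy, rfl⟩
        exact (Submodule.disjoint_def.mp hU.disjoint) _ hx1 y.2.2
  · push Not at hbad
    obtain ⟨e, hspan, hA, hB, hne⟩ := diag_aux n V A B hn hbad
    have hanti : ∀ i j, ¬ (A.q (e i) * B.q (e j) = A.q (e j) * B.q (e i) ∧
        A.q (e i) * A.q (e j) + B.q (e i) * B.q (e j) < 0) := by
      rintro i j ⟨h1, h2⟩
      have hij : i ≠ j := by
        rintro rfl
        nlinarith [sq_nonneg (A.q (e i)), sq_nonneg (B.q (e i))]
      -- c > 0 with A_j = - c A_i, B_j = - c B_i
      have hpos : 0 < A.q (e i) ^ 2 + B.q (e i) ^ 2 := by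
        rcases hne i with h | h <;> positivity
      set c := -(A.q (e i) * A.q (e j) + B.q (e i) * B.q (e j)) / (A.q (e i) ^ 2 + B.q (e i) ^ 2) with hc
      have hcpos : 0 < c := div_pos (by linarith) hpos
      have e1 : A.q (e j) = - c * A.q (e i) := by
        rw [hc]; field_simp
        linear_combination -(B.q (e i)) * h1
      have e2 : B.q (e j) = - c * B.q (e i) := by
        rw [hc]; field_simp
        linear_combination (A.q (e i)) * h1
      set s := Real.sqrt c with hs
      have hs2 : s ^ 2 = c := Real.sq_sqrt hcpos.le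
      have hsne : s ≠ 0 := (Real.sqrt_pos.mpr hcpos).ne'
      apply hbad (op (s : ℍ[ℝ]) • e i + e j)
      -- expansions
      have hfA : ∀ k, A.f (e k) (op (s : ℍ[ℝ]) • e i + e j) =
          (((if k = i then s * A.q (e i) else 0) + (if k = j then A.q (e j) else 0) : ℝ) : ℍ[ℝ]) := by
        intro k
        rw [A.add_right, A.smul_right, Quaternion.coe_add]
        congr 1
        · by_cases hk : k = i
          · subst hk; rw [if_pos rfl, A.self_eq, ← Quaternion.coe_mul, mul_comm]
          · rw [if_neg hk, hA k i hk]; simp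
        · by_cases hk : k = j
          · subst hk; rw [if_pos rfl, A.self_eq]
          · rw [if_neg hk, hA k j hk]; simp
      have hfB : ∀ k, B.f (e k) (op (s : ℍ[ℝ]) • e i + e j) =
          (((if k = i then s * B.q (e i) else 0) + (if k = j then B.q (e j) else 0) : ℝ) : ℍ[ℝ]) := by
        intro k
        rw [B.add_right, B.smul_right, Quaternion.coe_add]
        congr 1
        · by_cases hk : k = i
          · subst hk; rw [if_pos rfl, B.self_eq, ← Quaternion.coe_mul, mul_comm]
          · rw [if_neg hk, hB k i hk]; simp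
        · by_cases hk : k = j
          · subst hk; rw [if_pos rfl, B.self_eq]
          · rw [if_neg hk, hB k j hk]; simp
      apply bad_of_comb A B _ ?_ ?_ ?_ (B.q (e i)) (-(A.q (e i)))
      · rcases hne i with h | h
        · exact Or.inr (neg_ne_zero.mpr h)
        · exact Or.inl h
      · -- functional identity
        intro y
        have key : ∀ y ∈ Submodule.span K (Set.range e),
            B.q (e i) • A.f y (op (s : ℍ[ℝ]) • e i + e j) + -(A.q (e i)) • B.f y (op (s : ℍ[ℝ]) • e i + e j) = 0 := by
          intro y hy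
          induction hy using Submodule.span_induction with
          | mem x hx =>
            obtain ⟨k, rfl⟩ := hx
            rw [hfA, hfB, ← Quaternion.coe_smul, ← Quaternion.coe_smul, ← Quaternion.coe_add]
            have : B.q (e i) • ((if k = i then s * A.q (e i) else 0) + (if k = j then A.q (e j) else 0)) +
                -(A.q (e i)) • ((if k = i then s * B.q (e i) else 0) + (if k = j then B.q (e j) else 0)) = 0 := by
              simp only [smul_eq_mul, neg_mul]
              split_ifs
              · rw [e1, e2]; ring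
              · ring
              · rw [e1, e2]; ring
              · ring
            rw [this]; rfl
          | zero => simp
          | add x y _ _ hx hy =>
            rw [A.add_left, B.add_left, smul_add, smul_add]
            calc _ = (B.q (e i) • A.f x (op (s : ℍ[ℝ]) • e i + e j) + -(A.q (e i)) • B.f x (op (s : ℍ[ℝ]) • e i + e j)) +
              (B.q (e i) • A.f y (op (s : ℍ[ℝ]) • e i + e j) + -(A.q (e i)) • B.f y (op (s : ℍ[ℝ]) • e i + e j)) := by abel
              _ = 0 := by rw [hx, hy, add_zero]
          | smul a x _ hx =>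
            have ea := A.smul_left (unop a) x (op (s : ℍ[ℝ]) • e i + e j)
            have eb := B.smul_left (unop a) x (op (s : ℍ[ℝ]) • e i + e j)
            rw [op_unop] at ea eb
            rw [ea, eb, ← mul_smul_comm, ← mul_smul_comm, ← mul_add, hx, mul_zero]
        have h3 := key y (hspan trivial)
        have h4 := congrArg star h3
        rw [star_add, Quaternion.star_smul, Quaternion.star_smul, A.herm, B.herm, star_zero] at h4
        exact h4
      · intro h0
        have h3 := hfA j
        have h4 := hfB j
        rw [h0, if_neg hij.symm, if_pos rfl, zero_add] at h3 h4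
        simp only [HForm.zero_right] at h3 h4
        have h5 : A.q (e j) = 0 := by
          have := congrArg QuaternionAlgebra.re h3
          simpa using this.symm
        have h6 : B.q (e j) = 0 := by
          have := congrArg QuaternionAlgebra.re h4
          simpa using this.symm
        rcases hne j with h | h
        · exact h h5
        · exact h h6
      · rw [A.q_add, q_real, hs2, A.smul_left, hA i j hij, e1]; simp
      · rw [B.q_add, q_real, hs2, B.smul_left, hB i j hij, e2]; simp
    -- apply the combinatorial lemma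
    obtain ⟨σ, t₀, τ, r, G, m, hσ, hc0, hdisj, hcard, hinc, hsign, hk⟩ :=
      comb_levels n k (fun i => A.q (e i)) (fun i => B.q (e i)) hne hanti
        (E ∪ ⋃ i, {t | A.q (e i) + t * B.q (e i) = 0}) (by
          apply hE.union
          apply Set.finite_iUnion
          intro i
          by_cases hb : B.q (e i) = 0
          · have : {t : ℝ | A.q (e i) + t * B.q (e i) = 0} = ∅ := by
              ext t
              simp only [Set.mem_setOf_eq, Set.mem_empty_iff_false, iff_false, hb, mul_zero, add_zero]
              exact (hne i).resolve_right (fun h => h hb)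
            rw [this]; exact Set.finite_empty
          · apply (Set.finite_singleton (-(A.q (e i)) / B.q (e i))).subset
            intro t ht
            simp only [Set.mem_setOf_eq] at ht
            simp only [Set.mem_singleton_iff]
            field_simp
            linarith) (by
          intro t ht
          have hne' : ∀ i, A.q (e i) + t * B.q (e i) ≠ 0 := by
            intro i h0
            exact ht (Or.inr (Set.mem_iUnion.mpr ⟨i, h0⟩))
          obtain ⟨U, hUk, hU⟩ := h t (fun h' => ht (Or.inl h'))
          constructor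
          · have := negIndex_neg_of_fam (A + t • B) e hspan (by
              intro i j hij; simp [hA i j hij, hB i j hij]) (by intro i; simpa using hne' i) U hU
            simp only [HForm.add_q, HForm.smul_q] at this
            exact hUk.trans this
          · have := negIndex_neg_of_fam (-(A + t • B)) e hspan (by
              intro i j hij; simp [hA i j hij, hB i j hij]) (by
              intro i h0
              apply hne' i
              simp only [HForm.add_q, HForm.smul_q, HForm.neg_q] at h0
              linarith) U (by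
              intro x hx
              have := hU x hx
              rw [HForm.neg_q, this, neg_zero])
            simp only [HForm.add_q, HForm.smul_q, HForm.neg_q] at this
            refine hUk.trans (this.trans (le_of_eq ?_))
            congr 1
            apply Finset.filter_congr
            intro i _
            constructor <;> intro h' <;> linarith)
    obtain ⟨M, hM, hMdim⟩ := neutral_of_levels (σ • (A + t₀ • B)) B (fun i => e (τ i))
      (by
        intro i j hij
        have : τ i ≠ τ j := fun h' => hij (τ.injective h')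
        simp [hA _ _ this, hB _ _ this])
      (by
        intro i j hij
        have : τ i ≠ τ j := fun h' => hij (τ.injective h')
        exact hB _ _ this)
      (fun i => B.q (e (τ i)) / (σ * (A.q (e (τ i)) + t₀ * B.q (e (τ i)))))
      (by intro i; exact hc0 (τ i))
      (by
        intro i
        simp only [HForm.add_q, HForm.smul_q]
        exact (div_mul_cancel₀ _ (hc0 (τ i))).symm)
      G hdisj m hcard hinc hsign
    refine ⟨M, ?_, by rw [hMdim]; exact hk⟩
    intro x hx
    obtain ⟨h1, h2⟩ := hM x hx
    simp only [HForm.add_q, HForm.smul_q] at h1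
    rw [h2, mul_zero, add_zero] at h1
    exact ⟨(mul_eq_zero.mp h1).resolve_left hσ, h2⟩

end Main

end Pool.Agent.Lib_c77211
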