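import Pool.Agent.Lib_c77211.Nec1

open Quaternion MulOpposite Module

noncomputable section

namespace Pool.Agent.Lib_c77211

set_option linter.unusedSectionVars false
set_option linter.deprecated false

universe u

section LD

variable {V : Type u} [AddCommGroup V] [Module K V] [FiniteDimensional K V] [Module ℝ V]
  [IsScalarTower ℝ K V]

/-- `G` is diagonalised on `U` with `n` negative values. -/
def LD (G : HForm V) (U : Submodule K V) (n : ℕ) : Prop :=
  ∃ (ι : Type) (_ : Finite ι) (g : ι → V), (∀ j, g j ∈ U) ∧ U ≤ Submodule.span K (Set.range g) ∧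
    (∀ j j', j ≠ j' → G.f (g j) (g j') = 0) ∧ Nat.card {j // G.q (g j) < 0} = n

theorem LD.negIndex {G : HForm V} {n : ℕ} (h : LD G ⊤ n) : negIndex G = n := by
  classical
  obtain ⟨ι, hι, g, _, h2, h3, h4⟩ := h
  haveI := Fintype.ofFinite ι
  rw [fam_neg G g h2 h3, ← h4, Nat.card_eq_fintype_card, Fintype.card_subtype]

theorem LD.sup {G : HForm V} {U W : Submodule K V} {n k : ℕ} (h1 : LD G U n) (h2 : LD G W k)
    (horth : ∀ x ∈ U, ∀ y ∈ W, G.f x y = 0) : LD G (U ⊔ W) (n + k) := by
  obtain ⟨ι, hι, g, a1, a2, a3, a4⟩ := h1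
  obtain ⟨κ, hκ, f, b1, b2, b3, b4⟩ := h2
  refine ⟨ι ⊕ κ, inferInstance, Sum.elim g f, ?_, ?_, ?_, ?_⟩
  · rintro (j | j)
    · exact Submodule.mem_sup_left (a1 j)
    · exact Submodule.mem_sup_right (b1 j)
  · apply sup_le
    · refine a2.trans (Submodule.span_mono ?_)
      rintro _ ⟨j, rfl⟩
      exact ⟨Sum.inl j, rfl⟩
    · refine b2.trans (Submodule.span_mono ?_)
      rintro _ ⟨j, rfl⟩
      exact ⟨Sum.inr j, rfl⟩
  · rintro (j | j) (j' | j') hjj
    · exact a3 j j' (fun h => hjj (by rw [h]))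
    · exact horth _ (a1 j) _ (b1 j')
    · exact G.symm_zero (horth _ (a1 j') _ (b1 j))
    · exact b3 j j' (fun h => hjj (by rw [h]))
  · rw [← a4, ← b4, ← Nat.card_sum]
    exact Nat.card_congr Equiv.subtypeSum

theorem LD.congr_le {G : HForm V} {U W : Submodule K V} {n : ℕ} (h : LD G U n) (hUW : U = W) :
    LD G W n := hUW ▸ h

theorem LD.biSup {G : HForm V} {m : ℕ} (U : Fin m → Submodule K V) (n : Fin m → ℕ)
    (h : ∀ i, LD G (U i) (n i)) (horth : ∀ i j, i ≠ j → ∀ x ∈ U i, ∀ y ∈ U j, G.f x y = 0)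
    (s : Finset (Fin m)) : LD G (⨆ i ∈ s, U i) (∑ i ∈ s, n i) := by
  classical
  induction s using Finset.induction_on with
  | empty =>
    refine ⟨Empty, inferInstance, fun e => e.elim, fun e => e.elim, ?_, fun e => e.elim, ?_⟩
    · simp
    · simp
  | insert a s ha ih =>
    rw [Finset.iSup_insert, Finset.sum_insert ha]
    apply (h a).sup ih
    intro x hx y hy
    have hle : (⨆ i ∈ s, U i) ≤ G.perp (U a) := by
      apply iSup₂_le
      intro i hi y hy x hx
      exact horth a i (by rintro rfl; exact ha hi) x hx y hy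
    exact hle hy x hx

theorem LD.one (G : HForm V) (v : V) [Decidable (G.q v < 0)] :
    LD G (Submodule.span K {v}) (if G.q v < 0 then 1 else 0) := by
  refine ⟨Unit, inferInstance, fun _ => v, fun _ => Submodule.mem_span_singleton_self v, ?_, ?_, ?_⟩
  · rw [Set.range_const]
  · intro j j' h; exact absurd rfl h
  · split_ifs with h
    · have : Nonempty (Unit ≃ {j : Unit // G.q v < 0}) := ⟨⟨fun j => ⟨j, h⟩, fun j => j.1, fun _ => rfl, fun _ => rfl⟩⟩
      obtain ⟨e⟩ := this
      rw [← Nat.card_congr e]; simp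
    · have : IsEmpty {j : Unit // G.q v < 0} := ⟨fun j => h j.2⟩
      exact Nat.card_of_isEmpty

theorem LD.zero_vec (G : HForm V) (v : V) (h : G.q v = 0) : LD G (Submodule.span K {v}) 0 := by
  classical
  have := LD.one G v
  rwa [if_neg (by rw [h]; exact lt_irrefl _)] at this

theorem orth_span_span (G : HForm V) {v w : V} (h : G.f v w = 0) :
    ∀ x ∈ Submodule.span K {v}, ∀ y ∈ Submodule.span K {w}, G.f x y = 0 := by
  intro x hx y hy
  obtain ⟨a, rfl⟩ := HForm.mem_span_one.mp hx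
  obtain ⟨b, rfl⟩ := HForm.mem_span_one.mp hy
  rw [G.smul_right, G.smul_left, h]; simp

theorem orth_sup (G : HForm V) {U W Z : Submodule K V} (h1 : ∀ x ∈ U, ∀ y ∈ Z, G.f x y = 0)
    (h2 : ∀ x ∈ W, ∀ y ∈ Z, G.f x y = 0) : ∀ x ∈ U ⊔ W, ∀ y ∈ Z, G.f x y = 0 := by
  intro x hx y hy
  obtain ⟨a, ha, b, hb, rfl⟩ := Submodule.mem_sup.mp hx
  rw [G.add_left, h1 a ha y hy, h2 b hb y hy, add_zero]

theorem orth_symm (G : HForm V) {U W : Submodule K V} (h1 : ∀ x ∈ U, ∀ y ∈ W, G.f x y = 0) :
    ∀ x ∈ W, ∀ y ∈ U, G.f x y = 0 := fun x hx y hy => G.symm_zero (h1 y hy x hx)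

/-- hyperbolic plane -/
theorem LD.hyp (G : HForm V) (e0 e1 : V) (p : ℍ[ℝ]) (hp : p ≠ 0) (h0 : G.f e0 e0 = 0)
    (h1 : G.f e0 e1 = p) : LD G (Submodule.span K {e0} ⊔ Submodule.span K {e1}) 1 := by
  classical
  set q := G.q e1 with hq
  have hsp : star p ≠ 0 := by intro h; apply hp; rw [← star_star p, h, star_zero]
  set c : ℍ[ℝ] := (star p)⁻¹ with hc
  have hc0 : c ≠ 0 := inv_ne_zero hsp
  set f0 := op c • e0 with hf0
  have hf00 : G.f f0 f0 = 0 := by rw [hf0, G.smul_right, G.smul_left, h0]; simp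
  have hf01 : G.f f0 e1 = 1 := by
    rw [hf0, G.smul_left, h1, hc, star_inv₀, star_star, inv_mul_cancel₀ hp]
  have hf10 : G.f e1 f0 = 1 := by rw [← G.herm, hf01, star_one]
  set v := e1 + ((1 - q) / 2) • f0 with hv
  set w := e1 + ((-1 - q) / 2) • f0 with hw
  have h11 : G.f e1 e1 = (q : ℍ[ℝ]) := G.self_eq e1
  have hval : ∀ t t' : ℝ, G.f (e1 + t • f0) (e1 + t' • f0) = ((q + t + t' : ℝ) : ℍ[ℝ]) := by
    intro t t'
    rw [G.add_left, G.add_right, G.add_right, G.rsmul_right, G.rsmul_left, G.rsmul_left, G.rsmul_right,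
      hf00, hf01, hf10, h11]
    ext <;> simp <;> ring
  have hvw : G.f v w = 0 := by
    rw [hv, hw, hval]
    have : q + (1 - q) / 2 + (-1 - q) / 2 = 0 := by ring
    rw [this]; rfl
  have hvv : G.q v = 1 := by
    unfold HForm.q
    rw [hv, hval]
    have : q + (1 - q) / 2 + (1 - q) / 2 = 1 := by ring
    rw [this]; rfl
  have hww : G.q w = -1 := by
    unfold HForm.q
    rw [hw, hval]
    have : q + (-1 - q) / 2 + (-1 - q) / 2 = -1 := by ring
    rw [this]; rfl
  have hLD := (LD.one G v).sup (LD.one G w) (orth_span_span G hvw)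
  rw [hvv, hww] at hLD
  rw [if_neg (by norm_num), if_pos (by norm_num), zero_add] at hLD
  apply hLD.congr_le
  have hrs : ∀ (r : ℝ) (x : V) (U : Submodule K V), x ∈ U → r • x ∈ U := by
    intro r x U hx
    rw [rsmul_eq]; exact U.smul_mem _ hx
  apply le_antisymm
  · have hf0m : f0 ∈ Submodule.span K {e0} ⊔ Submodule.span K {e1} :=
      Submodule.mem_sup_left (Submodule.smul_mem _ _ (Submodule.mem_span_singleton_self e0))
    have he1m : e1 ∈ Submodule.span K {e0} ⊔ Submodule.span K {e1} :=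
      Submodule.mem_sup_right (Submodule.mem_span_singleton_self e1)
    apply sup_le
    · rw [Submodule.span_le, Set.singleton_subset_iff]
      exact Submodule.add_mem _ he1m (hrs _ _ _ hf0m)
    · rw [Submodule.span_le, Set.singleton_subset_iff]
      exact Submodule.add_mem _ he1m (hrs _ _ _ hf0m)
  · have hvm : v ∈ Submodule.span K {v} ⊔ Submodule.span K {w} :=
      Submodule.mem_sup_left (Submodule.mem_span_singleton_self v)
    have hwm : w ∈ Submodule.span K {v} ⊔ Submodule.span K {w} :=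
      Submodule.mem_sup_right (Submodule.mem_span_singleton_self w)
    have hf0' : f0 = v - w := by
      rw [hv, hw, add_sub_add_left_eq_sub, ← sub_smul]
      have : (1 - q) / 2 - (-1 - q) / 2 = 1 := by ring
      rw [this, one_smul]
    have hf0m : f0 ∈ Submodule.span K {v} ⊔ Submodule.span K {w} := by
      rw [hf0']; exact Submodule.sub_mem _ hvm hwm
    have he1' : e1 = v - ((1 - q) / 2) • f0 := by rw [hv]; abel
    have he1m : e1 ∈ Submodule.span K {v} ⊔ Submodule.span K {w} := by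
      rw [he1']; exact Submodule.sub_mem _ hvm (hrs _ _ _ hf0m)
    have he0' : e0 = op c⁻¹ • f0 := by
      rw [hf0, smul_smul, ← op_mul, mul_inv_cancel₀ hc0]; simp
    apply sup_le
    · rw [Submodule.span_le, Set.singleton_subset_iff, he0']
      exact Submodule.smul_mem _ _ hf0m
    · rw [Submodule.span_le, Set.singleton_subset_iff]
      exact he1m

end LD

end Pool.Agent.Lib_c77211
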