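import Pool.Agent.Lib_c77211.Glue

open Quaternion MulOpposite Module Matrix

noncomputable section

namespace Pool.Agent.Lib_c77211

set_option linter.unusedSectionVars false
set_option linter.deprecated false

variable {n : ℕ}

/-- a hermitian matrix as a form on the right vector space of columns -/
def hform (A : Matrix (Fin n) (Fin n) ℍ[ℝ]) (hA : A.IsHermitian) : HForm (Fin n → ℍ[ℝ]) where
  f x y := star x ⬝ᵥ (A *ᵥ y)
  add_right x y z := by rw [Matrix.mulVec_add, dotProduct_add]
  smul_right x a y := by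
    rw [Matrix.mulVec_smul, dotProduct_smul]
    rfl
  herm x y := by
    simp only [dotProduct, Matrix.mulVec, Pi.star_apply, star_sum, star_mul, star_star,
      Finset.mul_sum, Finset.sum_mul]
    rw [Finset.sum_comm]
    apply Finset.sum_congr rfl
    intro i _
    apply Finset.sum_congr rfl
    intro j _
    rw [hA.apply, mul_assoc]

theorem hform_f (A : Matrix (Fin n) (Fin n) ℍ[ℝ]) (hA : A.IsHermitian) (x y : Fin n → ℍ[ℝ]) :
    (hform A hA).f x y = star x ⬝ᵥ (A *ᵥ y) := rfl

theorem hform_comb (A B : Matrix (Fin n) (Fin n) ℍ[ℝ]) (hA : A.IsHermitian) (hB : B.IsHermitian)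
    (α β : ℝ) (x y : Fin n → ℍ[ℝ]) :
    (α • hform A hA + β • hform B hB).f x y = star x ⬝ᵥ ((α • A + β • B) *ᵥ y) := by
  rw [Matrix.add_mulVec, Matrix.smul_mulVec, Matrix.smul_mulVec, dotProduct_add, dotProduct_smul,
    dotProduct_smul]
  rfl

theorem gram_entry {κ : Type*} [Fintype κ] (M : Matrix (Fin n) (Fin n) ℍ[ℝ])
    (S : Matrix (Fin n) κ ℍ[ℝ]) (p q : κ) :
    (Sᴴ * M * S) p q = star (fun j => S j p) ⬝ᵥ (M *ᵥ (fun j => S j q)) := by
  rw [Matrix.mul_assoc]
  rfl

theorem mul_col {κ : Type*} [Fintype κ] (S : Matrix (Fin n) κ ℍ[ℝ]) (v : κ → ℍ[ℝ]) :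
    S *ᵥ v = ∑ p, (op (v p) : K) • (fun j => S j p) := by
  ext1 j
  rw [Finset.sum_apply]
  rfl

/-- the canonical form in terms of matrices -/
theorem fcanon_iff (A B : Matrix (Fin n) (Fin n) ℍ[ℝ]) (hA : A.IsHermitian) (hB : B.IsHermitian) :
    FCanon (hform A hA) (hform B hB) ↔
    ∃ α β γ δ : ℝ, α * δ - β * γ ≠ 0 ∧ ∃ (m : ℕ) (blk : Fin m → Block)
      (S : Matrix (Fin n) (Σ i, Fin (blk i).size) ℍ[ℝ])
      (T : Matrix (Σ i, Fin (blk i).size) (Fin n) ℍ[ℝ]), S * T = 1 ∧ T * S = 1 ∧
        Sᴴ * (α • A + β • B) * S = Matrix.blockDiagonal' (fun i => (blk i).C) ∧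
        Sᴴ * (γ • A + δ • B) * S = Matrix.blockDiagonal' (fun i => (blk i).D) ∧
        (TypeE blk ∨ (∃ a, TypeP a blk) ∨ ∃ a b, a < b ∧ TypeH a b blk) := by
  constructor
  · rintro ⟨α, β, γ, δ, hdet, m, blk, e, hF, hT⟩
    obtain ⟨S, hS⟩ : ∃ S : Matrix (Fin n) (Σ i, Fin (blk i).size) ℍ[ℝ], ∀ j p, S j p = tot e p j :=
      ⟨fun j p => tot e p j, fun _ _ => rfl⟩
    have hcol : ∀ p, (fun j => S j p) = tot e p := by
      intro p; ext1 j; exact hS j p
    have hex : ∀ j : Fin n, ∃ c : (Σ i, Fin (blk i).size) → ℍ[ℝ],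
        (Pi.single j 1 : Fin n → ℍ[ℝ]) = ∑ p, op (c p) • tot e p := by
      intro j
      exact mem_span_range (tot e) Finset.univ _ (by
        rw [Finset.coe_univ, Set.image_univ]; exact hF.span trivial)
    choose c hc using hex
    obtain ⟨T, hTd⟩ : ∃ T : Matrix (Σ i, Fin (blk i).size) (Fin n) ℍ[ℝ], ∀ p j, T p j = c j p :=
      ⟨fun p j => c j p, fun _ _ => rfl⟩
    have hST : S * T = 1 := by
      ext1 i j
      have h1 := congrFun (hc j) i
      rw [Finset.sum_apply] at h1
      rw [Matrix.mul_apply, Matrix.one_apply]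
      rw [Pi.single_apply] at h1
      rw [h1]
      apply Finset.sum_congr rfl
      intro p _
      rw [hS, hTd]
      rfl
    have hTS : T * S = 1 := by
      obtain ⟨R, hR⟩ : ∃ R : Matrix (Σ i, Fin (blk i).size) (Σ i, Fin (blk i).size) ℍ[ℝ],
        R = T * S - 1 := ⟨_, rfl⟩
      have h0 : S * R = 0 := by
        rw [hR, Matrix.mul_sub, ← Matrix.mul_assoc, hST, Matrix.one_mul, Matrix.mul_one, sub_self]
      have h1 := Fintype.linearIndependent_iff.mp hF.li
      have h2 : R = 0 := by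
        ext1 p q
        have h3 := h1 (fun p => op (R p q)) (by
          have h4 : S *ᵥ (fun p => R p q) = 0 := by
            ext1 j
            exact congrFun (congrFun h0 j) q
          rw [mul_col] at h4
          simp only [hcol] at h4
          exact h4) p
        have h5 := congrArg unop h3
        exact h5
      rw [hR] at h2
      exact sub_eq_zero.mp h2
    refine ⟨α, β, γ, δ, hdet, m, blk, S, T, hST, hTS, ?_, ?_, hT⟩
    · ext1 ⟨i, a⟩ ⟨j, b⟩
      rw [gram_entry, ← hform_comb A B hA hB, hcol, hcol]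
      by_cases hij : i = j
      · subst hij
        rw [Matrix.blockDiagonal'_apply_eq]
        exact hF.gramC i a b
      · rw [Matrix.blockDiagonal'_apply_ne _ _ _ hij]
        exact hF.orthC i j hij a b
    · ext1 ⟨i, a⟩ ⟨j, b⟩
      rw [gram_entry, ← hform_comb A B hA hB, hcol, hcol]
      by_cases hij : i = j
      · subst hij
        rw [Matrix.blockDiagonal'_apply_eq]
        exact hF.gramD i a b
      · rw [Matrix.blockDiagonal'_apply_ne _ _ _ hij]
        exact hF.orthD i j hij a b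
  · rintro ⟨α, β, γ, δ, hdet, m, blk, S, T, hST, hTS, hC, hD, hT⟩
    obtain ⟨e, he⟩ : ∃ e : (i : Fin m) → Fin (blk i).size → (Fin n → ℍ[ℝ]),
        ∀ i a, e i a = fun j => S j ⟨i, a⟩ := ⟨fun i a j => S j ⟨i, a⟩, fun _ _ => rfl⟩
    have hcol : ∀ p, tot e p = fun j => S j p := by
      rintro ⟨i, a⟩; exact he i a
    refine ⟨α, β, γ, δ, hdet, m, blk, e, ⟨?_, ?_, ?_, ?_, ?_, ?_⟩, hT⟩
    · intro x _
      have h1 : x = S *ᵥ (T *ᵥ x) := by
        rw [Matrix.mulVec_mulVec, hST, Matrix.one_mulVec]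
      rw [h1, mul_col]
      apply Submodule.sum_mem
      intro p _
      apply Submodule.smul_mem
      exact Submodule.subset_span ⟨p, hcol p⟩
    · rw [Fintype.linearIndependent_iff]
      intro g hg p
      have h1 : S *ᵥ (fun p => unop (g p)) = 0 := by
        rw [mul_col]
        simp only [hcol] at hg
        simp only [op_unop]
        exact hg
      have h2 : (fun p => unop (g p)) = 0 := by
        have : (fun p => unop (g p)) = (T * S) *ᵥ (fun p => unop (g p)) := by
          rw [hTS, Matrix.one_mulVec]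
        rw [this, ← Matrix.mulVec_mulVec, h1, Matrix.mulVec_zero]
      have h3 := congrFun h2 p
      have h4 : unop (g p) = 0 := h3
      rw [← op_unop (g p), h4, op_zero]
    · intro i a b
      rw [hform_comb, he, he, ← gram_entry, hC, Matrix.blockDiagonal'_apply_eq]
    · intro i a b
      rw [hform_comb, he, he, ← gram_entry, hD, Matrix.blockDiagonal'_apply_eq]
    · intro i j hij a b
      rw [hform_comb, he, he, ← gram_entry, hC, Matrix.blockDiagonal'_apply_ne _ _ _ hij]
    · intro i j hij a b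
      rw [hform_comb, he, he, ← gram_entry, hD, Matrix.blockDiagonal'_apply_ne _ _ _ hij]

end Pool.Agent.Lib_c77211
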