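import Pool.Agent.Lib_c77211.Kmax

open Quaternion MulOpposite Module

noncomputable section

namespace Pool.Agent.Lib_c77211

set_option linter.unusedSectionVars false
set_option linter.deprecated false

universe u

section Change

variable {V : Type u} [AddCommGroup V] [Module K V]

theorem neutral_change (A B : HForm V) (α β γ δ : ℝ) (hdet : α * δ - β * γ ≠ 0) (M : Submodule K V) :
    Neutral (α • A + β • B) (γ • A + δ • B) M ↔ Neutral A B M := by
  constructor
  · intro h x hx
    obtain ⟨h1, h2⟩ := h x hx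
    simp only [HForm.add_q, HForm.smul_q] at h1 h2
    constructor
    · have : (α * δ - β * γ) * A.q x = 0 := by linear_combination δ * h1 - β * h2
      exact (mul_eq_zero.mp this).resolve_left hdet
    · have : (α * δ - β * γ) * B.q x = 0 := by linear_combination -γ * h1 + α * h2
      exact (mul_eq_zero.mp this).resolve_left hdet
  · intro h x hx
    obtain ⟨h1, h2⟩ := h x hx
    simp [h1, h2]

theorem maxNeutral_change (A B : HForm V) (α β γ δ : ℝ) (hdet : α * δ - β * γ ≠ 0)
    (M : Submodule K V) :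
    MaxNeutral (α • A + β • B) (γ • A + δ • B) M ↔ MaxNeutral A B M := by
  unfold MaxNeutral
  simp only [neutral_change A B α β γ δ hdet]

end Change

variable {V : Type u} [AddCommGroup V] [Module K V] [FiniteDimensional K V] [Module ℝ V]
  [IsScalarTower ℝ K V]

/-- all maximal neutral subspaces have the same dimension -/
def PP (A B : HForm V) : Prop :=
  ∀ M1 M2 : Submodule K V, MaxNeutral A B M1 → MaxNeutral A B M2 → finrank K M1 = finrank K M2

/-- `(x,y) ↦ star (F κ x) * F κ y` -/
def rankOne (F : HForm V) (κ : V) : HForm V where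
  f x y := star (F.f κ x) * F.f κ y
  add_right x y z := by rw [F.add_right, mul_add]
  smul_right x a y := by rw [F.smul_right, mul_assoc]
  herm x y := by rw [star_mul, star_star]

theorem rankOne_q (F : HForm V) (κ x : V) : (rankOne F κ).q x = normSq (F.f κ x) := by
  have : (rankOne F κ).f x x = ((normSq (F.f κ x) : ℝ) : ℍ[ℝ]) := by
    change star (F.f κ x) * F.f κ x = _
    rw [Quaternion.star_mul_self]
  unfold HForm.q
  rw [this]; simp

theorem exists_C0 (A B : HForm V) (hrad : ∀ x, (∀ y, A.f x y = 0 ∧ B.f x y = 0) → x = 0)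
    (hP : PP A B) (hI : Indef A B) :
    ∃ α β : ℝ, (α ≠ 0 ∨ β ≠ 0) ∧ (α • A + β • B).NS ∧
      ∀ M, MaxNeutral A B M → finrank K M = negIndex (α • A + β • B) := by
  obtain ⟨M0, hM0, _⟩ := exists_max (A := A) (B := B) (M := ⊥) (by
    intro x hx; rw [(Submodule.mem_bot K).mp hx]; simp)
  set d := finrank K M0 with hd
  have hMd : ∀ M, MaxNeutral A B M → finrank K M = d := fun M hM => hP M M0 hM hM0
  have claim1 : ∃ α β : ℝ, (α ≠ 0 ∨ β ≠ 0) ∧
      ∀ U : Submodule K V, (∀ x ∈ U, (α • A + β • B).q x = 0) → finrank K U ≤ d := by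
    by_contra hcon
    push Not at hcon
    obtain ⟨M, hM, hMk⟩ := kmax (finrank K V) V A B rfl (d + 1) ∅ Set.finite_empty (by
      intro t _
      obtain ⟨U, hU, hUd⟩ := hcon 1 t (Or.inl one_ne_zero)
      refine ⟨U, hUd, ?_⟩
      intro x hx
      have := hU x hx
      simpa using this)
    obtain ⟨M', hM', hle⟩ := exists_max hM
    have h1 := hMd M' hM'
    have h2 := Submodule.finrank_mono hle
    omega
  obtain ⟨α, β, hαβ, hbound⟩ := claim1
  have hdet : α * α - β * (-β) ≠ 0 := by
    rcases hαβ with h | h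
    · have : 0 < α * α := mul_self_pos.mpr h
      nlinarith [mul_self_nonneg β]
    · have : 0 < β * β := mul_self_pos.mpr h
      nlinarith [mul_self_nonneg α]
  set C := α • A + β • B with hC
  set F := (-β) • A + α • B with hF
  have hNeut : ∀ M, Neutral C F M ↔ Neutral A B M := fun M => neutral_change A B α β (-β) α hdet M
  have hNS : C.NS := by
    intro κ hκ
    by_contra hκ0
    have hex : ∃ v, A.q v = 0 ∧ B.q v = 0 ∧ F.f κ v ≠ 0 := by
      by_contra hcon
      push Not at hcon
      obtain ⟨b', c', hbc⟩ := nonstrict_S A B (-(rankOne F κ)) hI (by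
        intro x h1 h2
        rw [HForm.neg_q, rankOne_q, hcon x h1 h2]
        simp)
      have hall : ∀ x, 0 ≤ c' * A.q x + b' * B.q x := by
        intro x
        have h1 := hbc x
        rw [HForm.neg_q, rankOne_q] at h1
        have h2 : 0 ≤ normSq (F.f κ x) := Quaternion.normSq_nonneg
        linarith
      have hzero : ¬ (c' ≠ 0 ∨ b' ≠ 0) := by
        intro h
        obtain ⟨x, hx⟩ := hI c' b' h
        linarith [hall x]
      push Not at hzero
      apply hκ0
      apply hrad
      intro x
      have h1 := hbc x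
      rw [HForm.neg_q, rankOne_q, hzero.1, hzero.2] at h1
      have h2 : 0 ≤ normSq (F.f κ x) := Quaternion.normSq_nonneg
      have h3 : F.f κ x = 0 := Quaternion.normSq_eq_zero.mp (by linarith)
      have h4 := hκ x
      simp only [hC, hF, HForm.add_f, HForm.smul_f] at h3 h4
      have hdet' : α * α + β * β ≠ 0 := by intro h0; apply hdet; linarith
      constructor
      · have : (α * α + β * β) • A.f κ x = 0 := by
          have : (α * α + β * β) • A.f κ x = α • (α • A.f κ x + β • B.f κ x) -
            β • (-β • A.f κ x + α • B.f κ x) := by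
            simp only [smul_add, smul_smul, neg_smul, smul_neg, add_smul]
            rw [mul_comm β α]
            abel
          rw [this, h4, h3]; simp
        exact (smul_eq_zero.mp this).resolve_left hdet'
      · have : (α * α + β * β) • B.f κ x = 0 := by
          have : (α * α + β * β) • B.f κ x = β • (α • A.f κ x + β • B.f κ x) +
            α • (-β • A.f κ x + α • B.f κ x) := by
            simp only [smul_add, smul_smul, neg_smul, smul_neg, add_smul]
            rw [mul_comm β α]
            abel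
          rw [this, h4, h3]; simp
        exact (smul_eq_zero.mp this).resolve_left hdet'
    obtain ⟨v, hAv, hBv, hFv⟩ := hex
    have hspan : Neutral A B (Submodule.span K {v}) := by
      intro x hx
      obtain ⟨a, rfl⟩ := HForm.mem_span_one.mp hx
      rw [A.q_smul, B.q_smul, hAv, hBv]; simp
    obtain ⟨M', hM', hle⟩ := exists_max hspan
    have hvM : v ∈ M' := hle (Submodule.mem_span_singleton_self v)
    have hM'CF := (hNeut M').mpr hM'.1
    have hκM : κ ∉ M' := by
      intro h
      exact hFv (hM'CF.polarB κ h v hvM)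
    have h1 := hbound (M' ⊔ Submodule.span K {κ}) (q_sup_zero C (fun x hx => (hM'CF x hx).1)
      ((C.self_eq_zero_iff κ).mp (hκ κ)) (fun m _ => C.symm_zero (hκ m)))
    rw [finrank_sup_disj, finrank_span_one hκ0, hMd M' hM'] at h1
    · omega
    · intro x hx1 hx2
      obtain ⟨a, rfl⟩ := HForm.mem_span_one.mp hx2
      by_contra hne
      apply hκM
      have ha : a ≠ 0 := by rintro rfl; simp at hne
      have := M'.smul_mem (op a⁻¹) hx1
      rw [smul_smul, ← op_mul, mul_inv_cancel₀ ha] at this
      simpa using this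
  -- claim 3
  have hM0C := (hNeut M0).mpr hM0.1
  have hle1 : d ≤ negIndex C := nonpos_dim_ns C hNS M0 (fun x hx => (hM0C x hx).1.le)
  have hNS' : (-C).NS := by
    intro x hx
    apply hNS x
    intro y
    have := hx y
    rw [HForm.neg_f, neg_eq_zero] at this
    exact this
  have hle2 : d ≤ negIndex (-C) := nonpos_dim_ns (-C) hNS' M0 (fun x hx => by
    rw [HForm.neg_q, (hM0C x hx).1, neg_zero])
  obtain ⟨M, hM, _⟩ := exists_max (A := C) (B := C) (M := ⊥) (by
    intro x hx; rw [(Submodule.mem_bot K).mp hx]; simp)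
  have hMdim : finrank K M ≤ d := hbound M (fun x hx => (hM.1 x hx).1)
  obtain ⟨U, hU⟩ := Submodule.exists_isCompl M
  have hMle : M ≤ C.perp M := fun x hx y hy => hM.1.polarA y hy x hx
  set W := C.perp M ⊓ U with hW
  have hsup : M ⊔ W = C.perp M := by
    rw [hW, inf_comm (C.perp M) U, ← sup_inf_assoc_of_le U hMle, hU.sup_eq_top, top_inf_eq]
  have hWn : ∀ w ∈ W, C.q w = 0 → w = 0 := by
    intro w hw h0
    have : w ∈ M := hM.mem h0 h0 (fun m hm => hw.1 m hm) (fun m hm => hw.1 m hm)
    exact (Submodule.disjoint_def.mp hU.disjoint) w this hw.2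
  obtain ⟨a, b, hab⟩ := def_comb (C.pull W.subtype) (C.pull W.subtype) (by
    intro x hx h1
    exfalso
    apply hx
    exact Subtype.ext (hWn x x.2 h1))
  have hperp := perp_dim_ns C hNS M
  have hdec : ∀ x ∈ C.perp M, ∃ w ∈ W, C.q x = C.q w := by
    intro x hx
    rw [← hsup] at hx
    obtain ⟨m, hm, w, hw, rfl⟩ := Submodule.mem_sup.mp hx
    refine ⟨w, hw, ?_⟩
    rw [C.q_add, (hM.1 m hm).1, hw.1 m hm]; simp
  rcases le_total 0 (a + b) with hc | hc
  · have hnn : NonnegOn C (C.perp M) := by
      intro x hx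
      obtain ⟨w, hw, hq⟩ := hdec x hx
      rw [hq]
      by_cases hw0 : w = 0
      · rw [hw0]; simp
      · have h1 := hab ⟨w, hw⟩ (by intro h; exact hw0 (congrArg Subtype.val h))
        simp only [HForm.pull_q, Submodule.subtype_apply] at h1
        by_contra h2
        push Not at h2
        nlinarith
    have h1 := negIndex_le_of_nonneg C (C.perp M) hnn
    refine ⟨α, β, hαβ, hNS, ?_⟩
    intro M' hM'
    rw [hMd M' hM']
    change d = negIndex C
    omega
  · have hnn : NonnegOn (-C) (C.perp M) := by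
      intro x hx
      obtain ⟨w, hw, hq⟩ := hdec x hx
      rw [HForm.neg_q, hq]
      by_cases hw0 : w = 0
      · rw [hw0]; simp
      · have h1 := hab ⟨w, hw⟩ (by intro h; exact hw0 (congrArg Subtype.val h))
        simp only [HForm.pull_q, Submodule.subtype_apply] at h1
        by_contra h2
        push Not at h2
        nlinarith
    have h1 := negIndex_le_of_nonneg (-C) (C.perp M) hnn
    have hEq : (-α) • A + (-β) • B = -C := by
      ext x y <;> simp [hC] <;> ring
    refine ⟨-α, -β, ?_, ?_, ?_⟩
    · rcases hαβ with h | h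
      · exact Or.inl (neg_ne_zero.mpr h)
      · exact Or.inr (neg_ne_zero.mpr h)
    · rw [hEq]; exact hNS'
    · intro M' hM'
      rw [hMd M' hM', hEq]
      omega

/-- the basic data after normalisation -/
structure PData (C F : HForm V) (X : V →ₗ[K] V) : Prop where
  ns : C.NS
  hX : ∀ x y, C.f x (X y) = F.f x y
  hP : ∀ M, MaxNeutral C F M → finrank K M = negIndex C

theorem PData.q_nonneg {C F : HForm V} {X : V →ₗ[K] V} (h : PData C F X) (v : V)
    (h1 : C.q v = 0) (h2 : F.q v = 0) : 0 ≤ C.q (X v) := by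
  by_contra hneg
  push Not at hneg
  have hspan : Neutral C F (Submodule.span K {v}) := by
    intro x hx
    obtain ⟨a, rfl⟩ := HForm.mem_span_one.mp hx
    rw [C.q_smul, F.q_smul, h1, h2]; simp
  obtain ⟨M, hM, hle⟩ := exists_max hspan
  have hvM : v ∈ M := hle (Submodule.mem_span_singleton_self v)
  have hXv0 : X v ≠ 0 := by intro h0; rw [h0] at hneg; simp at hneg
  have hnp : NonposOn C (M ⊔ Submodule.span K {X v}) := by
    intro y hy
    obtain ⟨m, hm, z, hz, rfl⟩ := Submodule.mem_sup.mp hy
    obtain ⟨a, rfl⟩ := HForm.mem_span_one.mp hz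
    rw [C.q_add, C.q_smul, C.smul_right, h.hX, hM.1.polarB m hm v hvM, (hM.1 m hm).1]
    have : 0 ≤ normSq a := Quaternion.normSq_nonneg
    have h0 : (0 : ℍ[ℝ]).re = 0 := rfl
    rw [zero_mul, h0, mul_zero, add_zero, zero_add]
    exact mul_nonpos_of_nonneg_of_nonpos this hneg.le
  have h3 := nonpos_dim_ns C h.ns _ hnp
  rw [finrank_sup_disj, finrank_span_one hXv0, h.hP M hM] at h3
  · omega
  · intro x hx1 hx2
    obtain ⟨a, rfl⟩ := HForm.mem_span_one.mp hx2
    have h4 := (hM.1 _ hx1).1
    rw [C.q_smul] at h4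
    have h5 := (mul_eq_zero.mp h4).resolve_right hneg.ne
    rw [Quaternion.normSq_eq_zero.mp h5]; simp

theorem PData.exists_quad {C F : HForm V} {X : V →ₗ[K] V} (h : PData C F X) (hI : Indef C F) :
    ∃ β γ : ℝ, ∀ x, 0 ≤ C.q (X x) + β * F.q x + γ * C.q x :=
  nonstrict_S C F (C.pull X) hI (fun x h1 h2 => h.q_nonneg x h1 h2)

/-- the pack bound -/
theorem PData.pack {C F : HForm V} {X : V →ₗ[K] V} (h : PData C F X) (u : ℝ)
    (hns : (F + (-u) • C).NS) (N : Submodule K V) (hN : NegOn (F + (-u) • C) N)
    (hN2 : ∀ n ∈ N, C.q (X n - u • n) = 0 ∧ F.q (X n - u • n) = 0) :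
    negIndex C + finrank K N ≤ negIndex (F + (-u) • C) := by
  set G := F + (-u) • C with hG
  set T : V →ₗ[K] V := X - u • LinearMap.id with hT
  have hTa : ∀ x, T x = X x - u • x := fun x => rfl
  have hGT : ∀ x y, C.f x (T y) = G.f x y := by
    intro x y
    rw [hTa, C.sub_right, h.hX, C.rsmul_right, hG]
    simp [sub_eq_add_neg]
  have hneut : Neutral C F (N.map T) := by
    rintro _ ⟨n, hn, rfl⟩
    rw [hTa]
    exact hN2 n hn
  obtain ⟨M, hM, hle⟩ := exists_max hneut
  have hcross : ∀ m ∈ M, ∀ n ∈ N, G.f m n = 0 := by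
    intro m hm n hn
    rw [← hGT]
    exact hM.1.polarA m hm _ (hle ⟨n, hn, rfl⟩)
  have hMq : ∀ m ∈ M, G.q m = 0 := by
    intro m hm
    obtain ⟨e1, e2⟩ := hM.1 m hm
    simp [hG, e1, e2]
  have hnp : NonposOn G (M ⊔ N) := by
    intro y hy
    obtain ⟨m, hm, n, hn, rfl⟩ := Submodule.mem_sup.mp hy
    rw [G.q_add, hcross m hm n hn, hMq m hm]
    by_cases hn0 : n = 0
    · rw [hn0]; simp
    · have := hN n hn hn0
      have h0 : (0 : ℍ[ℝ]).re = 0 := rfl
      rw [h0, mul_zero, add_zero, zero_add]
      exact this.le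
  have h3 := nonpos_dim_ns G hns _ hnp
  rw [finrank_sup_disj, h.hP M hM] at h3
  · exact h3
  · intro x hx1 hx2
    by_contra hx0
    have := hN x hx2 hx0
    rw [hMq x hx1] at this
    exact lt_irrefl _ this

section Reflect

theorem neg_smul_form (F : HForm V) : (-1 : ℝ) • F = -F := by
  ext x y <;> simp

theorem PData.reflect {C F : HForm V} {X : V →ₗ[K] V} (h : PData C F X) :
    PData C (-F) (-X) := by
  refine ⟨h.ns, ?_, ?_⟩
  · intro x y
    rw [LinearMap.neg_apply, C.neg_right, h.hX, HForm.neg_f]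
  · intro M hM
    apply h.hP
    have h1 := maxNeutral_change C F 1 0 0 (-1) (by norm_num) M
    have e1 : (1 : ℝ) • C + (0 : ℝ) • F = C := by ext x y <;> simp
    have e2 : (0 : ℝ) • C + (-1 : ℝ) • F = -F := by ext x y <;> simp
    rw [e1, e2] at h1
    exact h1.mp hM

end Reflect

end Pool.Agent.Lib_c77211
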