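import Pool.Agent.Lib_c77211.Refl

open Quaternion MulOpposite Module

noncomputable section

namespace Pool.Agent.Lib_c77211

set_option linter.unusedSectionVars false
set_option linter.deprecated false

universe u

theorem cnt_pos {m : ℕ} (blk : Fin m → Block) (p : Block → Prop) (i : Fin m) (h : p (blk i)) :
    1 ≤ cnt blk p := by
  unfold cnt
  haveI : Nonempty {i : Fin m // p (blk i)} := ⟨⟨i, h⟩⟩
  exact Nat.card_pos

variable {V : Type u} [AddCommGroup V] [Module K V] [FiniteDimensional K V] [Module ℝ V]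
  [IsScalarTower ℝ K V]

/-- self-adjointness of `X` -/
theorem sa_of_hX {C F : HForm V} {X : V →ₗ[K] V} (hX : ∀ x y, C.f x (X y) = F.f x y) : C.SA X := by
  intro x y
  rw [hX, ← C.herm, hX, F.herm]

theorem typeH_of {C F : HForm V} {X : V →ₗ[K] V} (hP : PData C F X) {m : ℕ}
    {blk : Fin m → Block} {e : (i : Fin m) → Fin (blk i).size → V} (hd : XDec C X blk e)
    {a b : ℝ} (hab : a < b)
    (hadm : ∀ i, (blk i).isJ 1 1 (fun x => x ≤ a ∨ b ≤ x) ∨
      (blk i).isJ 1 (-1) (fun x => a ≤ x ∧ x ≤ b) ∨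
      blk i = Block.jordan 2 (-1) a ∨ blk i = Block.jordan 2 1 b)
    (hA : ∃ i, blk i = Block.jordan 1 (-1) a ∨ blk i = Block.jordan 2 (-1) a)
    (hB : ∃ i, blk i = Block.jordan 1 (-1) b ∨ blk i = Block.jordan 2 1 b) : TypeH a b blk := by
  have h := sa_of_hX hP.hX
  have hex : ∀ i, ∃ c, InC a b (blk i) c := fun i => exists_cls hab (hadm i)
  choose cl hcl using hex
  obtain ⟨N, hN⟩ := tab9 cl
  have hA' : 1 ≤ cnt blk (fun t => t = Block.jordan 1 (-1) a ∨ t = Block.jordan 2 (-1) a) := by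
    obtain ⟨i, hi⟩ := hA
    exact cnt_pos blk _ i hi
  have hB' : 1 ≤ cnt blk (fun t => t = Block.jordan 1 (-1) b ∨ t = Block.jordan 2 1 b) := by
    obtain ⟨i, hi⟩ := hB
    exact cnt_pos blk _ i hi
  have hA2 := hA'
  have hB2 := hB'
  rw [cnt_eq blk cl _ _ (fun i => tab6 hab (hcl i)), hN] at hA2
  rw [cnt_eq blk cl _ _ (fun i => tab6' hab (hcl i)), hN] at hB2
  have hne1 : 1 ≤ N 2 + N 3 := by simpa using hA2
  have hne2 : 1 ≤ N 6 + N 7 := by simpa using hB2
  have hJ1 := J1_core hP h hd hab hcl hN hne1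
  have hJ2 := J2_core hP h hd hab hcl hN hne2
  refine ⟨fun i => Or.inr (hadm i), hA', hB', ?_, ?_⟩
  · rw [cnt_eq blk cl _ _ (fun i => tab1 hab (hcl i)), cnt_eq blk cl _ _ (fun i => tab2 hab (hcl i)),
      cnt_eq blk cl _ _ (fun i => tab3 hab (hcl i)), cnt_eq blk cl _ _ (fun i => tab4 hab (hcl i)),
      cnt_eq blk cl _ _ (fun i => tab5 hab (hcl i)), hN, hN, hN, hN, hN]
    simp
    omega
  · rw [cnt_eq blk cl _ _ (fun i => tab1' hab (hcl i)), cnt_eq blk cl _ _ (fun i => tab2' hab (hcl i)),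
      cnt_eq blk cl _ _ (fun i => tab3' hab (hcl i)), cnt_eq blk cl _ _ (fun i => tab4' hab (hcl i)),
      cnt_eq blk cl _ _ (fun i => tab5' hab (hcl i)), hN, hN, hN, hN, hN]
    simp
    omega

theorem typeP_of {C F : HForm V} {X : V →ₗ[K] V} (hP : PData C F X) {m : ℕ}
    {blk : Fin m → Block} {e : (i : Fin m) → Fin (blk i).size → V} (hd : XDec C X blk e)
    {a : ℝ}
    (hadm : ∀ i, (blk i).isJ 1 1 (fun _ => True) ∨ blk i = Block.jordan 1 (-1) a ∨
      blk i = Block.jordan 2 1 a ∨ blk i = Block.jordan 2 (-1) a ∨ blk i = Block.jordan 3 1 a)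
    (hA : ∃ i, blk i = Block.jordan 1 (-1) a ∨
      blk i = Block.jordan 2 1 a ∨ blk i = Block.jordan 2 (-1) a ∨ blk i = Block.jordan 3 1 a) :
    TypeP a blk := by
  have h := sa_of_hX hP.hX
  have hex : ∀ i, ∃ c, InP a (blk i) c := fun i => exists_clsP (hadm i)
  choose cl hcl using hex
  obtain ⟨N, hN⟩ := tab7 cl
  have hJ1 := JP_core hP h hd hcl hN
  have hJ2 := JP2_core hP h hd hcl hN
  refine ⟨fun i => Or.inr (hadm i), ?_, ?_, ?_⟩
  · obtain ⟨i, hi⟩ := hA
    exact cnt_pos blk _ i hi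
  · rw [cnt_eq blk cl _ _ (fun i => ptab1 (hcl i)), cnt_eq blk cl _ _ (fun i => ptab2 (hcl i)),
      cnt_eq blk cl _ _ (fun i => ptab3 (hcl i)), cnt_eq blk cl _ _ (fun i => ptab4 (hcl i)),
      hN, hN, hN, hN]
    simp [sv0, sv1, sv2, sv3, sv4, sv5, sv6]
    omega
  · rw [cnt_eq blk cl _ _ (fun i => ptab1 (hcl i)), cnt_eq blk cl _ _ (fun i => ptab2' (hcl i)),
      cnt_eq blk cl _ _ (fun i => ptab3' (hcl i)), cnt_eq blk cl _ _ (fun i => ptab4' (hcl i)),
      hN, hN, hN, hN]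
    simp [sv0, sv1, sv2, sv3, sv4, sv5, sv6]
    omega

/-- the canonical form data -/
def Canon (A B : HForm V) : Prop :=
  ∃ α β γ δ : ℝ, α * δ - β * γ ≠ 0 ∧ ∃ X : V →ₗ[K] V,
    (∀ x y, (α • A + β • B).f x (X y) = (γ • A + δ • B).f x y) ∧
    ∃ (m : ℕ) (blk : Fin m → Block) (e : (i : Fin m) → Fin (blk i).size → V),
      XDec (α • A + β • B) X blk e ∧ (TypeE blk ∨ (∃ a, TypeP a blk) ∨
        ∃ a b, a < b ∧ TypeH a b blk)

def SemiDef (A B : HForm V) : Prop :=
  ∃ α β : ℝ, (α ≠ 0 ∨ β ≠ 0) ∧ ∀ x, 0 ≤ α * A.q x + β * B.q x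

theorem indef_of_not (A B : HForm V) (h : ¬ SemiDef A B) : Indef A B := by
  intro α β hαβ
  by_contra hcon
  push Not at hcon
  exact h ⟨α, β, hαβ, hcon⟩

theorem psd_of_all (C : HForm V) (h0 : negIndex C = 0) : ∀ x, 0 ≤ C.q x := by
  intro x
  by_contra hneg
  push Not at hneg
  have hx0 : x ≠ 0 := by rintro rfl; simp at hneg
  have h1 := le_negIndex C (Submodule.span K {x}) (by
    intro y hy hy0
    obtain ⟨c, rfl⟩ := HForm.mem_span_one.mp hy
    have hc : c ≠ 0 := by rintro rfl; simp at hy0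
    have : 0 < normSq c := by
      rcases (Quaternion.normSq_nonneg (a := c)).lt_or_eq with h | h
      · exact h
      · exact absurd (Quaternion.normSq_eq_zero.mp h.symm) hc
    rw [C.q_smul]
    exact mul_neg_of_pos_of_neg this hneg)
  rw [finrank_span_one hx0, h0] at h1
  omega

/-- the real case -/
theorem nec_real {C F : HForm V} {X : V →ₗ[K] V} (hP : PData C F X) (hI : Indef C F) {a₀ b₀ : ℝ}
    (hab0 : a₀ ≤ b₀) {m : ℕ} {blk : Fin m → Block} {e : (i : Fin m) → Fin (blk i).size → V}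
    (hd : XDec C X blk e) (hadm : ∀ i, AdmR a₀ b₀ (blk i)) :
    (∃ a, TypeP a blk) ∨ ∃ a b, a < b ∧ TypeH a b blk := by
  classical
  have h := sa_of_hX hP.hX
  -- the set of non-positive blocks
  obtain ⟨S, hS⟩ : ∃ S : Finset (Fin m), S = Finset.univ.filter
    fun i => ¬ (blk i).isJ 1 1 (fun _ => True) := ⟨_, rfl⟩
  have hSmem : ∀ i, i ∈ S ↔ ¬ (blk i).isJ 1 1 (fun _ => True) := by
    intro i; rw [hS]; simp
  have hSdesc : ∀ i ∈ S, (∃ x, (a₀ ≤ x ∧ x ≤ b₀) ∧ blk i = Block.jordan 1 (-1) x) ∨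
      blk i = Block.jordan 2 (-1) a₀ ∨ blk i = Block.jordan 2 1 b₀ ∨
      (a₀ = b₀ ∧ blk i = Block.jordan 3 1 a₀) := by
    intro i hi
    rcases hadm i with h1 | h1 | h1 | h1 | h1
    · exfalso
      apply (hSmem i).mp hi
      obtain ⟨x, _, hx⟩ := h1
      exact ⟨x, trivial, hx⟩
    · exact Or.inl h1
    · exact Or.inr (Or.inl h1)
    · exact Or.inr (Or.inr (Or.inl h1))
    · exact Or.inr (Or.inr (Or.inr h1))
  have hSne : S.Nonempty := by
    by_contra hcon
    rw [Finset.not_nonempty_iff_eq_empty] at hcon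
    have hall : ∀ i, (blk i).isJ 1 1 (fun _ => True) := by
      intro i
      by_contra h1
      have := (hSmem i).mpr h1
      rw [hcon] at this
      simp at this
    have h0 : negIndex C = 0 := by
      rw [negIndex_C h hd]
      apply Finset.sum_eq_zero
      intro i _
      obtain ⟨x, _, hx⟩ := hall i
      rw [hx, negB_one]
      simp
    have h1 := psd_of_all C h0
    obtain ⟨x, hx⟩ := hI 1 0 (Or.inl one_ne_zero)
    have := h1 x
    linarith
  obtain ⟨ia, hia, hia2⟩ := Finset.exists_min_image S (fun i => eigv (blk i)) hSne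
  obtain ⟨ib, hib, hib2⟩ := Finset.exists_max_image S (fun i => eigv (blk i)) hSne
  obtain ⟨a, ha⟩ : ∃ a, a = eigv (blk ia) := ⟨_, rfl⟩
  obtain ⟨b, hb⟩ : ∃ b, b = eigv (blk ib) := ⟨_, rfl⟩
  rw [← ha] at hia2
  rw [← hb] at hib2
  have hbd : ∀ i ∈ S, a₀ ≤ eigv (blk i) ∧ eigv (blk i) ≤ b₀ := by
    intro i hi
    rcases hSdesc i hi with ⟨x, hx, h1⟩ | h1 | h1 | ⟨h2, h1⟩
    · rw [h1]; exact hx
    · rw [h1]; exact ⟨le_rfl, hab0⟩
    · rw [h1]; exact ⟨hab0, le_rfl⟩
    · rw [h1]; exact ⟨le_rfl, hab0⟩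
  have ha0 : a₀ ≤ a := by rw [ha]; exact (hbd ia hia).1
  have hb0 : b ≤ b₀ := by rw [hb]; exact (hbd ib hib).2
  have hab : a ≤ b := hia2 ib hib |>.trans (le_of_eq hb.symm)
  rcases hab.lt_or_eq with hlt | heq
  · right
    refine ⟨a, b, hlt, ?_⟩
    apply typeH_of hP hd hlt
    · intro i
      by_cases hi : i ∈ S
      · have h1 := hia2 i hi
        have h2 := hib2 i hi
        rcases hSdesc i hi with ⟨x, hx, h3⟩ | h3 | h3 | ⟨h4, h3⟩
        · rw [h3] at h1 h2 ⊢
          exact Or.inr (Or.inl ⟨x, ⟨h1, h2⟩, rfl⟩)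
        · rw [h3] at h1 h2 ⊢
          have : a₀ = a := le_antisymm ha0 h1
          rw [this]
          exact Or.inr (Or.inr (Or.inl rfl))
        · rw [h3] at h1 h2 ⊢
          have : b₀ = b := le_antisymm h2 hb0
          rw [this]
          exact Or.inr (Or.inr (Or.inr rfl))
        · exfalso
          linarith
      · have h1 : (blk i).isJ 1 1 (fun _ => True) := by
          by_contra h1
          exact hi ((hSmem i).mpr h1)
        obtain ⟨x, _, hx⟩ := h1
        rcases hadm i with ⟨y, hy, h2⟩ | ⟨y, hy, h2⟩ | h2 | h2 | ⟨_, h2⟩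
        · rw [hx, jordan_eq] at h2
          left
          refine ⟨x, ?_, hx⟩
          rw [h2.2.2]
          rcases hy with hy | hy
          · left; linarith
          · right; linarith
        · rw [hx, jordan_eq] at h2
          exact absurd h2.2.1 one_ne_negone
        · rw [hx, jordan_eq] at h2
          exact absurd h2.1 (by norm_num)
        · rw [hx, jordan_eq] at h2
          exact absurd h2.1 (by norm_num)
        · rw [hx, jordan_eq] at h2
          exact absurd h2.1 (by norm_num)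
    · refine ⟨ia, ?_⟩
      rcases hSdesc ia hia with ⟨x, hx, h3⟩ | h3 | h3 | ⟨h4, h3⟩
      · left; rw [h3] at ha ⊢; rw [ha]; rfl
      · right; rw [h3] at ha ⊢; rw [ha]; rfl
      · exfalso
        rw [h3] at ha
        have : a = b₀ := ha
        linarith
      · exfalso
        linarith
    · refine ⟨ib, ?_⟩
      rcases hSdesc ib hib with ⟨x, hx, h3⟩ | h3 | h3 | ⟨h4, h3⟩
      · left; rw [h3] at hb ⊢; rw [hb]; rfl
      · exfalso
        rw [h3] at hb
        have : b = a₀ := hb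
        linarith
      · right; rw [h3] at hb ⊢; rw [hb]; rfl
      · exfalso
        linarith
  · left
    refine ⟨a, ?_⟩
    subst heq
    have hdesc : ∀ i ∈ S, blk i = Block.jordan 1 (-1) a ∨
      blk i = Block.jordan 2 1 a ∨ blk i = Block.jordan 2 (-1) a ∨ blk i = Block.jordan 3 1 a := by
      intro i hi
      have h1 := hia2 i hi
      have h2 := hib2 i hi
      have h3 : eigv (blk i) = a := le_antisymm h2 h1
      rcases hSdesc i hi with ⟨x, hx, h4⟩ | h4 | h4 | ⟨_, h4⟩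
      · left; rw [h4] at h3 ⊢; rw [← h3]; rfl
      · right; right; left; rw [h4] at h3 ⊢; rw [← h3]; rfl
      · right; left; rw [h4] at h3 ⊢; rw [← h3]; rfl
      · right; right; right; rw [h4] at h3 ⊢; rw [← h3]; rfl
    apply typeP_of hP hd
    · intro i
      by_cases hi : i ∈ S
      · exact Or.inr (hdesc i hi)
      · left
        by_contra h1
        exact hi ((hSmem i).mpr h1)
    · exact ⟨ia, hdesc ia hia⟩

theorem nec_ns (A B : HForm V) (hrad : ∀ x, (∀ y, A.f x y = 0 ∧ B.f x y = 0) → x = 0)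
    (hP : PP A B) : SemiDef A B ∨ Canon A B := by
  by_cases hSD : SemiDef A B
  · exact Or.inl hSD
  right
  have hI := indef_of_not A B hSD
  obtain ⟨α, β, hαβ, hns, hdim⟩ := exists_C0 A B hrad hP hI
  have hsq : 0 < α ^ 2 + β ^ 2 := by
    rcases hαβ with h | h
    · have : 0 < α ^ 2 := by positivity
      nlinarith [sq_nonneg β]
    · have : 0 < β ^ 2 := by positivity
      nlinarith [sq_nonneg α]
  -- general normalisation
  have hdata : ∀ γ δ : ℝ, α * δ - β * γ ≠ 0 → ∀ X : V →ₗ[K] V,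
      (∀ x y, (α • A + β • B).f x (X y) = (γ • A + δ • B).f x y) →
      PData (α • A + β • B) (γ • A + δ • B) X := by
    intro γ δ hdet X hX
    refine ⟨hns, hX, ?_⟩
    intro M hM
    exact hdim M ((maxNeutral_change A B α β γ δ hdet M).mp hM)
  have hindef : ∀ γ δ : ℝ, α * δ - β * γ ≠ 0 → Indef (α • A + β • B) (γ • A + δ • B) := by
    intro γ δ hdet p q hpq
    have hne : p * α + q * γ ≠ 0 ∨ p * β + q * δ ≠ 0 := by
      by_contra hcon
      push Not at hcon
      obtain ⟨h1, h2⟩ := hcon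
      have h3 : (α * δ - β * γ) * p = 0 := by linear_combination δ * h1 - γ * h2
      have h4 : (α * δ - β * γ) * q = 0 := by linear_combination -β * h1 + α * h2
      rcases hpq with h | h
      · exact h ((mul_eq_zero.mp h3).resolve_left hdet)
      · exact h ((mul_eq_zero.mp h4).resolve_left hdet)
    obtain ⟨x, hx⟩ := hI _ _ hne
    refine ⟨x, ?_⟩
    simp only [HForm.add_q, HForm.smul_q]
    linarith
  have hdet0 : α * α - β * (-β) ≠ 0 := by
    intro h0; nlinarith
  obtain ⟨X, hX⟩ := exists_op (α • A + β • B) hns ((-β) • A + α • B)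
  have hPD := hdata (-β) α hdet0 X hX
  obtain ⟨β', γ', hq⟩ := hPD.exists_quad (hindef (-β) α hdet0)
  have hSA := sa_of_hX hX
  rcases lt_or_ge (β' ^ 2) (4 * γ') with hdisc | hdisc
  · -- elliptic
    obtain ⟨τ, hτ, hτ2⟩ : ∃ τ : ℝ, 0 < τ ∧ τ ^ 2 = γ' - β' ^ 2 / 4 :=
      ⟨Real.sqrt (γ' - β' ^ 2 / 4), Real.sqrt_pos.mpr (by linarith), Real.sq_sqrt (by linarith)⟩
    obtain ⟨p, hp⟩ : ∃ p : ℝ, p = -β' / 2 := ⟨_, rfl⟩
    obtain ⟨X', hX'⟩ : ∃ X' : V →ₗ[K] V, X' = τ⁻¹ • (X - p • LinearMap.id) := ⟨_, rfl⟩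
    have hX'a : ∀ y, X' y = τ⁻¹ • (X y - p • y) := by intro y; rw [hX']; rfl
    have hdet1 : α * (τ⁻¹ * (α - p * β)) - β * (τ⁻¹ * (-β - p * α)) ≠ 0 := by
      have : α * (τ⁻¹ * (α - p * β)) - β * (τ⁻¹ * (-β - p * α)) = τ⁻¹ * (α ^ 2 + β ^ 2) := by ring
      rw [this]
      positivity
    have hX'f : ∀ x y, (α • A + β • B).f x (X' y) =
        ((τ⁻¹ * (-β - p * α)) • A + (τ⁻¹ * (α - p * β)) • B).f x y := by
      intro x y
      rw [hX'a, HForm.rsmul_right, HForm.sub_right, HForm.rsmul_right, hX]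
      simp only [HForm.add_f, HForm.smul_f]
      module
    have hSA' := sa_of_hX hX'f
    obtain ⟨m, blk, e, hd, hadm⟩ := xdec_E (α • A + β • B) hns X' hSA' (by
      intro y
      rw [Gq_q, hX'a, HForm.q_rsmul]
      have e1 : (α • A + β • B).q (X y - p • y) = (α • A + β • B).q (X y) +
          β' * ((-β) • A + α • B).q y + p ^ 2 * (α • A + β • B).q y := by
        rw [sub_eq_add_neg, HForm.q_add, HForm.q_neg, HForm.q_rsmul, HForm.neg_right,
          HForm.rsmul_right]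
        have e2 : ((α • A + β • B).f (X y) y).re = ((-β) • A + α • B).q y := by
          rw [HForm.re_symm, hX]; rfl
        rw [Quaternion.re_neg, Quaternion.re_smul, e2, hp]
        simp only [smul_eq_mul]
        ring
      have e3 : p ^ 2 = β' ^ 2 / 4 := by rw [hp]; ring
      have e4 := hq y
      rw [e1, zero_mul, add_zero, one_mul]
      have e5 : (τ⁻¹) ^ 2 * τ ^ 2 = 1 := by field_simp
      have e6 : (τ⁻¹) ^ 2 * ((α • A + β • B).q (X y) + β' * ((-β) • A + α • B).q y +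
          p ^ 2 * (α • A + β • B).q y) + (α • A + β • B).q y = (τ⁻¹) ^ 2 *
          ((α • A + β • B).q (X y) + β' * ((-β) • A + α • B).q y + γ' * (α • A + β • B).q y) := by
        have : γ' = p ^ 2 + τ ^ 2 := by rw [hτ2, e3]; ring
        rw [this]
        linear_combination -((α • A + β • B).q y) * e5
      rw [e6]
      positivity)
    refine ⟨α, β, τ⁻¹ * (-β - p * α), τ⁻¹ * (α - p * β), hdet1, X', hX'f, m, blk, e, hd, Or.inl ?_⟩
    intro i
    exact Or.inr (hadm i)
  · -- real roots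
    obtain ⟨s, hs, hs2⟩ : ∃ s : ℝ, 0 ≤ s ∧ s ^ 2 = β' ^ 2 - 4 * γ' :=
      ⟨Real.sqrt (β' ^ 2 - 4 * γ'), Real.sqrt_nonneg _, Real.sq_sqrt (by linarith)⟩
    obtain ⟨a₀, ha₀⟩ : ∃ a₀ : ℝ, a₀ = (-β' - s) / 2 := ⟨_, rfl⟩
    obtain ⟨b₀, hb₀⟩ : ∃ b₀ : ℝ, b₀ = (-β' + s) / 2 := ⟨_, rfl⟩
    have h1 : -(a₀ + b₀) = β' := by rw [ha₀, hb₀]; ring
    have h2 : a₀ * b₀ = γ' := by
      have : a₀ * b₀ = (β' ^ 2 - s ^ 2) / 4 := by rw [ha₀, hb₀]; ring
      rw [this, hs2]; ring
    obtain ⟨m, blk, e, hd, hadm⟩ := xdec_R a₀ b₀ (by rw [ha₀, hb₀]; linarith) (α • A + β • B) hns X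
      hSA (by
        intro y
        rw [Gq_q, h1, h2]
        have e2 : ((α • A + β • B).f y (X y)).re = ((-β) • A + α • B).q y := by
          rw [hX]; rfl
        rw [e2]
        exact hq y)
    refine ⟨α, β, -β, α, hdet0, X, hX, m, blk, e, hd, Or.inr ?_⟩
    exact nec_real hPD (hindef (-β) α hdet0) (by rw [ha₀, hb₀]; linarith) hd hadm

/-- sufficiency -/
theorem suff_canon (A B : HForm V) (h : Canon A B) : PP A B := by
  classical
  obtain ⟨α, β, γ, δ, hdet, X, hX, m, blk, e, hd, hT⟩ := h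
  have hSA := sa_of_hX hX
  have hNS : (α • A + β • B).NS := by
    intro x hx
    have hx' : x ∈ (⊤ : Submodule K V) := trivial
    -- orthogonal decomposition
    by_contra hx0
    have hall : ∀ i, ∀ y ∈ Submodule.span K (Set.range (e i)), (∀ z ∈ Submodule.span K
        (Set.range (e i)), (α • A + β • B).f z y = 0) → y = 0 := by
      intro i y hy hz
      apply block_nondeg _ X (blk i) (e i) (hd.gram i) (hd.act i) y hy
      intro a
      exact hz _ (Submodule.subset_span ⟨a, rfl⟩)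
    have hxs := hd.span hx'
    rw [Submodule.mem_iSup_iff_exists_dfinsupp'] at hxs
    obtain ⟨f, hf⟩ := hxs
    have hf' : x = ∑ i, (f i : V) := by
      rw [← hf, DFinsupp.sum]
      apply Finset.sum_subset (Finset.subset_univ _)
      intro i _ hi
      have : f i = 0 := by simpa using hi
      rw [this]; rfl
    apply hx0
    rw [hf']
    apply Finset.sum_eq_zero
    intro i _
    apply hall i _ (f i).2
    intro z hz
    have h1 := HForm.symm_zero _ (hx z)
    rw [hf', HForm.sum_right, Finset.sum_eq_single i] at h1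
    · exact h1
    · intro j _ hji
      exact hd.orth_span (Ne.symm hji) z hz _ (f j).2
    · intro hi; exact absurd (Finset.mem_univ i) hi
  have hcrit : Crit (α • A + β • B) (γ • A + δ • B) := by
    rcases hT with hT | ⟨a, hT⟩ | ⟨a, b, hab, hT⟩
    · exact crit_E _ _ hNS X hSA hX hd hT
    · exact crit_P _ _ hNS X hSA hX hd hT
    · exact crit_H _ _ hNS X hSA hX hd hab hT
  intro M1 M2 h1 h2
  exact suff_crit _ _ hcrit ((maxNeutral_change A B α β γ δ hdet M1).mpr h1)
    ((maxNeutral_change A B α β γ δ hdet M2).mpr h2)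

end Pool.Agent.Lib_c77211
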