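import Pool.Agent.Lib_c77211.CritP

open Quaternion MulOpposite Module

noncomputable section

namespace Pool.Agent.Lib_c77211

set_option linter.unusedSectionVars false
set_option linter.deprecated false

universe u

variable {V : Type u} [AddCommGroup V] [Module K V] [FiniteDimensional K V] [Module ℝ V]
  [IsScalarTower ℝ K V]

/-- there is `n ∈ U` with prescribed values of the three forms -/
def Contr (C F : HForm V) (X : V →ₗ[K] V) (u : ℝ) (U : Submodule K V) (A B D : ℝ) : Prop :=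
  ∃ n ∈ U, C.q (shift X u n) = A ∧ F.q (shift X u n) = B ∧ (C.f n (shift X u n)).re = D

theorem shift_inv {X : V →ₗ[K] V} {U : Submodule K V} (h : ∀ y ∈ U, X y ∈ U) (u : ℝ) :
    ∀ y ∈ U, shift X u y ∈ U := by
  intro y hy
  rw [shift_apply]
  exact U.sub_mem (h y hy) (mem_rsmul _ _ hy)

theorem Contr.add {C F : HForm V} {X : V →ₗ[K] V} (hX : ∀ x y, C.f x (X y) = F.f x y) {u : ℝ}
    {U W : Submodule K V} {A B D A' B' D' : ℝ} (h1 : Contr C F X u U A B D)
    (h2 : Contr C F X u W A' B' D') (hU : ∀ y ∈ U, X y ∈ U) (hW : ∀ y ∈ W, X y ∈ W)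
    (horth : ∀ x ∈ U, ∀ y ∈ W, C.f x y = 0) :
    Contr C F X u (U ⊔ W) (A + A') (B + B') (D + D') := by
  obtain ⟨n, hn, a1, a2, a3⟩ := h1
  obtain ⟨k, hk, b1, b2, b3⟩ := h2
  refine ⟨n + k, Submodule.add_mem_sup hn hk, ?_, ?_, ?_⟩
  · rw [map_add, C.q_add, a1, b1, horth _ (shift_inv hU u n hn) _ (shift_inv hW u k hk)]
    simp
  · have : F.f (shift X u n) (shift X u k) = 0 := by
      rw [← hX]; exact horth _ (shift_inv hU u n hn) _ (hW _ (shift_inv hW u k hk))
    rw [map_add, F.q_add, a2, b2, this]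
    simp
  · rw [map_add, C.add_left, C.add_right, C.add_right, horth _ hn _ (shift_inv hW u k hk),
      C.symm_zero (horth _ (shift_inv hU u n hn) _ hk), ← a3, ← b3]
    simp

theorem Contr.congr {C F : HForm V} {X : V →ₗ[K] V} {u : ℝ} {U : Submodule K V}
    {A B D A' B' D' : ℝ} (h1 : Contr C F X u U A B D) (hA : A = A') (hB : B = B') (hD : D = D') :
    Contr C F X u U A' B' D' := hA ▸ hB ▸ hD ▸ h1

theorem contr_pt {C F : HForm V} {X : V →ₗ[K] V} (hX : ∀ x y, C.f x (X y) = F.f x y) {u x s : ℝ}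
    {U : Submodule K V} {v : V} (hv : v ∈ U) (hXv : X v = x • v) (hvv : C.f v v = (s : ℍ[ℝ]))
    (hxu : x ≠ u) (μ : ℝ) : Contr C F X u U (s * μ ^ 2) (s * x * μ ^ 2) (s * μ ^ 2 / (x - u)) := by
  have hne : x - u ≠ 0 := sub_ne_zero.mpr hxu
  have hm : shift X u ((μ / (x - u)) • v) = μ • v := by
    rw [shift_apply, lin_rsmul, hXv, smul_smul, smul_smul, ← sub_smul]
    congr 1
    field_simp
  have hq : C.q v = s := by unfold HForm.q; rw [hvv, Quaternion.re_coe]
  have hFq : F.q v = s * x := by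
    unfold HForm.q
    rw [← hX, hXv, C.rsmul_right, hvv, Quaternion.re_smul, Quaternion.re_coe]
    simp [mul_comm]
  refine ⟨(μ / (x - u)) • v, mem_rsmul _ _ hv, ?_, ?_, ?_⟩
  · rw [hm, C.q_rsmul, hq]; ring
  · rw [hm, F.q_rsmul, hFq]; ring
  · rw [hm, C.rsmul_left, C.rsmul_right, hvv, Quaternion.re_smul, Quaternion.re_smul,
      Quaternion.re_coe]
    simp only [smul_eq_mul]
    field_simp

theorem contr_b2 {C F : HForm V} {X : V →ₗ[K] V} (hX : ∀ x y, C.f x (X y) = F.f x y) {u x s : ℝ}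
    {U : Submodule K V} {v w : V} (hv : v ∈ U) (hw : w ∈ U) (hXv : X v = x • v)
    (hXw : X w = x • w + v) (hvv : C.f v v = 0) (hvw : C.f v w = (s : ℍ[ℝ])) (hww : C.f w w = 0)
    (hxu : x ≠ u) (μ0 μ1 : ℝ) :
    Contr C F X u U (2 * s * (μ0 * μ1)) (s * (2 * x * (μ0 * μ1) + μ1 ^ 2))
      (s * (2 * (μ0 * μ1) / (x - u) - μ1 ^ 2 / (x - u) ^ 2)) := by
  have hne : x - u ≠ 0 := sub_ne_zero.mpr hxu
  have hwv : C.f w v = (s : ℍ[ℝ]) := by rw [← C.herm, hvw, Quaternion.star_coe]
  set d := x - u with hd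
  have hm : shift X u (((μ0 - μ1 / d) / d) • v + (μ1 / d) • w) = μ0 • v + μ1 • w := by
    rw [shift_apply, map_add, lin_rsmul, lin_rsmul, hXv, hXw]
    have e1 : μ0 = ((μ0 - μ1 / d) / d) * d + μ1 / d := by field_simp; ring
    have e2 : μ1 = (μ1 / d) * d := by field_simp
    have e3 : μ0 • v + μ1 • w = (((μ0 - μ1 / d) / d) * d + μ1 / d) • v + ((μ1 / d) * d) • w := by
      rw [← e1, ← e2]
    rw [e3, hd]
    module
  have hexp : ∀ p q p' q' : ℝ, C.f (p • v + q • w) (p' • v + q' • w) =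
      ((s * (p * q' + q * p') : ℝ) : ℍ[ℝ]) := by
    intro p q p' q'
    rw [C.add_left, C.add_right, C.add_right, C.rsmul_left, C.rsmul_left, C.rsmul_left, C.rsmul_left,
      C.rsmul_right, C.rsmul_right, C.rsmul_right, C.rsmul_right, hvv, hvw, hwv, hww]
    simp only [smul_zero, zero_add, add_zero, ← Quaternion.coe_smul, ← Quaternion.coe_add,
      smul_eq_mul]
    congr 1
    ring
  have hXm : X (μ0 • v + μ1 • w) = (x * μ0 + μ1) • v + (x * μ1) • w := by
    rw [map_add, lin_rsmul, lin_rsmul, hXv, hXw]; module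
  refine ⟨_, Submodule.add_mem _ (mem_rsmul _ ((μ0 - μ1 / d) / d) hv) (mem_rsmul _ (μ1 / d) hw), ?_, ?_, ?_⟩
  · rw [hm]
    unfold HForm.q
    rw [hexp, Quaternion.re_coe]; ring
  · rw [hm]
    unfold HForm.q
    rw [← hX, hXm, hexp, Quaternion.re_coe]; ring
  · rw [hm, hexp, Quaternion.re_coe]
    field_simp
    ring

theorem contr_b3 {C F : HForm V} {X : V →ₗ[K] V} (hX : ∀ x y, C.f x (X y) = F.f x y) {u x : ℝ}
    {U : Submodule K V} {v w z : V} (hv : v ∈ U) (hw : w ∈ U) (hz : z ∈ U) (hXv : X v = x • v)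
    (hXw : X w = x • w + v) (hXz : X z = x • z + w) (hvz : C.f v z = 1) (hwz : C.f w z = 0)
    (hzz : C.f z z = 0) (hxu : x ≠ u) :
    Contr C F X u U 0 0 (1 / (x - u) ^ 3) := by
  have hne : x - u ≠ 0 := sub_ne_zero.mpr hxu
  set d := x - u with hd
  have hm : shift X u ((1 / d) • z + (-(1 / d ^ 2)) • w + (1 / d ^ 3) • v) = z := by
    rw [shift_apply, map_add, map_add, lin_rsmul, lin_rsmul, lin_rsmul, hXv, hXw, hXz]
    have e1 : z = ((1 / d) * d) • z + (1 / d - (1 / d ^ 2) * d) • w +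
        (-(1 / d ^ 2) + (1 / d ^ 3) * d) • v := by
      have a1 : (1 / d) * d = 1 := by field_simp
      have a2 : 1 / d - (1 / d ^ 2) * d = 0 := by field_simp; ring
      have a3 : -(1 / d ^ 2) + (1 / d ^ 3) * d = 0 := by field_simp; ring
      rw [a1, a2, a3]; simp
    conv_rhs => rw [e1]
    rw [hd]
    module
  have hzw : C.f z w = 0 := C.symm_zero hwz
  refine ⟨_, Submodule.add_mem _ (Submodule.add_mem _ (mem_rsmul _ (1 / d) hz)
    (mem_rsmul _ (-(1 / d ^ 2)) hw)) (mem_rsmul _ (1 / d ^ 3) hv), ?_, ?_, ?_⟩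
  · rw [hm]; exact (C.self_eq_zero_iff z).mp hzz
  · rw [hm]
    unfold HForm.q
    rw [← hX, hXz, C.add_right, C.rsmul_right, hzz, hzw]; simp
  · rw [hm, C.add_left, C.add_left, C.rsmul_left, C.rsmul_left, C.rsmul_left, hzz, hwz, hvz]
    simp

section BlockVec

theorem blockvec1 (C : HForm V) (X : V →ₗ[K] V) (b : Block) (e : Fin b.size → V)
    (hg : ∀ i j, C.f (e i) (e j) = b.C i j) (ha : BAct X b e) (s x : ℝ)
    (hb : b = Block.jordan 1 s x) :
    ∃ v ∈ Submodule.span K (Set.range e), X v = x • v ∧ C.f v v = (s : ℍ[ℝ]) := by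
  subst hb
  obtain ⟨hk, hs, hact⟩ := ha
  refine ⟨e (0 : Fin 1), Submodule.subset_span ⟨_, rfl⟩, ?_, ?_⟩
  · have := hact (0 : Fin 1)
    rw [dif_neg (by simp), add_zero] at this
    exact this
  · exact (hg (0 : Fin 1) (0 : Fin 1)).trans (by simp [Block.C])

theorem blockvec2 (C : HForm V) (X : V →ₗ[K] V) (b : Block) (e : Fin b.size → V)
    (hg : ∀ i j, C.f (e i) (e j) = b.C i j) (ha : BAct X b e) (s x : ℝ)
    (hb : b = Block.jordan 2 s x) :
    ∃ v ∈ Submodule.span K (Set.range e), ∃ w ∈ Submodule.span K (Set.range e),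
      X v = x • v ∧ X w = x • w + v ∧ C.f v v = 0 ∧ C.f v w = (s : ℍ[ℝ]) ∧ C.f w w = 0 := by
  subst hb
  obtain ⟨hk, hs, hact⟩ := ha
  refine ⟨e (0 : Fin 2), Submodule.subset_span ⟨_, rfl⟩, e (1 : Fin 2),
    Submodule.subset_span ⟨_, rfl⟩, ?_, ?_, ?_, ?_, ?_⟩
  · have := hact (0 : Fin 2)
    rw [dif_neg (by simp), add_zero] at this
    exact this
  · have := hact (1 : Fin 2)
    rw [dif_pos (by simp)] at this
    exact this
  · exact (hg (0 : Fin 2) (0 : Fin 2)).trans (by simp [Block.C])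
  · exact (hg (0 : Fin 2) (1 : Fin 2)).trans (by simp [Block.C])
  · exact (hg (1 : Fin 2) (1 : Fin 2)).trans (by simp [Block.C])

theorem blockvec3 (C : HForm V) (X : V →ₗ[K] V) (b : Block) (e : Fin b.size → V)
    (hg : ∀ i j, C.f (e i) (e j) = b.C i j) (ha : BAct X b e) (x : ℝ)
    (hb : b = Block.jordan 3 1 x) :
    ∃ v ∈ Submodule.span K (Set.range e), ∃ w ∈ Submodule.span K (Set.range e),
      ∃ z ∈ Submodule.span K (Set.range e),
      X v = x • v ∧ X w = x • w + v ∧ X z = x • z + w ∧ C.f v z = 1 ∧ C.f w z = 0 ∧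
        C.f z z = 0 := by
  subst hb
  obtain ⟨hk, hs, hact⟩ := ha
  refine ⟨e (0 : Fin 3), Submodule.subset_span ⟨_, rfl⟩, e (1 : Fin 3),
    Submodule.subset_span ⟨_, rfl⟩, e (2 : Fin 3), Submodule.subset_span ⟨_, rfl⟩, ?_, ?_, ?_, ?_, ?_, ?_⟩
  · have := hact (0 : Fin 3)
    rw [dif_neg (by simp), add_zero] at this
    exact this
  · have := hact (1 : Fin 3)
    rw [dif_pos (by simp)] at this
    exact this
  · have := hact (2 : Fin 3)
    rw [dif_pos (by simp)] at this
    exact this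
  · exact (hg (0 : Fin 3) (2 : Fin 3)).trans (by simp [Block.C])
  · exact (hg (1 : Fin 3) (2 : Fin 3)).trans (by simp [Block.C])
  · exact (hg (2 : Fin 3) (2 : Fin 3)).trans (by simp [Block.C])

end BlockVec

section PackOn

variable {C F : HForm V} {X : V →ₗ[K] V} {m : ℕ} {blk : Fin m → Block}
  {e : (i : Fin m) → Fin (blk i).size → V}

/-- span of the blocks in `s` -/
def US (e : (i : Fin m) → Fin (blk i).size → V) (s : Finset (Fin m)) : Submodule K V :=
  ⨆ i ∈ s, Submodule.span K (Set.range (e i))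

theorem US_inv (hd : XDec C X blk e) (s : Finset (Fin m)) : ∀ y ∈ US e s, X y ∈ US e s := by
  intro y hy
  have : US e s ≤ (US e s).comap X := by
    apply iSup₂_le
    intro i hi y hy
    exact Submodule.mem_iSup_of_mem i (Submodule.mem_iSup_of_mem hi ((hd.act i).inv y hy))
  exact this hy

theorem US_orth (hd : XDec C X blk e) {s t : Finset (Fin m)} (hst : Disjoint s t) :
    ∀ x ∈ US e s, ∀ y ∈ US e t, C.f x y = 0 := by
  intro x hx y hy
  have h1 : US e t ≤ C.perp (US e s) := by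
    apply iSup₂_le
    intro j hj y hy x hx
    have h2 : US e s ≤ C.perp (Submodule.span K {y}) := by
      apply iSup₂_le
      intro i hi x hx
      rw [HForm.perp_span]
      have hij : j ≠ i := by
        rintro rfl
        exact (Finset.disjoint_left.mp hst) hi hj
      exact hd.orth_span hij y hy x hx
    exact C.symm_zero ((HForm.perp_span C y x).mp (h2 hx))
  exact h1 hy x hx

theorem US_union (s t : Finset (Fin m)) : US e (s ∪ t) = US e s ⊔ US e t := by
  classical
  exact Finset.iSup_union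

def PackOn (C F : HForm V) (X : V →ₗ[K] V) (e : (i : Fin m) → Fin (blk i).size → V) (u : ℝ)
    (s : Finset (Fin m)) (y : ℕ) : Prop :=
  ∃ N : Submodule K V, N ≤ US e s ∧ finrank K N = y ∧ NegOn (F + (-u) • C) N ∧
    ∀ n ∈ N, C.q (shift X u n) = 0 ∧ F.q (shift X u n) = 0

theorem G_eq (hX : ∀ x y, C.f x (X y) = F.f x y) (u : ℝ) (x y : V) :
    (F + (-u) • C).f x y = C.f x (shift X u y) := by
  rw [shift_apply, C.sub_right, hX, C.rsmul_right]
  simp [sub_eq_add_neg]

theorem PackOn.union (hX : ∀ x y, C.f x (X y) = F.f x y) (hd : XDec C X blk e) {u : ℝ}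
    {s t : Finset (Fin m)} {y z : ℕ} (h1 : PackOn C F X e u s y) (h2 : PackOn C F X e u t z)
    (hst : Disjoint s t) : PackOn C F X e u (s ∪ t) (y + z) := by
  obtain ⟨N, a1, a2, a3, a4⟩ := h1
  obtain ⟨M, b1, b2, b3, b4⟩ := h2
  have hor : ∀ x ∈ N, ∀ y ∈ M, (F + (-u) • C).f x y = 0 := by
    intro x hx y hy
    rw [G_eq hX]
    exact US_orth hd hst _ (a1 hx) _ (shift_inv (US_inv hd t) u _ (b1 hy))
  have hdisj : ∀ x ∈ N, x ∈ M → x = 0 := by
    intro x hx hx'
    by_contra h0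
    have h3 := a3 x hx h0
    have h4 := hor x hx x hx'
    rw [HForm.self_eq_zero_iff] at h4
    linarith
  refine ⟨N ⊔ M, ?_, ?_, ?_, ?_⟩
  · rw [US_union]; exact sup_le_sup a1 b1
  · rw [finrank_sup_disj hdisj, a2, b2]
  · intro x hx hx0
    obtain ⟨n, hn, k, hk, rfl⟩ := Submodule.mem_sup.mp hx
    rw [HForm.q_add, hor n hn k hk]
    have hz : (0 : ℍ[ℝ]).re = 0 := rfl
    rw [hz, mul_zero, add_zero]
    by_cases hn0 : n = 0
    · subst hn0
      have hk0 : k ≠ 0 := by rintro rfl; simp at hx0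
      have := b3 k hk hk0
      simpa using this
    · have h5 := a3 n hn hn0
      by_cases hk0 : k = 0
      · subst hk0; simpa using h5
      · have := b3 k hk hk0
        linarith
  · intro x hx
    obtain ⟨n, hn, k, hk, rfl⟩ := Submodule.mem_sup.mp hx
    have e1 := shift_inv (US_inv hd s) u _ (a1 hn)
    have e2 := shift_inv (US_inv hd t) u _ (b1 hk)
    constructor
    · rw [map_add, C.q_add, (a4 n hn).1, (b4 k hk).1, US_orth hd hst _ e1 _ e2]; simp
    · have : F.f (shift X u n) (shift X u k) = 0 := by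
        rw [← hX]; exact US_orth hd hst _ e1 _ (US_inv hd t _ e2)
      rw [map_add, F.q_add, (a4 n hn).2, (b4 k hk).2, this]; simp

theorem PackOn.mono {u : ℝ} {s t : Finset (Fin m)} {y : ℕ} (h1 : PackOn C F X e u s y)
    (hst : s ⊆ t) : PackOn C F X e u t y := by
  obtain ⟨N, a1, a2, a3, a4⟩ := h1
  refine ⟨N, a1.trans ?_, a2, a3, a4⟩
  exact iSup_mono (fun i => iSup_mono' (fun hi => ⟨hst hi, le_rfl⟩))

theorem PackOn.zero (u : ℝ) (s : Finset (Fin m)) : PackOn C F X e u s 0 := by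
  refine ⟨⊥, bot_le, finrank_bot K V, ?_, ?_⟩
  · intro x hx hx0; exact absurd ((Submodule.mem_bot K).mp hx) hx0
  · intro x hx; rw [(Submodule.mem_bot K).mp hx]; simp

theorem PackOn.of_contr (hX : ∀ x y, C.f x (X y) = F.f x y) {u D : ℝ} {s : Finset (Fin m)}
    (h : Contr C F X u (US e s) 0 0 D) (hD : D < 0) : PackOn C F X e u s 1 := by
  obtain ⟨n, hn, h1, h2, h3⟩ := h
  have hn0 : n ≠ 0 := by
    rintro rfl
    simp at h3
    linarith
  have hG : (F + (-u) • C).q n = D := by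
    unfold HForm.q
    rw [G_eq hX, h3]
  refine ⟨Submodule.span K {n}, ?_, finrank_span_one hn0, ?_, ?_⟩
  · rw [Submodule.span_le, Set.singleton_subset_iff]; exact hn
  · intro x hx hx0
    obtain ⟨a, rfl⟩ := HForm.mem_span_one.mp hx
    have ha : a ≠ 0 := by rintro rfl; simp at hx0
    have : 0 < normSq a := by
      rcases (Quaternion.normSq_nonneg (a := a)).lt_or_eq with h | h
      · exact h
      · exact absurd (Quaternion.normSq_eq_zero.mp h.symm) ha
    rw [HForm.q_smul, hG]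
    exact mul_neg_of_pos_of_neg this hD
  · intro x hx
    obtain ⟨a, rfl⟩ := HForm.mem_span_one.mp hx
    rw [map_smul, C.q_smul, F.q_smul, h1, h2]; simp

theorem contrS_single {u A B D : ℝ} {i : Fin m}
    (h : Contr C F X u (Submodule.span K (Set.range (e i))) A B D) :
    Contr C F X u (US e {i}) A B D := by
  have : US e {i} = Submodule.span K (Set.range (e i)) := by
    unfold US; simp
  rw [this]; exact h

theorem contrS_union (hX : ∀ x y, C.f x (X y) = F.f x y) (hd : XDec C X blk e)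
    {u A B D A' B' D' : ℝ} {s t : Finset (Fin m)} (h1 : Contr C F X u (US e s) A B D)
    (h2 : Contr C F X u (US e t) A' B' D') (hst : Disjoint s t) :
    Contr C F X u (US e (s ∪ t)) (A + A') (B + B') (D + D') := by
  rw [US_union]
  exact h1.add hX h2 (US_inv hd s) (US_inv hd t) (US_orth hd hst)

theorem bc_pt (hX : ∀ x y, C.f x (X y) = F.f x y) (hd : XDec C X blk e) {u x s : ℝ} {i : Fin m}
    (hi : blk i = Block.jordan 1 s x) (hxu : x ≠ u) (μ : ℝ) :
    Contr C F X u (US e {i}) (s * μ ^ 2) (s * x * μ ^ 2) (s * μ ^ 2 / (x - u)) := by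
  obtain ⟨v, hv, h1, h2⟩ := blockvec1 C X (blk i) (e i) (hd.gram i) (hd.act i) s x hi
  exact contrS_single (contr_pt hX hv h1 h2 hxu μ)

theorem bc_b2 (hX : ∀ x y, C.f x (X y) = F.f x y) (hd : XDec C X blk e) {u x s : ℝ} {i : Fin m}
    (hi : blk i = Block.jordan 2 s x) (hxu : x ≠ u) (μ0 μ1 : ℝ) :
    Contr C F X u (US e {i}) (2 * s * (μ0 * μ1)) (s * (2 * x * (μ0 * μ1) + μ1 ^ 2))
      (s * (2 * (μ0 * μ1) / (x - u) - μ1 ^ 2 / (x - u) ^ 2)) := by
  obtain ⟨v, hv, w, hw, h1, h2, h3, h4, h5⟩ :=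
    blockvec2 C X (blk i) (e i) (hd.gram i) (hd.act i) s x hi
  exact contrS_single (contr_b2 hX hv hw h1 h2 h3 h4 h5 hxu μ0 μ1)

theorem bc_b3 (hX : ∀ x y, C.f x (X y) = F.f x y) (hd : XDec C X blk e) {u x : ℝ} {i : Fin m}
    (hi : blk i = Block.jordan 3 1 x) (hxu : x ≠ u) :
    Contr C F X u (US e {i}) 0 0 (1 / (x - u) ^ 3) := by
  obtain ⟨v, hv, w, hw, z, hz, h1, h2, h3, h4, h5, h6⟩ :=
    blockvec3 C X (blk i) (e i) (hd.gram i) (hd.act i) x hi
  exact contrS_single (contr_b3 hX hv hw hz h1 h2 h3 h4 h5 h6 hxu)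

/-- pack of type (1,+,x1), (2,+,b) -/
theorem pack_e1 (hX : ∀ x y, C.f x (X y) = F.f x y) (hd : XDec C X blk e) {u x1 b : ℝ}
    {i j : Fin m} (hij : i ≠ j) (hi : blk i = Block.jordan 1 1 x1) (hj : blk j = Block.jordan 2 1 b)
    (h1 : x1 < b) (hu : x1 < u) (hub : b ≠ u) : PackOn C F X e u {i, j} 1 := by
  classical
  have e1 := bc_pt hX hd hi hu.ne (2 * Real.sqrt (b - x1))
  have e2 := bc_b2 hX hd hj hub 1 (-2 * (b - x1))
  have e3 := contrS_union hX hd e1 e2 (by simpa using hij)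
  have hs : (Real.sqrt (b - x1)) ^ 2 = b - x1 := Real.sq_sqrt (by linarith)
  have hs4 : (2 * Real.sqrt (b - x1)) ^ 2 = 4 * (b - x1) := by rw [mul_pow, hs]; norm_num
  have hb1 : b - u ≠ 0 := sub_ne_zero.mpr hub
  have hb2 : x1 - u ≠ 0 := sub_ne_zero.mpr hu.ne
  have hset : ({i} ∪ {j} : Finset (Fin m)) = {i, j} := rfl
  rw [hset] at e3
  refine PackOn.of_contr hX (e3.congr (A' := 0) (B' := 0)
    (D' := 4 * (b - x1) ^ 3 / ((b - u) ^ 2 * (x1 - u))) ?_ ?_ ?_) ?_
  · rw [hs4]; ring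
  · rw [hs4]; ring
  · rw [hs4]
    field_simp
    ring
  · apply div_neg_of_pos_of_neg
    · have : 0 < b - x1 := by linarith
      positivity
    · have : 0 < (b - u) ^ 2 := by positivity
      exact mul_neg_of_pos_of_neg this (by linarith)

/-- pack of type (2,-,a), (2,+,b), a < u < b -/
theorem pack_e1' (hX : ∀ x y, C.f x (X y) = F.f x y) (hd : XDec C X blk e) {u a b : ℝ}
    {i j : Fin m} (hij : i ≠ j) (hi : blk i = Block.jordan 2 (-1) a)
    (hj : blk j = Block.jordan 2 1 b) (h1 : a < u) (h2 : u < b) : PackOn C F X e u {i, j} 1 := by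
  classical
  obtain ⟨R, hR⟩ : ∃ R : ℝ, R = 1 / (2 * (u - a)) := ⟨_, rfl⟩
  have hRpos : 0 < R := by rw [hR]; apply div_pos one_pos; linarith
  have hpos : 0 < 1 + 2 * (b - a) * R := by
    have : 0 < (b - a) * R := mul_pos (by linarith) hRpos
    linarith
  obtain ⟨ν, hν⟩ : ∃ ν : ℝ, ν = Real.sqrt (1 + 2 * (b - a) * R) := ⟨_, rfl⟩
  have hν2 : ν ^ 2 = 1 + 2 * (b - a) * R := by rw [hν]; exact Real.sq_sqrt hpos.le
  have hν0 : ν ≠ 0 := by rw [hν]; exact (Real.sqrt_pos.mpr hpos).ne'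
  have e1 := bc_b2 hX hd hi h1.ne (-R) 1
  have e2 := bc_b2 hX hd hj h2.ne' (-R / ν) ν
  have e3 := contrS_union hX hd e1 e2 (by simpa using hij)
  have hset : ({i} ∪ {j} : Finset (Fin m)) = {i, j} := rfl
  rw [hset] at e3
  have hν1 : -R / ν * ν = -R := by field_simp
  have hb1 : b - u ≠ 0 := sub_ne_zero.mpr h2.ne'
  have hb2 : a - u ≠ 0 := sub_ne_zero.mpr h1.ne
  refine PackOn.of_contr hX (e3.congr (A' := 0) (B' := 0)
    (D' := -(2 * R / (b - u)) - (1 + 2 * (b - a) * R) / (b - u) ^ 2) ?_ ?_ ?_) ?_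
  · rw [hν1]; ring
  · rw [hν1, hν2]; ring
  · rw [hν1, hν2, hR]
    have hb3 : u - a ≠ 0 := sub_ne_zero.mpr h1.ne'
    have : a - u = -(u - a) := by ring
    rw [this]
    field_simp
    ring
  · have p1 : 0 < 2 * R / (b - u) := div_pos (by linarith) (by linarith)
    have p2 : 0 < (1 + 2 * (b - a) * R) / (b - u) ^ 2 := div_pos hpos (by positivity)
    linarith

/-- pack of type (1,+,x1), (1,-,b), (1,+,x3), x1 < u < b < x3 -/
theorem pack_e2 (hX : ∀ x y, C.f x (X y) = F.f x y) (hd : XDec C X blk e) {u x1 b x3 : ℝ}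
    {i j k : Fin m} (hij : i ≠ j) (hik : i ≠ k) (hjk : j ≠ k) (hi : blk i = Block.jordan 1 1 x1)
    (hj : blk j = Block.jordan 1 (-1) b) (hk : blk k = Block.jordan 1 1 x3)
    (h1 : x1 < u) (h2 : u < b) (h3 : b < x3) : PackOn C F X e u {i, j, k} 1 := by
  classical
  have e1 := bc_pt hX hd hi h1.ne (Real.sqrt (x3 - b))
  have e2 := bc_pt hX hd hj h2.ne' (Real.sqrt (x3 - x1))
  have e3 := bc_pt hX hd hk (h2.trans h3).ne' (Real.sqrt (b - x1))
  have e23 := contrS_union hX hd e2 e3 (by simpa using hjk)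
  have e4 := contrS_union hX hd e1 e23 (by
    rw [Finset.disjoint_singleton_left]
    simp [hij, hik])
  have hset : ({i} ∪ ({j} ∪ {k}) : Finset (Fin m)) = {i, j, k} := rfl
  rw [hset] at e4
  have s1 : (Real.sqrt (x3 - b)) ^ 2 = x3 - b := Real.sq_sqrt (by linarith)
  have s2 : (Real.sqrt (x3 - x1)) ^ 2 = x3 - x1 := Real.sq_sqrt (by linarith)
  have s3 : (Real.sqrt (b - x1)) ^ 2 = b - x1 := Real.sq_sqrt (by linarith)
  have hb1 : b - u ≠ 0 := sub_ne_zero.mpr h2.ne'
  have hb2 : x1 - u ≠ 0 := sub_ne_zero.mpr h1.ne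
  have hb3 : x3 - u ≠ 0 := sub_ne_zero.mpr (h2.trans h3).ne'
  rw [s1, s2, s3] at e4
  refine PackOn.of_contr hX (e4.congr (A' := 0) (B' := 0)
    (D' := (x3 - b) * (x3 - x1) * (b - x1) / ((x1 - u) * (b - u) * (x3 - u))) ?_ ?_ ?_) ?_
  · ring
  · ring
  · field_simp
    ring
  · apply div_neg_of_pos_of_neg
    · have p1 : 0 < x3 - b := by linarith
      have p2 : 0 < x3 - x1 := by linarith
      have p3 : 0 < b - x1 := by linarith
      positivity
    · have p1 : x1 - u < 0 := by linarith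
      have p2 : 0 < b - u := by linarith
      have p3 : 0 < x3 - u := by linarith
      exact mul_neg_of_neg_of_pos (mul_neg_of_neg_of_pos p1 p2) p3

/-- pack of type (2,-,a), (1,-,b), (1,+,x2), a < u < b < x2 -/
theorem pack_e2' (hX : ∀ x y, C.f x (X y) = F.f x y) (hd : XDec C X blk e) {u a b x2 : ℝ}
    {i j k : Fin m} (hij : i ≠ j) (hik : i ≠ k) (hjk : j ≠ k) (hi : blk i = Block.jordan 2 (-1) a)
    (hj : blk j = Block.jordan 1 (-1) b) (hk : blk k = Block.jordan 1 1 x2)
    (h1 : a < u) (h2 : u < b) (h3 : b < x2) : PackOn C F X e u {i, j, k} 1 := by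
  classical
  obtain ⟨R, hR⟩ : ∃ R : ℝ, R = 1 / (2 * (u - a)) := ⟨_, rfl⟩
  have hRpos : 0 < R := by rw [hR]; apply div_pos one_pos; linarith
  have hpos : 0 < 1 + 2 * (b - a) * R := by
    have : 0 < (b - a) * R := mul_pos (by linarith) hRpos
    linarith
  obtain ⟨M, hM⟩ : ∃ M : ℝ, M = (1 + 2 * (b - a) * R) / (x2 - b) := ⟨_, rfl⟩
  have hMpos : 0 < M := by rw [hM]; exact div_pos hpos (by linarith)
  have hMe : M * (x2 - b) = 1 + 2 * (b - a) * R := by
    rw [hM]; exact div_mul_cancel₀ _ (by linarith [h3] : x2 - b ≠ 0)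
  have e1 := bc_b2 hX hd hi h1.ne (-R) 1
  have e2 := bc_pt hX hd hj h2.ne' (Real.sqrt (2 * R + M))
  have e3 := bc_pt hX hd hk (h2.trans h3).ne' (Real.sqrt M)
  have e23 := contrS_union hX hd e2 e3 (by simpa using hjk)
  have e4 := contrS_union hX hd e1 e23 (by
    rw [Finset.disjoint_singleton_left]
    simp [hij, hik])
  have hset : ({i} ∪ ({j} ∪ {k}) : Finset (Fin m)) = {i, j, k} := rfl
  rw [hset] at e4
  have s2 : (Real.sqrt (2 * R + M)) ^ 2 = 2 * R + M := Real.sq_sqrt (by linarith)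
  have s3 : (Real.sqrt M) ^ 2 = M := Real.sq_sqrt hMpos.le
  have hb1 : b - u ≠ 0 := sub_ne_zero.mpr h2.ne'
  have hb2 : a - u ≠ 0 := sub_ne_zero.mpr h1.ne
  have hb3 : x2 - u ≠ 0 := sub_ne_zero.mpr (h2.trans h3).ne'
  rw [s2, s3] at e4
  refine PackOn.of_contr hX (e4.congr (A' := 0) (B' := 0)
    (D' := -((2 * R + M) / (b - u)) + M / (x2 - u)) ?_ ?_ ?_) ?_
  · ring
  · linear_combination hMe
  · have : -1 * (2 * (-R * 1) / (a - u) - 1 ^ 2 / (a - u) ^ 2) = 0 := by
      rw [hR]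
      have hb3 : u - a ≠ 0 := sub_ne_zero.mpr h1.ne'
      have : a - u = -(u - a) := by ring
      rw [this]
      field_simp
      ring
    rw [this]
    ring
  · have p1 : M / (x2 - u) < M / (b - u) :=
      div_lt_div_of_pos_left hMpos (by linarith) (by linarith)
    have p2 : M / (b - u) ≤ (2 * R + M) / (b - u) :=
      div_le_div_of_nonneg_right (by linarith) (by linarith)
    linarith

/-- pack of type (3,+,a), u > a -/
theorem pack_e4 (hX : ∀ x y, C.f x (X y) = F.f x y) (hd : XDec C X blk e) {u a : ℝ}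
    {i : Fin m} (hi : blk i = Block.jordan 3 1 a) (h1 : a < u) : PackOn C F X e u {i} 1 := by
  refine PackOn.of_contr hX (bc_b3 hX hd hi h1.ne) ?_
  apply div_neg_of_pos_of_neg one_pos
  have : a - u < 0 := by linarith
  exact Odd.pow_neg (by decide) this

/-- pairs -/
theorem pack_pairs (hX : ∀ x y, C.f x (X y) = F.f x y) (hd : XDec C X blk e) {u : ℝ} (y : ℕ) :
    ∀ (S T : Finset (Fin m)), Disjoint S T →
    (∀ i ∈ S, ∀ j ∈ T, PackOn C F X e u {i, j} 1) → y ≤ S.card → y ≤ T.card →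
    PackOn C F X e u (S ∪ T) y := by
  classical
  induction y with
  | zero => intro S T _ _ _ _; exact PackOn.zero u _
  | succ y ih =>
    intro S T hST h hS hT
    obtain ⟨i, hi⟩ := Finset.card_pos.mp (by omega : 0 < S.card)
    obtain ⟨j, hj⟩ := Finset.card_pos.mp (by omega : 0 < T.card)
    have hij : i ≠ j := by rintro rfl; exact (Finset.disjoint_left.mp hST) hi hj
    have h1 := ih (S.erase i) (T.erase j)
      (Finset.disjoint_of_subset_left (Finset.erase_subset _ _)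
        (Finset.disjoint_of_subset_right (Finset.erase_subset _ _) hST))
      (fun i' hi' j' hj' => h i' (Finset.mem_of_mem_erase hi') j' (Finset.mem_of_mem_erase hj'))
      (by rw [Finset.card_erase_of_mem hi]; omega) (by rw [Finset.card_erase_of_mem hj]; omega)
    have h2 := h1.union hX hd (h i hi j hj) (by
      rw [Finset.disjoint_left]
      intro x hx hx'
      simp only [Finset.mem_union, Finset.mem_erase, Finset.mem_insert, Finset.mem_singleton] at hx hx'
      rcases hx' with rfl | rfl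
      · rcases hx with ⟨h1, _⟩ | ⟨_, h2⟩
        · exact h1 rfl
        · exact (Finset.disjoint_left.mp hST) hi h2
      · rcases hx with ⟨_, h2⟩ | ⟨h1, _⟩
        · exact (Finset.disjoint_left.mp hST) h2 hj
        · exact h1 rfl)
    refine h2.mono ?_
    intro x hx
    simp only [Finset.mem_union, Finset.mem_erase, Finset.mem_insert, Finset.mem_singleton] at hx ⊢
    rcases hx with (⟨_, h⟩ | ⟨_, h⟩) | rfl | rfl
    · exact Or.inl h
    · exact Or.inr h
    · exact Or.inl hi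
    · exact Or.inr hj

/-- singles -/
theorem pack_singles (hX : ∀ x y, C.f x (X y) = F.f x y) (hd : XDec C X blk e) {u : ℝ}
    (S : Finset (Fin m)) (h : ∀ i ∈ S, PackOn C F X e u {i} 1) : PackOn C F X e u S S.card := by
  classical
  induction S using Finset.induction_on with
  | empty => exact PackOn.zero u _
  | insert a s ha ih =>
    rw [Finset.card_insert_of_notMem ha]
    have h1 := (ih (fun i hi => h i (Finset.mem_insert_of_mem hi))).union hX hd
      (h a (Finset.mem_insert_self a s)) (by rw [Finset.disjoint_singleton_right]; exact ha)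
    refine h1.mono ?_
    intro x hx
    simp only [Finset.mem_union, Finset.mem_singleton, Finset.mem_insert] at hx ⊢
    tauto

/-- triples -/
theorem pack_triples (hX : ∀ x y, C.f x (X y) = F.f x y) (hd : XDec C X blk e) {u : ℝ} (y : ℕ) :
    ∀ (S T R : Finset (Fin m)), Disjoint S T → Disjoint S R → Disjoint T R →
    (∀ i ∈ S, ∀ j ∈ T, ∀ k ∈ R, PackOn C F X e u {i, j, k} 1) → y ≤ S.card → y ≤ T.card →
    y ≤ R.card → PackOn C F X e u (S ∪ (T ∪ R)) y := by
  classical
  induction y with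
  | zero => intro S T R _ _ _ _ _ _ _; exact PackOn.zero u _
  | succ y ih =>
    intro S T R hST hSR hTR h hS hT hR
    obtain ⟨i, hi⟩ := Finset.card_pos.mp (by omega : 0 < S.card)
    obtain ⟨j, hj⟩ := Finset.card_pos.mp (by omega : 0 < T.card)
    obtain ⟨k, hk⟩ := Finset.card_pos.mp (by omega : 0 < R.card)
    have dST := Finset.disjoint_left.mp hST
    have dSR := Finset.disjoint_left.mp hSR
    have dTR := Finset.disjoint_left.mp hTR
    have h1 := ih (S.erase i) (T.erase j) (R.erase k)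
      (Finset.disjoint_of_subset_left (Finset.erase_subset _ _)
        (Finset.disjoint_of_subset_right (Finset.erase_subset _ _) hST))
      (Finset.disjoint_of_subset_left (Finset.erase_subset _ _)
        (Finset.disjoint_of_subset_right (Finset.erase_subset _ _) hSR))
      (Finset.disjoint_of_subset_left (Finset.erase_subset _ _)
        (Finset.disjoint_of_subset_right (Finset.erase_subset _ _) hTR))
      (fun i' hi' j' hj' k' hk' => h i' (Finset.mem_of_mem_erase hi') j' (Finset.mem_of_mem_erase hj')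
        k' (Finset.mem_of_mem_erase hk'))
      (by rw [Finset.card_erase_of_mem hi]; omega) (by rw [Finset.card_erase_of_mem hj]; omega)
      (by rw [Finset.card_erase_of_mem hk]; omega)
    have h2 := h1.union hX hd (h i hi j hj k hk) (by
      rw [Finset.disjoint_left]
      intro x hx hx'
      simp only [Finset.mem_union, Finset.mem_erase, Finset.mem_insert, Finset.mem_singleton] at hx hx'
      rcases hx' with rfl | rfl | rfl
      · rcases hx with ⟨h1, _⟩ | ⟨_, h2⟩ | ⟨_, h2⟩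
        · exact h1 rfl
        · exact dST hi h2
        · exact dSR hi h2
      · rcases hx with ⟨_, h2⟩ | ⟨h1, _⟩ | ⟨_, h2⟩
        · exact dST h2 hj
        · exact h1 rfl
        · exact dTR hj h2
      · rcases hx with ⟨_, h2⟩ | ⟨_, h2⟩ | ⟨h1, _⟩
        · exact dSR h2 hk
        · exact dTR h2 hk
        · exact h1 rfl)
    refine h2.mono ?_
    intro x hx
    simp only [Finset.mem_union, Finset.mem_erase, Finset.mem_insert, Finset.mem_singleton] at hx ⊢
    rcases hx with (⟨_, h⟩ | ⟨_, h⟩ | ⟨_, h⟩) | rfl | rfl | rfl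
    · exact Or.inl h
    · exact Or.inr (Or.inl h)
    · exact Or.inr (Or.inr h)
    · exact Or.inl hi
    · exact Or.inr (Or.inl hj)
    · exact Or.inr (Or.inr hk)

end PackOn

end Pool.Agent.Lib_c77211
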