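import Pool.Agent.Lib_c77211.NecMain

open Quaternion MulOpposite Module

noncomputable section

namespace Pool.Agent.Lib_c77211

set_option linter.unusedSectionVars false
set_option linter.deprecated false

universe u

variable {V : Type u} [AddCommGroup V] [Module K V] [FiniteDimensional K V] [Module ℝ V]
  [IsScalarTower ℝ K V]

/-- the common radical -/
def radical (A B : HForm V) : Submodule K V where
  carrier := {x | ∀ y, A.f x y = 0 ∧ B.f x y = 0}
  zero_mem' := by intro y; simp
  add_mem' := by
    intro x z hx hz y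
    rw [A.add_left, B.add_left, (hx y).1, (hx y).2, (hz y).1, (hz y).2]
    simp
  smul_mem' := by
    intro c x hx y
    have e1 := A.smul_left (unop c) x y
    have e2 := B.smul_left (unop c) x y
    rw [op_unop] at e1 e2
    rw [e1, e2, (hx y).1, (hx y).2]
    simp

theorem mem_radical {A B : HForm V} {x : V} :
    x ∈ radical A B ↔ ∀ y, A.f x y = 0 ∧ B.f x y = 0 := Iff.rfl

section Split

variable {A B : HForm V} {N W : Submodule K V} (hN : N ≤ radical A B) (hc : IsCompl N W)

include hN

theorem rad_q {n w : V} (hn : n ∈ N) : A.q (n + w) = A.q w ∧ B.q (n + w) = B.q w := by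
  have h1 := hN hn
  have e1 := (h1 w).1
  have e2 := (h1 w).2
  have e3 := (h1 n).1
  have e4 := (h1 n).2
  have q1 : A.q n = 0 := (A.self_eq_zero_iff n).mp e3
  have q2 : B.q n = 0 := (B.self_eq_zero_iff n).mp e4
  constructor
  · rw [A.q_add, q1, e1]; simp
  · rw [B.q_add, q2, e2]; simp

theorem rad_sup_neutral {M : Submodule K V} (h : Neutral A B M) : Neutral A B (N ⊔ M) := by
  intro x hx
  obtain ⟨n, hn, w, hw, rfl⟩ := Submodule.mem_sup.mp hx
  obtain ⟨e1, e2⟩ := rad_q hN (w := w) hn
  rw [e1, e2]
  exact h w hw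

theorem rad_le {M : Submodule K V} (h : MaxNeutral A B M) : N ≤ M :=
  le_sup_left.trans (h.2 _ (rad_sup_neutral hN h.1) le_sup_right)

include hc

theorem rad_decomp {M : Submodule K V} (h : N ≤ M) :
    M = N ⊔ (M.comap W.subtype).map W.subtype := by
  rw [Submodule.map_comap_eq, Submodule.range_subtype, ← sup_inf_assoc_of_le _ h, hc.sup_eq_top,
    top_inf_eq]

theorem rad_finrank (M' : Submodule K W) :
    finrank K (N ⊔ M'.map W.subtype : Submodule K V) = finrank K N + finrank K M' := by
  rw [finrank_sup_disj]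
  · congr 1
    exact (LinearEquiv.finrank_eq (Submodule.equivMapOfInjective W.subtype W.injective_subtype M')).symm
  · rintro x hx ⟨y, _, rfl⟩
    exact (Submodule.disjoint_def.mp hc.disjoint) _ hx y.2

theorem rad_comap_map (M' : Submodule K W) :
    (N ⊔ M'.map W.subtype : Submodule K V).comap W.subtype = M' := by
  apply le_antisymm
  · intro w hw
    obtain ⟨n, hn, z, ⟨y, hy, rfl⟩, h⟩ := Submodule.mem_sup.mp hw
    have h1 : n ∈ W := by
      have : n = (w : V) - (y : V) := by
        rw [eq_sub_iff_add_eq]; exact h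
      rw [this]
      exact W.sub_mem w.2 y.2
    have h2 : n = 0 := (Submodule.disjoint_def.mp hc.disjoint) _ hn h1
    rw [h2, zero_add] at h
    have : y = w := Subtype.ext h
    rw [← this]; exact hy
  · intro w hw
    exact Submodule.mem_sup_right ⟨w, hw, rfl⟩

theorem rad_max1 {M : Submodule K V} (h : MaxNeutral A B M) :
    MaxNeutral (A.pull W.subtype) (B.pull W.subtype) (M.comap W.subtype) ∧
      finrank K M = finrank K N + finrank K (M.comap W.subtype) := by
  have hle := rad_le hN h
  refine ⟨⟨?_, ?_⟩, ?_⟩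
  · intro x hx
    exact h.1 x hx
  · intro M' hM' hle'
    have h1 : Neutral A B (N ⊔ M'.map W.subtype) := by
      apply rad_sup_neutral hN
      rintro _ ⟨y, hy, rfl⟩
      exact hM' y hy
    have h2 : M ≤ N ⊔ M'.map W.subtype := by
      rw [rad_decomp hN hc hle]
      exact sup_le_sup_left (Submodule.map_mono hle') _
    have h3 := h.2 _ h1 h2
    intro w hw
    exact h3 (Submodule.mem_sup_right ⟨w, hw, rfl⟩)
  · rw [← rad_finrank hN hc (M.comap W.subtype), ← rad_decomp hN hc hle]

theorem rad_max2 {M' : Submodule K W}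
    (h : MaxNeutral (A.pull W.subtype) (B.pull W.subtype) M') :
    MaxNeutral A B (N ⊔ M'.map W.subtype) := by
  refine ⟨?_, ?_⟩
  · apply rad_sup_neutral hN
    rintro _ ⟨y, hy, rfl⟩
    exact h.1 y hy
  · intro M hM hle
    have h1 : N ≤ M := le_sup_left.trans hle
    have h2 : M.comap W.subtype ≤ M' := by
      apply h.2
      · intro x hx
        exact hM x hx
      · intro w hw
        exact hle (Submodule.mem_sup_right ⟨w, hw, rfl⟩)
    rw [rad_decomp hN hc h1]
    exact sup_le_sup_left (Submodule.map_mono h2) _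

theorem rad_PP : PP A B ↔ PP (A.pull W.subtype) (B.pull W.subtype) := by
  constructor
  · intro h M1 M2 h1 h2
    have h3 := h _ _ (rad_max2 hN hc h1) (rad_max2 hN hc h2)
    rw [rad_finrank hN hc, rad_finrank hN hc] at h3
    omega
  · intro h M1 M2 h1 h2
    obtain ⟨e1, e2⟩ := rad_max1 hN hc h1
    obtain ⟨e3, e4⟩ := rad_max1 hN hc h2
    have := h _ _ e1 e3
    omega

theorem rad_semidef (h : SemiDef (A.pull W.subtype) (B.pull W.subtype)) : SemiDef A B := by
  obtain ⟨α, β, hαβ, h⟩ := h
  refine ⟨α, β, hαβ, ?_⟩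
  intro x
  have hx : x ∈ N ⊔ W := by rw [hc.sup_eq_top]; trivial
  obtain ⟨n, hn, w, hw, rfl⟩ := Submodule.mem_sup.mp hx
  obtain ⟨e1, e2⟩ := rad_q hN (w := w) hn
  rw [e1, e2]
  exact h ⟨w, hw⟩

end Split

theorem rad_trivial {A B : HForm V} {W : Submodule K V} (hc : IsCompl (radical A B) W) :
    ∀ x, (∀ y, (A.pull W.subtype).f x y = 0 ∧ (B.pull W.subtype).f x y = 0) → x = 0 := by
  intro x hx
  apply Subtype.ext
  apply (Submodule.disjoint_def.mp hc.disjoint) _ _ x.2
  intro y
  have hy : y ∈ radical A B ⊔ W := by rw [hc.sup_eq_top]; trivial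
  obtain ⟨n, hn, w, hw, rfl⟩ := Submodule.mem_sup.mp hy
  rw [A.add_right, B.add_right, A.symm_zero (hn x).1, B.symm_zero (hn x).2, zero_add, zero_add]
  exact hx ⟨w, hw⟩

theorem pp_of_semidef {A B : HForm V} (h : SemiDef A B) : PP A B := by
  obtain ⟨α, β, hαβ, h⟩ := h
  intro M1 M2 h1 h2
  exact suff_semidef A B α β hαβ h h1 h2

/-- necessity, with the radical split off -/
theorem nec_general (A B : HForm V) (hP : PP A B) {W : Submodule K V}
    (hc : IsCompl (radical A B) W) :
    SemiDef A B ∨ Canon (A.pull W.subtype) (B.pull W.subtype) := by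
  have h1 := (rad_PP le_rfl hc).mp hP
  rcases nec_ns _ _ (rad_trivial hc) h1 with h | h
  · exact Or.inl (rad_semidef le_rfl hc h)
  · exact Or.inr h

/-- sufficiency, with a part of the radical split off -/
theorem suff_general (A B : HForm V) {N W : Submodule K V} (hN : N ≤ radical A B)
    (hc : IsCompl N W) (h : Canon (A.pull W.subtype) (B.pull W.subtype)) : PP A B :=
  (rad_PP hN hc).mpr (suff_canon _ _ h)

end Pool.Agent.Lib_c77211
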