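import Pool.Agent.Lib_c77211.Jineq

open Quaternion MulOpposite Module

noncomputable section

namespace Pool.Agent.Lib_c77211

set_option linter.unusedSectionVars false
set_option linter.deprecated false

universe u

/-- the block of the pair `(C, -X)` -/
def refl : Block → Block
  | .null => .null
  | .jordan k s x => .jordan k (s * (-1) ^ (k - 1)) (-x)
  | .ell => .ell

theorem size_refl (b : Block) : (refl b).size = b.size := by cases b <;> rfl

variable {V : Type u} [AddCommGroup V] [Module K V] [FiniteDimensional K V] [Module ℝ V]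
  [IsScalarTower ℝ K V]

/-- the reflected family -/
def reflE {b : Block} (e : Fin b.size → V) : Fin (refl b).size → V :=
  fun a => ((-1 : ℝ) ^ (a : ℕ)) • e (Fin.cast (size_refl b) a)

theorem span_reflE {b : Block} (e : Fin b.size → V) :
    Submodule.span K (Set.range (reflE e)) = Submodule.span K (Set.range e) := by
  apply le_antisymm
  · rw [Submodule.span_le]
    rintro _ ⟨a, rfl⟩
    exact mem_rsmul _ _ (Submodule.subset_span ⟨_, rfl⟩)
  · rw [Submodule.span_le]
    rintro _ ⟨a, rfl⟩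
    have h1 : reflE e (Fin.cast (size_refl b).symm a) ∈ Submodule.span K (Set.range (reflE e)) :=
      Submodule.subset_span ⟨_, rfl⟩
    have h2 : e a = ((-1 : ℝ) ^ (a : ℕ)) • reflE e (Fin.cast (size_refl b).symm a) := by
      unfold reflE
      rw [smul_smul]
      have : (-1 : ℝ) ^ (a : ℕ) * (-1 : ℝ) ^ ((Fin.cast (size_refl b).symm a : Fin _) : ℕ) = 1 := by
        rw [Fin.val_cast, ← mul_pow]; norm_num
      rw [this, one_smul]
      rfl
    rw [SetLike.mem_coe, h2]
    exact mem_rsmul _ _ h1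

theorem gram_reflE (C : HForm V) {b : Block} (e : Fin b.size → V) (hb : ∃ k s x, b = Block.jordan k s x)
    (hg : ∀ i j, C.f (e i) (e j) = b.C i j) :
    ∀ i j, C.f (reflE e i) (reflE e j) = (refl b).C i j := by
  obtain ⟨k, s, x, rfl⟩ := hb
  intro i j
  have h1 : C.f (reflE e i) (reflE e j) = ((-1 : ℝ) ^ (j : ℕ)) • ((-1 : ℝ) ^ (i : ℕ)) •
      C.f (e i) (e j) := by
    unfold reflE
    rw [C.rsmul_right, C.rsmul_left]
    rfl
  have h2 : C.f (e i) (e j) = if (i : ℕ) + (j : ℕ) + 1 = k then (s : ℍ[ℝ]) else 0 := hg i j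
  have h3 : (refl (Block.jordan k s x)).C i j =
    if (i : ℕ) + (j : ℕ) + 1 = k then ((s * (-1) ^ (k - 1) : ℝ) : ℍ[ℝ]) else 0 := rfl
  rw [h1, h2, h3]
  by_cases h : (i : ℕ) + (j : ℕ) + 1 = k
  · rw [if_pos h, if_pos h, smul_smul, ← Quaternion.coe_smul]
    congr 1
    have : k - 1 = (i : ℕ) + (j : ℕ) := by omega
    rw [this, smul_eq_mul, pow_add]
    ring
  · rw [if_neg h, if_neg h]; simp

theorem act_reflE (X : V →ₗ[K] V) {b : Block} (e : Fin b.size → V)
    (hb : ∃ k s x, b = Block.jordan k s x) (ha : BAct X b e) : BAct (-X) (refl b) (reflE e) := by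
  obtain ⟨k, s, x, rfl⟩ := hb
  obtain ⟨hk, hs, hact⟩ := ha
  refine ⟨hk, ?_, ?_⟩
  · apply mul_ne_zero hs
    exact pow_ne_zero _ (by norm_num)
  · intro a
    have h1 := hact a
    have e1 : reflE (b := Block.jordan k s x) e a = ((-1 : ℝ) ^ (a : ℕ)) • e a := rfl
    rw [LinearMap.neg_apply, e1, lin_rsmul, h1]
    by_cases h0 : 0 < (a : ℕ)
    · rw [dif_pos h0, dif_pos h0]
      have e2 : reflE (b := Block.jordan k s x) e (⟨(a : ℕ) - 1, by omega⟩ : Fin k) =
        ((-1 : ℝ) ^ ((a : ℕ) - 1)) • e (⟨(a : ℕ) - 1, by omega⟩ : Fin k) := rfl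
      rw [e2]
      have e3 : (-1 : ℝ) ^ (a : ℕ) = - (-1 : ℝ) ^ ((a : ℕ) - 1) := by
        obtain ⟨c, hc⟩ : ∃ c, (a : ℕ) = c + 1 := ⟨(a : ℕ) - 1, by omega⟩
        rw [hc, Nat.add_sub_cancel, pow_succ]
        ring
      rw [e3]
      module
    · rw [dif_neg h0, dif_neg h0]
      module

theorem XDec.reflect {C : HForm V} {X : V →ₗ[K] V} {m : ℕ} {blk : Fin m → Block}
    {e : (i : Fin m) → Fin (blk i).size → V} (hd : XDec C X blk e)
    (hb : ∀ i, ∃ k s x, blk i = Block.jordan k s x) :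
    XDec C (-X) (fun i => refl (blk i)) (fun i => reflE (e i)) := by
  refine ⟨?_, ?_, ?_, ?_⟩
  · simp only [span_reflE]
    exact hd.span
  · intro i; exact gram_reflE C (e i) (hb i) (hd.gram i)
  · intro i j hij a b
    unfold reflE
    rw [C.rsmul_right, C.rsmul_left, hd.orth i j hij]
    simp
  · intro i; exact act_reflE X (e i) (hb i) (hd.act i)

def rho9 : Fin 9 → Fin 9 := ![8, 5, 6, 7, 4, 1, 2, 3, 0]
def rho7 : Fin 7 → Fin 7 := ![6, 1, 2, 4, 3, 5, 0]

theorem InC.jordan {a b : ℝ} {t : Block} {c : Fin 9} (h : InC a b t c) :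
    ∃ k s x, t = Block.jordan k s x := by cases h <;> exact ⟨_, _, _, rfl⟩

theorem InP.jordan {a : ℝ} {t : Block} {c : Fin 7} (h : InP a t c) :
    ∃ k s x, t = Block.jordan k s x := by cases h <;> exact ⟨_, _, _, rfl⟩

theorem refl1 (s x : ℝ) : refl (.jordan 1 s x) = .jordan 1 s (-x) := by simp [refl]
theorem refl2 (s x : ℝ) : refl (.jordan 2 s x) = .jordan 2 (-s) (-x) := by simp [refl]
theorem refl3 (s x : ℝ) : refl (.jordan 3 s x) = .jordan 3 s (-x) := by simp [refl]

theorem InC.refl {a b : ℝ} {t : Block} {c : Fin 9} (h : InC a b t c) :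
    InC (-b) (-a) (Lib_c77211.refl t) (rho9 c) := by
  cases h with
  | R x h => rw [refl1]; exact InC.Pp _ (by linarith)
  | Ap => rw [refl1]; exact InC.Cp
  | Am => rw [refl1]; exact InC.Cm
  | Bb => rw [refl2, neg_neg]; exact InC.Bc
  | Q x h1 h2 => rw [refl1]; exact InC.Q _ (by linarith) (by linarith)
  | Cp => rw [refl1]; exact InC.Ap
  | Cm => rw [refl1]; exact InC.Am
  | Bc => rw [refl2]; exact InC.Bb
  | Pp x h => rw [refl1]; exact InC.R _ (by linarith)

theorem InP.refl {a : ℝ} {t : Block} {c : Fin 7} (h : InP a t c) :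
    InP (-a) (Lib_c77211.refl t) (rho7 c) := by
  cases h with
  | R x h => rw [refl1]; exact InP.Pp _ (by linarith)
  | Ap => rw [refl1]; exact InP.Ap
  | Am => rw [refl1]; exact InP.Am
  | Bm => rw [refl2, neg_neg]; exact InP.Bp
  | Bp => rw [refl2]; exact InP.Bm
  | T => rw [refl3]; exact InP.T
  | Pp x h => rw [refl1]; exact InP.R _ (by linarith)

theorem sa_neg {C : HForm V} {X : V →ₗ[K] V} (h : C.SA X) : C.SA (-X) := by
  intro x y
  rw [LinearMap.neg_apply, LinearMap.neg_apply, C.neg_left, C.neg_right, h]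

theorem J2_core {C F : HForm V} {X : V →ₗ[K] V} (hP : PData C F X) (h : C.SA X) {m : ℕ}
    {blk : Fin m → Block} {e : (i : Fin m) → Fin (blk i).size → V} (hd : XDec C X blk e)
    {a b : ℝ} (hab : a < b) {cl : Fin m → Fin 9} (hcl : ∀ i, InC a b (blk i) (cl i))
    {N : Fin 9 → ℕ} (hN : IsCount9 cl N) (hne : 1 ≤ N 6 + N 7) :
    N 6 + N 4 + N 3 + min (N 2) (N 0) ≤ N 8 + N 5 := by
  have h1 := J1_core hP.reflect (sa_neg h) (hd.reflect (fun i => (hcl i).jordan))
    (a := -b) (b := -a) (by linarith) (cl := fun i => rho9 (cl i)) (fun i => (hcl i).refl)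
    (N := fun c => N (rho9 c)) (by
      intro G
      rw [hN (fun c => G (rho9 c))]
      change N 0 * G 8 + N 1 * G 5 + N 2 * G 6 + N 3 * G 7 + N 4 * G 4 + N 5 * G 1 + N 6 * G 2 +
        N 7 * G 3 + N 8 * G 0 = N 8 * G 0 + N 5 * G 1 + N 6 * G 2 + N 7 * G 3 + N 4 * G 4 +
        N 1 * G 5 + N 2 * G 6 + N 3 * G 7 + N 0 * G 8
      ring) hne
  exact h1

theorem JP2_core {C F : HForm V} {X : V →ₗ[K] V} (hP : PData C F X) (h : C.SA X) {m : ℕ}
    {blk : Fin m → Block} {e : (i : Fin m) → Fin (blk i).size → V} (hd : XDec C X blk e)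
    {a : ℝ} {cl : Fin m → Fin 7} (hcl : ∀ i, InP a (blk i) (cl i))
    {N : Fin 7 → ℕ} (hN : IsCount7 cl N) :
    N 2 + min (N 3) (N 6) ≤ N 6 + N 1 := by
  have h1 := JP_core hP.reflect (sa_neg h) (hd.reflect (fun i => (hcl i).jordan))
    (a := -a) (cl := fun i => rho7 (cl i)) (fun i => (hcl i).refl)
    (N := fun c => N (rho7 c)) (by
      intro G
      rw [hN (fun c => G (rho7 c))]
      change N 0 * G 6 + N 1 * G 1 + N 2 * G 2 + N 3 * G 4 + N 4 * G 3 + N 5 * G 5 + N 6 * G 0 =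
        N 6 * G 0 + N 1 * G 1 + N 2 * G 2 + N 4 * G 3 + N 3 * G 4 + N 5 * G 5 + N 0 * G 6
      ring)
  exact h1

end Pool.Agent.Lib_c77211
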