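import Pool.Agent.Lib_c77211.Basic

open Quaternion MulOpposite Module Filter Topology

noncomputable section

namespace Pool.Agent.Lib_c77211

set_option linter.unusedSectionVars false

theorem exists_unit (c : Fin 3 → ℍ[ℝ]) :
    ∃ u : ℍ[ℝ], normSq u = 1 ∧ ∀ i, (star u * c i).re = 0 := by
  let L : ℍ[ℝ] →ₗ[ℝ] (Fin 3 → ℝ) :=
    { toFun := fun u i => (star u * c i).re
      map_add' := by
        intro u v
        funext i
        simp [add_mul]
      map_smul' := by
        intro r u
        funext i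
        simp only [Quaternion.star_smul, Algebra.smul_mul_assoc, Quaternion.re_smul, RingHom.id_apply, Pi.smul_apply] }
  have h : LinearMap.ker L ≠ ⊥ := by
    apply LinearMap.ker_ne_bot_of_finrank_lt
    rw [Quaternion.finrank_eq_four]
    simp
  obtain ⟨u, hu, hu0⟩ := (Submodule.ne_bot_iff _).mp h
  have hn : 0 < normSq u := by
    rcases (Quaternion.normSq_nonneg (a := u)).lt_or_eq with h | h
    · exact h
    · exact absurd (Quaternion.normSq_eq_zero.mp h.symm) hu0
  refine ⟨(Real.sqrt (normSq u))⁻¹ • u, ?_, ?_⟩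
  · rw [Quaternion.normSq_smul, inv_pow, Real.sq_sqrt hn.le]
    exact inv_mul_cancel₀ hn.ne'
  · intro i
    have := congrFun (LinearMap.mem_ker.mp hu) i
    simp only [L, LinearMap.coe_mk, AddHom.coe_mk, Pi.zero_apply] at this
    rw [Quaternion.star_smul, Algebra.smul_mul_assoc, Quaternion.re_smul, this]
    simp

section

variable {V : Type*} [AddCommGroup V] [Module K V]

/-- The basic convexity trick. -/
theorem trick (F1 F2 F3 : HForm V) (x y : V) :
    ∃ u : ℍ[ℝ], normSq u = 1 ∧ F1.q (op u • x + y) = F1.q x + F1.q y ∧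
      F2.q (op u • x + y) = F2.q x + F2.q y ∧ F3.q (op u • x + y) = F3.q x + F3.q y := by
  obtain ⟨u, hu, h⟩ := exists_unit ![F1.f x y, F2.f x y, F3.f x y]
  have h0 := h 0
  have h1 := h 1
  have h2 := h 2
  simp at h0 h1 h2
  refine ⟨u, hu, ?_, ?_, ?_⟩
  · rw [HForm.q_add, HForm.q_smul, HForm.smul_left, hu]
    simp; linarith
  · rw [HForm.q_add, HForm.q_smul, HForm.smul_left, hu]
    simp; linarith
  · rw [HForm.q_add, HForm.q_smul, HForm.smul_left, hu]
    simp; linarith

theorem q_real (F : HForm V) (r : ℝ) (x : V) : F.q (op (r : ℍ[ℝ]) • x) = r ^ 2 * F.q x := by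
  rw [HForm.q_smul, Quaternion.normSq_coe]

/-- coordinates -/
def coordForm {n : ℕ} (b : Basis (Fin n) K V) : HForm V where
  f x y := ∑ i, star (unop (b.repr x i)) * unop (b.repr y i)
  add_right x y z := by
    simp [mul_add, Finset.sum_add_distrib]
  smul_right x a y := by
    simp [Finset.sum_mul, mul_assoc]
  herm x y := by
    simp [star_sum]

theorem coordForm_q {n : ℕ} (b : Basis (Fin n) K V) (x : V) :
    (coordForm b).q x = ∑ i, normSq (unop (b.repr x i)) := by
  unfold HForm.q coordForm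
  simp only
  have : ∀ i, star (unop (b.repr x i)) * unop (b.repr x i) = ((normSq (unop (b.repr x i)) : ℝ) : ℍ[ℝ]) :=
    fun i => Quaternion.star_mul_self _
  simp_rw [this]
  have h2 : (∑ i, ((normSq (unop (b.repr x i)) : ℝ) : ℍ[ℝ])) =
      ((∑ i, normSq (unop (b.repr x i)) : ℝ) : ℍ[ℝ]) := by
    exact (map_sum (algebraMap ℝ ℍ[ℝ]) (fun i => normSq (unop (b.repr x i))) Finset.univ).symm
  rw [h2]
  rfl

theorem coordForm_pos {n : ℕ} (b : Basis (Fin n) K V) (x : V) (hx : x ≠ 0) :
    0 < (coordForm b).q x := by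
  rw [coordForm_q]
  apply Finset.sum_pos'
  · intro i _; exact Quaternion.normSq_nonneg
  · by_contra hcon
    push Not at hcon
    apply hx
    rw [← b.repr.map_eq_zero_iff]
    ext i
    have := hcon i (Finset.mem_univ i)
    have h2 := Quaternion.normSq_eq_zero.mp (le_antisymm this Quaternion.normSq_nonneg)
    simpa using h2

/-- evaluation map from coordinates -/
def ev {n : ℕ} (b : Basis (Fin n) K V) (c : Fin n → K) : V := ∑ i, c i • b i

theorem ev_ne {n : ℕ} (b : Basis (Fin n) K V) {c : Fin n → K} (hc : c ≠ 0) : ev b c ≠ 0 := by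
  intro h
  apply hc
  have : b.equivFun.symm c = 0 := by
    rw [Basis.equivFun_symm_apply]; exact h
  exact (LinearEquiv.map_eq_zero_iff _).mp this

theorem ev_surj {n : ℕ} (b : Basis (Fin n) K V) (x : V) : ∃ c, ev b c = x :=
  ⟨b.equivFun x, by rw [ev, ← Basis.equivFun_symm_apply, LinearEquiv.symm_apply_apply]⟩

theorem ev_rsmul {n : ℕ} (b : Basis (Fin n) K V) (r : ℝ) (c : Fin n → K) :
    ev b (r • c) = op (r : ℍ[ℝ]) • ev b c := by
  unfold ev
  rw [Finset.smul_sum]
  apply Finset.sum_congr rfl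
  intro i _
  rw [Pi.smul_apply, smul_smul]
  congr 1
  have : r • c i = op (r • unop (c i)) := rfl
  rw [this, ← Quaternion.coe_mul_eq_smul, Quaternion.coe_commutes]
  rfl

theorem ev_op {n : ℕ} (b : Basis (Fin n) K V) (u : ℍ[ℝ]) (c d : Fin n → K) :
    op u • ev b c + ev b d = ev b (fun i => op u * c i + d i) := by
  unfold ev
  rw [Finset.smul_sum, ← Finset.sum_add_distrib]
  apply Finset.sum_congr rfl
  intro i _
  rw [smul_smul, add_smul]

theorem q_ev_continuous {n : ℕ} (b : Basis (Fin n) K V) (F : HForm V) :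
    Continuous (fun c : Fin n → K => F.q (ev b c)) := by
  have : (fun c : Fin n → K => F.q (ev b c)) =
      fun c => (∑ i, ∑ j, star (unop (c i)) * F.f (b i) (b j) * unop (c j)).re := by
    funext c
    unfold HForm.q ev
    rw [F.sum_left]
    congr 1
    apply Finset.sum_congr rfl
    intro i _
    rw [F.sum_right]
    apply Finset.sum_congr rfl
    intro j _
    have h1 := F.smul_right (c i • b i) (unop (c j)) (b j)
    have h2 := F.smul_left (unop (c i)) (b i) (b j)
    rw [op_unop] at h1 h2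
    rw [h1, h2]
  rw [this]
  refine Quaternion.continuous_re.comp ?_
  refine continuous_finsetSum _ fun i _ => continuous_finsetSum _ fun j _ => ?_
  refine Continuous.mul (Continuous.mul ?_ continuous_const) ?_
  · exact continuous_star.comp (continuous_unop.comp (continuous_apply i))
  · exact continuous_unop.comp (continuous_apply j)

end

section

variable {V : Type*} [AddCommGroup V] [Module K V] [FiniteDimensional K V]

/-- ratio bound against a positive definite form -/
theorem ratio_bound (F G : HForm V) (hF : ∀ x, x ≠ 0 → 0 < F.q x) :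
    ∃ B : ℝ, 0 < B ∧ ∀ x, |G.q x| ≤ B * F.q x := by
  let b := Module.finBasis K V
  set n := finrank K V
  by_cases hn : ∃ c : Fin n → K, c ≠ 0
  · obtain ⟨c0, hc0⟩ := hn
    have hS : IsCompact (Metric.sphere (0 : Fin n → K) 1) := isCompact_sphere _ _
    have hcont : ContinuousOn (fun c : Fin n → K => |G.q (ev b c)| / F.q (ev b c))
        (Metric.sphere (0 : Fin n → K) 1) := by
      apply ContinuousOn.div
      · exact (continuous_abs.comp (q_ev_continuous b G)).continuousOn
      · exact (q_ev_continuous b F).continuousOn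
      · intro c hc
        apply (hF _ (ev_ne b _)).ne'
        rintro rfl
        simp at hc
    obtain ⟨B, hB⟩ := hS.exists_bound_of_continuousOn hcont
    refine ⟨max B 1, by positivity, ?_⟩
    intro x
    obtain ⟨c, rfl⟩ := ev_surj b x
    by_cases hc : c = 0
    · subst hc
      have : ev b (0 : Fin n → K) = 0 := by simp [ev]
      rw [this]; simp
    · have hnorm : 0 < ‖c‖ := norm_pos_iff.mpr hc
      have h1 := hB (‖c‖⁻¹ • c) (by simp [norm_smul, hnorm.ne'])
      rw [ev_rsmul, q_real, q_real] at h1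
      have hpos := hF _ (ev_ne b hc)
      have hi : 0 < ‖c‖⁻¹ ^ 2 := by positivity
      rw [abs_mul, abs_of_pos hi, mul_div_mul_left _ _ hi.ne', Real.norm_eq_abs, abs_div, abs_abs,
        abs_of_pos hpos, div_le_iff₀ hpos] at h1
      calc _ ≤ B * F.q (ev b c) := h1
        _ ≤ _ := by gcongr; exact le_max_left _ _
  · push Not at hn
    refine ⟨1, one_pos, ?_⟩
    intro x
    obtain ⟨c, rfl⟩ := ev_surj b x
    rw [hn c]
    have : ev b (0 : Fin n → K) = 0 := by simp [ev]
    rw [this]; simp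

theorem pos_perturb (F G : HForm V) (hF : ∀ x, x ≠ 0 → 0 < F.q x) :
    ∃ δ : ℝ, 0 < δ ∧ ∀ ε : ℝ, |ε| < δ → ∀ x, x ≠ 0 → 0 < F.q x + ε * G.q x := by
  obtain ⟨B, hB, h⟩ := ratio_bound F G hF
  refine ⟨B⁻¹, by positivity, ?_⟩
  intro ε hε x hx
  have h1 := h x
  have h2 := hF x hx
  have h3 : |ε * G.q x| ≤ |ε| * (B * F.q x) := by
    rw [abs_mul]; gcongr
  have h4 : |ε| * (B * F.q x) < F.q x := by
    have : |ε| * B < 1 := by
      have := mul_lt_mul_of_pos_right hε hB
      rwa [inv_mul_cancel₀ hB.ne'] at this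
    nlinarith
  have := abs_lt.mp (lt_of_le_of_lt h3 h4)
  linarith [this.1]

/-- strict S-lemma for three forms -/
theorem strict_S (F1 F2 F3 : HForm V)
    (h : ∀ x, x ≠ 0 → F1.q x = 0 → F2.q x = 0 → 0 < F3.q x) :
    ∃ a b c : ℝ, 0 ≤ c ∧ ∀ x, x ≠ 0 → 0 < a * F1.q x + b * F2.q x + c * F3.q x := by
  let b := Module.finBasis K V
  set n := finrank K V
  by_cases hn : ∃ c : Fin n → K, c ≠ 0
  swap
  · push Not at hn
    refine ⟨0, 0, 0, le_rfl, ?_⟩
    intro x hx
    obtain ⟨c, rfl⟩ := ev_surj b x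
    rw [hn c] at hx
    exact absurd (by simp [ev]) hx
  obtain ⟨c0, hc0⟩ := hn
  set S := Metric.sphere (0 : Fin n → K) 1 with hSdef
  have hS : IsCompact S := isCompact_sphere _ _
  have hSne : ∀ c ∈ S, c ≠ 0 := by
    rintro c hc rfl
    simp [hSdef] at hc
  set I := coordForm b
  have hI : ∀ x, x ≠ 0 → 0 < I.q x := coordForm_pos b
  -- epsilon
  obtain ⟨ε, hε, hεS⟩ : ∃ ε : ℝ, 0 < ε ∧ ∀ c ∈ S, F1.q (ev b c) = 0 → F2.q (ev b c) = 0 →
      ε * I.q (ev b c) < F3.q (ev b c) := by
    set T := S ∩ {c | F1.q (ev b c) = 0} ∩ {c | F2.q (ev b c) = 0} with hT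
    have hTc : IsCompact T := by
      apply IsCompact.inter_right
      · apply IsCompact.inter_right hS
        exact isClosed_eq (q_ev_continuous b F1) continuous_const
      · exact isClosed_eq (q_ev_continuous b F2) continuous_const
    by_cases hTne : T.Nonempty
    · have hcont : ContinuousOn (fun c : Fin n → K => F3.q (ev b c) / I.q (ev b c)) T := by
        apply ContinuousOn.div
        · exact (q_ev_continuous b F3).continuousOn
        · exact (q_ev_continuous b I).continuousOn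
        · intro c hc
          exact (hI _ (ev_ne b (hSne c hc.1.1))).ne'
      obtain ⟨c1, hc1, hmin⟩ := hTc.exists_isMinOn hTne hcont
      have hpos1 := hI _ (ev_ne b (hSne c1 hc1.1.1))
      have hpos3 := h _ (ev_ne b (hSne c1 hc1.1.1)) hc1.1.2 hc1.2
      have hm : 0 < F3.q (ev b c1) / I.q (ev b c1) := div_pos hpos3 hpos1
      refine ⟨(F3.q (ev b c1) / I.q (ev b c1)) / 2, by positivity, ?_⟩
      intro c hc h1 h2
      have h3 := hmin (show c ∈ T from ⟨⟨hc, h1⟩, h2⟩)
      simp only [Set.mem_setOf_eq] at h3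
      have hposc := hI _ (ev_ne b (hSne c hc))
      rw [le_div_iff₀ hposc] at h3
      have : 0 < F3.q (ev b c1) / I.q (ev b c1) * I.q (ev b c) := by positivity
      linarith
    · refine ⟨1, one_pos, ?_⟩
      intro c hc h1 h2
      exact absurd ⟨c, ⟨hc, h1⟩, h2⟩ hTne
  set F3' : HForm V := F3 + (-ε) • I with hF3'
  have hF3q : ∀ x, F3'.q x = F3.q x - ε * I.q x := by
    intro x; simp [hF3']; ring
  let g : (Fin n → K) → ℝ × ℝ × ℝ := fun c => (F1.q (ev b c), F2.q (ev b c), F3'.q (ev b c))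
  have hgc : Continuous g :=
    (q_ev_continuous b F1).prodMk ((q_ev_continuous b F2).prodMk (q_ev_continuous b F3'))
  have hg_smul : ∀ (r : ℝ) (c : Fin n → K), g (r • c) = r ^ 2 • g c := by
    intro r c
    simp only [g, ev_rsmul, q_real]
    rfl
  have hgpos : ∀ c, c ≠ 0 → F1.q (ev b c) = 0 → F2.q (ev b c) = 0 → 0 < F3'.q (ev b c) := by
    intro c hc h1 h2
    have hnorm : 0 < ‖c‖ := norm_pos_iff.mpr hc
    have hmem : ‖c‖⁻¹ • c ∈ S := by simp [hSdef, norm_smul, hnorm.ne']
    have h3 := hεS _ hmem (by rw [ev_rsmul, q_real, h1, mul_zero])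
      (by rw [ev_rsmul, q_real, h2, mul_zero])
    rw [ev_rsmul, q_real, q_real] at h3
    have hi : 0 < ‖c‖⁻¹ ^ 2 := by positivity
    rw [hF3q]
    have : ‖c‖⁻¹ ^ 2 * (ε * I.q (ev b c)) < ‖c‖⁻¹ ^ 2 * F3.q (ev b c) := by linarith
    have := lt_of_mul_lt_mul_left this hi.le
    linarith
  have hg0 : ∀ c, c ≠ 0 → g c ≠ 0 := by
    intro c hc h0
    simp only [g, Prod.mk_eq_zero] at h0
    have := hgpos c hc h0.1 h0.2.1
    linarith [h0.2.2]
  -- lower bound
  obtain ⟨δ, hδ, hδS⟩ : ∃ δ : ℝ, 0 < δ ∧ ∀ c, δ * ‖c‖ ^ 2 ≤ ‖g c‖ := by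
    have hSn : S.Nonempty := by
      refine ⟨‖c0‖⁻¹ • c0, ?_⟩
      have hnorm : 0 < ‖c0‖ := norm_pos_iff.mpr hc0
      simp [hSdef, norm_smul, hnorm.ne']
    obtain ⟨c1, hc1, hmin⟩ := hS.exists_isMinOn hSn (hgc.norm.continuousOn)
    have hpos : 0 < ‖g c1‖ := norm_pos_iff.mpr (hg0 c1 (hSne c1 hc1))
    refine ⟨‖g c1‖, hpos, ?_⟩
    intro c
    by_cases hc : c = 0
    · subst hc; simp
    have hnorm : 0 < ‖c‖ := norm_pos_iff.mpr hc
    have hmem : ‖c‖⁻¹ • c ∈ S := by simp [hSdef, norm_smul, hnorm.ne']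
    have h1 := hmin hmem
    simp only [Set.mem_setOf_eq, hg_smul, norm_smul] at h1
    have hi : ‖(‖c‖⁻¹ ^ 2 : ℝ)‖ = ‖c‖⁻¹ ^ 2 := by
      rw [Real.norm_eq_abs, abs_of_nonneg (by positivity)]
    rw [hi] at h1
    calc ‖g c1‖ * ‖c‖ ^ 2 ≤ (‖c‖⁻¹ ^ 2 * ‖g c‖) * ‖c‖ ^ 2 := by gcongr
      _ = ‖g c‖ := by field_simp
  have hclosed : IsClosed (Set.range g) := by
    have htend : Tendsto g (cocompact _) (cocompact _) := by
      rw [← Metric.cobounded_eq_cocompact (α := ℝ × ℝ × ℝ), ← comap_norm_atTop (E := ℝ × ℝ × ℝ),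
        tendsto_comap_iff]
      have h1 : Tendsto (fun c : Fin n → K => δ * ‖c‖ ^ 2) (cocompact _) atTop := by
        apply Tendsto.const_mul_atTop hδ
        exact (tendsto_pow_atTop (by norm_num)).comp (tendsto_norm_cocompact_atTop (E := Fin n → K))
      exact tendsto_atTop_mono hδS h1
    have : IsProperMap g := isProperMap_iff_tendsto_cocompact.mpr ⟨hgc, htend⟩
    exact this.isClosedMap.isClosed_range
  have hconv : Convex ℝ (Set.range g) := by
    rintro _ ⟨c1, rfl⟩ _ ⟨c2, rfl⟩ s t hs ht hst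
    obtain ⟨u, hu, e1, e2, e3⟩ := trick F1 F2 F3' (ev b (Real.sqrt s • c1)) (ev b (Real.sqrt t • c2))
    refine ⟨fun i => op u * (Real.sqrt s • c1) i + (Real.sqrt t • c2) i, ?_⟩
    simp only [g, ← ev_op]
    rw [e1, e2, e3]
    simp only [ev_rsmul, q_real, Real.sq_sqrt hs, Real.sq_sqrt ht]
    rfl
  have hnot : ((0, 0, -1) : ℝ × ℝ × ℝ) ∉ Set.range g := by
    rintro ⟨c, hc⟩
    simp only [g, Prod.mk.injEq] at hc
    by_cases hc0 : c = 0
    · subst hc0
      have : ev b (0 : Fin n → K) = 0 := by simp [ev]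
      rw [this] at hc
      simp at hc
    · have := hgpos c hc0 hc.1 hc.2.1
      linarith [hc.2.2]
  obtain ⟨φ, u, hu1, hu2⟩ := geometric_hahn_banach_point_closed hconv hclosed hnot
  have hg00 : g 0 = 0 := by
    have : ev b (0 : Fin n → K) = 0 := by simp [ev]
    simp [g, this]
  have hu0 : u < 0 := by
    have := hu2 (g 0) ⟨0, rfl⟩
    rwa [hg00, map_zero] at this
  have hφ : ∀ p : ℝ × ℝ × ℝ, φ p = φ (1, 0, 0) * p.1 + φ (0, 1, 0) * p.2.1 + φ (0, 0, 1) * p.2.2 := by
    intro p
    have : p = p.1 • ((1, 0, 0) : ℝ × ℝ × ℝ) + p.2.1 • ((0, 1, 0) : ℝ × ℝ × ℝ) +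
        p.2.2 • ((0, 0, 1) : ℝ × ℝ × ℝ) := by
      ext <;> simp
    conv_lhs => rw [this]
    simp only [map_add, map_smul, smul_eq_mul]
    ring
  have hnonneg : ∀ c, 0 ≤ φ (g c) := by
    intro c
    by_contra hcon
    push Not at hcon
    -- scale
    obtain ⟨N, hN⟩ := exists_nat_gt (u / φ (g c))
    have h1 := hu2 (g (Real.sqrt (N : ℝ) • c)) ⟨_, rfl⟩
    rw [hg_smul, Real.sq_sqrt (Nat.cast_nonneg N), map_smul, smul_eq_mul] at h1
    rw [div_lt_iff_of_neg hcon] at hN
    linarith
  have hc3 : 0 < φ (0, 0, 1) := by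
    have h1 : φ (0, 0, -1) < 0 := hu1.trans hu0
    rw [hφ] at h1
    simp at h1
    exact h1
  refine ⟨φ (1, 0, 0), φ (0, 1, 0), φ (0, 0, 1), hc3.le, ?_⟩
  intro x hx
  obtain ⟨c, rfl⟩ := ev_surj b x
  have h1 := hnonneg c
  rw [hφ] at h1
  simp only [g, hF3q] at h1
  have h2 : 0 < φ (0, 0, 1) * (ε * I.q (ev b c)) := by
    have := hI _ hx
    positivity
  linarith

/-- no semidefinite nonzero combination -/
def Indef (C D : HForm V) : Prop := ∀ α β : ℝ, (α ≠ 0 ∨ β ≠ 0) → ∃ x, α * C.q x + β * D.q x < 0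

theorem exists_posForm : ∃ I : HForm V, ∀ x, x ≠ 0 → 0 < I.q x :=
  ⟨coordForm (Module.finBasis K V), coordForm_pos _⟩

theorem limit_arg (C D Q I : HForm V) (B : ℝ) (a b : ℕ → ℝ) (ha : ∀ k, |a k| ≤ B)
    (hb : ∀ k, |b k| ≤ B)
    (h : ∀ k x, 0 ≤ a k * C.q x + b k * D.q x + Q.q x + (1 / ((k : ℝ) + 1)) * I.q x) :
    ∃ α β : ℝ, ∀ x, 0 ≤ α * C.q x + β * D.q x + Q.q x := by
  have hK : IsCompact (Set.Icc (-B) B ×ˢ Set.Icc (-B) B) := isCompact_Icc.prod isCompact_Icc
  obtain ⟨p, _, φ, hφ, hlim⟩ := hK.tendsto_subseq (x := fun k => (a k, b k))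
    (fun k => ⟨abs_le.mp (ha k), abs_le.mp (hb k)⟩)
  refine ⟨p.1, p.2, fun x => ?_⟩
  have h1 : Tendsto (fun k => a (φ k)) atTop (𝓝 p.1) := (continuous_fst.tendsto p).comp hlim
  have h2 : Tendsto (fun k => b (φ k)) atTop (𝓝 p.2) := (continuous_snd.tendsto p).comp hlim
  have h3 : Tendsto (fun k => (1 / (((φ k : ℕ) : ℝ) + 1))) atTop (𝓝 0) :=
    tendsto_one_div_add_atTop_nhds_zero_nat.comp hφ.tendsto_atTop
  have h4 : Tendsto (fun k => a (φ k) * C.q x + b (φ k) * D.q x + Q.q x +
      (1 / (((φ k : ℕ) : ℝ) + 1)) * I.q x) atTop (𝓝 (p.1 * C.q x + p.2 * D.q x + Q.q x + 0 * I.q x)) :=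
    (((h1.mul_const _).add (h2.mul_const _)).add_const _).add (h3.mul_const _)
  have h5 := ge_of_tendsto' h4 (fun k => h (φ k) x)
  simpa using h5

theorem surj_of_indef (C D : HForm V) (hI : Indef C D) (s t : ℝ) :
    ∃ x, C.q x = s ∧ D.q x = t := by
  by_cases hst : s = 0 ∧ t = 0
  · exact ⟨0, by simp [hst.1], by simp [hst.2]⟩
  have hpos : 0 < s ^ 2 + t ^ 2 := by
    rcases not_and_or.mp hst with h | h
    · positivity
    · positivity
  by_cases hex : ∃ x, t * C.q x = s * D.q x ∧ 0 < s * C.q x + t * D.q x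
  · obtain ⟨x, h1, h2⟩ := hex
    set l := (s * C.q x + t * D.q x) / (s ^ 2 + t ^ 2) with hl
    have hlpos : 0 < l := by positivity
    have hC : C.q x = l * s := by
      rw [hl]; field_simp; linear_combination t * h1
    have hD : D.q x = l * t := by
      rw [hl]; field_simp; linear_combination (-s) * h1
    refine ⟨op ((Real.sqrt l)⁻¹ : ℍ[ℝ]) • x, ?_, ?_⟩
    · have := q_real C (Real.sqrt l)⁻¹ x
      push_cast at this
      rw [this, hC, inv_pow, Real.sq_sqrt hlpos.le]
      field_simp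
    · have := q_real D (Real.sqrt l)⁻¹ x
      push_cast at this
      rw [this, hD, inv_pow, Real.sq_sqrt hlpos.le]
      field_simp
  · exfalso
    push Not at hex
    obtain ⟨I, hIpos⟩ := exists_posForm (V := V)
    set F1 : HForm V := t • C + (-s) • D with hF1
    set F3 : HForm V := (-s) • C + (-t) • D with hF3
    have hF1q : ∀ x, F1.q x = t * C.q x - s * D.q x := by intro x; simp [hF1]; ring
    have hF3q : ∀ x, F3.q x = -(s * C.q x + t * D.q x) := by intro x; simp [hF3]; ring
    have hne : (t ≠ 0 ∨ -s ≠ 0) := by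
      by_contra hcon
      push Not at hcon
      apply hst
      exact ⟨by linarith [hcon.2], hcon.1⟩
    obtain ⟨xm, hxm⟩ := hI t (-s) hne
    have hne' : (-t ≠ 0 ∨ s ≠ 0) := by
      rcases hne with h | h
      · left; simpa using h
      · right; simpa using h
    obtain ⟨xp, hxp⟩ := hI (-t) s hne'
    have hm : F1.q xm < 0 := by rw [hF1q]; linarith
    have hp : 0 < F1.q xp := by rw [hF1q]; linarith
    have hxp0 : xp ≠ 0 := by rintro rfl; simp at hp
    have hxm0 : xm ≠ 0 := by rintro rfl; simp at hm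
    have hk : ∀ k : ℕ, ∃ a : ℝ, ∀ x, 0 ≤ a * F1.q x + F3.q x + (1 / ((k : ℝ) + 1)) * I.q x := by
      intro k
      have hkpos : 0 < 1 / ((k : ℝ) + 1) := by positivity
      obtain ⟨a, b, c, hc, habc⟩ := strict_S F1 F1 (F3 + (1 / ((k : ℝ) + 1)) • I) (by
        intro x hx h1 _
        have h2 := hex x (by rw [hF1q] at h1; linarith)
        have h3 := hIpos x hx
        simp only [HForm.add_q, HForm.smul_q, hF3q]
        have : 0 < 1 / ((k : ℝ) + 1) * I.q x := by positivity
        linarith)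
      have hcpos : 0 < c := by
        rcases hc.lt_or_eq with h | h
        · exact h
        · exfalso
          subst h
          have h1 := habc xm hxm0
          have h2 := habc xp hxp0
          simp only [zero_mul, add_zero] at h1 h2
          have h3 : 0 < (a + b) * F1.q xm := by linarith
          have h4 : 0 < (a + b) * F1.q xp := by linarith
          have h5 : 0 < a + b := by
            by_contra hcon
            push Not at hcon
            nlinarith
          nlinarith
      refine ⟨(a + b) / c, fun x => ?_⟩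
      by_cases hx : x = 0
      · subst hx; simp
      have h1 := habc x hx
      simp only [HForm.add_q, HForm.smul_q] at h1
      have h2 : (a + b) / c * F1.q x + F3.q x + 1 / ((k : ℝ) + 1) * I.q x =
        (a * F1.q x + b * F1.q x + c * (F3.q x + 1 / ((k : ℝ) + 1) * I.q x)) / c := by
        field_simp
        ring
      rw [h2]
      positivity
    choose a ha using hk
    have hle1 : ∀ k : ℕ, (1 / ((k : ℝ) + 1)) ≤ 1 := by
      intro k
      rw [div_le_one (by positivity)]
      have : (0 : ℝ) ≤ k := Nat.cast_nonneg k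
      linarith
    have hge0 : ∀ k : ℕ, 0 ≤ (1 / ((k : ℝ) + 1)) := by intro k; positivity
    have hbd : ∀ k, |a k| ≤ max ((|F3.q xp| + I.q xp) / F1.q xp) ((|F3.q xm| + I.q xm) / (-F1.q xm)) := by
      intro k
      rw [abs_le]
      have hIp := hIpos xp hxp0
      have hIm := hIpos xm hxm0
      constructor
      · have h1 := ha k xp
        have h2 : -(a k) ≤ (|F3.q xp| + I.q xp) / F1.q xp := by
          rw [le_div_iff₀ hp]
          have := le_abs_self (F3.q xp)
          have := mul_le_of_le_one_left hIp.le (hle1 k)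
          linarith
        have := le_max_left ((|F3.q xp| + I.q xp) / F1.q xp) ((|F3.q xm| + I.q xm) / (-F1.q xm))
        linarith
      · have h1 := ha k xm
        have h2 : a k ≤ (|F3.q xm| + I.q xm) / (-F1.q xm) := by
          rw [le_div_iff₀ (by linarith)]
          have := le_abs_self (F3.q xm)
          have := mul_le_of_le_one_left hIm.le (hle1 k)
          linarith
        exact h2.trans (le_max_right _ _)
    obtain ⟨α, β, hαβ⟩ := limit_arg F1 F1 F3 I _ a (fun _ => 0) hbd (by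
      intro k; simp only [abs_zero]
      exact (abs_nonneg _).trans (hbd k)) (by
      intro k x
      have := ha k x
      simpa using this)
    have hcomb : ∀ x, 0 ≤ ((α + β) * t - s) * C.q x + (-(α + β) * s - t) * D.q x := by
      intro x
      have := hαβ x
      rw [hF1q, hF3q] at this
      linarith
    have hne2 : ((α + β) * t - s ≠ 0 ∨ -(α + β) * s - t ≠ 0) := by
      by_contra hcon
      push Not at hcon
      have h1 : (α + β) * t = s := by linarith [hcon.1]
      have h2 : -(α + β) * s = t := by linarith [hcon.2]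
      have : s ^ 2 + t ^ 2 = 0 := by
        have e1 : s ^ 2 = (α + β) * t * s := by rw [h1]; ring
        have e2 : t ^ 2 = -(α + β) * s * t := by rw [h2]; ring
        rw [e1, e2]; ring
      linarith
    obtain ⟨x, hx⟩ := hI _ _ hne2
    linarith [hcomb x]

/-- non-strict S-lemma -/
theorem nonstrict_S (C D Q : HForm V) (hI : Indef C D)
    (h : ∀ x, C.q x = 0 → D.q x = 0 → 0 ≤ Q.q x) :
    ∃ β γ : ℝ, ∀ x, 0 ≤ Q.q x + β * D.q x + γ * C.q x := by
  obtain ⟨I, hIpos⟩ := exists_posForm (V := V)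
  obtain ⟨x1, hx1C, hx1D⟩ := surj_of_indef C D hI 1 0
  obtain ⟨x2, hx2C, hx2D⟩ := surj_of_indef C D hI (-1) 0
  obtain ⟨x3, hx3C, hx3D⟩ := surj_of_indef C D hI 0 1
  obtain ⟨x4, hx4C, hx4D⟩ := surj_of_indef C D hI 0 (-1)
  have hk : ∀ k : ℕ, ∃ a b : ℝ, ∀ x, 0 ≤ a * C.q x + b * D.q x + Q.q x + (1 / ((k : ℝ) + 1)) * I.q x := by
    intro k
    have hkpos : 0 < 1 / ((k : ℝ) + 1) := by positivity
    obtain ⟨a, b, c, hc, habc⟩ := strict_S C D (Q + (1 / ((k : ℝ) + 1)) • I) (by
      intro x hx h1 h2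
      have h3 := hIpos x hx
      have h4 := h x h1 h2
      simp only [HForm.add_q, HForm.smul_q]
      have : 0 < 1 / ((k : ℝ) + 1) * I.q x := by positivity
      linarith)
    have hcpos : 0 < c := by
      rcases hc.lt_or_eq with h' | h'
      · exact h'
      · exfalso
        subst h'
        by_cases hab : a ≠ 0 ∨ b ≠ 0
        · obtain ⟨x, hx⟩ := hI a b hab
          have hx0 : x ≠ 0 := by rintro rfl; simp at hx
          have := habc x hx0
          linarith
        · push Not at hab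
          have hx0 : x1 ≠ 0 := by rintro rfl; simp at hx1C
          have := habc x1 hx0
          rw [hab.1, hab.2] at this
          simp at this
    refine ⟨a / c, b / c, fun x => ?_⟩
    by_cases hx : x = 0
    · subst hx; simp
    have h1 := habc x hx
    simp only [HForm.add_q, HForm.smul_q] at h1
    have h2 : a / c * C.q x + b / c * D.q x + Q.q x + 1 / ((k : ℝ) + 1) * I.q x =
      (a * C.q x + b * D.q x + c * (Q.q x + 1 / ((k : ℝ) + 1) * I.q x)) / c := by
      field_simp
      ring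
    rw [h2]
    positivity
  choose a b hab using hk
  have hle1 : ∀ k : ℕ, (1 / ((k : ℝ) + 1)) ≤ 1 := by
    intro k
    rw [div_le_one (by positivity)]
    have : (0 : ℝ) ≤ k := Nat.cast_nonneg k
    linarith
  have hIn : ∀ x, 0 ≤ I.q x := by
    intro x
    by_cases hx : x = 0
    · subst hx; simp
    · exact (hIpos x hx).le
  set B := (|Q.q x1| + I.q x1) + (|Q.q x2| + I.q x2) + (|Q.q x3| + I.q x3) + (|Q.q x4| + I.q x4) with hB
  have hp : ∀ x, 0 ≤ |Q.q x| + I.q x := fun x => add_nonneg (abs_nonneg _) (hIn x)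
  have key : ∀ (k : ℕ) (x : V), Q.q x + (1 / ((k : ℝ) + 1)) * I.q x ≤ |Q.q x| + I.q x := by
    intro k x
    have := le_abs_self (Q.q x)
    have := mul_le_of_le_one_left (hIn x) (hle1 k)
    linarith
  obtain ⟨α, β, hαβ⟩ := limit_arg C D Q I B a b (by
    intro k
    rw [abs_le]
    have h1 := hab k x1
    have h2 := hab k x2
    rw [hx1C, hx1D] at h1
    rw [hx2C, hx2D] at h2
    have := key k x1
    have := key k x2
    constructor
    · linarith [hp x2, hp x3, hp x4]
    · linarith [hp x1, hp x3, hp x4]) (by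
    intro k
    rw [abs_le]
    have h1 := hab k x3
    have h2 := hab k x4
    rw [hx3C, hx3D] at h1
    rw [hx4C, hx4D] at h2
    have := key k x3
    have := key k x4
    constructor
    · linarith [hp x1, hp x2, hp x4]
    · linarith [hp x1, hp x2, hp x3]) hab
  refine ⟨β, α, fun x => ?_⟩
  have := hαβ x
  linarith

/-- definite combination from absence of common null vectors -/
theorem def_comb (A B : HForm V) (h : ∀ x, x ≠ 0 → A.q x = 0 → B.q x ≠ 0) :
    ∃ a b : ℝ, ∀ x, x ≠ 0 → 0 < a * A.q x + b * B.q x := by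
  obtain ⟨a, b, c, _, habc⟩ := strict_S A B 0 (by
    intro x hx h1 h2
    exact absurd h2 (h x hx h1))
  exact ⟨a, b, fun x hx => by simpa using habc x hx⟩

end

end Pool.Agent.Lib_c77211
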