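import Pool.Agent.Lib_c77211.XDec

open Quaternion MulOpposite Module

noncomputable section

namespace Pool.Agent.Lib_c77211

set_option linter.unusedSectionVars false
set_option linter.deprecated false

universe u

section

variable {V : Type u} [AddCommGroup V] [Module K V] [FiniteDimensional K V] [Module ℝ V]
  [IsScalarTower ℝ K V]

/-- `X - l` -/
def shift (X : V →ₗ[K] V) (l : ℝ) : V →ₗ[K] V := X - l • LinearMap.id

theorem shift_apply (X : V →ₗ[K] V) (l : ℝ) (v : V) : shift X l v = X v - l • v := rfl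

theorem shift_sa {C : HForm V} {X : V →ₗ[K] V} (h : C.SA X) (l : ℝ) : C.SA (shift X l) := by
  intro x y
  rw [shift_apply, shift_apply, C.sub_left, C.sub_right, h, C.rsmul_left, C.rsmul_right]

theorem sa_real {C : HForm V} {T : V →ₗ[K] V} (h : C.SA T) (w : V) :
    C.f w (T w) = ((C.f w (T w)).re : ℍ[ℝ]) := by
  have := (C.comp T h).self_eq w
  exact this

theorem rsmul_ne (r : ℝ) (hr : r ≠ 0) {v : V} (hv : v ≠ 0) : r • v ≠ 0 := by
  intro h
  apply hv
  have : (r⁻¹ : ℝ) • (r • v) = 0 := by rw [h, smul_zero]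
  rwa [smul_smul, inv_mul_cancel₀ hr, one_smul] at this

theorem mk1 (C : HForm V) (X : V →ₗ[K] V) (x : ℝ) (v : V) (hX : X v = x • v) (hq : C.q v ≠ 0) :
    ∃ s : ℝ, (s = 1 ∨ s = -1) ∧ 0 < s * C.q v ∧ ∃ e : Fin (Block.jordan 1 s x).size → V,
      (∀ i j, C.f (e i) (e j) = (Block.jordan 1 s x).C i j) ∧ BAct X (Block.jordan 1 s x) e := by
  obtain ⟨s, hs, hsq⟩ : ∃ s : ℝ, (s = 1 ∨ s = -1) ∧ 0 < s * C.q v := by
    rcases lt_or_gt_of_ne hq with h | h
    · exact ⟨-1, Or.inr rfl, by linarith⟩
    · exact ⟨1, Or.inl rfl, by linarith⟩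
  refine ⟨s, hs, hsq, fun _ => (Real.sqrt (s * C.q v))⁻¹ • v, ?_, ?_⟩
  · intro i j
    have hi : (i : ℕ) = 0 := by have : (i : ℕ) < 1 := i.2; omega
    have hj : (j : ℕ) = 0 := by have : (j : ℕ) < 1 := j.2; omega
    simp only [Block.C, hi, hj]
    rw [if_pos trivial, C.rsmul_right, C.rsmul_left, C.self_eq, smul_smul, ← Quaternion.coe_smul]
    congr 1
    rw [smul_eq_mul, ← mul_inv, Real.mul_self_sqrt hsq.le, mul_inv]
    have hs2 : s⁻¹ = s := by rcases hs with h | h <;> rw [h] <;> norm_num
    rw [hs2]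
    field_simp
  · refine ⟨Or.inl rfl, ?_, ?_⟩
    · rcases hs with h | h <;> rw [h] <;> norm_num
    · intro a
      have ha : ¬ 0 < (a : ℕ) := by have := a.2; omega
      rw [dif_neg ha, add_zero, lin_rsmul, hX, smul_comm]

theorem mk2 (C : HForm V) (X : V →ₗ[K] V) (x : ℝ) (v w : V) (hXv : X v = x • v)
    (hXw : X w = x • w + v) (hvv : C.f v v = 0) (r : ℝ) (hr : r ≠ 0) (hvw : C.f v w = (r : ℍ[ℝ])) :
    ∃ s : ℝ, (s = 1 ∨ s = -1) ∧ 0 < s * r ∧ ∃ e : Fin (Block.jordan 2 s x).size → V,
      (∀ i j, C.f (e i) (e j) = (Block.jordan 2 s x).C i j) ∧ BAct X (Block.jordan 2 s x) e := by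
  obtain ⟨s, hs, hsq⟩ : ∃ s : ℝ, (s = 1 ∨ s = -1) ∧ 0 < s * r := by
    rcases lt_or_gt_of_ne hr with h | h
    · exact ⟨-1, Or.inr rfl, by linarith⟩
    · exact ⟨1, Or.inl rfl, by linarith⟩
  set c := (Real.sqrt (s * r))⁻¹ with hc
  have hc2 : c * c * (s * r) = 1 := by
    have h1 := Real.mul_self_sqrt hsq.le
    have h2 : Real.sqrt (s * r) ≠ 0 := (Real.sqrt_pos.mpr hsq).ne'
    rw [hc]
    field_simp
    rw [pow_two]; exact h1.symm
  set t : ℝ := -(C.q w) / (2 * r) with ht
  set w' := w + t • v with hw'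
  have hwv : C.f w v = (r : ℍ[ℝ]) := by rw [← C.herm, hvw, Quaternion.star_coe]
  have hs2 : s * s = 1 := by rcases hs with h | h <;> rw [h] <;> norm_num
  have hvw' : C.f v w' = (r : ℍ[ℝ]) := by
    rw [hw', C.add_right, C.rsmul_right, hvv, smul_zero, add_zero, hvw]
  have hw'v : C.f w' v = (r : ℍ[ℝ]) := by rw [← C.herm, hvw', Quaternion.star_coe]
  have hw'w' : C.f w' w' = 0 := by
    rw [hw', C.add_right, C.add_left, C.add_left, C.rsmul_right, C.rsmul_right, C.rsmul_left,
      C.rsmul_left, hvv, hvw, hwv, C.self_eq, smul_zero, smul_zero, add_zero,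
      ← Quaternion.coe_smul, ← Quaternion.coe_add, ← Quaternion.coe_add]
    have : C.q w + t • r + t • r = 0 := by
      rw [ht, smul_eq_mul]; field_simp; ring
    rw [this]; rfl
  have hXw' : X w' = x • w' + v := by
    rw [hw', map_add, hXw, lin_rsmul, hXv, smul_add, smul_comm]; abel
  refine ⟨s, hs, hsq, (![c • v, c • w'] : Fin 2 → V), ?_, ?_⟩
  · have hrs : c • c • (r : ℍ[ℝ]) = (s : ℍ[ℝ]) := by
      rw [smul_smul, ← Quaternion.coe_smul]
      congr 1
      rw [smul_eq_mul]
      have : c * c * r = c * c * (s * r) * s := by linear_combination -(c * c * r) * hs2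
      rw [this, hc2, one_mul]
    have h00 : C.f (c • v) (c • v) = 0 := by rw [C.rsmul_right, C.rsmul_left, hvv]; simp
    have h01 : C.f (c • v) (c • w') = (s : ℍ[ℝ]) := by
      rw [C.rsmul_right, C.rsmul_left, hvw']; exact hrs
    have h10 : C.f (c • w') (c • v) = (s : ℍ[ℝ]) := by
      rw [C.rsmul_right, C.rsmul_left, hw'v]; exact hrs
    have h11 : C.f (c • w') (c • w') = 0 := by rw [C.rsmul_right, C.rsmul_left, hw'w']; simp
    have key : ∀ i j : Fin 2, C.f ((![c • v, c • w'] : Fin 2 → V) i) ((![c • v, c • w'] : Fin 2 → V) j) =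
        if (i : ℕ) + (j : ℕ) + 1 = 2 then (s : ℍ[ℝ]) else 0 := by
      intro i j
      fin_cases i <;> fin_cases j
      · simpa using h00
      · simpa using h01
      · simpa using h10
      · simpa using h11
    exact key
  · have key : ∀ a : Fin 2, X ((![c • v, c • w'] : Fin 2 → V) a) =
        x • ((![c • v, c • w'] : Fin 2 → V) a) +
        (if h : 0 < (a : ℕ) then (![c • v, c • w'] : Fin 2 → V) (⟨(a : ℕ) - 1, by omega⟩ : Fin 2) else 0) := by
      intro a
      fin_cases a
      · simp [lin_rsmul, hXv, smul_comm c x v]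
      · simp [lin_rsmul, hXw', smul_comm c x w']
    refine ⟨Or.inr (Or.inl rfl), ?_, key⟩
    rcases hs with h | h <;> rw [h] <;> norm_num

theorem mk3 (C : HForm V) (X : V →ₗ[K] V) (x : ℝ) (v w z : V) (hXv : X v = x • v)
    (hXw : X w = x • w + v) (hXz : X z = x • z + w) (hvv : C.f v v = 0) (hvw : C.f v w = 0)
    (c₀ r1 : ℝ) (hc₀ : 0 < c₀) (hvz : C.f v z = (c₀ : ℍ[ℝ])) (hww : C.f w w = (c₀ : ℍ[ℝ]))
    (hwz : C.f w z = (r1 : ℍ[ℝ])) :
    ∃ e : Fin (Block.jordan 3 1 x).size → V,
      (∀ i j, C.f (e i) (e j) = (Block.jordan 3 1 x).C i j) ∧ BAct X (Block.jordan 3 1 x) e := by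
  set c := (Real.sqrt c₀)⁻¹ with hc
  have hc2 : c * c * c₀ = 1 := by
    have h1 := Real.mul_self_sqrt hc₀.le
    have h2 : Real.sqrt c₀ ≠ 0 := (Real.sqrt_pos.mpr hc₀).ne'
    rw [hc]
    field_simp
    rw [pow_two]; exact h1.symm
  set r2 := C.q z with hr2
  set t : ℝ := -r1 / (2 * c₀) with ht
  set s' : ℝ := -(r2 + t * t * c₀ + 2 * t * r1) / (2 * c₀) with hs'
  set w' := w + t • v with hw'
  set z' := z + t • w + s' • v with hz'
  have hwv : C.f w v = 0 := C.symm_zero hvw
  have hzv : C.f z v = (c₀ : ℍ[ℝ]) := by rw [← C.herm, hvz, Quaternion.star_coe]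
  have hzw : C.f z w = (r1 : ℍ[ℝ]) := by rw [← C.herm, hwz, Quaternion.star_coe]
  have hzz : C.f z z = (r2 : ℍ[ℝ]) := C.self_eq z
  have g01 : C.f v w' = 0 := by rw [hw', C.add_right, C.rsmul_right, hvv, hvw]; simp
  have g02 : C.f v z' = (c₀ : ℍ[ℝ]) := by
    rw [hz', C.add_right, C.add_right, C.rsmul_right, C.rsmul_right, hvv, hvw, hvz]; simp
  have g11 : C.f w' w' = (c₀ : ℍ[ℝ]) := by
    rw [hw', C.add_right, C.add_left, C.add_left, C.rsmul_right, C.rsmul_right, C.rsmul_left,
      C.rsmul_left, hvv, hvw, hwv, hww]; simp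
  have g12 : C.f w' z' = 0 := by
    rw [hw', hz', C.add_left, C.add_right, C.add_right, C.add_right, C.add_right,
      C.rsmul_right, C.rsmul_right, C.rsmul_left, C.rsmul_right, C.rsmul_left, C.rsmul_right,
      C.rsmul_left, hvv, hvw, hwv, hww, hwz, hvz, smul_zero, smul_zero, smul_zero, smul_zero,
      add_zero, add_zero, add_zero,
      ← Quaternion.coe_smul, ← Quaternion.coe_add, ← Quaternion.coe_add]
    have : r1 + t • c₀ + t • c₀ = 0 := by
      rw [ht, smul_eq_mul]; field_simp; ring
    rw [this]; rfl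
  have g22 : C.q z' = 0 := by
    rw [hz', C.q_add, C.q_add, C.q_rsmul, C.q_rsmul, C.rsmul_right, C.rsmul_right, C.add_left,
      C.rsmul_left, hwv, hzv, hzw]
    have e1 : C.q w = c₀ := by unfold HForm.q; rw [hww, Quaternion.re_coe]
    have e2 : C.q v = 0 := by unfold HForm.q; rw [hvv]; rfl
    rw [e1, e2, ← hr2]
    simp only [smul_zero, add_zero, Quaternion.re_smul, Quaternion.re_coe, smul_eq_mul, mul_zero]
    rw [hs']
    field_simp
    ring
  have g22' : C.f z' z' = 0 := (C.self_eq_zero_iff z').mpr g22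
  have hXw' : X w' = x • w' + v := by
    rw [hw', map_add, hXw, lin_rsmul, hXv, smul_add, smul_comm]; abel
  have hXz' : X z' = x • z' + w' := by
    rw [hz', hw', map_add, map_add, hXz, lin_rsmul, lin_rsmul, hXv, hXw]
    module
  refine ⟨(![c • v, c • w', c • z'] : Fin 3 → V), ?_, ?_⟩
  · have hrs : c • c • (c₀ : ℍ[ℝ]) = 1 := by
      rw [smul_smul, ← Quaternion.coe_smul, smul_eq_mul, hc2]; rfl
    have hcc : ∀ a b : V, C.f (c • a) (c • b) = c • c • C.f a b := by
      intro a b; rw [C.rsmul_right, C.rsmul_left]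
    have key : ∀ i j : Fin 3, C.f ((![c • v, c • w', c • z'] : Fin 3 → V) i)
        ((![c • v, c • w', c • z'] : Fin 3 → V) j) =
        if (i : ℕ) + (j : ℕ) + 1 = 3 then ((1 : ℝ) : ℍ[ℝ]) else 0 := by
      intro i j
      have g20 : C.f z' v = (c₀ : ℍ[ℝ]) := by rw [← C.herm, g02, Quaternion.star_coe]
      fin_cases i <;> fin_cases j
      · simp [hcc, hvv]
      · simp [hcc, g01]
      · simp [hcc, g02, hrs]
      · simp [hcc, C.symm_zero g01]
      · simp [hcc, g11, hrs]
      · simp [hcc, g12]
      · simp [hcc, g20, hrs]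
      · simp [hcc, C.symm_zero g12]
      · simp [hcc, g22']
    exact key
  · have key : ∀ a : Fin 3, X ((![c • v, c • w', c • z'] : Fin 3 → V) a) =
        x • ((![c • v, c • w', c • z'] : Fin 3 → V) a) +
        (if h : 0 < (a : ℕ) then (![c • v, c • w', c • z'] : Fin 3 → V)
          (⟨(a : ℕ) - 1, by omega⟩ : Fin 3) else 0) := by
      intro a
      fin_cases a
      · simp [lin_rsmul, hXv, smul_comm c x v]
      · simp [lin_rsmul, hXw', smul_comm c x w']
      · simp [lin_rsmul, hXz', smul_comm c x z']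
    exact ⟨Or.inr (Or.inr rfl), one_ne_zero, key⟩

/-- the quadratic `X² + β X + γ` as a form -/
def Gq (C : HForm V) (X : V →ₗ[K] V) (h : C.SA X) (β γ : ℝ) : HForm V :=
  C.pull X + β • C.comp X h + γ • C

theorem Gq_q (C : HForm V) (X : V →ₗ[K] V) (h : C.SA X) (β γ : ℝ) (y : V) :
    (Gq C X h β γ).q y = C.q (X y) + β * (C.f y (X y)).re + γ * C.q y := rfl

theorem Gq_f (C : HForm V) (X : V →ₗ[K] V) (h : C.SA X) (β γ : ℝ) (x y : V) :
    (Gq C X h β γ).f x y = C.f (X (X x) + β • X x + γ • x) y := by
  change C.f (X x) (X y) + β • C.f x (X y) + γ • C.f x y = _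
  rw [C.add_left, C.add_left, C.rsmul_left, C.rsmul_left, h (X x) y, h x y]

theorem Gq_null {C : HForm V} (hC : C.NS) {X : V →ₗ[K] V} (h : C.SA X) {β γ : ℝ}
    (hG : ∀ y, 0 ≤ (Gq C X h β γ).q y) {v : V} (hv : (Gq C X h β γ).q v = 0) :
    X (X v) + β • X v + γ • v = 0 := by
  apply hC
  intro y
  rw [← Gq_f C X h]
  exact (Gq C X h β γ).psd_zero ⊤ (fun y _ => hG y) trivial hv y trivial

theorem ofComplex_eq_zero {z : ℂ} (h : Quaternion.ofComplex z = 0) : z = 0 := by
  have h1 := congrArg QuaternionAlgebra.re h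
  have h2 := congrArg QuaternionAlgebra.imI h
  apply Complex.ext
  · simpa using h1
  · simpa using h2

theorem rsmul_op (r : ℝ) (z : ℂ) (v : V) :
    r • (op (Quaternion.ofComplex z) • v) = op (Quaternion.ofComplex ((r : ℂ) * z)) • v := by
  rw [rsmul_eq, smul_smul, ← op_mul]
  congr 2
  rw [mul_comm (r : ℂ) z, map_mul]
  congr 1

theorem eig_cases {C : HForm V} (hC : C.NS) {X : V →ₗ[K] V} (h : C.SA X) {β γ : ℝ}
    (hG : ∀ y, 0 ≤ (Gq C X h β γ).q y) {v : V} (hv : v ≠ 0) {z : ℂ}
    (hX : X v = op (Quaternion.ofComplex z) • v) :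
    (C.q v ≠ 0 ∧ X v = z.re • v ∧ 0 ≤ (z.re ^ 2 + β * z.re + γ) * C.q v) ∨
      (C.q v = 0 ∧ z ^ 2 + (β : ℂ) * z + (γ : ℂ) = 0) := by
  by_cases hq : C.q v = 0
  · right
    refine ⟨hq, ?_⟩
    have hG0 : (Gq C X h β γ).q v = 0 := by
      have hvv : C.f v v = 0 := (C.self_eq_zero_iff v).mpr hq
      rw [Gq_q, hX, C.q_smul, hq, C.smul_right, hvv]; simp
    have h1 := Gq_null hC h hG hG0
    have h2 : X (X v) = op (Quaternion.ofComplex (z ^ 2)) • v := by
      rw [hX, map_smul, hX, smul_smul, ← op_mul, ← map_mul, pow_two]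
    have h3 : γ • v = op (Quaternion.ofComplex (γ : ℂ)) • v := by
      rw [rsmul_eq]; congr 2
    rw [h2, h3, hX, rsmul_op, ← add_smul, ← add_smul, ← op_add, ← op_add, ← map_add, ← map_add] at h1
    have h4 := (smul_eq_zero.mp h1).resolve_right hv
    have h5 : Quaternion.ofComplex (z ^ 2 + (β : ℂ) * z + (γ : ℂ)) = 0 := by
      exact MulOpposite.op_injective (by rw [h4]; rfl)
    exact ofComplex_eq_zero h5
  · left
    have h1 : C.f v (X v) = C.f (X v) v := (h v v).symm
    have e1 : C.f v (X v) = (C.q v : ℍ[ℝ]) * Quaternion.ofComplex z := by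
      rw [hX, C.smul_right, C.self_eq]
    have e2 : C.f (X v) v = star (Quaternion.ofComplex z) * (C.q v : ℍ[ℝ]) := by
      rw [hX, C.smul_left, C.self_eq]
    have him : z.im = 0 := by
      rw [e1, e2] at h1
      have h2 := congrArg QuaternionAlgebra.imI h1
      simp at h2
      have : 2 * C.q v * z.im = 0 := by linarith
      rcases mul_eq_zero.mp this with h3 | h3
      · exfalso; apply hq; linarith
      · exact h3
    have hz : Quaternion.ofComplex z = ((z.re : ℝ) : ℍ[ℝ]) := by
      ext <;> simp [him]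
    have hXv : X v = z.re • v := by rw [hX, hz, rsmul_eq]
    refine ⟨hq, hXv, ?_⟩
    have h2 := hG v
    rw [Gq_q, hXv, C.q_rsmul, C.rsmul_right, C.self_eq, Quaternion.re_smul, Quaternion.re_coe] at h2
    simp only [smul_eq_mul] at h2
    linarith

/-- quaternion unit `j` -/
def qj : ℍ[ℝ] := ⟨0, 0, 1, 0⟩

theorem star_qi : star qi = -qi := by ext <;> simp [qi]

theorem qi_mul_qi : qi * qi = -1 := by ext <;> simp [qi]

theorem qj_ne : qj ≠ 0 := by
  intro h
  have := congrArg QuaternionAlgebra.imJ h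
  simp [qj] at this

theorem find_block_E (C : HForm V) (hC : C.NS) (X : V →ₗ[K] V) (h : C.SA X) [Nontrivial V]
    (hG : ∀ y, 0 ≤ (Gq C X h 0 1).q y) :
    ∃ b : Block, (b.isJ 1 1 (fun _ => True) ∨ b = Block.ell) ∧ ∃ e : Fin b.size → V,
      (∀ i j, C.f (e i) (e j) = b.C i j) ∧ BAct X b e := by
  obtain ⟨v, hv, z, hz⟩ := exists_eig X
  rcases eig_cases hC h hG hv hz with ⟨hq, hXv, hpos⟩ | ⟨hq, hroot⟩
  · obtain ⟨s, hs, hsq, e, he1, he2⟩ := mk1 C X z.re v hXv hq
    have hq' : 0 < C.q v := by
      have : 0 < z.re ^ 2 + 0 * z.re + 1 := by nlinarith [sq_nonneg z.re]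
      by_contra hcon
      push Not at hcon
      have h3 : C.q v < 0 := lt_of_le_of_ne hcon hq
      nlinarith
    have hs1 : s = 1 := by
      rcases hs with h | h
      · exact h
      · rw [h] at hsq; linarith
    subst hs1
    exact ⟨_, Or.inl ⟨z.re, trivial, rfl⟩, e, he1, he2⟩
  · -- elliptic
    have hz2 : z = Complex.I ∨ z = -Complex.I := by
      have : (z - Complex.I) * (z + Complex.I) = 0 := by
        have hI := Complex.I_mul_I
        push_cast at hroot
        linear_combination hroot - hI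
      rcases mul_eq_zero.mp this with h | h
      · exact Or.inl (sub_eq_zero.mp h)
      · exact Or.inr (eq_neg_of_add_eq_zero_left h)
    obtain ⟨v', hv', hXv'⟩ : ∃ v' : V, v' ≠ 0 ∧ X v' = op (-qi) • v' := by
      rcases hz2 with h | h
      · refine ⟨op qj • v, ?_, ?_⟩
        · intro h0
          rcases smul_eq_zero.mp h0 with h1 | h1
          · exact qj_ne (MulOpposite.op_injective (by rw [h1]; rfl))
          · exact hv h1
        · rw [map_smul, hz, h, ← qi_eq, smul_smul, smul_smul, ← op_mul, ← op_mul]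
          congr 2
          ext <;> simp [qi, qj]
      · refine ⟨v, hv, ?_⟩
        rw [hz, h, map_neg, ← qi_eq]
    have hXX : X (X v') = -v' := by
      rw [hXv', map_smul, hXv', smul_smul, ← op_mul, neg_mul_neg, qi_mul_qi, op_neg, neg_smul,
        op_one, one_smul]
    set N : V →ₗ[K] V := X * X + 1 with hN
    have hNa : ∀ y, N y = X (X y) + y := fun y => rfl
    have hNsa : ∀ x y, C.f (N x) y = C.f x (N y) := by
      intro x y
      rw [hNa, hNa, C.add_left, C.add_right, h, h]
    have hNv' : N v' = 0 := by rw [hNa, hXX]; simp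
    have hker : ∀ y, N (N y) = 0 → N y = 0 := by
      intro y hy
      have h1 : C.f y (N (N y)) = C.f y (N y) + C.f (X y) (N (X y)) := by
        have e1 : N (N y) = N y + X (N (X y)) := by
          rw [hNa (N y)]
          have : X (N y) = N (X y) := by rw [hNa, hNa, map_add]
          rw [this]; abel
        rw [e1, C.add_right, h]
      rw [hy, C.zero_right] at h1
      have hGN : ∀ y, (Gq C X h 0 1).q y = (C.f y (N y)).re := by
        intro y
        have e1 := h y (X y)
        rw [Gq_q, hNa, C.add_right, ← e1]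
        simp [HForm.q]
      have h2 := congrArg QuaternionAlgebra.re h1
      rw [Quaternion.re_add, ← hGN, ← hGN] at h2
      have h3 := hG y
      have h4 := hG (X y)
      have h5 : (Gq C X h 0 1).q y = 0 := by
        simp only [Quaternion.re_zero] at h2
        linarith
      have h6 := Gq_null hC h hG h5
      rw [hNa]
      simpa using h6
    -- decompose
    obtain ⟨y, hy⟩ : ∃ y, C.f v' y ≠ 0 := by
      by_contra hcon
      push Not at hcon
      exact hv' (hC v' hcon)
    have hdisj : ∀ x ∈ LinearMap.ker N, x ∈ LinearMap.range N → x = 0 := by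
      rintro x hx ⟨y, rfl⟩
      exact hker y (LinearMap.mem_ker.mp hx)
    have htop : LinearMap.ker N ⊔ LinearMap.range N = ⊤ := by
      apply Submodule.eq_top_of_finrank_eq
      rw [finrank_sup_disj hdisj, add_comm]
      exact LinearMap.finrank_range_add_finrank_ker N
    have hymem : y ∈ LinearMap.ker N ⊔ LinearMap.range N := by rw [htop]; trivial
    obtain ⟨y1, hy1, y2, ⟨y3, rfl⟩, rfl⟩ := Submodule.mem_sup.mp hymem
    have hc : C.f v' y1 ≠ 0 := by
      intro h0
      apply hy
      rw [C.add_right, h0, ← hNsa, hNv', C.zero_left, add_zero]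
    set c := C.f v' y1 with hcdef
    set w := op c⁻¹ • y1 with hw
    have hvw : C.f v' w = 1 := by rw [hw, C.smul_right, mul_inv_cancel₀ hc]
    have hNw : N w = 0 := by
      have := LinearMap.mem_ker.mp hy1
      rw [hw, map_smul, this, smul_zero]
    have hXXw : X (X w) = -w := by
      have := hNa w
      rw [hNw] at this
      exact eq_neg_of_add_eq_zero_left this.symm
    clear_value w
    set e1 := (1 / 2 : ℝ) • (w - op qi • X w) with he1
    have hXe1 : X e1 = op qi • e1 := by
      rw [he1, lin_rsmul, map_sub, map_smul, hXXw, rsmul_eq, rsmul_eq, smul_smul, smul_sub, smul_sub,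
        smul_smul, smul_smul]
      have hcomm : ∀ r : ℝ, (op qi : K) * op (r : ℍ[ℝ]) = op (r : ℍ[ℝ]) * op qi := by
        intro r
        rw [← op_mul, ← op_mul, Quaternion.coe_commutes]
      have h4 : (op (((1 / 2 : ℝ)) : ℍ[ℝ]) * op qi : K) • (-w) = -((op qi * op (((1 / 2 : ℝ)) : ℍ[ℝ]) : K) • w) := by
        rw [smul_neg, hcomm]
      have h5 : (op qi * op (((1 / 2 : ℝ)) : ℍ[ℝ]) * op qi : K) = - op (((1 / 2 : ℝ)) : ℍ[ℝ]) := by
        rw [hcomm, mul_assoc, ← op_mul, qi_mul_qi, op_neg, op_one, mul_neg, mul_one]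
      rw [h4, h5, neg_smul]
      abel
    have hve1 : C.f v' e1 = 1 := by
      rw [he1, C.rsmul_right, C.sub_right, C.smul_right, hvw, ← h, hXv', C.smul_left, hvw, mul_one,
        star_neg, star_qi, neg_neg, qi_mul_qi]
      ext <;> simp
      norm_num
    have hnull : ∀ (u : V) (q : ℍ[ℝ]), (q = qi ∨ q = -qi) → X u = op q • u → C.f u u = 0 := by
      intro u q hq hu
      have h1 : C.f u (X u) = C.f (X u) u := (h u u).symm
      rw [hu, C.smul_right, C.smul_left, C.self_eq] at h1
      rw [C.self_eq_zero_iff]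
      rcases hq with rfl | rfl
      · have h2 := congrArg QuaternionAlgebra.imI h1
        simp [qi] at h2
        linarith
      · have h2 := congrArg QuaternionAlgebra.imI h1
        simp [qi] at h2
        linarith
    have h00 := hnull v' (-qi) (Or.inr rfl) hXv'
    have h11 := hnull e1 qi (Or.inl rfl) hXe1
    have h10 : C.f e1 v' = 1 := by rw [← C.herm, hve1, star_one]
    refine ⟨Block.ell, Or.inr rfl, (![v', e1] : Fin 2 → V), ?_, ?_⟩
    · have key : ∀ i j : Fin 2, C.f ((![v', e1] : Fin 2 → V) i) ((![v', e1] : Fin 2 → V) j) =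
          if (i : ℕ) + (j : ℕ) = 1 then 1 else 0 := by
        intro i j
        fin_cases i <;> fin_cases j
        · simpa using h00
        · simpa using hve1
        · simpa using h10
        · simpa using h11
      exact key
    · exact ⟨hXv', hXe1⟩

theorem ker_shift (X : V →ₗ[K] V) (l : ℝ) (v : V) : v ∈ LinearMap.ker (shift X l) ↔ X v = l • v := by
  rw [LinearMap.mem_ker, shift_apply, sub_eq_zero]

/-- the orthogonal complement of the kernel of a selfadjoint map is its range -/
theorem perp_ker (C : HForm V) (hC : C.NS) (T : V →ₗ[K] V) (hT : C.SA T) :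
    C.perp (LinearMap.ker T) = LinearMap.range T := by
  have h1 : C.perp (LinearMap.range T) = LinearMap.ker T := by
    ext y
    constructor
    · intro hy
      rw [LinearMap.mem_ker]
      apply hC
      intro x
      apply C.symm_zero
      rw [← hT]
      exact hy _ ⟨x, rfl⟩
    · intro hy
      rintro _ ⟨x, rfl⟩
      rw [hT, LinearMap.mem_ker.mp hy, C.zero_right]
  rw [← h1, perp_perp C hC]

theorem find_block_R (C : HForm V) (hC : C.NS) (X : V →ₗ[K] V) (h : C.SA X) [Nontrivial V]
    (a b : ℝ) (hab : a ≤ b) (hG : ∀ y, 0 ≤ (Gq C X h (-(a + b)) (a * b)).q y) :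
    ∃ t : Block, (t.isJ 1 1 (fun x => x ≤ a ∨ b ≤ x) ∨ t.isJ 1 (-1) (fun x => a ≤ x ∧ x ≤ b) ∨
      t = Block.jordan 2 (-1) a ∨ t = Block.jordan 2 1 b ∨ (a = b ∧ t = Block.jordan 3 1 a)) ∧
      ∃ e : Fin t.size → V, (∀ i j, C.f (e i) (e j) = t.C i j) ∧ BAct X t e := by
  by_cases hnn : ∃ (v : V) (x : ℝ), X v = x • v ∧ C.q v ≠ 0
  · obtain ⟨v, x, hXv, hq⟩ := hnn
    obtain ⟨s, hs, hsq, e, he1, he2⟩ := mk1 C X x v hXv hq
    have h1 := hG v
    rw [Gq_q, hXv, C.q_rsmul, C.rsmul_right, C.self_eq, Quaternion.re_smul, Quaternion.re_coe] at h1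
    simp only [smul_eq_mul] at h1
    have h2 : 0 ≤ ((x - a) * (x - b)) * C.q v := by linarith
    refine ⟨_, ?_, e, he1, he2⟩
    rcases hs with rfl | rfl
    · left
      refine ⟨x, ?_, rfl⟩
      have h3 : 0 < C.q v := by linarith
      have h4 : 0 ≤ (x - a) * (x - b) := nonneg_of_mul_nonneg_left h2 h3
      by_contra hcon
      push Not at hcon
      have : (x - a) * (x - b) < 0 := mul_neg_of_pos_of_neg (by linarith) (by linarith)
      linarith
    · right; left
      refine ⟨x, ?_, rfl⟩
      have h3 : C.q v < 0 := by linarith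
      have h4 : (x - a) * (x - b) ≤ 0 := by
        by_contra hcon
        push Not at hcon
        have := mul_neg_of_pos_of_neg hcon h3
        linarith
      constructor
      · by_contra hcon
        push Not at hcon
        have : 0 < (x - a) * (x - b) := mul_pos_of_neg_of_neg (by linarith) (by linarith)
        linarith
      · by_contra hcon
        push Not at hcon
        have : 0 < (x - a) * (x - b) := mul_pos (by linarith) (by linarith)
        linarith
  · push Not at hnn
    -- eigenvalue in {a, b}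
    have hNa : ∀ y, X (X y) + (-(a + b)) • X y + (a * b) • y = shift X b (shift X a y) := by
      intro y
      rw [shift_apply, shift_apply, map_sub, lin_rsmul]
      module
    have hNb : ∀ y, X (X y) + (-(a + b)) • X y + (a * b) • y = shift X a (shift X b y) := by
      intro y
      rw [shift_apply, shift_apply, map_sub, lin_rsmul]
      module
    have hGf : ∀ y, (Gq C X h (-(a + b)) (a * b)).q y = (C.f (shift X b (shift X a y)) y).re := by
      intro y
      rw [← hNa, ← Gq_f C X h]; rfl
    obtain ⟨l, hl, v, hv, hXv⟩ : ∃ l : ℝ, (l = a ∨ l = b) ∧ ∃ v : V, v ≠ 0 ∧ X v = l • v := by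
      obtain ⟨v, hv, z, hz⟩ := exists_eig X
      rcases eig_cases hC h hG hv hz with ⟨hq, hXv, _⟩ | ⟨hq, hroot⟩
      · exact absurd (hnn v z.re hXv) hq
      · have : (z - a) * (z - b) = 0 := by
          push_cast at hroot
          linear_combination hroot
        rcases mul_eq_zero.mp this with h1 | h1
        · refine ⟨a, Or.inl rfl, v, hv, ?_⟩
          rw [hz, sub_eq_zero.mp h1, rsmul_eq]; congr 2
        · refine ⟨b, Or.inr rfl, v, hv, ?_⟩
          rw [hz, sub_eq_zero.mp h1, rsmul_eq]; congr 2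
    have hran : ∀ (l : ℝ) (v : V), X v = l • v → ∃ w, shift X l w = v := by
      intro l v hXv
      have hvk : v ∈ C.perp (LinearMap.ker (shift X l)) := by
        have hnull : ∀ y ∈ LinearMap.ker (shift X l), C.q y = 0 := by
          intro y hy
          exact hnn y l ((ker_shift X l y).mp hy)
        intro y hy
        exact C.polar _ hnull y hy v ((ker_shift X l v).mpr hXv)
      rw [perp_ker C hC _ (shift_sa h l)] at hvk
      exact hvk
    have hvv : C.f v v = 0 := (C.self_eq_zero_iff v).mpr (hnn v l hXv)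
    rcases hab.lt_or_eq with hlt | heq
    · -- a < b
      obtain ⟨w, hw⟩ := hran l v hXv
      have hXw : X w = l • w + v := by rw [← hw, shift_apply]; abel
      have hreal := sa_real (shift_sa h l) w
      rw [hw] at hreal
      set r := (C.f w v).re with hr
      have hvw : C.f v w = (r : ℍ[ℝ]) := by rw [← C.herm, hreal, Quaternion.star_coe]
      -- other root
      have hGw : (Gq C X h (-(a + b)) (a * b)).q w = (if l = a then (a - b) else (b - a)) * r := by
        rcases hl with rfl | rfl
        · rw [if_pos rfl, hGf, hw, shift_apply, hXv, ← sub_smul, C.rsmul_left, hvw, Quaternion.re_smul,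
            Quaternion.re_coe, smul_eq_mul]
        · rw [if_neg hlt.ne', hGf, ← hNa, hNb, hw, shift_apply, hXv, ← sub_smul, C.rsmul_left, hvw,
            Quaternion.re_smul, Quaternion.re_coe, smul_eq_mul]
      have hr0 : r ≠ 0 := by
        intro h0
        rw [h0, mul_zero] at hGw
        have h1 := Gq_null hC h hG hGw
        rcases hl with rfl | rfl
        · rw [hNa, hw, shift_apply, hXv, ← sub_smul] at h1
          exact rsmul_ne _ (sub_ne_zero.mpr hlt.ne) hv h1
        · rw [hNb, hw, shift_apply, hXv, ← sub_smul] at h1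
          exact rsmul_ne _ (sub_ne_zero.mpr hlt.ne') hv h1
      have hGw' := hG w
      rw [hGw] at hGw'
      obtain ⟨s, hs, hsr, e, he1, he2⟩ := mk2 C X l v w hXv hXw hvv r hr0 hvw
      refine ⟨_, ?_, e, he1, he2⟩
      rcases hl with rfl | rfl
      · rw [if_pos rfl] at hGw'
        have : r < 0 := by
          by_contra hcon
          push Not at hcon
          have h3 : 0 < r := lt_of_le_of_ne hcon hr0.symm
          nlinarith
        have hs1 : s = -1 := by
          rcases hs with h | h
          · rw [h] at hsr; linarith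
          · exact h
        rw [hs1]
        exact Or.inr (Or.inr (Or.inl rfl))
      · rw [if_neg hlt.ne'] at hGw'
        have : 0 < r := by
          by_contra hcon
          push Not at hcon
          have h3 : r < 0 := lt_of_le_of_ne hcon hr0
          nlinarith
        have hs1 : s = 1 := by
          rcases hs with h | h
          · exact h
          · rw [h] at hsr; linarith
        rw [hs1]
        exact Or.inr (Or.inr (Or.inr (Or.inl rfl)))
    · -- a = b
      subst heq
      have hla : l = a := by rcases hl with h | h <;> exact h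
      subst hla
      set T := shift X l with hT
      have hTsa : C.SA T := shift_sa h l
      have hGT : ∀ y, (Gq C X h (-(l + l)) (l * l)).q y = C.q (T y) := by
        intro y
        rw [hGf, hTsa]; rfl
      by_cases hcase : ∃ z, T (T z) ≠ 0 ∧ T (T (T z)) = 0
      · obtain ⟨z, hz1, hz2⟩ := hcase
        set w := T z with hw
        set v' := T w with hv'
        have hXz : X z = l • z + w := by rw [hw, hT, shift_apply]; abel
        have hXw : X w = l • w + v' := by rw [hv', hT, shift_apply]; abel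
        have hXv' : X v' = l • v' := (ker_shift X l v').mp (LinearMap.mem_ker.mpr hz2)
        have hww0 : 0 ≤ C.q w := by
          have := hG z
          rw [hGT] at this
          exact this
        have hww : C.q w ≠ 0 := by
          intro h0
          have h1 : (Gq C X h (-(l + l)) (l * l)).q z = 0 := by rw [hGT]; exact h0
          have h2 := Gq_null hC h hG h1
          rw [hNa] at h2
          exact hz1 h2
        have hpos : 0 < C.q w := lt_of_le_of_ne hww0 hww.symm
        have e1 : C.f v' z = (C.q w : ℍ[ℝ]) := by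
          rw [hv', hTsa, ← hw, C.self_eq]
        have e2 : C.f v' w = 0 := by
          have : C.f v' (T z) = C.f (T v') z := (hTsa v' z).symm
          rw [← hw] at this
          rw [this, hz2, C.zero_left]
        have e3 : C.f v' v' = 0 := by
          have : C.f v' (T w) = C.f (T v') w := (hTsa v' w).symm
          rw [← hv'] at this
          rw [this, hz2, C.zero_left]
        have e4 := sa_real hTsa z
        rw [← hw] at e4
        have e5 : C.f w z = (((C.f z w).re : ℝ) : ℍ[ℝ]) := by
          rw [← C.herm, e4, Quaternion.star_coe]; simp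
        obtain ⟨e, he1, he2⟩ := mk3 C X l v' w z hXv' hXw hXz e3 e2 (C.q w) _ hpos e1 (C.self_eq w) e5
        exact ⟨_, Or.inr (Or.inr (Or.inr (Or.inr ⟨rfl, rfl⟩))), e, he1, he2⟩
      · push Not at hcase
        obtain ⟨w₀, hw₀⟩ := hran l v hXv
        -- find w in ker T^2 with C (T w) w ≠ 0
        have hex : ∃ w, T (T w) = 0 ∧ (C.f w (T w)).re ≠ 0 := by
          by_contra hcon
          push Not at hcon
          have hTT : C.SA (T * T) := by
            intro x y
            change C.f (T (T x)) y = C.f x (T (T y))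
            rw [hTsa, hTsa]
          have hK2 : ∀ w ∈ LinearMap.ker (T * T), (C.comp T hTsa).q w = 0 := by
            intro w hw
            exact hcon w (LinearMap.mem_ker.mp hw)
          have hpol := (C.comp T hTsa).polar _ hK2
          have hw₀K : w₀ ∈ LinearMap.ker (T * T) := by
            rw [LinearMap.mem_ker]
            change T (T w₀) = 0
            rw [hw₀]
            exact LinearMap.mem_ker.mp ((ker_shift X l v).mpr hXv)
          have hvp : v ∈ C.perp (LinearMap.ker (T * T)) := by
            intro y hy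
            have := hpol y hy w₀ hw₀K
            rw [HForm.comp_f, hw₀] at this
            exact this
          rw [perp_ker C hC _ hTT] at hvp
          obtain ⟨z, hz⟩ := hvp
          replace hz : T (T z) = v := hz
          have h1 := hcase z (by rw [hz]; exact hv)
          apply h1
          rw [hz]
          exact LinearMap.mem_ker.mp ((ker_shift X l v).mpr hXv)
        obtain ⟨w, hw1, hw2⟩ := hex
        have hXw : X w = l • w + T w := by rw [hT, shift_apply]; abel
        have hXv' : X (T w) = l • T w := (ker_shift X l (T w)).mp (LinearMap.mem_ker.mpr hw1)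
        have e1 : C.f (T w) (T w) = 0 := by rw [hTsa, hw1, C.zero_right]
        have e2 : C.f (T w) w = (((C.f w (T w)).re : ℝ) : ℍ[ℝ]) := by
          rw [hTsa]; exact sa_real hTsa w
        obtain ⟨s, hs, hsr, e, he1, he2⟩ := mk2 C X l (T w) w hXv' hXw e1 _ hw2 e2
        refine ⟨_, ?_, e, he1, he2⟩
        rcases hs with rfl | rfl
        · exact Or.inr (Or.inr (Or.inr (Or.inl rfl)))
        · exact Or.inr (Or.inr (Or.inl rfl))

end

end Pool.Agent.Lib_c77211
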