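import Pool.Agent.Lib_c77211.Sep

open Quaternion MulOpposite Module

noncomputable section

namespace Pool.Agent.Lib_c77211

set_option linter.unusedSectionVars false

section Defs

variable {V : Type*} [AddCommGroup V] [Module K V]

def Neutral (A B : HForm V) (M : Submodule K V) : Prop := ∀ x ∈ M, A.q x = 0 ∧ B.q x = 0

def MaxNeutral (A B : HForm V) (M : Submodule K V) : Prop :=
  Neutral A B M ∧ ∀ M', Neutral A B M' → M ≤ M' → M' ≤ M

theorem Neutral.polarA {A B : HForm V} {M : Submodule K V} (h : Neutral A B M) :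
    ∀ x ∈ M, ∀ y ∈ M, A.f x y = 0 := A.polar M (fun x hx => (h x hx).1)

theorem Neutral.polarB {A B : HForm V} {M : Submodule K V} (h : Neutral A B M) :
    ∀ x ∈ M, ∀ y ∈ M, B.f x y = 0 := B.polar M (fun x hx => (h x hx).2)

theorem q_sup_zero (A : HForm V) {M : Submodule K V} (h : ∀ x ∈ M, A.q x = 0) {x : V}
    (hx : A.q x = 0) (hMx : ∀ m ∈ M, A.f m x = 0) :
    ∀ y ∈ M ⊔ Submodule.span K {x}, A.q y = 0 := by
  intro y hy
  obtain ⟨m, hm, z, hz, rfl⟩ := Submodule.mem_sup.mp hy
  obtain ⟨a, rfl⟩ := HForm.mem_span_one.mp hz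
  rw [A.q_add, A.q_smul, A.smul_right, hMx m hm, hx, h m hm]
  simp

theorem Neutral.sup {A B : HForm V} {M : Submodule K V} (h : Neutral A B M) {x : V}
    (hA : A.q x = 0) (hB : B.q x = 0) (hMA : ∀ m ∈ M, A.f m x = 0) (hMB : ∀ m ∈ M, B.f m x = 0) :
    Neutral A B (M ⊔ Submodule.span K {x}) := fun y hy =>
  ⟨q_sup_zero A (fun z hz => (h z hz).1) hA hMA y hy, q_sup_zero B (fun z hz => (h z hz).2) hB hMB y hy⟩

theorem MaxNeutral.mem {A B : HForm V} {M : Submodule K V} (h : MaxNeutral A B M) {x : V}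
    (hA : A.q x = 0) (hB : B.q x = 0) (hMA : ∀ m ∈ M, A.f m x = 0) (hMB : ∀ m ∈ M, B.f m x = 0) :
    x ∈ M :=
  h.2 _ (h.1.sup hA hB hMA hMB) le_sup_left (Submodule.mem_sup_right (Submodule.mem_span_singleton_self x))

variable [FiniteDimensional K V]

theorem exists_max {A B : HForm V} {M : Submodule K V} (h : Neutral A B M) :
    ∃ M', MaxNeutral A B M' ∧ M ≤ M' := by
  classical
  let S : Set ℕ := {k | ∃ M' : Submodule K V, Neutral A B M' ∧ M ≤ M' ∧ finrank K M' = k}
  have hne : S.Nonempty := ⟨_, M, h, le_rfl, rfl⟩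
  have hbd : BddAbove S := ⟨finrank K V, by
    rintro k ⟨M', _, _, rfl⟩
    exact Submodule.finrank_le _⟩
  obtain ⟨M', h1, h2, h3⟩ := Nat.sSup_mem hne hbd
  refine ⟨M', ⟨h1, ?_⟩, h2⟩
  intro M'' hM'' hle
  have h4 : finrank K M'' ≤ sSup S := le_csSup hbd ⟨M'', hM'', h2.trans hle, rfl⟩
  have h5 : M' = M'' := Submodule.eq_of_le_of_finrank_le hle (by rw [h3]; exact h4)
  rw [h5]

end Defs

section Ops

variable {V : Type*} [AddCommGroup V] [Module K V] [FiniteDimensional K V]

theorem exists_op (G : HForm V) (hG : G.NS) (F : HForm V) :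
    ∃ T : V →ₗ[K] V, ∀ x y, G.f x (T y) = F.f x y := by
  let b := Module.finBasis K V
  let Φ : HForm V → V →ₗ[K] (Fin (finrank K V) → ℍ[ℝ]) := fun H => LinearMap.pi (fun i => H.right (b i))
  have hinj : Function.Injective (Φ G) := by
    rw [← LinearMap.ker_eq_bot, Submodule.eq_bot_iff]
    intro z hz
    apply hG
    intro y
    have h1 : ∀ i, G.f (b i) z = 0 := fun i => congrFun (LinearMap.mem_ker.mp hz) i
    apply G.symm_zero
    have : y = ∑ i, (b.repr y i) • b i := (b.sum_repr y).symm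
    rw [this, G.sum_left]
    apply Finset.sum_eq_zero
    intro i _
    have := G.smul_left (unop (b.repr y i)) (b i) z
    rw [op_unop] at this
    rw [this, h1 i, mul_zero]
  have hdim : finrank K V = finrank K (Fin (finrank K V) → ℍ[ℝ]) := (finrank_piH _).symm
  let e := LinearEquiv.ofBijective (Φ G)
    ⟨hinj, (LinearMap.injective_iff_surjective_of_finrank_eq_finrank hdim).mp hinj⟩
  refine ⟨e.symm.toLinearMap ∘ₗ Φ F, ?_⟩
  intro x y
  have h1 : Φ G (e.symm (Φ F y)) = Φ F y := e.apply_symm_apply (Φ F y)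
  have h2 : ∀ i, G.f (b i) (e.symm (Φ F y)) = F.f (b i) y := fun i => congrFun h1 i
  have : x = ∑ i, (b.repr x i) • b i := (b.sum_repr x).symm
  rw [this, G.sum_left, F.sum_left]
  apply Finset.sum_congr rfl
  intro i _
  have e1 := G.smul_left (unop (b.repr x i)) (b i) (e.symm (Φ F y))
  have e2 := F.smul_left (unop (b.repr x i)) (b i) y
  rw [op_unop] at e1 e2
  simp only [LinearMap.coe_comp, LinearEquiv.coe_coe, Function.comp_apply]
  rw [e1, e2, h2 i]

variable [Module ℝ V] [IsScalarTower ℝ K V]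

theorem rsmul_eq (r : ℝ) (x : V) : r • x = op (r : ℍ[ℝ]) • x := by
  have : r • x = (r • (1 : K)) • x := by rw [smul_assoc, one_smul]
  rw [this]
  congr 1
  have : r • (1 : K) = op (r • (1 : ℍ[ℝ])) := rfl
  rw [this]
  congr 1
  rw [← Quaternion.coe_mul_eq_smul, mul_one]

theorem HForm.rsmul_right (F : HForm V) (r : ℝ) (x y : V) : F.f x (r • y) = r • F.f x y := by
  rw [rsmul_eq, F.smul_right, ← Quaternion.coe_commutes, Quaternion.coe_mul_eq_smul]

theorem HForm.rsmul_left (F : HForm V) (r : ℝ) (x y : V) : F.f (r • x) y = r • F.f x y := by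
  rw [← F.herm, F.rsmul_right, Quaternion.star_smul, F.herm]

theorem HForm.q_rsmul (F : HForm V) (r : ℝ) (x : V) : F.q (r • x) = r ^ 2 * F.q x := by
  rw [rsmul_eq, q_real]

theorem finite_singular (G : HForm V) (hG : G.NS) (F : HForm V) :
    {ε : ℝ | ¬ (F + ε • G).NS}.Finite := by
  obtain ⟨T, hT⟩ := exists_op G hG F
  haveI : Module.Finite ℝ V := Module.Finite.trans K V
  haveI : Module.IsTorsionFree ℝ V := by infer_instance
  let T' : Module.End ℝ V := T.restrictScalars ℝ
  have h := Module.End.finite_hasEigenvalue T'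
  apply (h.image (fun x => -x)).subset
  intro ε hε
  simp only [Set.mem_setOf_eq, HForm.NS, not_forall] at hε
  obtain ⟨x, hx, hx0⟩ := hε
  refine ⟨-ε, ?_, by simp⟩
  simp only [Set.mem_setOf_eq]
  apply Module.End.hasEigenvalue_of_hasEigenvector (x := x)
  refine ⟨?_, hx0⟩
  rw [Module.End.mem_eigenspace_iff]
  have : T x + ε • x = 0 := by
    apply hG
    intro y
    apply G.symm_zero
    rw [G.add_right, hT, G.rsmul_right]
    exact (F + ε • G).symm_zero (hx y)
  rw [neg_smul]
  exact eq_neg_of_add_eq_zero_left this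

end Ops

section Semidef

variable {V : Type*} [AddCommGroup V] [Module K V] [FiniteDimensional K V]

theorem neutral_comb {A B : HForm V} {M : Submodule K V} (α β γ δ : ℝ) (h : Neutral A B M) :
    Neutral (α • A + β • B) (γ • A + δ • B) M := by
  intro x hx
  obtain ⟨h1, h2⟩ := h x hx
  simp [h1, h2]

theorem semidef_exchange (E F : HForm V) (hE : ∀ x, 0 ≤ E.q x) {M1 M2 : Submodule K V}
    (h1 : MaxNeutral E F M1) (h2 : MaxNeutral E F M2) : finrank K M2 ≤ finrank K M1 := by
  by_contra hcon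
  push Not at hcon
  obtain ⟨U, hU⟩ := Submodule.exists_isCompl (M1 ⊓ M2)
  set S := M1 ⊓ U with hS
  have hsup : (M1 ⊓ M2) ⊔ S = M1 := by
    rw [hS, inf_comm M1 U, ← sup_inf_assoc_of_le U (inf_le_left : M1 ⊓ M2 ≤ M1), hU.sup_eq_top, top_inf_eq]
  have hdisj : ∀ x ∈ M1 ⊓ M2, x ∈ S → x = 0 := by
    intro x hx hxS
    exact (Submodule.disjoint_def.mp hU.disjoint) x hx hxS.2
  have hd := finrank_sup_disj hdisj
  rw [hsup] at hd
  have hp := perp_dim F S M2
  have hlt : finrank K (M1 ⊓ M2 : Submodule K V) < finrank K (M2 ⊓ F.perp S : Submodule K V) := by omega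
  obtain ⟨x, hx, hxn⟩ : ∃ x ∈ (M2 ⊓ F.perp S : Submodule K V), x ∉ (M1 ⊓ M2 : Submodule K V) := by
    by_contra hc
    push Not at hc
    have : (M2 ⊓ F.perp S : Submodule K V) ≤ M1 ⊓ M2 := hc
    have := Submodule.finrank_mono this
    omega
  have hxM1 : x ∉ M1 := fun h => hxn ⟨h, hx.1⟩
  apply hxM1
  have hq := h2.1 x hx.1
  apply h1.mem hq.1 hq.2
  · intro m hm
    exact E.symm_zero (E.psd_zero ⊤ (fun y _ => hE y) trivial hq.1 m trivial)
  · intro m hm
    rw [← hsup] at hm
    obtain ⟨a, ha, b, hb, rfl⟩ := Submodule.mem_sup.mp hm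
    rw [F.add_left, h2.1.polarB a ha.2 x hx.1, hx.2 b hb, add_zero]

theorem maxNeutral_comb {A B : HForm V} {M : Submodule K V} (α β : ℝ) (hαβ : α ≠ 0 ∨ β ≠ 0)
    (h : MaxNeutral A B M) : MaxNeutral (α • A + β • B) (α • B + (-β) • A) M := by
  have hpos : α ^ 2 + β ^ 2 ≠ 0 := by
    rcases hαβ with h | h <;> positivity
  refine ⟨?_, ?_⟩
  · intro x hx
    obtain ⟨h1, h2⟩ := h.1 x hx
    simp [h1, h2]
  · intro M' hM' hle
    apply h.2 M' _ hle
    intro x hx
    obtain ⟨h1, h2⟩ := hM' x hx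
    simp only [HForm.add_q, HForm.smul_q] at h1 h2
    constructor
    · have : (α ^ 2 + β ^ 2) * A.q x = 0 := by
        linear_combination α * h1 - β * h2
      exact (mul_eq_zero.mp this).resolve_left hpos
    · have : (α ^ 2 + β ^ 2) * B.q x = 0 := by
        linear_combination β * h1 + α * h2
      exact (mul_eq_zero.mp this).resolve_left hpos

theorem suff_semidef (A B : HForm V) (α β : ℝ) (hαβ : α ≠ 0 ∨ β ≠ 0)
    (hE : ∀ x, 0 ≤ α * A.q x + β * B.q x) {M1 M2 : Submodule K V}
    (h1 : MaxNeutral A B M1) (h2 : MaxNeutral A B M2) : finrank K M1 = finrank K M2 := by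
  have e1 := maxNeutral_comb α β hαβ h1
  have e2 := maxNeutral_comb α β hαβ h2
  have hE' : ∀ x, 0 ≤ (α • A + β • B).q x := by intro x; simpa using hE x
  exact le_antisymm (semidef_exchange _ _ hE' e2 e1) (semidef_exchange _ _ hE' e1 e2)

end Semidef

section Main

variable {V : Type*} [AddCommGroup V] [Module K V] [FiniteDimensional K V]

theorem neg_bound (C D : HForm V) (hC : C.NS) (X : V →ₗ[K] V) (hX : ∀ x y, C.f x (X y) = D.f x y)
    (M : Submodule K V) (hM : Neutral C D M)
    (hpos : ∀ x ∈ C.perp M ⊓ D.perp M, x ∉ M → 0 < C.q x)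
    (G : HForm V) (r s : ℝ) (hG : ∀ x, G.q x = C.q (X x) + r * D.q x + s * C.q x) :
    negIndex C ≤ negIndex G + finrank K M := by
  classical
  set Q := C.pull X with hQ
  set QM := Q.pull M.subtype with hQM
  obtain ⟨NM, hNMdim, hNMneg, hNMpos, hNMcompl⟩ := exists_decomp QM
  set Mm := NM.map M.subtype with hMm
  have hMmdim : finrank K Mm = negIndex QM := by
    rw [← hNMdim]; exact Submodule.finrank_map_subtype_eq M NM
  have hMmG : NegOn G Mm := by
    rintro _ ⟨u, hu, rfl⟩ hu0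
    have hu0' : u ≠ 0 := by rintro rfl; simp at hu0
    have h1 := hNMneg u hu hu0'
    obtain ⟨h2, h3⟩ := hM (u : V) u.2
    rw [hG]
    simp only [hQM, hQ, HForm.pull_q, Submodule.subtype_apply] at h1 ⊢
    rw [h2, h3]
    linarith
  have h1 := le_negIndex G Mm hMmG
  by_contra hcon
  push Not at hcon
  obtain ⟨N, hN, hNneg⟩ := exists_negIndex C
  have h2 := perp_dim C M N
  have h3 := perp_dim C (Mm.map X) (N ⊓ C.perp M)
  have h4 : finrank K (Mm.map X) ≤ finrank K Mm := Submodule.finrank_map_le X Mm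
  have h5 : 0 < finrank K (N ⊓ C.perp M ⊓ C.perp (Mm.map X) : Submodule K V) := by omega
  obtain ⟨w, ⟨⟨hwN, hwM⟩, hwX⟩, hw0⟩ := exists_ne_zero_of_finrank_pos h5
  have hwneg := hNneg w hwN hw0
  -- decomposition
  set jp := C.perp M ⊓ D.perp M with hjp
  have hDX : ∀ x y, C.f (X x) y = D.f x y := by
    intro x y
    rw [← C.herm, hX, D.herm]
  have hjp' : jp = C.perp (M ⊔ M.map X) := by
    ext y
    constructor
    · rintro ⟨hy1, hy2⟩ z hz
      obtain ⟨a, ha, b, hb, rfl⟩ := Submodule.mem_sup.mp hz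
      obtain ⟨c, hc, rfl⟩ := hb
      rw [C.add_left, hy1 a ha, zero_add, hDX]
      exact hy2 c hc
    · intro hy
      refine ⟨fun x hx => hy x (Submodule.mem_sup_left hx), fun x hx => ?_⟩
      rw [← hDX]
      exact hy (X x) (Submodule.mem_sup_right ⟨x, hx, rfl⟩)
  have hMjp : M ≤ jp := fun x hx => ⟨fun y hy => hM.polarA y hy x hx, fun y hy => hM.polarB y hy x hx⟩
  have hinf : jp ⊓ (M ⊔ M.map X) = M := by
    apply le_antisymm
    · rintro x ⟨hx1, hx2⟩
      by_contra hxM
      have := hpos x hx1 hxM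
      rw [hjp'] at hx1
      have h0 := hx1 x hx2
      rw [C.self_eq_zero_iff] at h0
      linarith
    · exact le_inf hMjp le_sup_left
  have hle : jp ⊔ (M ⊔ M.map X) ≤ C.perp M := by
    apply sup_le
    · exact inf_le_left
    · apply sup_le
      · exact fun x hx => (hMjp hx).1
      · rintro _ ⟨x, hx, rfl⟩ y hy
        rw [hX]
        exact hM.polarB y hy x hx
  have hdim1 := Submodule.finrank_sup_add_finrank_inf_eq jp (M ⊔ M.map X)
  rw [hinf] at hdim1
  have hdim2 := perp_dim_ns C hC (M ⊔ M.map X)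
  rw [← hjp'] at hdim2
  have hdim3 := perp_dim_ns C hC M
  have heq : jp ⊔ (M ⊔ M.map X) = C.perp M :=
    Submodule.eq_of_le_of_finrank_le hle (by omega)
  have hwm : w ∈ jp ⊔ (M ⊔ M.map X) := by rw [heq]; exact hwM
  obtain ⟨w1, hw1, w2, hw2, rfl⟩ := Submodule.mem_sup.mp hwm
  obtain ⟨m', hm', z, hz, rfl⟩ := Submodule.mem_sup.mp hw2
  obtain ⟨u, hu, rfl⟩ := hz
  have hc12 : C.f w1 (m' + X u) = 0 := by
    have := hw1
    rw [hjp'] at this
    exact C.symm_zero (this _ hw2)
  have hq12 : C.q (w1 + (m' + X u)) = C.q w1 + C.q (m' + X u) := by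
    rw [C.q_add, hc12]; simp
  have hq1 : 0 ≤ C.q w1 := by
    by_cases hwM' : w1 ∈ M
    · rw [(hM w1 hwM').1]
    · exact (hpos w1 hw1 hwM').le
  have hmu : C.f m' (X u) = 0 := by rw [hX]; exact hM.polarB m' hm' u hu
  have hq2 : C.q (m' + X u) = Q.q u := by
    rw [C.q_add, hmu, (hM m' hm').1]; simp [hQ]
  have hQu : Q.q u < 0 := by linarith
  -- split u
  have hu' : (⟨u, hu⟩ : M) ∈ NM ⊔ QM.perp NM := by rw [hNMcompl.sup_eq_top]; trivial
  obtain ⟨a, ha, b, hb, hab⟩ := Submodule.mem_sup.mp hu'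
  have hab' : (a : V) + (b : V) = u := congrArg Subtype.val hab
  have hQab : QM.f a b = 0 := hb a ha
  have hua : QM.q a = 0 := by
    have h7 : C.f (X (a : V)) (w1 + (m' + X u)) = 0 := hwX _ ⟨(a : V), ⟨a, ha, rfl⟩, rfl⟩
    have h8 : C.f (X (a : V)) w1 = 0 := by
      have := hw1
      rw [hjp'] at this
      exact this _ (Submodule.mem_sup_right ⟨(a : V), a.2, rfl⟩)
    have h9 : C.f (X (a : V)) m' = 0 := by
      rw [hDX]; exact hM.polarB _ a.2 _ hm'
    rw [C.add_right, C.add_right, h8, h9, zero_add, zero_add, ← hab', map_add, C.add_right] at h7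
    have h10 : C.f (X (a : V)) (X (b : V)) = 0 := hQab
    rw [h10, add_zero] at h7
    show (C.f (X (a : V)) (X (a : V))).re = 0
    rw [h7]; rfl
  have ha0 : a = 0 := by
    by_contra hne
    have := hNMneg a ha hne
    linarith
  have hb' : 0 ≤ QM.q b := hNMpos b hb
  have : Q.q u = QM.q b := by
    rw [← hab', ha0]; simp [hQM]
  linarith

variable [Module ℝ V] [IsScalarTower ℝ K V]

/-- the criterion -/
def Crit (A B : HForm V) : Prop :=
  (∃ α β : ℝ, (α • A + β • B).NS) ∧
  ∀ α β : ℝ, (α • A + β • B).NS →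
    ∃ α₀ β₀ : ℝ, (α₀ • A + β₀ • B).NS ∧
      ∃ X : V →ₗ[K] V, (∀ x y, (α • A + β • B).f x (X y) = (α • B + (-β) • A).f x y) ∧
        ∃ r s : ℝ, negIndex (α₀ • A + β₀ • B) +
          negIndex ((α • A + β • B).pull X + r • (α • B + (-β) • A) + s • (α • A + β • B)) ≤
            negIndex (α • A + β • B)

theorem exists_pos_ns (A B : HForm V) (hns : ∃ α β : ℝ, (α • A + β • B).NS)
    {M : Submodule K V} (hM : MaxNeutral A B M) :
    ∃ α β : ℝ, (α • A + β • B).NS ∧ ∀ x ∈ A.perp M ⊓ B.perp M, x ∉ M → 0 < (α • A + β • B).q x := by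
  obtain ⟨α1, β1, h1⟩ := hns
  set jp := A.perp M ⊓ B.perp M with hjp
  have hMjp : M ≤ jp := fun x hx => ⟨fun y hy => hM.1.polarA y hy x hx, fun y hy => hM.1.polarB y hy x hx⟩
  obtain ⟨U, hU⟩ := Submodule.exists_isCompl M
  set W := jp ⊓ U with hW
  have hsup : M ⊔ W = jp := by
    rw [hW, inf_comm jp U, ← sup_inf_assoc_of_le U hMjp, hU.sup_eq_top, top_inf_eq]
  obtain ⟨a, b, hab⟩ := def_comb (A.pull W.subtype) (B.pull W.subtype) (by
    intro x hx hA hB
    apply hx
    have hxM : (x : V) ∈ M := hM.mem hA hB (fun m hm => x.2.1.1 m hm) (fun m hm => x.2.1.2 m hm)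
    have := (Submodule.disjoint_def.mp hU.disjoint) (x : V) hxM x.2.2
    exact Subtype.ext this)
  obtain ⟨δ, hδ, hpert⟩ := pos_perturb (a • (A.pull W.subtype) + b • (B.pull W.subtype))
    (α1 • (A.pull W.subtype) + β1 • (B.pull W.subtype)) (by intro x hx; simpa using hab x hx)
  have hfin := finite_singular (α1 • A + β1 • B) h1 (a • A + b • B)
  obtain ⟨ε, hε1, hε2⟩ : ∃ ε ∈ Set.Ioo 0 δ, ε ∉ {ε : ℝ | ¬ ((a • A + b • B) + ε • (α1 • A + β1 • B)).NS} := by
    by_contra hc
    push Not at hc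
    exact (Set.Ioo_infinite hδ) (hfin.subset hc)
  simp only [Set.mem_setOf_eq, not_not] at hε2
  have hEq : (a • A + b • B) + ε • (α1 • A + β1 • B) = (a + ε * α1) • A + (b + ε * β1) • B := by
    ext x y <;> simp <;> ring
  rw [hEq] at hε2
  refine ⟨a + ε * α1, b + ε * β1, hε2, ?_⟩
  intro x hx hxM
  rw [← hsup] at hx
  obtain ⟨m, hm, w, hw, rfl⟩ := Submodule.mem_sup.mp hx
  have hw0 : w ≠ 0 := by rintro rfl; apply hxM; simpa using hm
  have h2 := hpert ε (by rw [abs_of_pos hε1.1]; exact hε1.2) ⟨w, hw⟩ (by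
    intro h; apply hw0; exact congrArg Subtype.val h)
  simp only [HForm.add_q, HForm.smul_q, HForm.pull_q, Submodule.subtype_apply] at h2
  have hA : A.q (m + w) = A.q w := by
    rw [A.q_add, (hM.1 m hm).1, hw.1.1 m hm]; simp
  have hB : B.q (m + w) = B.q w := by
    rw [B.q_add, (hM.1 m hm).2, hw.1.2 m hm]; simp
  simp only [HForm.add_q, HForm.smul_q, hA, hB]
  linarith

theorem suff_crit (A B : HForm V) (h : Crit A B) {M1 M2 : Submodule K V}
    (h1 : MaxNeutral A B M1) (h2 : MaxNeutral A B M2) : finrank K M1 = finrank K M2 := by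
  have key : ∀ M : Submodule K V, MaxNeutral A B M → ∃ α₀ β₀ : ℝ, (α₀ • A + β₀ • B).NS ∧
      negIndex (α₀ • A + β₀ • B) ≤ finrank K M := by
    intro M hM
    obtain ⟨α, β, hns, hpos⟩ := exists_pos_ns A B h.1 hM
    obtain ⟨α₀, β₀, hns0, X, hX, r, s, hrs⟩ := h.2 α β hns
    refine ⟨α₀, β₀, hns0, ?_⟩
    have hMn : Neutral (α • A + β • B) (α • B + (-β) • A) M := by
      intro x hx
      obtain ⟨h1, h2⟩ := hM.1 x hx
      simp [h1, h2]
    -- (α, β) ≠ 0 or V trivial
    by_cases hαβ : α ≠ 0 ∨ β ≠ 0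
    · have hpos' : α ^ 2 + β ^ 2 ≠ 0 := by
        rcases hαβ with h | h <;> positivity
      have := neg_bound (α • A + β • B) (α • B + (-β) • A) hns X hX M hMn (by
        rintro x ⟨hx1, hx2⟩ hxM
        apply hpos x _ hxM
        constructor
        · intro m hm
          have e1 := hx1 m hm
          have e2 := hx2 m hm
          simp only [HForm.add_f, HForm.smul_f] at e1 e2
          have : (α ^ 2 + β ^ 2) • A.f m x = 0 := by
            have : (α ^ 2 + β ^ 2) • A.f m x = α • (α • A.f m x + β • B.f m x) -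
              β • (α • B.f m x + -β • A.f m x) := by
              simp only [smul_add, smul_smul, neg_smul, smul_neg, pow_two, add_smul]
              rw [mul_comm β α]
              abel
            rw [this, e1, e2]; simp
          exact (smul_eq_zero.mp this).resolve_left hpos'
        · intro m hm
          have e1 := hx1 m hm
          have e2 := hx2 m hm
          simp only [HForm.add_f, HForm.smul_f] at e1 e2
          have : (α ^ 2 + β ^ 2) • B.f m x = 0 := by
            have : (α ^ 2 + β ^ 2) • B.f m x = β • (α • A.f m x + β • B.f m x) +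
              α • (α • B.f m x + -β • A.f m x) := by
              simp only [smul_add, smul_smul, neg_smul, smul_neg, pow_two, add_smul]
              rw [mul_comm β α]
              abel
            rw [this, e1, e2]; simp
          exact (smul_eq_zero.mp this).resolve_left hpos')
        ((α • A + β • B).pull X + r • (α • B + (-β) • A) + s • (α • A + β • B)) r s
        (by intro x; rfl)
      omega
    · push Not at hαβ
      -- all of V is trivial
      have hV : ∀ x : V, x = 0 := by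
        intro x
        apply hns
        intro y
        simp [hαβ.1, hαβ.2]
      have h0 : negIndex (α₀ • A + β₀ • B) ≤ 0 := by
        obtain ⟨N, hN, _⟩ := exists_negIndex (α₀ • A + β₀ • B)
        rw [← hN]
        have : N = ⊥ := (Submodule.eq_bot_iff N).mpr (fun x _ => hV x)
        rw [this, finrank_bot]
      omega
  have bound : ∀ M : Submodule K V, MaxNeutral A B M → ∀ α β : ℝ, (α • A + β • B).NS →
      finrank K M ≤ negIndex (α • A + β • B) := by
    intro M hM α β hns
    apply nonpos_dim_ns _ hns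
    intro x hx
    obtain ⟨e1, e2⟩ := hM.1 x hx
    simp [e1, e2]
  obtain ⟨a1, b1, hn1, hl1⟩ := key M1 h1
  obtain ⟨a2, b2, hn2, hl2⟩ := key M2 h2
  exact le_antisymm ((bound M1 h1 a2 b2 hn2).trans hl2) ((bound M2 h2 a1 b1 hn1).trans hl1)

end Main

end Pool.Agent.Lib_c77211
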