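import Pool.Agent.Lib_c77211.Window

open Quaternion MulOpposite Module

noncomputable section

namespace Pool.Agent.Lib_c77211

set_option linter.unusedSectionVars false
set_option linter.deprecated false

universe u

section Count

theorem tab_sum {m n : ℕ} (cl : Fin m → Fin n) (G : Fin n → ℕ) :
    ∑ i, G (cl i) = ∑ c, (Finset.univ.filter fun i => cl i = c).card * G c := by
  rw [← Finset.sum_fiberwise Finset.univ cl (fun i => G (cl i))]
  apply Finset.sum_congr rfl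
  intro c _
  rw [Finset.sum_congr rfl (g := fun _ => G c), Finset.sum_const, smul_eq_mul]
  intro i hi
  rw [(Finset.mem_filter.mp hi).2]

theorem cnt_eq {m n : ℕ} (blk : Fin m → Block) (cl : Fin m → Fin n) (p : Block → Prop)
    (G : Fin n → ℕ) (h : ∀ i, (p (blk i) ∧ G (cl i) = 1) ∨ (¬ p (blk i) ∧ G (cl i) = 0)) :
    cnt blk p = ∑ i, G (cl i) := by
  classical
  unfold cnt
  rw [Nat.card_eq_fintype_card, Fintype.card_subtype, Finset.card_filter]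
  apply Finset.sum_congr rfl
  intro i _
  rcases h i with ⟨h1, h2⟩ | ⟨h1, h2⟩
  · rw [if_pos h1, h2]
  · rw [if_neg h1, h2]

theorem exists_of_cnt {m : ℕ} (blk : Fin m → Block) (p : Block → Prop) (h : 1 ≤ cnt blk p) :
    ∃ i, p (blk i) := by
  by_contra hcon
  push Not at hcon
  have : cnt blk p = 0 := by
    unfold cnt
    haveI : IsEmpty {i : Fin m // p (blk i)} := ⟨fun i => hcon i.1 i.2⟩
    exact Nat.card_of_isEmpty
  omega

theorem isJ_jordan (k k' : ℕ) (s s' x : ℝ) (p : ℝ → Prop) :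
    (Block.jordan k s x).isJ k' s' p ↔ k = k' ∧ s = s' ∧ p x := by
  constructor
  · rintro ⟨x', h1, h2⟩
    injection h2 with e1 e2 e3
    exact ⟨e1, e2, e3 ▸ h1⟩
  · rintro ⟨rfl, rfl, h⟩
    exact ⟨x, h, rfl⟩

theorem jordan_eq (k k' : ℕ) (s s' x x' : ℝ) :
    (Block.jordan k s x = Block.jordan k' s' x') ↔ k = k' ∧ s = s' ∧ x = x' := by
  constructor
  · intro h; injection h with e1 e2 e3; exact ⟨e1, e2, e3⟩
  · rintro ⟨rfl, rfl, rfl⟩; rfl

end Count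

section Eig

variable {V : Type u} [AddCommGroup V] [Module K V] [FiniteDimensional K V] [Module ℝ V]
  [IsScalarTower ℝ K V]

theorem BAct.ne_null {X : V →ₗ[K] V} {b : Block} {e : Fin b.size → V} (h : BAct X b e) :
    b ≠ Block.null := by
  rintro rfl
  exact h

theorem block_eig (C : HForm V) (X : V →ₗ[K] V) (b : Block) (e : Fin b.size → V)
    (hg : ∀ i j, C.f (e i) (e j) = b.C i j) (ha : BAct X b e) (k : ℕ) (s x : ℝ)
    (hb : b = Block.jordan k s x) : ∃ v, v ≠ 0 ∧ X v = x • v := by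
  subst hb
  obtain ⟨hk, hs, hact⟩ := ha
  have hs' := coe_ne_zero hs
  rcases hk with rfl | rfl | rfl
  · refine ⟨e (0 : Fin 1), fun h0 => ?_, ?_⟩
    · have h1 : C.f (e (0 : Fin 1)) (e (0 : Fin 1)) = (s : ℍ[ℝ]) :=
        (hg (0 : Fin 1) (0 : Fin 1)).trans (by simp [Block.C])
      rw [h0, C.zero_left] at h1
      exact hs' h1.symm
    · have := hact (0 : Fin 1)
      rw [dif_neg (by simp), add_zero] at this
      exact this
  · refine ⟨e (0 : Fin 2), fun h0 => ?_, ?_⟩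
    · have h1 : C.f (e (0 : Fin 2)) (e (1 : Fin 2)) = (s : ℍ[ℝ]) :=
        (hg (0 : Fin 2) (1 : Fin 2)).trans (by simp [Block.C])
      rw [h0, C.zero_left] at h1
      exact hs' h1.symm
    · have := hact (0 : Fin 2)
      rw [dif_neg (by simp), add_zero] at this
      exact this
  · refine ⟨e (0 : Fin 3), fun h0 => ?_, ?_⟩
    · have h1 : C.f (e (0 : Fin 3)) (e (2 : Fin 3)) = (s : ℍ[ℝ]) :=
        (hg (0 : Fin 3) (2 : Fin 3)).trans (by simp [Block.C])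
      rw [h0, C.zero_left] at h1
      exact hs' h1.symm
    · have := hact (0 : Fin 3)
      rw [dif_neg (by simp), add_zero] at this
      exact this

theorem XDec.c_ne {C F : HForm V} {X : V →ₗ[K] V} (hX : ∀ x y, C.f x (X y) = F.f x y) {m : ℕ}
    {blk : Fin m → Block} {e : (i : Fin m) → Fin (blk i).size → V} (h : XDec C X blk e)
    {α β : ℝ} (hns : (α • C + β • F).NS) (i : Fin m) (k : ℕ) (s x : ℝ)
    (hi : blk i = Block.jordan k s x) : α + β * x ≠ 0 := by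
  intro h0
  obtain ⟨v, hv, hXv⟩ := block_eig C X (blk i) (e i) (h.gram i) (h.act i) k s x hi
  apply hv
  apply hns
  intro y
  apply HForm.symm_zero
  rw [HForm.add_f, HForm.smul_f, HForm.smul_f, ← hX, hXv, C.rsmul_right, smul_smul, ← add_smul, h0,
    zero_smul]

theorem exists_bounds {m : ℕ} (blk : Fin m → Block) (a b : ℝ) :
    ∃ xm xp : ℝ, xm < a ∧ xm < b ∧ a < xp ∧ b < xp ∧ ∀ i, xm < eigv (blk i) ∧ eigv (blk i) < xp := by
  obtain ⟨L, hL⟩ := (Set.finite_range (fun i => eigv (blk i))).bddBelow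
  obtain ⟨M, hM⟩ := (Set.finite_range (fun i => eigv (blk i))).bddAbove
  refine ⟨min L (min a b) - 1, max M (max a b) + 1, ?_, ?_, ?_, ?_, ?_⟩
  · have : min L (min a b) ≤ a := (min_le_right _ _).trans (min_le_left _ _)
    linarith
  · have : min L (min a b) ≤ b := (min_le_right _ _).trans (min_le_right _ _)
    linarith
  · have : a ≤ max M (max a b) := (le_max_left _ _).trans (le_max_right _ _)
    linarith
  · have : b ≤ max M (max a b) := (le_max_right _ _).trans (le_max_right _ _)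
    linarith
  · intro i
    have h1 := hL ⟨i, rfl⟩
    have h2 := hM ⟨i, rfl⟩
    simp only at h1 h2
    have h3 : min L (min a b) ≤ L := min_le_left _ _
    have h4 : M ≤ max M (max a b) := le_max_left _ _
    constructor <;> linarith

end Eig

section ClassH

theorem exists_cls {a b : ℝ} (hab : a < b) {t : Block}
    (h : t.isJ 1 1 (fun x => x ≤ a ∨ b ≤ x) ∨ t.isJ 1 (-1) (fun x => a ≤ x ∧ x ≤ b) ∨
      t = Block.jordan 2 (-1) a ∨ t = Block.jordan 2 1 b) : ∃ c, InC a b t c := by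
  rcases h with ⟨x, hx, rfl⟩ | ⟨x, ⟨h1, h2⟩, rfl⟩ | rfl | rfl
  · rcases hx with h | h
    · rcases h.lt_or_eq with h | rfl
      · exact ⟨_, InC.R x h⟩
      · exact ⟨_, InC.Ap⟩
    · rcases h.lt_or_eq with h | rfl
      · exact ⟨_, InC.Pp x h⟩
      · exact ⟨_, InC.Cp⟩
  · rcases h1.lt_or_eq with h1 | rfl
    · rcases h2.lt_or_eq with h2 | rfl
      · exact ⟨_, InC.Q x h1 h2⟩
      · exact ⟨_, InC.Cm⟩
    · exact ⟨_, InC.Am⟩
  · exact ⟨_, InC.Bb⟩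
  · exact ⟨_, InC.Bc⟩

theorem one_ne_negone : ¬ ((1 : ℝ) = -1) := by norm_num
theorem negone_ne_one : ¬ ((-1 : ℝ) = 1) := by norm_num

variable {a b : ℝ} (hab : a < b) {t : Block} {c : Fin 9} (hc : InC a b t c)

include hab hc

theorem tab1 : (t.isJ 1 (-1) (fun x => x < b) ∧ (![0,0,1,0,1,0,0,0,0] : Fin 9 → ℕ) c = 1) ∨
    (¬ t.isJ 1 (-1) (fun x => x < b) ∧ (![0,0,1,0,1,0,0,0,0] : Fin 9 → ℕ) c = 0) := by
  cases hc with
  | R x h => right; exact ⟨by rw [isJ_jordan]; rintro ⟨_, h, _⟩; exact one_ne_negone h, rfl⟩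
  | Ap => right; exact ⟨by rw [isJ_jordan]; rintro ⟨_, h, _⟩; exact one_ne_negone h, rfl⟩
  | Am => left; exact ⟨by rw [isJ_jordan]; exact ⟨rfl, rfl, hab⟩, rfl⟩
  | Bb => right; exact ⟨by rw [isJ_jordan]; rintro ⟨h, _⟩; exact absurd h (by norm_num), rfl⟩
  | Q x h1 h2 => left; exact ⟨by rw [isJ_jordan]; exact ⟨rfl, rfl, h2⟩, rfl⟩
  | Cp => right; exact ⟨by rw [isJ_jordan]; rintro ⟨_, h, _⟩; exact one_ne_negone h, rfl⟩
  | Cm => right; exact ⟨by rw [isJ_jordan]; rintro ⟨_, _, h⟩; exact lt_irrefl _ h, rfl⟩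
  | Bc => right; exact ⟨by rw [isJ_jordan]; rintro ⟨h, _⟩; exact absurd h (by norm_num), rfl⟩
  | Pp x h => right; exact ⟨by rw [isJ_jordan]; rintro ⟨_, h, _⟩; exact one_ne_negone h, rfl⟩

theorem tab1' : (t.isJ 1 (-1) (fun x => a < x) ∧ (![0,0,0,0,1,0,1,0,0] : Fin 9 → ℕ) c = 1) ∨
    (¬ t.isJ 1 (-1) (fun x => a < x) ∧ (![0,0,0,0,1,0,1,0,0] : Fin 9 → ℕ) c = 0) := by
  cases hc with
  | R x h => right; exact ⟨by rw [isJ_jordan]; rintro ⟨_, h, _⟩; exact one_ne_negone h, rfl⟩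
  | Ap => right; exact ⟨by rw [isJ_jordan]; rintro ⟨_, h, _⟩; exact one_ne_negone h, rfl⟩
  | Am => right; exact ⟨by rw [isJ_jordan]; rintro ⟨_, _, h⟩; exact lt_irrefl _ h, rfl⟩
  | Bb => right; exact ⟨by rw [isJ_jordan]; rintro ⟨h, _⟩; exact absurd h (by norm_num), rfl⟩
  | Q x h1 h2 => left; exact ⟨by rw [isJ_jordan]; exact ⟨rfl, rfl, h1⟩, rfl⟩
  | Cp => right; exact ⟨by rw [isJ_jordan]; rintro ⟨_, h, _⟩; exact one_ne_negone h, rfl⟩
  | Cm => left; exact ⟨by rw [isJ_jordan]; exact ⟨rfl, rfl, hab⟩, rfl⟩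
  | Bc => right; exact ⟨by rw [isJ_jordan]; rintro ⟨h, _⟩; exact absurd h (by norm_num), rfl⟩
  | Pp x h => right; exact ⟨by rw [isJ_jordan]; rintro ⟨_, h, _⟩; exact one_ne_negone h, rfl⟩

theorem tab2 : (t = Block.jordan 2 1 b ∧ (![0,0,0,0,0,0,0,1,0] : Fin 9 → ℕ) c = 1) ∨
    (¬ t = Block.jordan 2 1 b ∧ (![0,0,0,0,0,0,0,1,0] : Fin 9 → ℕ) c = 0) := by
  cases hc <;> simp [jordan_eq, negone_ne_one, hab.ne]

theorem tab2' : (t = Block.jordan 2 (-1) a ∧ (![0,0,0,1,0,0,0,0,0] : Fin 9 → ℕ) c = 1) ∨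
    (¬ t = Block.jordan 2 (-1) a ∧ (![0,0,0,1,0,0,0,0,0] : Fin 9 → ℕ) c = 0) := by
  cases hc <;> simp [jordan_eq, one_ne_negone, hab.ne']

theorem tab3 : (t = Block.jordan 1 (-1) b ∧ (![0,0,0,0,0,0,1,0,0] : Fin 9 → ℕ) c = 1) ∨
    (¬ t = Block.jordan 1 (-1) b ∧ (![0,0,0,0,0,0,1,0,0] : Fin 9 → ℕ) c = 0) := by
  cases hc with
  | Q x h1 h2 => simp [jordan_eq, h2.ne]
  | _ => simp [jordan_eq, one_ne_negone, hab.ne]

theorem tab3' : (t = Block.jordan 1 (-1) a ∧ (![0,0,1,0,0,0,0,0,0] : Fin 9 → ℕ) c = 1) ∨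
    (¬ t = Block.jordan 1 (-1) a ∧ (![0,0,1,0,0,0,0,0,0] : Fin 9 → ℕ) c = 0) := by
  cases hc with
  | Q x h1 h2 => simp [jordan_eq, h1.ne']
  | _ => simp [jordan_eq, one_ne_negone, hab.ne']

theorem tab4 : (t.isJ 1 1 (fun x => b < x) ∧ (![0,0,0,0,0,0,0,0,1] : Fin 9 → ℕ) c = 1) ∨
    (¬ t.isJ 1 1 (fun x => b < x) ∧ (![0,0,0,0,0,0,0,0,1] : Fin 9 → ℕ) c = 0) := by
  cases hc with
  | R x h => simp [isJ_jordan, (h.trans hab).le]
  | Pp x h => simp [isJ_jordan, h]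
  | _ => simp [isJ_jordan, negone_ne_one, hab.le]

theorem tab4' : (t.isJ 1 1 (fun x => x < a) ∧ (![1,0,0,0,0,0,0,0,0] : Fin 9 → ℕ) c = 1) ∨
    (¬ t.isJ 1 1 (fun x => x < a) ∧ (![1,0,0,0,0,0,0,0,0] : Fin 9 → ℕ) c = 0) := by
  cases hc with
  | R x h => simp [isJ_jordan, h]
  | Pp x h => simp [isJ_jordan, (hab.trans h).le]
  | _ => simp [isJ_jordan, negone_ne_one, hab.le]

theorem tab5 : (t.isJ 1 1 (fun x => x ≤ a) ∧ (![1,1,0,0,0,0,0,0,0] : Fin 9 → ℕ) c = 1) ∨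
    (¬ t.isJ 1 1 (fun x => x ≤ a) ∧ (![1,1,0,0,0,0,0,0,0] : Fin 9 → ℕ) c = 0) := by
  cases hc with
  | R x h => simp [isJ_jordan, h.le]
  | Pp x h => simp [isJ_jordan, (hab.trans h)]
  | _ => simp [isJ_jordan, negone_ne_one, hab]

theorem tab5' : (t.isJ 1 1 (fun x => b ≤ x) ∧ (![0,0,0,0,0,1,0,0,1] : Fin 9 → ℕ) c = 1) ∨
    (¬ t.isJ 1 1 (fun x => b ≤ x) ∧ (![0,0,0,0,0,1,0,0,1] : Fin 9 → ℕ) c = 0) := by
  cases hc with
  | R x h => simp [isJ_jordan, (h.trans hab)]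
  | Pp x h => simp [isJ_jordan, h.le]
  | _ => simp [isJ_jordan, negone_ne_one, hab]

theorem tab6 : ((t = Block.jordan 1 (-1) a ∨ t = Block.jordan 2 (-1) a) ∧
      (![0,0,1,1,0,0,0,0,0] : Fin 9 → ℕ) c = 1) ∨
    (¬ (t = Block.jordan 1 (-1) a ∨ t = Block.jordan 2 (-1) a) ∧
      (![0,0,1,1,0,0,0,0,0] : Fin 9 → ℕ) c = 0) := by
  cases hc with
  | Q x h1 h2 => simp [jordan_eq, h1.ne']
  | _ => simp [jordan_eq, one_ne_negone, hab.ne']

theorem tab6' : ((t = Block.jordan 1 (-1) b ∨ t = Block.jordan 2 1 b) ∧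
      (![0,0,0,0,0,0,1,1,0] : Fin 9 → ℕ) c = 1) ∨
    (¬ (t = Block.jordan 1 (-1) b ∨ t = Block.jordan 2 1 b) ∧
      (![0,0,0,0,0,0,1,1,0] : Fin 9 → ℕ) c = 0) := by
  cases hc with
  | Q x h1 h2 => simp [jordan_eq, h2.ne]
  | _ => simp [jordan_eq, one_ne_negone, negone_ne_one, hab.ne]

omit hab in
theorem tabD : negB t 1 = (![0,0,1,1,1,0,1,1,0] : Fin 9 → ℕ) c := by
  cases hc with
  | Bb => rw [negB_two]; simp
  | Bc => rw [negB_two]; simp
  | _ => rw [negB_one]; simp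

end ClassH

end Pool.Agent.Lib_c77211
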