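import Pool.Agent.Lib_c77211.CritPoly

open Quaternion MulOpposite Module

noncomputable section

namespace Pool.Agent.Lib_c77211

set_option linter.unusedSectionVars false
set_option linter.deprecated false

universe u

section Signs

open SignType

def n1 (s σ γ : SignType) : ℕ := if s * (σ * γ) = -1 then 1 else 0
def n2 (s σ δ γ : SignType) : ℕ := if σ = 0 then (if s * (δ * γ) = -1 then 1 else 0) else 1
def n3 (δ ε γ : SignType) : ℕ := if δ = 0 then (if ε * γ = -1 then 1 else 0) else 1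

theorem lt_iff_sign (v : ℝ) : v < 0 ↔ sign v = -1 := sign_eq_neg_one_iff.symm

theorem eval_ql (p2 p1 p0 α β x : ℝ) :
    (qp p2 p1 p0 * lp α β).eval x = (p2 * x ^ 2 + p1 * x + p0) * (α + β * x) := by
  simp only [qp, lp, Polynomial.eval_mul, Polynomial.eval_add, Polynomial.eval_C,
    Polynomial.eval_pow, Polynomial.eval_X]

theorem deriv_ql (p2 p1 p0 α β x : ℝ) :
    (qp p2 p1 p0 * lp α β).derivative.eval x =
      (2 * p2 * x + p1) * (α + β * x) + (p2 * x ^ 2 + p1 * x + p0) * β := by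
  simp only [qp, lp, Polynomial.derivative_mul, Polynomial.derivative_add, Polynomial.derivative_C,
    Polynomial.derivative_X_pow, Polynomial.derivative_X, Polynomial.eval_mul, Polynomial.eval_add,
    Polynomial.eval_C, Polynomial.eval_pow, Polynomial.eval_X, Polynomial.eval_zero,
    Polynomial.eval_one]
  push_cast
  ring

theorem deriv2_ql (p2 p1 p0 α β x : ℝ) :
    (qp p2 p1 p0 * lp α β).derivative.derivative.eval x =
      2 * p2 * (α + β * x) + 2 * (2 * p2 * x + p1) * β := by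
  simp only [qp, lp, Polynomial.derivative_mul, Polynomial.derivative_add, Polynomial.derivative_C,
    Polynomial.derivative_X_pow, Polynomial.derivative_X, Polynomial.eval_mul, Polynomial.eval_add,
    Polynomial.eval_C, Polynomial.eval_pow, Polynomial.eval_X, Polynomial.eval_zero,
    Polynomial.eval_one, Polynomial.derivative_zero, Polynomial.derivative_one]
  push_cast
  ring

theorem eval_lp (α β x : ℝ) : (lp α β).eval x = α + β * x := by simp [lp]

theorem negB1_eq (s x p2 p1 p0 α β : ℝ) :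
    negB (.jordan 1 s x) (qp p2 p1 p0 * lp α β) =
      n1 (sign s) (sign (p2 * x ^ 2 + p1 * x + p0)) (sign (α + β * x)) := by
  rw [negB_one, n1, eval_ql]
  simp only [lt_iff_sign, sign_mul]

theorem negB1_lp (s x α β : ℝ) :
    negB (.jordan 1 s x) (lp α β) = n1 (sign s) 1 (sign (α + β * x)) := by
  rw [negB_one, n1, eval_lp]
  simp only [lt_iff_sign, sign_mul, one_mul]

theorem negB2_eq (s x p2 p1 p0 α β : ℝ) (hc : α + β * x ≠ 0) :
    negB (.jordan 2 s x) (qp p2 p1 p0 * lp α β) =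
      n2 (sign s) (sign (p2 * x ^ 2 + p1 * x + p0)) (sign (2 * p2 * x + p1)) (sign (α + β * x)) := by
  rw [negB_two, n2, eval_ql, deriv_ql]
  by_cases h : p2 * x ^ 2 + p1 * x + p0 = 0
  · simp only [h, zero_mul, add_zero, sign_zero, if_true, lt_iff_sign, sign_mul]
  · rw [if_neg (mul_ne_zero h hc), if_neg (by rw [sign_eq_zero_iff]; exact h)]

theorem negB2_lp (s x α β : ℝ) (hc : α + β * x ≠ 0) : negB (.jordan 2 s x) (lp α β) = 1 := by
  rw [negB_two, eval_lp, if_neg hc]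

theorem negB3_eq (x p2 p1 p0 α β : ℝ) (hroot : p2 * x ^ 2 + p1 * x + p0 = 0)
    (hc : α + β * x ≠ 0) :
    negB (.jordan 3 1 x) (qp p2 p1 p0 * lp α β) =
      n3 (sign (2 * p2 * x + p1)) (sign p2) (sign (α + β * x)) := by
  rw [negB_three, n3, eval_ql, deriv_ql, deriv2_ql, hroot, zero_mul, if_pos rfl, zero_mul, add_zero]
  by_cases h : 2 * p2 * x + p1 = 0
  · have : sign (2 : ℝ) = 1 := sign_pos (by norm_num)
    simp only [h, zero_mul, add_zero, sign_zero, if_true, lt_iff_sign, sign_mul, one_mul, mul_zero,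
      this]
  · rw [if_neg (mul_ne_zero h hc), if_neg (by rw [sign_eq_zero_iff]; exact h)]

theorem negB3_lp (x α β : ℝ) (hc : α + β * x ≠ 0) :
    negB (.jordan 3 1 x) (lp α β) = if sign (α + β * x) = -1 then 2 else 1 := by
  rw [negB_three, eval_lp, if_neg hc]
  simp only [lt_iff_sign, one_mul]

/-- classes of blocks in the hyperbolic type -/
inductive InC (a b : ℝ) : Block → Fin 9 → Prop
  | R (x : ℝ) (h : x < a) : InC a b (.jordan 1 1 x) 0
  | Ap : InC a b (.jordan 1 1 a) 1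
  | Am : InC a b (.jordan 1 (-1) a) 2
  | Bb : InC a b (.jordan 2 (-1) a) 3
  | Q (x : ℝ) (h1 : a < x) (h2 : x < b) : InC a b (.jordan 1 (-1) x) 4
  | Cp : InC a b (.jordan 1 1 b) 5
  | Cm : InC a b (.jordan 1 (-1) b) 6
  | Bc : InC a b (.jordan 2 1 b) 7
  | Pp (x : ℝ) (h : b < x) : InC a b (.jordan 1 1 x) 8

/-- the table check -/
def Chk (σR σa σQ σb σP δa δb γa γb : SignType) (PR PQ PP : SignType → Bool)
    (wp wm : Fin 9 → ℕ) : Prop :=
  (∀ γ, PR γ = true → n1 1 σR γ + wp 0 = n1 1 1 γ + wm 0) ∧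
  (n1 1 σa γa + wp 1 = n1 1 1 γa + wm 1) ∧
  (n1 (-1) σa γa + wp 2 = n1 (-1) 1 γa + wm 2) ∧
  (n2 (-1) σa δa γa + wp 3 = 1 + wm 3) ∧
  (∀ γ, PQ γ = true → n1 (-1) σQ γ + wp 4 = n1 (-1) 1 γ + wm 4) ∧
  (n1 1 σb γb + wp 5 = n1 1 1 γb + wm 5) ∧
  (n1 (-1) σb γb + wp 6 = n1 (-1) 1 γb + wm 6) ∧
  (n2 1 σb δb γb + wp 7 = 1 + wm 7) ∧
  (∀ γ, PP γ = true → n1 1 σP γ + wp 8 = n1 1 1 γ + wm 8)

/-- eigenvalue -/
def eigv : Block → ℝ
  | .jordan _ _ x => x
  | _ => 0

theorem sign_negone : sign (-1 : ℝ) = -1 := sign_neg (by norm_num)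

theorem sign_one' : sign (1 : ℝ) = 1 := sign_pos (by norm_num)

theorem master {a b α β p2 p1 p0 xm xp : ℝ} {t : Block} {c : Fin 9} (hc : InC a b t c)
    (hxm : xm < eigv t) (hxp : eigv t < xp)
    {σR σa σQ σb σP δa δb γa γb : SignType} {PR PQ PP : SignType → Bool} {wp wm : Fin 9 → ℕ}
    (hR : ∀ x, xm < x → x < a → sign (p2 * x ^ 2 + p1 * x + p0) = σR)
    (ha : sign (p2 * a ^ 2 + p1 * a + p0) = σa)
    (hQ : ∀ x, a < x → x < b → sign (p2 * x ^ 2 + p1 * x + p0) = σQ)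
    (hb : sign (p2 * b ^ 2 + p1 * b + p0) = σb)
    (hP : ∀ x, b < x → x < xp → sign (p2 * x ^ 2 + p1 * x + p0) = σP)
    (hda : sign (2 * p2 * a + p1) = δa ∨ σa ≠ 0) (hdb : sign (2 * p2 * b + p1) = δb ∨ σb ≠ 0)
    (hγa : sign (α + β * a) = γa) (hγb : sign (α + β * b) = γb) (hγa0 : γa ≠ 0) (hγb0 : γb ≠ 0)
    (hγR : ∀ x, x < a → PR (sign (α + β * x)) = true)
    (hγQ : ∀ x, a < x → x < b → PQ (sign (α + β * x)) = true)
    (hγP : ∀ x, b < x → PP (sign (α + β * x)) = true)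
    (hchk : Chk σR σa σQ σb σP δa δb γa γb PR PQ PP wp wm) :
    negB t (qp p2 p1 p0 * lp α β) + wp c = negB t (lp α β) + wm c := by
  obtain ⟨c0, c1, c2, c3, c4, c5, c6, c7, c8⟩ := hchk
  have hca : α + β * a ≠ 0 := by
    intro h; apply hγa0; rw [← hγa, h, sign_zero]
  have hcb : α + β * b ≠ 0 := by
    intro h; apply hγb0; rw [← hγb, h, sign_zero]
  cases hc with
  | R x h =>
    rw [negB1_eq, negB1_lp, sign_one', hR x hxm h]
    exact c0 _ (hγR x h)
  | Ap => rw [negB1_eq, negB1_lp, sign_one', ha, hγa]; exact c1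
  | Am => rw [negB1_eq, negB1_lp, sign_negone, ha, hγa]; exact c2
  | Bb =>
    rw [negB2_eq _ _ _ _ _ _ _ hca, negB2_lp _ _ _ _ hca, sign_negone, ha, hγa]
    rcases hda with h | h
    · rw [h]; exact c3
    · rw [n2, if_neg h] at c3 ⊢; exact c3
  | Q x h1 h2 =>
    rw [negB1_eq, negB1_lp, sign_negone, hQ x h1 h2]
    exact c4 _ (hγQ x h1 h2)
  | Cp => rw [negB1_eq, negB1_lp, sign_one', hb, hγb]; exact c5
  | Cm => rw [negB1_eq, negB1_lp, sign_negone, hb, hγb]; exact c6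
  | Bc =>
    rw [negB2_eq _ _ _ _ _ _ _ hcb, negB2_lp _ _ _ _ hcb, sign_one', hb, hγb]
    rcases hdb with h | h
    · rw [h]; exact c7
    · rw [n2, if_neg h] at c7 ⊢; exact c7
  | Pp x h =>
    rw [negB1_eq, negB1_lp, sign_one', hP x h hxp]
    exact c8 _ (hγP x h)

end Signs

end Pool.Agent.Lib_c77211
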