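import Pool.Agent.Lib_c77211.Blocks

open Quaternion MulOpposite Module

noncomputable section

namespace Pool.Agent.Lib_c77211

set_option linter.unusedSectionVars false
set_option linter.deprecated false

universe u

variable {V : Type u} [AddCommGroup V] [Module K V] [FiniteDimensional K V] [Module ℝ V]
  [IsScalarTower ℝ K V]

theorem mem_rsmul (U : Submodule K V) (r : ℝ) {x : V} (hx : x ∈ U) : r • x ∈ U := by
  rw [rsmul_eq]; exact U.smul_mem _ hx

theorem BAct.maps {X : V →ₗ[K] V} {b : Block} {e : Fin b.size → V} (h : BAct X b e) :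
    ∀ a, X (e a) ∈ Submodule.span K (Set.range e) := by
  match b, e, h with
  | .null, e, h => exact h.elim
  | .jordan k s x, e, h =>
    intro a
    have := h.2.2 a
    rw [this]
    apply Submodule.add_mem
    · exact mem_rsmul _ _ (Submodule.subset_span ⟨a, rfl⟩)
    · split_ifs with h0
      · exact Submodule.subset_span ⟨_, rfl⟩
      · exact Submodule.zero_mem _
  | .ell, e, h =>
    intro a
    have ha : a = (0 : Fin 2) ∨ a = (1 : Fin 2) := by
      rcases Fin.eq_zero_or_eq_succ (n := 1) a with h | ⟨j, h⟩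
      · exact Or.inl h
      · right; rw [h]
        have : j = 0 := Subsingleton.elim _ _
        rw [this]; rfl
    rcases ha with rfl | rfl
    · rw [h.1]; exact Submodule.smul_mem _ _ (Submodule.subset_span ⟨_, rfl⟩)
    · rw [h.2]; exact Submodule.smul_mem _ _ (Submodule.subset_span ⟨_, rfl⟩)

theorem BAct.inv {X : V →ₗ[K] V} {b : Block} {e : Fin b.size → V} (h : BAct X b e) :
    ∀ y ∈ Submodule.span K (Set.range e), X y ∈ Submodule.span K (Set.range e) := by
  intro y hy
  have : Submodule.span K (Set.range e) ≤ (Submodule.span K (Set.range e)).comap X := by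
    rw [Submodule.span_le]
    rintro _ ⟨a, rfl⟩
    exact h.maps a
  exact this hy

theorem aeval_inv (X : V →ₗ[K] V) (U : Submodule K V) (h : ∀ y ∈ U, X y ∈ U) (p : Polynomial ℝ) :
    ∀ y ∈ U, Polynomial.aeval X p y ∈ U := by
  induction p using Polynomial.induction_on with
  | C a => intro y hy; rw [aeval_C']; exact mem_rsmul _ _ hy
  | add p q hp hq =>
    intro y hy
    rw [map_add, LinearMap.add_apply]
    exact U.add_mem (hp y hy) (hq y hy)
  | monomial n a ih =>
    intro y hy
    have e1 : Polynomial.C a * Polynomial.X ^ (n + 1) =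
      (Polynomial.C a * Polynomial.X ^ n) * Polynomial.X := by ring
    rw [e1, aeval_mulX]
    exact ih _ (h y hy)

/-- block decomposition of the pair `(C, X)` -/
structure XDec (C : HForm V) (X : V →ₗ[K] V) {m : ℕ} (blk : Fin m → Block)
    (e : (i : Fin m) → Fin (blk i).size → V) : Prop where
  span : ⊤ ≤ ⨆ i, Submodule.span K (Set.range (e i))
  gram : ∀ i a b, C.f (e i a) (e i b) = (blk i).C a b
  orth : ∀ i j, i ≠ j → ∀ a b, C.f (e i a) (e j b) = 0
  act : ∀ i, BAct X (blk i) (e i)

theorem orth_span_range (G : HForm V) {α β : Type*} (f : α → V) (g : β → V)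
    (h : ∀ a b, G.f (f a) (g b) = 0) :
    ∀ x ∈ Submodule.span K (Set.range f), ∀ y ∈ Submodule.span K (Set.range g), G.f x y = 0 := by
  intro x hx y hy
  have h1 : Submodule.span K (Set.range g) ≤ G.perp (Submodule.span K (Set.range f)) := by
    rw [Submodule.span_le]
    rintro _ ⟨b, rfl⟩
    intro z hz
    have h2 : Submodule.span K (Set.range f) ≤ G.perp (Submodule.span K {g b}) := by
      rw [Submodule.span_le]
      rintro _ ⟨a, rfl⟩
      exact (HForm.perp_span G (g b) (f a)).mpr (G.symm_zero (h a b))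
    exact G.symm_zero ((HForm.perp_span G (g b) z).mp (h2 hz))
  exact h1 hy x hx

theorem XDec.orth_span {C : HForm V} {X : V →ₗ[K] V} {m : ℕ} {blk : Fin m → Block}
    {e : (i : Fin m) → Fin (blk i).size → V} (h : XDec C X blk e) {i j : Fin m} (hij : i ≠ j) :
    ∀ x ∈ Submodule.span K (Set.range (e i)), ∀ y ∈ Submodule.span K (Set.range (e j)),
      C.f x y = 0 := orth_span_range C _ _ (h.orth i j hij)

theorem XDec.negIndex_ph {C : HForm V} {X : V →ₗ[K] V} {m : ℕ} {blk : Fin m → Block}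
    {e : (i : Fin m) → Fin (blk i).size → V} (h : XDec C X blk e) (hSA : C.SA X)
    (p : Polynomial ℝ) : negIndex (ph C X hSA p) = ∑ i, negB (blk i) p := by
  apply LD.negIndex
  have h1 := LD.biSup (G := ph C X hSA p) (fun i => Submodule.span K (Set.range (e i)))
    (fun i => negB (blk i) p) (fun i => LD_block C X hSA p (blk i) (e i) (h.gram i) (h.act i))
    (by
      intro i j hij x hx y hy
      rw [ph_f]
      exact h.orth_span hij x hx _ (aeval_inv X _ (h.act j).inv p y hy)) Finset.univ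
  apply h1.congr_le
  rw [eq_top_iff]
  refine h.span.trans ?_
  simp

theorem nondeg1 (C : HForm V) (e : Fin 1 → V) (p : ℍ[ℝ]) (hp : p ≠ 0) (h00 : C.f (e 0) (e 0) = p) :
    ∀ y ∈ Submodule.span K (Set.range e), (∀ a, C.f (e a) y = 0) → y = 0 := by
  intro y hy hy0
  obtain ⟨c, rfl⟩ := mem_span_range e Finset.univ y (by rw [Finset.coe_univ, Set.image_univ]; exact hy)
  have h0 := hy0 0
  rw [C.sum_right, Fin.sum_univ_one, C.smul_right, h00] at h0
  have := (mul_eq_zero.mp h0).resolve_left hp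
  rw [Fin.sum_univ_one, this]; simp

theorem nondeg2 (C : HForm V) (e : Fin 2 → V) (p p' : ℍ[ℝ]) (hp : p ≠ 0) (hp' : p' ≠ 0)
    (h00 : C.f (e 0) (e 0) = 0) (h01 : C.f (e 0) (e 1) = p) (h10 : C.f (e 1) (e 0) = p')
    (h11 : C.f (e 1) (e 1) = 0) :
    ∀ y ∈ Submodule.span K (Set.range e), (∀ a, C.f (e a) y = 0) → y = 0 := by
  intro y hy hy0
  obtain ⟨c, rfl⟩ := mem_span_range e Finset.univ y (by rw [Finset.coe_univ, Set.image_univ]; exact hy)
  have h0 := hy0 0
  have h1 := hy0 1
  rw [C.sum_right, Fin.sum_univ_two, C.smul_right, C.smul_right, h00, h01, zero_mul, zero_add] at h0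
  rw [C.sum_right, Fin.sum_univ_two, C.smul_right, C.smul_right, h10, h11, zero_mul, add_zero] at h1
  have e1 := (mul_eq_zero.mp h0).resolve_left hp
  have e2 := (mul_eq_zero.mp h1).resolve_left hp'
  rw [Fin.sum_univ_two, e1, e2]; simp

theorem nondeg3 (C : HForm V) (e : Fin 3 → V) (p : ℍ[ℝ]) (hp : p ≠ 0)
    (h00 : C.f (e 0) (e 0) = 0) (h01 : C.f (e 0) (e 1) = 0) (h02 : C.f (e 0) (e 2) = p)
    (h10 : C.f (e 1) (e 0) = 0) (h11 : C.f (e 1) (e 1) = p) (h12 : C.f (e 1) (e 2) = 0)
    (h20 : C.f (e 2) (e 0) = p) (h21 : C.f (e 2) (e 1) = 0) (h22 : C.f (e 2) (e 2) = 0) :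
    ∀ y ∈ Submodule.span K (Set.range e), (∀ a, C.f (e a) y = 0) → y = 0 := by
  intro y hy hy0
  obtain ⟨c, rfl⟩ := mem_span_range e Finset.univ y (by rw [Finset.coe_univ, Set.image_univ]; exact hy)
  have h0 := hy0 0
  have h1 := hy0 1
  have h2 := hy0 2
  rw [C.sum_right, Fin.sum_univ_three, C.smul_right, C.smul_right, C.smul_right, h00, h01, h02,
    zero_mul, zero_mul, zero_add, zero_add] at h0
  rw [C.sum_right, Fin.sum_univ_three, C.smul_right, C.smul_right, C.smul_right, h10, h11, h12,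
    zero_mul, zero_mul, zero_add, add_zero] at h1
  rw [C.sum_right, Fin.sum_univ_three, C.smul_right, C.smul_right, C.smul_right, h20, h21, h22,
    zero_mul, zero_mul, add_zero, add_zero] at h2
  have e0 := (mul_eq_zero.mp h0).resolve_left hp
  have e1 := (mul_eq_zero.mp h1).resolve_left hp
  have e2 := (mul_eq_zero.mp h2).resolve_left hp
  rw [Fin.sum_univ_three, e0, e1, e2]; simp

theorem coe_ne_zero {s : ℝ} (hs : s ≠ 0) : (s : ℍ[ℝ]) ≠ 0 := by
  intro h0
  have := congrArg QuaternionAlgebra.re h0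
  simp only [Quaternion.re_coe, Quaternion.re_zero] at this
  exact hs this

/-- each block is nondegenerate -/
theorem block_nondeg (C : HForm V) (X : V →ₗ[K] V) (b : Block) (e : Fin b.size → V)
    (hg : ∀ i j, C.f (e i) (e j) = b.C i j) (ha : BAct X b e) :
    ∀ y ∈ Submodule.span K (Set.range e), (∀ a, C.f (e a) y = 0) → y = 0 := by
  match b, e, hg, ha with
  | .null, e, hg, ha => exact ha.elim
  | .ell, e, hg, ha =>
    refine nondeg2 C (e : Fin 2 → V) 1 1 one_ne_zero one_ne_zero ?_ ?_ ?_ ?_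
    · exact (hg (0 : Fin 2) (0 : Fin 2)).trans (by simp [Block.C])
    · exact (hg (0 : Fin 2) (1 : Fin 2)).trans (by simp [Block.C])
    · exact (hg (1 : Fin 2) (0 : Fin 2)).trans (by simp [Block.C])
    · exact (hg (1 : Fin 2) (1 : Fin 2)).trans (by simp [Block.C])
  | .jordan k s x, e, hg, ha =>
    obtain ⟨hk, hs, hact⟩ := ha
    have hs' := coe_ne_zero hs
    rcases hk with rfl | rfl | rfl
    · refine nondeg1 C (e : Fin 1 → V) _ hs' ?_
      exact (hg (0 : Fin 1) (0 : Fin 1)).trans (by simp [Block.C])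
    · refine nondeg2 C (e : Fin 2 → V) _ _ hs' hs' ?_ ?_ ?_ ?_
      · exact (hg (0 : Fin 2) (0 : Fin 2)).trans (by simp [Block.C])
      · exact (hg (0 : Fin 2) (1 : Fin 2)).trans (by simp [Block.C])
      · exact (hg (1 : Fin 2) (0 : Fin 2)).trans (by simp [Block.C])
      · exact (hg (1 : Fin 2) (1 : Fin 2)).trans (by simp [Block.C])
    · refine nondeg3 C (e : Fin 3 → V) _ hs' ?_ ?_ ?_ ?_ ?_ ?_ ?_ ?_ ?_
      · exact (hg (0 : Fin 3) (0 : Fin 3)).trans (by simp [Block.C])
      · exact (hg (0 : Fin 3) (1 : Fin 3)).trans (by simp [Block.C])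
      · exact (hg (0 : Fin 3) (2 : Fin 3)).trans (by simp [Block.C])
      · exact (hg (1 : Fin 3) (0 : Fin 3)).trans (by simp [Block.C])
      · exact (hg (1 : Fin 3) (1 : Fin 3)).trans (by simp [Block.C])
      · exact (hg (1 : Fin 3) (2 : Fin 3)).trans (by simp [Block.C])
      · exact (hg (2 : Fin 3) (0 : Fin 3)).trans (by simp [Block.C])
      · exact (hg (2 : Fin 3) (1 : Fin 3)).trans (by simp [Block.C])
      · exact (hg (2 : Fin 3) (2 : Fin 3)).trans (by simp [Block.C])

end Pool.Agent.Lib_c77211
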